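import Pool.Agent.GOZ.StmtsC

/-!
Theorem Z, part C: C1a (evenness) and C1b (no bridge).
-/

set_option autoImplicit false
set_option linter.unusedSectionVars false

namespace Pool.GOZ

open Pool.GOD Pool.GOD.MGraph

namespace C1x

variable {V E : Type} [Fintype V] [DecidableEq V] [Fintype E] [DecidableEq E] {G : MGraph V E}
  {X M F D : Finset E} {z : V}

lemma mem_vx {v : V} : v ∈ G.vx X ↔ G.deg X v ≠ 0 := by
  simp [vx]

lemma ends_mem_vx {e : E} (he : e ∈ X) {v : V} (hv : v ∈ G.ends e) : v ∈ G.vx X := by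
  rw [mem_vx]
  exact (G.deg_pos_iff.2 ⟨e, he, hv⟩).ne'

lemma inter_cut_sdiff (P : Finset V) : X ∩ G.cut (G.vx X \ P) = X ∩ G.cut P := by
  ext e
  rw [Finset.mem_inter, Finset.mem_inter]
  refine and_congr_right fun he => ?_
  obtain ⟨a, b, -, hab⟩ := G.exists_ends e
  have ha : a ∈ G.vx X := ends_mem_vx he (by rw [hab]; exact Sym2.mem_mk_left a b)
  have hb : b ∈ G.vx X := ends_mem_vx he (by rw [hab]; exact Sym2.mem_mk_right a b)
  rw [G.mem_cut hab, G.mem_cut hab, Finset.mem_sdiff, Finset.mem_sdiff]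
  tauto

lemma card_inter_cut_singleton (v : V) : (X ∩ G.cut {v}).card = G.deg X v := by
  rw [G.cut_singleton]
  unfold deg
  congr 1
  ext e
  rw [Finset.mem_inter, mem_star, Finset.mem_filter]

/-- no bridge whose side `R` has no marked edge inside -/
lemma side (h : G.Core X M F D z) {R : Finset V} (hR : R ⊆ G.vx X)
    {g : E} (hg : X ∩ G.cut R = {g}) (hF : ∀ e ∈ F, ∃ v ∈ G.ends e, v ∉ R) : False := by
  have h1 : (X ∩ G.cut R).card = 1 := by rw [hg, Finset.card_singleton]
  by_cases hc : 2 ≤ R.card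
  · have h2 := h.c4 R hR hc
    have h3 : G.ins F R = ∅ := by
      rw [Finset.eq_empty_iff_forall_notMem]
      intro e he
      rw [ins, Finset.mem_filter] at he
      obtain ⟨v, hv, hvR⟩ := hF e he.1
      exact hvR (he.2 v hv)
    rw [h3, Finset.card_empty, h1] at h2
    split_ifs at h2 <;> omega
  · have h4 : R.card = 0 ∨ R.card = 1 := by omega
    rcases h4 with h4 | h4
    · rw [Finset.card_eq_zero] at h4
      rw [h4, cut_empty, Finset.inter_empty] at hg
      exact absurd hg.symm (Finset.singleton_ne_empty g)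
    · obtain ⟨v, rfl⟩ := Finset.card_eq_one.1 h4
      rw [card_inter_cut_singleton] at h1
      by_cases hv : v = z
      · rw [hv, h.degz] at h1
        omega
      · rcases h.deg v hv with h5 | h5
        · omega
        · omega

end C1x

open C1x

theorem t_C1a : S_C1a := by
  intro V E _ _ _ _ G X M F D z h P hP hz
  have h1 := G.sum_deg (X \ M) P
  have h2 : ∀ v ∈ P, G.deg (X \ M) v = 2 := by
    intro v hv
    have hvz : v ≠ z := fun hvz => hz (hvz ▸ hv)
    have h3 := G.deg_sdiff h.msub v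
    have h4 := mem_vx.1 (hP hv)
    rcases h.deg v hvz with h5 | h5
    · exact absurd h5 h4
    · omega
  rw [Finset.sum_congr rfl h2, Finset.sum_const, smul_eq_mul] at h1
  rw [Nat.even_iff]
  omega

theorem t_C1b : S_C1b := by
  intro V E _ _ _ _ G X M F D z h P g hP hg
  have hDe : Even (D ∩ G.cut P).card := h.dac.circ.isEven.card_inter_cut G P
  have hsub : D ∩ G.cut P ⊆ {g} := by
    rw [← hg]
    exact Finset.inter_subset_inter_right h.dsub
  have hle := Finset.card_le_card hsub
  rw [Finset.card_singleton] at hle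
  have hD0 : D ∩ G.cut P = ∅ := by
    rw [← Finset.card_eq_zero]
    rw [Nat.even_iff] at hDe
    omega
  have hFD : F ⊆ D := h.m1 D h.dsub h.dac h.dz
  have hnc : ∀ e ∈ D, e ∉ G.cut P := by
    intro e he hc
    have : e ∈ D ∩ G.cut P := Finset.mem_inter.2 ⟨he, hc⟩
    rw [hD0] at this
    exact absurd this (Finset.notMem_empty e)
  have hdeg2 : ∀ e ∈ D, ∀ v ∈ G.ends e, G.deg D v = 2 := by
    intro e he v hv
    rcases h.dac.circ.2.1 v with h0 | h0
    · exact absurd h0 (G.deg_pos_iff.2 ⟨e, he, hv⟩).ne'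
    · exact h0
  -- the circuit lives on one side
  by_cases hin : ∃ e ∈ D, ∃ v ∈ G.ends e, v ∈ P
  · obtain ⟨e, he, v, hv, hvP⟩ := hin
    refine side h (R := G.vx X \ P) Finset.sdiff_subset (g := g) ?_ ?_
    · rw [inter_cut_sdiff]
      exact hg
    · intro f hf
      obtain ⟨a, b, -, hab⟩ := G.exists_ends f
      have ha : a ∈ G.ends f := by rw [hab]; exact Sym2.mem_mk_left a b
      refine ⟨a, ha, fun haR => ?_⟩
      rw [Finset.mem_sdiff] at haR
      have hconn := h.dac.circ.2.2 v a (hdeg2 e he v hv) (hdeg2 f (hFD hf) a ha)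
      obtain ⟨e', he', hc'⟩ := G.exists_cut_of_connIn hconn hvP haR.2
      exact hnc e' he' hc'
  · push Not at hin
    refine side h hP hg ?_
    intro f hf
    obtain ⟨a, b, -, hab⟩ := G.exists_ends f
    have ha : a ∈ G.ends f := by rw [hab]; exact Sym2.mem_mk_left a b
    exact ⟨a, ha, hin f (hFD hf) a ha⟩

end Pool.GOZ
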