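import Pool.Agent.GOZ.StmtsC

/-!
Theorem Z, part C: C1c (the deficit lemma).
-/

set_option autoImplicit false
set_option linter.unusedSectionVars false

namespace Pool.GOZ

open Pool.GOD Pool.GOD.MGraph

namespace C1cx

variable {V E : Type} [Fintype V] [DecidableEq V] [Fintype E] [DecidableEq E] {G : MGraph V E}
  {X M F D : Finset E} {z : V}

lemma mem_ins {X : Finset E} {P : Finset V} {e : E} :
    e ∈ G.ins X P ↔ e ∈ X ∧ ∀ v ∈ G.ends e, v ∈ P := by
  simp [ins]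

/-- one of the two parts: only the edge `e` leaves it, if no edge of weight 1 leaves it -/
lemma part (h1b : S_C1b) (h : G.Core X M F D z) {T A : Finset V} (hT : T ⊆ G.vx X) (hA : A ⊆ T)
    {e : E} (heX : e ∈ X) (heA : e ∈ G.cut A)
    (hcl : ∀ g ∈ M, g ∈ G.cut A → g = e) (h0 : ((X \ M) ∩ G.cut A).card = 0) : False := by
  refine h1b V E G X M F D z h A e (hA.trans hT) ?_
  ext f
  rw [Finset.mem_inter, Finset.mem_singleton]
  constructor
  · rintro ⟨hfX, hfA⟩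
    by_cases hfM : f ∈ M
    · exact hcl f hfM hfA
    · exfalso
      rw [Finset.card_eq_zero] at h0
      have : f ∈ (X \ M) ∩ G.cut A :=
        Finset.mem_inter.2 ⟨Finset.mem_sdiff.2 ⟨hfX, hfM⟩, hfA⟩
      rw [h0] at this
      exact absurd this (Finset.notMem_empty f)
  · rintro rfl
    exact ⟨heX, heA⟩

end C1cx

open C1cx

theorem t_C1c (h1a : S_C1a) (h1b : S_C1b) : S_C1c := by
  intro V E _ _ _ _ G X M F D z h T hT hz hcl hle hno
  by_contra hne
  have hTne : T.Nonempty := Finset.nonempty_iff_ne_empty.2 hne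
  have hvz : ∀ v ∈ T, v ≠ z := fun v hv hvz => hz (hvz ▸ hv)
  have hdM : ∀ v ∈ T, G.deg M v = 1 := by
    intro v hv
    have h4 : G.deg X v ≠ 0 := by
      have := hT hv
      simpa [vx] using this
    rcases h.deg v (hvz v hv) with h5 | h5
    · exact absurd h5 h4
    · exact h5.2
  -- the matching inside `T`
  have hNs : ∀ g ∈ M, (∃ v ∈ G.ends g, v ∈ T) → g ∈ G.ins M T := by
    intro g hg hv
    exact mem_ins.2 ⟨hg, hcl g hg hv⟩
  have hNd : ∀ v ∈ T, G.deg (G.ins M T) v = 1 := by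
    intro v hv
    rw [← hdM v hv]
    unfold deg
    congr 1
    ext g
    rw [Finset.mem_filter, Finset.mem_filter]
    constructor
    · rintro ⟨h1, h2⟩
      exact ⟨(mem_ins.1 h1).1, h2⟩
    · rintro ⟨h1, h2⟩
      exact ⟨hNs g h1 ⟨v, h2, hv⟩, h2⟩
  have hNY : G.ins M T ⊆ G.ins X T := by
    intro g hg
    rw [mem_ins] at hg ⊢
    exact ⟨h.msub hg.1, hg.2⟩
  have hYne : (G.ins X T).Nonempty := by
    obtain ⟨v, hv⟩ := hTne
    have h1 : 0 < G.deg (G.ins M T) v := by rw [hNd v hv]; exact one_pos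
    obtain ⟨g, hg, -⟩ := G.deg_pos_iff.1 h1
    exact ⟨g, hNY hg⟩
  have hYT : ∀ v, G.deg (G.ins X T) v ≠ 0 → v ∈ T := by
    intro v hv
    obtain ⟨e, he, hve⟩ := G.deg_pos_iff.1 (Nat.pos_of_ne_zero hv)
    exact (mem_ins.1 he).2 v hve
  obtain ⟨e, heN, hbr⟩ := t_Kotzig V E G (G.ins X T) (G.ins M T) hNY hYne
    (fun v hv => hNd v (hYT v hv)) (by
      intro D' hD' hc
      by_contra hcon
      push Not at hcon
      refine hno D' hD' ⟨hc, fun v hv => ?_⟩
      have h1 := hcon v hv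
      have h2 : D' ∩ G.ins M T = D' ∩ M := by
        ext g
        rw [Finset.mem_inter, Finset.mem_inter, mem_ins]
        constructor
        · rintro ⟨h3, h4⟩
          exact ⟨h3, h4.1⟩
        · rintro ⟨h3, h4⟩
          exact ⟨h3, h4, (mem_ins.1 (hD' h3)).2⟩
      rw [h2] at h1
      exact h1)
  obtain ⟨S, hS⟩ := G.isBridge_iff.1 hbr
  have heM : e ∈ M := (mem_ins.1 heN).1
  have heX : e ∈ X := h.msub heM
  have heT : ∀ v ∈ G.ends e, v ∈ T := (mem_ins.1 heN).2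
  have heS : e ∈ G.cut S := by
    have : e ∈ G.ins X T ∩ G.cut S := by rw [hS]; exact Finset.mem_singleton_self e
    exact (Finset.mem_inter.1 this).2
  -- edges inside `T` in the cut of `S`
  have hin : ∀ f ∈ X, (∀ v ∈ G.ends f, v ∈ T) → f ∈ G.cut S → f = e := by
    intro f hf hfT hfS
    have : f ∈ G.ins X T ∩ G.cut S := Finset.mem_inter.2 ⟨mem_ins.2 ⟨hf, hfT⟩, hfS⟩
    rw [hS, Finset.mem_singleton] at this
    exact this
  have hall : ∀ {f : E} {a b : V}, G.ends f = s(a, b) → a ∈ T → b ∈ T → ∀ v ∈ G.ends f, v ∈ T := by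
    intro f a b hab ha hb v hv
    rw [hab, Sym2.mem_iff] at hv
    rcases hv with rfl | rfl
    · exact ha
    · exact hb
  -- an edge with one end in `T ∩ S` and the other in `T \ S`
  have hmix : ∀ {f : E} {a b : V}, f ∈ X → G.ends f = s(a, b) → a ∈ T → b ∈ T → a ∈ S → b ∉ S →
      f = e := by
    intro f a b hf hab ha hb haS hbS
    exact hin f hf (hall hab ha hb) ((G.mem_cut hab).2 (Or.inl ⟨haS, hbS⟩))
  have hcut1 : ∀ f ∈ X, f ≠ e → f ∈ G.cut (T ∩ S) → f ∈ G.cut T := by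
    intro f hf hfe hfc
    obtain ⟨a, b, -, hab⟩ := G.exists_ends f
    rw [G.mem_cut hab, Finset.mem_inter, Finset.mem_inter] at hfc
    rw [G.mem_cut hab]
    rcases hfc with ⟨⟨h1, h2⟩, h3⟩ | ⟨⟨h1, h2⟩, h3⟩
    · refine Or.inl ⟨h1, fun hb => hfe ?_⟩
      exact hmix hf hab h1 hb h2 (fun hbS => h3 ⟨hb, hbS⟩)
    · refine Or.inr ⟨h1, fun ha => hfe ?_⟩
      exact hmix hf (hab.trans Sym2.eq_swap) h1 ha h2 (fun haS => h3 ⟨ha, haS⟩)
  have hcut2 : ∀ f ∈ X, f ≠ e → f ∈ G.cut (T \ S) → f ∈ G.cut T := by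
    intro f hf hfe hfc
    obtain ⟨a, b, -, hab⟩ := G.exists_ends f
    rw [G.mem_cut hab, Finset.mem_sdiff, Finset.mem_sdiff] at hfc
    rw [G.mem_cut hab]
    rcases hfc with ⟨⟨h1, h2⟩, h3⟩ | ⟨⟨h1, h2⟩, h3⟩
    · refine Or.inl ⟨h1, fun hb => hfe ?_⟩
      have hbS : b ∈ S := by
        by_contra hbS
        exact h3 ⟨hb, hbS⟩
      exact hmix hf (hab.trans Sym2.eq_swap) hb h1 hbS h2
    · refine Or.inr ⟨h1, fun ha => hfe ?_⟩
      have haS : a ∈ S := by
        by_contra haS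
        exact h3 ⟨ha, haS⟩
      exact hmix hf hab ha h1 haS h2
  have hne' : ∀ f ∈ X \ M, f ≠ e := by
    rintro f hf rfl
    exact (Finset.mem_sdiff.1 hf).2 heM
  have hdis : Disjoint ((X \ M) ∩ G.cut (T ∩ S)) ((X \ M) ∩ G.cut (T \ S)) := by
    rw [Finset.disjoint_left]
    intro f hf1 hf2
    rw [Finset.mem_inter] at hf1 hf2
    have hfX : f ∈ X := (Finset.mem_sdiff.1 hf1.1).1
    refine hne' f hf1.1 ?_
    obtain ⟨a, b, -, hab⟩ := G.exists_ends f
    have h1 := hf1.2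
    have h2 := hf2.2
    rw [G.mem_cut hab, Finset.mem_inter, Finset.mem_inter] at h1
    rw [G.mem_cut hab, Finset.mem_sdiff, Finset.mem_sdiff] at h2
    rcases h1 with ⟨⟨h3, h4⟩, h5⟩ | ⟨⟨h3, h4⟩, h5⟩
    · rcases h2 with ⟨⟨h6, h7⟩, -⟩ | ⟨⟨h6, h7⟩, -⟩
      · exact absurd h4 h7
      · exact hmix hfX hab h3 h6 h4 h7
    · rcases h2 with ⟨⟨h6, h7⟩, -⟩ | ⟨⟨h6, h7⟩, -⟩
      · exact hmix hfX (hab.trans Sym2.eq_swap) h3 h6 h4 h7
      · exact absurd h4 h7
  have hsum : ((X \ M) ∩ G.cut (T ∩ S)).card + ((X \ M) ∩ G.cut (T \ S)).card ≤ 2 := by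
    rw [← Finset.card_union_of_disjoint hdis]
    refine le_trans (Finset.card_le_card ?_) hle
    intro f hf
    rw [Finset.mem_union, Finset.mem_inter, Finset.mem_inter] at hf
    rcases hf with ⟨h1, h2⟩ | ⟨h1, h2⟩
    · exact Finset.mem_inter.2 ⟨h1, hcut1 f (Finset.mem_sdiff.1 h1).1 (hne' f h1) h2⟩
    · exact Finset.mem_inter.2 ⟨h1, hcut2 f (Finset.mem_sdiff.1 h1).1 (hne' f h1) h2⟩
  have hev1 := h1a V E G X M F D z h (T ∩ S) (Finset.inter_subset_left.trans hT)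
    (fun hh => hz (Finset.mem_inter.1 hh).1)
  have hev2 := h1a V E G X M F D z h (T \ S) (Finset.sdiff_subset.trans hT)
    (fun hh => hz (Finset.mem_sdiff.1 hh).1)
  -- no matching edge leaves `T`
  have hMT : ∀ g ∈ M, g ∉ G.cut T := by
    intro g hg hgc
    obtain ⟨a, b, -, hab⟩ := G.exists_ends g
    rw [G.mem_cut hab] at hgc
    rcases hgc with ⟨h1, h2⟩ | ⟨h1, h2⟩
    · exact h2 (hcl g hg ⟨a, by rw [hab]; exact Sym2.mem_mk_left a b, h1⟩ b
        (by rw [hab]; exact Sym2.mem_mk_right a b))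
    · exact h2 (hcl g hg ⟨b, by rw [hab]; exact Sym2.mem_mk_right a b, h1⟩ a
        (by rw [hab]; exact Sym2.mem_mk_left a b))
  have he1 : e ∈ G.cut (T ∩ S) := by
    obtain ⟨a, b, -, hab⟩ := G.exists_ends e
    have ha := heT a (by rw [hab]; exact Sym2.mem_mk_left a b)
    have hb := heT b (by rw [hab]; exact Sym2.mem_mk_right a b)
    rw [G.mem_cut hab] at heS
    rw [G.mem_cut hab, Finset.mem_inter, Finset.mem_inter]
    tauto
  have he2 : e ∈ G.cut (T \ S) := by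
    obtain ⟨a, b, -, hab⟩ := G.exists_ends e
    have ha := heT a (by rw [hab]; exact Sym2.mem_mk_left a b)
    have hb := heT b (by rw [hab]; exact Sym2.mem_mk_right a b)
    rw [G.mem_cut hab] at heS
    rw [G.mem_cut hab, Finset.mem_sdiff, Finset.mem_sdiff]
    tauto
  rw [Nat.even_iff] at hev1 hev2
  have hcase : ((X \ M) ∩ G.cut (T ∩ S)).card = 0 ∨ ((X \ M) ∩ G.cut (T \ S)).card = 0 := by
    omega
  rcases hcase with h0 | h0
  · refine part h1b h hT Finset.inter_subset_left heX he1 (fun g hg hgc => ?_) h0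
    by_contra hge
    exact hMT g hg (hcut1 g (h.msub hg) hge hgc)
  · refine part h1b h hT Finset.sdiff_subset heX he2 (fun g hg hgc => ?_) h0
    by_contra hge
    exact hMT g hg (hcut2 g (h.msub hg) hge hgc)

end Pool.GOZ
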