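import Pool.Agent.GOZ.StmtsC

/-!
Theorem Z, part C: C2 (the cut of a marked edge).
-/

set_option autoImplicit false
set_option linter.unusedSectionVars false

namespace Pool.GOZ

open Pool.GOD Pool.GOD.MGraph

namespace C2x

variable {V E : Type} [Fintype V] [DecidableEq V] [Fintype E] [DecidableEq E] {G : MGraph V E}
  {X M F D : Finset E} {z : V}

lemma mem_vx {v : V} : v ∈ G.vx X ↔ G.deg X v ≠ 0 := by
  simp [vx]

lemma ends_mem_vx {e : E} (he : e ∈ X) {v : V} (hv : v ∈ G.ends e) : v ∈ G.vx X := by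
  rw [mem_vx]
  exact (G.deg_pos_iff.2 ⟨e, he, hv⟩).ne'

lemma cut_congr {P Q : Finset V} {e : E} (h : ∀ v ∈ G.ends e, (v ∈ P ↔ v ∈ Q)) :
    e ∈ G.cut P ↔ e ∈ G.cut Q := by
  obtain ⟨a, b, -, hab⟩ := G.exists_ends e
  have ha := h a (by rw [hab]; exact Sym2.mem_mk_left a b)
  have hb := h b (by rw [hab]; exact Sym2.mem_mk_right a b)
  rw [G.mem_cut hab, G.mem_cut hab, ha, hb]

lemma cut_anti {P Q : Finset V} {e : E} (h : ∀ v ∈ G.ends e, (v ∈ P ↔ v ∉ Q)) :
    e ∈ G.cut P ↔ e ∈ G.cut Q := by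
  obtain ⟨a, b, -, hab⟩ := G.exists_ends e
  have ha := h a (by rw [hab]; exact Sym2.mem_mk_left a b)
  have hb := h b (by rw [hab]; exact Sym2.mem_mk_right a b)
  rw [G.mem_cut hab, G.mem_cut hab, ha, hb]
  tauto

/-- an edge at `z` -/
lemma cut_at {P : Finset V} {e : E} {w : V} (he : G.ends e = s(z, w)) (hz : z ∉ P) :
    e ∈ G.cut P ↔ w ∈ P := by
  rw [G.mem_cut he]
  tauto

lemma other {e : E} (he : z ∈ G.ends e) : ∃ w, w ≠ z ∧ G.ends e = s(z, w) := by
  obtain ⟨a, b, hne, hab⟩ := G.exists_ends e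
  rw [hab, Sym2.mem_iff] at he
  rcases he with rfl | rfl
  · exact ⟨b, fun h => hne h.symm, hab⟩
  · exact ⟨a, hne, hab.trans Sym2.eq_swap⟩

lemma two_at (h : G.Core X M F D z) {f : E} (hf : f ∈ X) (hz : z ∈ G.ends f) :
    ∃ f', f' ∈ X ∧ z ∈ G.ends f' ∧ f' ≠ f ∧ ∀ x ∈ X, z ∈ G.ends x → x = f ∨ x = f' := by
  have h1 : (X.filter (fun e => z ∈ G.ends e)).card = 2 := h.degz
  have hf1 : f ∈ X.filter (fun e => z ∈ G.ends e) := Finset.mem_filter.2 ⟨hf, hz⟩
  obtain ⟨a, b, hne, hab⟩ := Finset.card_eq_two.1 h1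
  have hm : ∀ x, (x ∈ X ∧ z ∈ G.ends x) ↔ (x = a ∨ x = b) := by
    intro x
    rw [← Finset.mem_filter (s := X) (p := fun e => z ∈ G.ends e), hab, Finset.mem_insert,
      Finset.mem_singleton]
  rcases (hm f).1 ⟨hf, hz⟩ with rfl | rfl
  · have hb := (hm b).2 (Or.inr rfl)
    exact ⟨b, hb.1, hb.2, fun h => hne h.symm, fun x hx hzx => (hm x).1 ⟨hx, hzx⟩⟩
  · have ha := (hm a).2 (Or.inl rfl)
    exact ⟨a, ha.1, ha.2, hne, fun x hx hzx => ((hm x).1 ⟨hx, hzx⟩).symm⟩

end C2x

open C2x

theorem t_C2 (h1a : S_C1a) (h1b : S_C1b) : S_C2 := by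
  intro V E _ _ _ _ G X M F D z h t ht f hf hzf
  have hFD : F ⊆ D := h.m1 D h.dsub h.dac h.dz
  have hztD : ∀ e ∈ D, z ∉ G.ends e := by
    intro e he hze
    exact absurd h.dz (G.deg_pos_iff.2 ⟨e, he, hze⟩).ne'
  have hzt : z ∉ G.ends t := hztD t (hFD ht)
  have htX : t ∈ X := (Finset.mem_sdiff.1 (h.fsub ht)).1
  have htM : t ∉ M := (Finset.mem_sdiff.1 (h.fsub ht)).2
  have hzM : ∀ g ∈ M, z ∉ G.ends g := by
    intro g hg hzg
    exact absurd h.degmz (G.deg_pos_iff.2 ⟨g, hg, hzg⟩).ne'
  have htf : t ≠ f := by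
    rintro rfl
    exact hzt hzf
  obtain ⟨f', hf', hzf', hff', hall⟩ := two_at h hf hzf
  have htf' : t ≠ f' := by
    rintro rfl
    exact hzt hzf'
  have hfM : f ∉ M := fun hh => hzM f hh hzf
  have hfM' : f' ∉ M := fun hh => hzM f' hh hzf'
  -- the edge set without the star of `z` and without `t`
  set Y : Finset E := X.filter (fun e => z ∉ G.ends e ∧ e ≠ t) with hY
  have hmY : ∀ {e : E}, e ∈ Y ↔ e ∈ X ∧ z ∉ G.ends e ∧ e ≠ t := by
    intro e
    rw [hY, Finset.mem_filter]
  have hMY : M ⊆ Y := by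
    intro g hg
    refine hmY.2 ⟨h.msub hg, hzM g hg, ?_⟩
    rintro rfl
    exact htM hg
  have hdM : ∀ v, v ≠ z → G.deg X v ≠ 0 → G.deg M v = 1 := by
    intro v hv h0
    rcases h.deg v hv with h1 | h1
    · exact absurd h1 h0
    · exact h1.2
  have hYne : Y.Nonempty := by
    obtain ⟨a, b, -, hab⟩ := G.exists_ends t
    have haz : a ≠ z := by
      rintro rfl
      exact hzt (by rw [hab]; exact Sym2.mem_mk_left a b)
    have h1 := hdM a haz (G.deg_pos_iff.2 ⟨t, htX, by rw [hab]; exact Sym2.mem_mk_left a b⟩).ne'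
    have h2 : 0 < G.deg M a := by rw [h1]; exact one_pos
    obtain ⟨g, hg, -⟩ := G.deg_pos_iff.1 h2
    exact ⟨g, hMY hg⟩
  obtain ⟨g, hgM, hbr⟩ := t_Kotzig V E G Y M hMY hYne (by
      intro v hv
      obtain ⟨e, he, hve⟩ := G.deg_pos_iff.1 (Nat.pos_of_ne_zero hv)
      have he' := hmY.1 he
      refine hdM v ?_ (G.deg_pos_iff.2 ⟨e, he'.1, hve⟩).ne'
      rintro rfl
      exact he'.2.1 hve) (by
      intro D' hD' hc
      by_contra hcon
      push Not at hcon
      have hD'X : D' ⊆ X := fun e he => (hmY.1 (hD' he)).1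
      have hz0 : G.deg D' z = 0 := by
        by_contra h0
        obtain ⟨e, he, hze⟩ := G.deg_pos_iff.1 (Nat.pos_of_ne_zero h0)
        exact (hmY.1 (hD' he)).2.1 hze
      have h1 := h.m1 D' hD'X ⟨hc, hcon⟩ hz0 ht
      exact (hmY.1 (hD' h1)).2.2 rfl)
  obtain ⟨S, hS⟩ := G.isBridge_iff.1 hbr
  have hgX : g ∈ X := h.msub hgM
  have hgS : g ∈ G.cut S := by
    have : g ∈ Y ∩ G.cut S := by rw [hS]; exact Finset.mem_singleton_self g
    exact (Finset.mem_inter.1 this).2
  have hSg : ∀ e ∈ Y, e ∈ G.cut S → e = g := by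
    intro e he hc
    have : e ∈ Y ∩ G.cut S := Finset.mem_inter.2 ⟨he, hc⟩
    rw [hS, Finset.mem_singleton] at this
    exact this
  have hgt : g ≠ t := by rintro rfl; exact htM hgM
  have hgf : g ≠ f := by rintro rfl; exact hfM hgM
  have hgf' : g ≠ f' := by rintro rfl; exact hfM' hgM
  set P : Finset V := (G.vx X).filter (fun v => v ∈ S ∧ v ≠ z) with hP
  have hmP : ∀ {v : V}, v ∈ P ↔ v ∈ G.vx X ∧ v ∈ S ∧ v ≠ z := by
    intro v
    rw [hP, Finset.mem_filter]
  have hzP : z ∉ P := fun hh => (hmP.1 hh).2.2 rfl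
  have hPX : P ⊆ G.vx X := fun v hv => (hmP.1 hv).1
  -- away from `z` the cuts of `P` and `S` agree
  have hPS : ∀ e ∈ X, z ∉ G.ends e → (e ∈ G.cut P ↔ e ∈ G.cut S) := by
    intro e he hze
    refine cut_congr fun v hv => ?_
    rw [hmP]
    constructor
    · exact fun hh => hh.2.1
    · intro hh
      refine ⟨ends_mem_vx he hv, hh, ?_⟩
      rintro rfl
      exact hze hv
  have hgP : g ∈ G.cut P := (hPS g hgX (hzM g hgM)).2 hgS
  have hfour : ∀ e ∈ X, e ∈ G.cut P → e = g ∨ e = t ∨ e = f ∨ e = f' := by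
    intro e he hc
    by_cases hze : z ∈ G.ends e
    · rcases hall e he hze with h1 | h1
      · exact Or.inr (Or.inr (Or.inl h1))
      · exact Or.inr (Or.inr (Or.inr h1))
    · by_cases het : e = t
      · exact Or.inr (Or.inl het)
      · exact Or.inl (hSg e (hmY.2 ⟨he, hze, het⟩) ((hPS e he hze).1 hc))
  -- parity
  have hev := h1a V E G X M F D z h P hPX hzP
  have hset : (X \ M) ∩ G.cut P = ({t, f, f'} : Finset E).filter (fun e => e ∈ G.cut P) := by
    ext e
    simp only [Finset.mem_inter, Finset.mem_sdiff, Finset.mem_filter, Finset.mem_insert,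
      Finset.mem_singleton]
    constructor
    · rintro ⟨⟨he, heM⟩, hc⟩
      refine ⟨?_, hc⟩
      rcases hfour e he hc with h1 | h1
      · exact absurd hgM (h1 ▸ heM)
      · exact h1
    · rintro ⟨h1 | h1 | h1, hc⟩
      · subst h1; exact ⟨⟨htX, htM⟩, hc⟩
      · subst h1; exact ⟨⟨hf, hfM⟩, hc⟩
      · subst h1; exact ⟨⟨hf', hfM'⟩, hc⟩
  rw [hset] at hev
  have hcard : (({t, f, f'} : Finset E).filter (fun e => e ∈ G.cut P)).card =
      (if t ∈ G.cut P then 1 else 0) + ((if f ∈ G.cut P then 1 else 0) +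
        (if f' ∈ G.cut P then 1 else 0)) := by
    rw [Finset.card_filter, Finset.sum_insert, Finset.sum_insert, Finset.sum_singleton]
    · rw [Finset.mem_singleton]
      exact fun hh => hff' hh.symm
    · rw [Finset.mem_insert, Finset.mem_singleton]
      rintro (hh | hh)
      · exact htf hh
      · exact htf' hh
  rw [hcard] at hev
  obtain ⟨w, hwz, hw⟩ := other hzf
  obtain ⟨w', hwz', hw'⟩ := other hzf'
  have hwX : w ∈ G.vx X := ends_mem_vx hf (by rw [hw]; exact Sym2.mem_mk_right z w)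
  have hwX' : w' ∈ G.vx X := ends_mem_vx hf' (by rw [hw']; exact Sym2.mem_mk_right z w')
  by_cases ht1 : t ∈ G.cut P
  · by_cases hf1 : f ∈ G.cut P
    · -- `{t, f}`
      have hf1' : f' ∉ G.cut P := by
        intro hh
        rw [if_pos ht1, if_pos hf1, if_pos hh] at hev
        exact absurd hev (by decide)
      refine ⟨P, g, hPX, hzP, hgM, ?_, htf⟩
      ext e
      rw [Finset.mem_inter, Finset.mem_insert, Finset.mem_insert, Finset.mem_singleton]
      constructor
      · rintro ⟨he, hc⟩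
        rcases hfour e he hc with h1 | h1 | h1 | h1
        · exact Or.inr (Or.inr h1)
        · exact Or.inr (Or.inl h1)
        · exact Or.inl h1
        · exact absurd hc (h1 ▸ hf1')
      · rintro (h1 | h1 | h1)
        · subst h1; exact ⟨hf, hf1⟩
        · subst h1; exact ⟨htX, ht1⟩
        · subst h1; exact ⟨hgX, hgP⟩
    · -- `{t, f'}`
      have hf1' : f' ∈ G.cut P := by
        by_contra hh
        rw [if_pos ht1, if_neg hf1, if_neg hh] at hev
        exact absurd hev (by decide)
      set Q : Finset V := (G.vx X).filter (fun v => v ≠ z ∧ v ∉ P) with hQ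
      have hmQ : ∀ {v : V}, v ∈ Q ↔ v ∈ G.vx X ∧ v ≠ z ∧ v ∉ P := by
        intro v
        rw [hQ, Finset.mem_filter]
      have hzQ : z ∉ Q := fun hh => (hmQ.1 hh).2.1 rfl
      have hQX : Q ⊆ G.vx X := fun v hv => (hmQ.1 hv).1
      have hQP : ∀ e ∈ X, z ∉ G.ends e → (e ∈ G.cut Q ↔ e ∈ G.cut P) := by
        intro e he hze
        refine cut_anti fun v hv => ?_
        rw [hmQ]
        constructor
        · exact fun hh => hh.2.2
        · intro hh
          refine ⟨ends_mem_vx he hv, ?_, hh⟩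
          rintro rfl
          exact hze hv
      have hfQ : f ∈ G.cut Q := by
        rw [cut_at hw hzQ, hmQ]
        refine ⟨hwX, hwz, fun hh => hf1 ?_⟩
        rw [cut_at hw hzP]
        exact hh
      have hfQ' : f' ∉ G.cut Q := by
        rw [cut_at hw' hzQ, hmQ]
        rintro ⟨-, -, hh⟩
        rw [cut_at hw' hzP] at hf1'
        exact hh hf1'
      refine ⟨Q, g, hQX, hzQ, hgM, ?_, htf⟩
      ext e
      rw [Finset.mem_inter, Finset.mem_insert, Finset.mem_insert, Finset.mem_singleton]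
      constructor
      · rintro ⟨he, hc⟩
        by_cases hze : z ∈ G.ends e
        · rcases hall e he hze with h1 | h1
          · exact Or.inl h1
          · exact absurd hc (h1 ▸ hfQ')
        · rcases hfour e he ((hQP e he hze).1 hc) with h1 | h1 | h1 | h1
          · exact Or.inr (Or.inr h1)
          · exact Or.inr (Or.inl h1)
          · exact Or.inl h1
          · exact absurd hzf' (h1 ▸ hze)
      · rintro (h1 | h1 | h1)
        · subst h1; exact ⟨hf, hfQ⟩
        · subst h1; exact ⟨htX, (hQP _ htX hzt).2 ht1⟩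
        · subst h1; exact ⟨hgX, (hQP _ hgX (hzM _ hgM)).2 hgP⟩
  · exfalso
    by_cases hf1 : f ∈ G.cut P
    · -- `{f, f'}`
      have hf1' : f' ∈ G.cut P := by
        by_contra hh
        rw [if_neg ht1, if_pos hf1, if_neg hh] at hev
        exact absurd hev (by decide)
      refine h1b V E G X M F D z h (insert z P) g ?_ ?_
      · intro v hv
        rw [Finset.mem_insert] at hv
        rcases hv with rfl | hv
        · rw [mem_vx, h.degz]
          exact two_ne_zero
        · exact hPX hv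
      · have hQP : ∀ e ∈ X, z ∉ G.ends e → (e ∈ G.cut (insert z P) ↔ e ∈ G.cut P) := by
          intro e he hze
          refine cut_congr fun v hv => ?_
          rw [Finset.mem_insert]
          constructor
          · rintro (rfl | hh)
            · exact absurd hv hze
            · exact hh
          · exact Or.inr
        have hno : ∀ {e : E} {u : V}, G.ends e = s(z, u) → e ∈ G.cut P →
            e ∉ G.cut (insert z P) := by
          intro e u hu hc
          rw [cut_at hu hzP] at hc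
          rw [G.mem_cut hu, Finset.mem_insert, Finset.mem_insert]
          tauto
        ext e
        rw [Finset.mem_inter, Finset.mem_singleton]
        constructor
        · rintro ⟨he, hc⟩
          by_cases hze : z ∈ G.ends e
          · rcases hall e he hze with h1 | h1
            · subst h1; exact absurd hc (hno hw hf1)
            · subst h1; exact absurd hc (hno hw' hf1')
          · have hc' := (hQP e he hze).1 hc
            rcases hfour e he hc' with h1 | h1 | h1 | h1
            · exact h1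
            · exact absurd hc' (h1 ▸ ht1)
            · exact absurd hzf (h1 ▸ hze)
            · exact absurd hzf' (h1 ▸ hze)
        · rintro rfl
          exact ⟨hgX, (hQP _ hgX (hzM _ hgM)).2 hgP⟩
    · have hf1' : f' ∉ G.cut P := by
        intro hh
        rw [if_neg ht1, if_neg hf1, if_pos hh] at hev
        exact absurd hev (by decide)
      refine h1b V E G X M F D z h P g hPX ?_
      ext e
      rw [Finset.mem_inter, Finset.mem_singleton]
      constructor
      · rintro ⟨he, hc⟩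
        rcases hfour e he hc with h1 | h1 | h1 | h1
        · exact h1
        · exact absurd hc (h1 ▸ ht1)
        · exact absurd hc (h1 ▸ hf1)
        · exact absurd hc (h1 ▸ hf1')
      · rintro rfl
        exact ⟨hgX, hgP⟩

end Pool.GOZ
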