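import Pool.Agent.GOZ.StmtsC

/-!
Theorem Z, part C, module C3: the peeling step.
-/

set_option autoImplicit false
set_option linter.unusedSectionVars false

namespace Pool.GOZ

open Pool.GOD Pool.GOD.MGraph

namespace C3X

variable {V E : Type} [Fintype V] [DecidableEq V] [Fintype E] [DecidableEq E] {G : MGraph V E}

lemma cut_ex {S : Finset V} {h : E} (hh : h ∈ G.cut S) :
    ∃ p q, G.ends h = s(p, q) ∧ p ∈ S ∧ q ∉ S := by
  obtain ⟨a, b, -, hab⟩ := G.exists_ends h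
  rcases (G.mem_cut hab).mp hh with ⟨h1, h2⟩ | ⟨h1, h2⟩
  · exact ⟨a, b, hab, h1, h2⟩
  · exact ⟨b, a, by rw [hab, Sym2.eq_swap], h1, h2⟩

lemma in_cut {S : Finset V} {h : E} {p q : V} (hh : G.ends h = s(p, q)) (hp : p ∈ S)
    (hq : q ∉ S) : h ∈ G.cut S := (G.mem_cut hh).mpr (Or.inl ⟨hp, hq⟩)

lemma left_mem {h : E} {p q : V} (hh : G.ends h = s(p, q)) : p ∈ G.ends h := by
  rw [hh]; exact Sym2.mem_mk_left p q

lemma right_mem {h : E} {p q : V} (hh : G.ends h = s(p, q)) : q ∈ G.ends h := by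
  rw [hh]; exact Sym2.mem_mk_right p q

lemma mem_or {h : E} {p q v : V} (hh : G.ends h = s(p, q)) (hv : v ∈ G.ends h) :
    v = p ∨ v = q := by
  rw [hh] at hv; exact Sym2.mem_iff.mp hv

lemma ends_of_mem {h : E} {v : V} (hv : v ∈ G.ends h) : ∃ w, G.ends h = s(v, w) := by
  obtain ⟨w, hw⟩ := Sym2.mem_iff_exists.mp hv
  exact ⟨w, hw⟩

lemma pair_cases {p q a b : V} (h : s(p, q) = s(a, b)) : (p = a ∧ q = b) ∨ (p = b ∧ q = a) :=
  Sym2.eq_iff.mp h

lemma mem_ins {X : Finset E} {P : Finset V} {h : E} :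
    h ∈ G.ins X P ↔ h ∈ X ∧ ∀ v ∈ G.ends h, v ∈ P := by
  simp [ins]

lemma ends_in {P : Finset V} {h : E} {p q : V} (hh : G.ends h = s(p, q)) (hp : p ∈ P)
    (hq : q ∈ P) : ∀ v ∈ G.ends h, v ∈ P := by
  intro v hv
  rcases mem_or hh hv with rfl | rfl
  · exact hp
  · exact hq

section core

variable {X M F D : Finset E} {z : V}

lemma mem_vx {h : E} {v : V} (hh : h ∈ X) (hv : v ∈ G.ends h) : v ∈ G.vx X := by
  simp only [vx, Finset.mem_filter, Finset.mem_univ, true_and]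
  exact (G.deg_pos_iff.mpr ⟨h, hh, hv⟩).ne'

lemma degs (hc : G.Core X M F D z) {v : V} (hv : v ∈ G.vx X) (hz : v ≠ z) :
    G.deg X v = 3 ∧ G.deg M v = 1 := by
  simp only [vx, Finset.mem_filter, Finset.mem_univ, true_and] at hv
  rcases hc.deg v hz with h | h
  · exact absurd h hv
  · exact h

lemma degW (hc : G.Core X M F D z) {v : V} (hv : v ∈ G.vx X) (hz : v ≠ z) :
    G.deg (X \ M) v = 2 := by
  have h1 := G.deg_sdiff hc.msub v
  have h2 := degs hc hv hz
  omega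

lemma notM (hc : G.Core X M F D z) {g : E} (hg : g ∈ M) : z ∉ G.ends g := by
  intro h
  have := G.deg_pos_iff.mpr ⟨g, hg, h⟩
  rw [hc.degmz] at this
  omega

lemma uniqM (hc : G.Core X M F D z) {v : V} {g g' : E} (hg : g ∈ M) (hg' : g' ∈ M)
    (hv : v ∈ G.ends g) (hv' : v ∈ G.ends g') : g = g' := by
  have hz : v ≠ z := by
    rintro rfl
    exact notM hc hg hv
  have h1 := (degs hc (mem_vx (hc.msub hg) hv) hz).2
  unfold MGraph.deg at h1
  exact Finset.card_le_one.mp h1.le g (Finset.mem_filter.mpr ⟨hg, hv⟩) g'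
    (Finset.mem_filter.mpr ⟨hg', hv'⟩)

lemma exM (hc : G.Core X M F D z) {v : V} (hv : v ∈ G.vx X) (hz : v ≠ z) :
    ∃ g ∈ M, v ∈ G.ends g := by
  have h1 := (degs hc hv hz).2
  exact G.deg_pos_iff.mp (by omega)

lemma no_ac (hc : G.Core X M F D z) {T : Finset V} (hz : z ∉ T) {t : E} (ht : t ∈ F)
    (htT : t ∉ G.ins X T) : ∀ D', D' ⊆ G.ins X T → ¬ G.IsAC M D' := by
  intro D' hD' hac
  have h1 : D' ⊆ X := fun h hh => (mem_ins.mp (hD' hh)).1
  have h2 : G.deg D' z = 0 := by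
    by_contra hne
    obtain ⟨h, hh, hhz⟩ := G.deg_pos_iff.mp (Nat.pos_of_ne_zero hne)
    exact hz ((mem_ins.mp (hD' hh)).2 z hhz)
  exact htT (hD' (hc.m1 D' h1 hac h2 ht))

/-- Kotzig's theorem inside a set closed under the matching -/
lemma kot (hc : G.Core X M F D z) {T : Finset V} (hT : T ⊆ G.vx X) (hz : z ∉ T)
    (hne : T.Nonempty)
    (hcl : ∀ g ∈ M, (∃ v ∈ G.ends g, v ∈ T) → ∀ v ∈ G.ends g, v ∈ T)
    (hno : ∀ D', D' ⊆ G.ins X T → ¬ G.IsAC M D') (r : V) :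
    ∃ (b' : E) (S : Finset V) (c₁ c₂ : V), b' ∈ M ∧ r ∈ S ∧ G.ends b' = s(c₁, c₂) ∧ c₁ ∈ T ∧
      c₁ ∈ S ∧ c₂ ∈ T ∧ c₂ ∉ S ∧
      ∀ h ∈ X, ∀ p q, G.ends h = s(p, q) → p ∈ T → q ∈ T → p ∈ S → q ∉ S → h = b' := by
  have key : ∃ e ∈ G.ins M T, G.IsBridge (G.ins X T) e := by
    refine t_Kotzig V E G (G.ins X T) (G.ins M T) ?_ ?_ ?_ ?_
    · intro h hh
      rw [mem_ins] at hh ⊢
      exact ⟨hc.msub hh.1, hh.2⟩
    · obtain ⟨v, hv⟩ := hne
      obtain ⟨g, hg, hgv⟩ := exM hc (hT hv) (by rintro rfl; exact hz hv)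
      exact ⟨g, mem_ins.mpr ⟨hc.msub hg, hcl g hg ⟨v, hgv, hv⟩⟩⟩
    · intro v hv
      obtain ⟨h, hh, hhv⟩ := G.deg_pos_iff.mp (Nat.pos_of_ne_zero hv)
      have hvT : v ∈ T := (mem_ins.mp hh).2 v hhv
      have hvz : v ≠ z := by rintro rfl; exact hz hvT
      rw [← (degs hc (hT hvT) hvz).2]
      unfold MGraph.deg
      congr 1
      ext g
      simp only [Finset.mem_filter, mem_ins]
      constructor
      · rintro ⟨⟨h1, -⟩, h2⟩
        exact ⟨h1, h2⟩
      · rintro ⟨h1, h2⟩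
        exact ⟨⟨h1, hcl g h1 ⟨v, h2, hvT⟩⟩, h2⟩
    · intro D' hD' hcirc
      by_contra hcon
      push Not at hcon
      refine hno D' hD' ⟨hcirc, fun v hv => ?_⟩
      have h1 := hcon v hv
      have h2 : D' ∩ G.ins M T = D' ∩ M := by
        ext g
        simp only [Finset.mem_inter, mem_ins]
        constructor
        · rintro ⟨h1, h2, -⟩
          exact ⟨h1, h2⟩
        · rintro ⟨h1, h2⟩
          exact ⟨h1, h2, (mem_ins.mp (hD' h1)).2⟩
      rwa [h2] at h1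
  obtain ⟨b', hb', hbr⟩ := key
  obtain ⟨S₀, hS₀⟩ := G.isBridge_iff.mp hbr
  obtain ⟨S, hS, hr⟩ : ∃ S : Finset V, G.ins X T ∩ G.cut S = {b'} ∧ r ∈ S := by
    by_cases h : r ∈ S₀
    · exact ⟨S₀, hS₀, h⟩
    · exact ⟨S₀ᶜ, by rw [G.cut_compl]; exact hS₀, Finset.mem_compl.mpr h⟩
  have hb1 : b' ∈ G.ins X T ∩ G.cut S := by rw [hS]; exact Finset.mem_singleton_self b'
  rw [Finset.mem_inter] at hb1
  obtain ⟨c₁, c₂, he, h1, h2⟩ := cut_ex hb1.2
  have h3 := (mem_ins.mp hb1.1).2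
  refine ⟨b', S, c₁, c₂, (mem_ins.mp hb').1, hr, he, h3 _ (left_mem he), h1,
    h3 _ (right_mem he), h2, ?_⟩
  intro h hh p q hpq hp hq hpS hqS
  have h4 : h ∈ G.ins X T ∩ G.cut S :=
    Finset.mem_inter.mpr ⟨mem_ins.mpr ⟨hh, ends_in hpq hp hq⟩, in_cut hpq hpS hqS⟩
  rw [hS, Finset.mem_singleton] at h4
  exact h4


/-- the situation after the choice of the bridge -/
structure Sit (G : MGraph V E) (X M F D R S : Finset _) (z u u' rf re we a₁ a₂ c₁ c₂ : V)
    (f e b e₁ e₂ b' : E) : Prop where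
  core : G.Core X M F D z
  Rvx : R ⊆ G.vx X
  zR : z ∉ R
  fW : f ∈ X \ M
  eW : e ∈ X \ M
  ef : e ≠ f
  bM : b ∈ M
  cutR : X ∩ G.cut R = {f, e, b}
  be : G.ends b = s(u, u')
  uR : u ∈ R
  u'R : u' ∉ R
  fe : G.ends f = s(rf, z)
  rfR : rf ∈ R
  rfu : rf ≠ u
  ee : G.ends e = s(re, we)
  reR : re ∈ R
  reu : re ≠ u
  weR : we ∉ R
  wez : we ≠ z
  e1 : G.ends e₁ = s(u, a₁)
  a1R : a₁ ∈ R
  a1u : a₁ ≠ u
  e1W : e₁ ∈ X \ M
  e2 : G.ends e₂ = s(u, a₂)
  a2R : a₂ ∈ R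
  a2u : a₂ ≠ u
  e2W : e₂ ∈ X \ M
  e12 : e₁ ≠ e₂
  stu : ∀ h ∈ X \ M, u ∈ G.ends h → h = e₁ ∨ h = e₂
  b'M : b' ∈ M
  b'e : G.ends b' = s(c₁, c₂)
  c1R : c₁ ∈ R
  c1u : c₁ ≠ u
  c1S : c₁ ∈ S
  c2R : c₂ ∈ R
  c2u : c₂ ≠ u
  c2S : c₂ ∉ S
  rfS : rf ∈ S
  brg : ∀ h ∈ X, ∀ p q, G.ends h = s(p, q) → p ∈ R → p ≠ u → q ∈ R → q ≠ u → p ∈ S → q ∉ S →
    h = b'
  noac : ∀ T : Finset V, T ⊆ R → ∀ D', D' ⊆ G.ins X T → ¬ G.IsAC M D'

/-- first part -/
def P₁ (R S : Finset V) (u : V) : Finset V := R.filter (fun v => v ≠ u ∧ v ∈ S)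

/-- second part -/
def P₂ (R S : Finset V) (u : V) : Finset V := R.filter (fun v => v ≠ u ∧ v ∉ S)

lemma mem_P₁ {R S : Finset V} {u v : V} : v ∈ P₁ R S u ↔ v ∈ R ∧ v ≠ u ∧ v ∈ S := by
  simp [P₁]

lemma mem_P₂ {R S : Finset V} {u v : V} : v ∈ P₂ R S u ↔ v ∈ R ∧ v ≠ u ∧ v ∉ S := by
  simp [P₂]

lemma even_four {f e e₁ e₂ : E} (h1 : f ≠ e) (h2 : f ≠ e₁) (h3 : f ≠ e₂) (h4 : e ≠ e₁)
    (h5 : e ≠ e₂) (h6 : e₁ ≠ e₂) {K : Finset E}
    (hK : ∀ h, h ∈ K → h = f ∨ h = e ∨ h = e₁ ∨ h = e₂) : K.card =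
      (if f ∈ K then 1 else 0) + (if e ∈ K then 1 else 0) + (if e₁ ∈ K then 1 else 0) +
        (if e₂ ∈ K then 1 else 0) := by
  have hK' : K = ({f, e, e₁, e₂} : Finset E).filter (fun h => h ∈ K) := by
    ext h
    simp only [Finset.mem_filter, Finset.mem_insert, Finset.mem_singleton]
    exact ⟨fun hh => ⟨hK h hh, hh⟩, fun hh => hh.2⟩
  conv_lhs => rw [hK']
  rw [Finset.card_filter, Finset.sum_insert, Finset.sum_insert, Finset.sum_insert,
    Finset.sum_singleton]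
  · ring
  · simpa using h6
  · simp only [Finset.mem_insert, Finset.mem_singleton]
    tauto
  · simp only [Finset.mem_insert, Finset.mem_singleton]
    tauto

lemma even_three {t e e₂ : E} (h1 : t ≠ e) (h2 : t ≠ e₂) (h5 : e ≠ e₂) {K : Finset E}
    (hK : ∀ h, h ∈ K → h = t ∨ h = e ∨ h = e₂) : K.card =
      (if t ∈ K then 1 else 0) + (if e ∈ K then 1 else 0) + (if e₂ ∈ K then 1 else 0) := by
  have hK' : K = ({t, e, e₂} : Finset E).filter (fun h => h ∈ K) := by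
    ext h
    simp only [Finset.mem_filter, Finset.mem_insert, Finset.mem_singleton]
    exact ⟨fun hh => ⟨hK h hh, hh⟩, fun hh => hh.2⟩
  conv_lhs => rw [hK']
  rw [Finset.card_filter, Finset.sum_insert, Finset.sum_insert, Finset.sum_singleton]
  · ring
  · simpa using h5
  · simp only [Finset.mem_insert, Finset.mem_singleton]
    tauto

lemma card_le_two {K : Finset E} {x y : E} (h : ∀ g ∈ K, g = x ∨ g = y) : K.card ≤ 2 := by
  refine le_trans (Finset.card_le_card (t := {x, y}) ?_) Finset.card_le_two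
  intro g hg
  simpa using h g hg

section sit

variable {R S : Finset V} {u u' rf re we a₁ a₂ c₁ c₂ : V} {f e b e₁ e₂ b' : E}

lemma Sit.wR (s : Sit G X M F D R S z u u' rf re we a₁ a₂ c₁ c₂ f e b e₁ e₂ b') {h : E}
    {p q : V} (hh : h ∈ X \ M) (he : G.ends h = s(p, q)) (hp : p ∈ R) (hq : q ∉ R) :
    (h = f ∧ p = rf ∧ q = z) ∨ (h = e ∧ p = re ∧ q = we) := by
  rw [Finset.mem_sdiff] at hh
  have h1 : h ∈ X ∩ G.cut R := Finset.mem_inter.mpr ⟨hh.1, in_cut he hp hq⟩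
  rw [s.cutR] at h1
  simp only [Finset.mem_insert, Finset.mem_singleton] at h1
  rcases h1 with rfl | rfl | rfl
  · left
    rw [s.fe] at he
    rcases pair_cases he with ⟨h2, h3⟩ | ⟨h2, h3⟩
    · exact ⟨rfl, h2.symm, h3.symm⟩
    · exact absurd (h2 ▸ s.rfR) hq
  · right
    rw [s.ee] at he
    rcases pair_cases he with ⟨h2, h3⟩ | ⟨h2, h3⟩
    · exact ⟨rfl, h2.symm, h3.symm⟩
    · exact absurd (h2 ▸ s.reR) hq
  · exact absurd s.bM hh.2

lemma Sit.wu (s : Sit G X M F D R S z u u' rf re we a₁ a₂ c₁ c₂ f e b e₁ e₂ b') {h : E}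
    {p : V} (hh : h ∈ X \ M) (he : G.ends h = s(p, u)) :
    (h = e₁ ∧ p = a₁) ∨ (h = e₂ ∧ p = a₂) := by
  rcases s.stu h hh (right_mem he) with rfl | rfl
  · left
    rw [s.e1] at he
    rcases pair_cases he with ⟨h2, h3⟩ | ⟨h2, h3⟩
    · exact absurd h3 s.a1u
    · exact ⟨rfl, h3.symm⟩
  · right
    rw [s.e2] at he
    rcases pair_cases he with ⟨h2, h3⟩ | ⟨h2, h3⟩
    · exact absurd h3 s.a2u
    · exact ⟨rfl, h3.symm⟩

lemma Sit.w1 (s : Sit G X M F D R S z u u' rf re we a₁ a₂ c₁ c₂ f e b e₁ e₂ b') {h : E}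
    {p q : V} (hh : h ∈ X \ M) (he : G.ends h = s(p, q)) (hp : p ∈ P₁ R S u)
    (hq : q ∉ P₁ R S u) :
    (h = f ∧ p = rf ∧ q = z) ∨ (h = e ∧ p = re ∧ q = we) ∨ (h = e₁ ∧ p = a₁ ∧ q = u) ∨
      (h = e₂ ∧ p = a₂ ∧ q = u) := by
  rw [mem_P₁] at hp hq
  by_cases hqR : q ∈ R
  · by_cases hqu : q = u
    · subst hqu
      rcases s.wu hh he with ⟨h1, h2⟩ | ⟨h1, h2⟩
      · exact Or.inr (Or.inr (Or.inl ⟨h1, h2, rfl⟩))
      · exact Or.inr (Or.inr (Or.inr ⟨h1, h2, rfl⟩))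
    · exfalso
      have hqS : q ∉ S := fun h => hq ⟨hqR, hqu, h⟩
      rw [Finset.mem_sdiff] at hh
      have := s.brg h hh.1 p q he hp.1 hp.2.1 hqR hqu hp.2.2 hqS
      exact hh.2 (this ▸ s.b'M)
  · rcases s.wR hh he hp.1 hqR with h1 | h1
    · exact Or.inl h1
    · exact Or.inr (Or.inl h1)

lemma Sit.w2 (s : Sit G X M F D R S z u u' rf re we a₁ a₂ c₁ c₂ f e b e₁ e₂ b') {h : E}
    {p q : V} (hh : h ∈ X \ M) (he : G.ends h = s(p, q)) (hp : p ∈ P₂ R S u)
    (hq : q ∉ P₂ R S u) :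
    (h = e ∧ p = re ∧ q = we) ∨ (h = e₁ ∧ p = a₁ ∧ q = u) ∨ (h = e₂ ∧ p = a₂ ∧ q = u) := by
  rw [mem_P₂] at hp hq
  by_cases hqR : q ∈ R
  · by_cases hqu : q = u
    · subst hqu
      rcases s.wu hh he with ⟨h1, h2⟩ | ⟨h1, h2⟩
      · exact Or.inr (Or.inl ⟨h1, h2, rfl⟩)
      · exact Or.inr (Or.inr ⟨h1, h2, rfl⟩)
    · exfalso
      have hqS : q ∈ S := by
        by_contra h
        exact hq ⟨hqR, hqu, h⟩
      rw [Finset.mem_sdiff] at hh
      have := s.brg h hh.1 q p (by rw [he, Sym2.eq_swap]) hqR hqu hp.1 hp.2.1 hqS hp.2.2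
      exact hh.2 (this ▸ s.b'M)
  · rcases s.wR hh he hp.1 hqR with h1 | h1
    · exact absurd (h1.2.1 ▸ s.rfS) hp.2.2
    · exact Or.inl h1

lemma Sit.mR (s : Sit G X M F D R S z u u' rf re we a₁ a₂ c₁ c₂ f e b e₁ e₂ b') {h : E}
    {p q : V} (hh : h ∈ M) (he : G.ends h = s(p, q)) (hp : p ∈ R) (hpu : p ≠ u) :
    q ∈ R ∧ q ≠ u := by
  have hqR : q ∈ R := by
    by_contra hq
    have h1 : h ∈ X ∩ G.cut R :=
      Finset.mem_inter.mpr ⟨s.core.msub hh, in_cut he hp hq⟩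
    rw [s.cutR] at h1
    simp only [Finset.mem_insert, Finset.mem_singleton] at h1
    rcases h1 with rfl | rfl | rfl
    · exact (Finset.mem_sdiff.mp s.fW).2 hh
    · exact (Finset.mem_sdiff.mp s.eW).2 hh
    · rw [s.be] at he
      rcases pair_cases he with ⟨h2, h3⟩ | ⟨h2, h3⟩
      · exact hpu h2.symm
      · exact hq (h2 ▸ s.uR)
  refine ⟨hqR, ?_⟩
  rintro rfl
  have h1 := uniqM s.core hh s.bM (right_mem he) (left_mem s.be)
  rw [h1, s.be] at he
  rcases pair_cases he with ⟨h2, h3⟩ | ⟨h2, h3⟩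
  · exact hpu h2.symm
  · exact s.u'R (h3 ▸ hp)

lemma Sit.m1 (s : Sit G X M F D R S z u u' rf re we a₁ a₂ c₁ c₂ f e b e₁ e₂ b') {h : E}
    {p q : V} (hh : h ∈ M) (he : G.ends h = s(p, q)) (hp : p ∈ P₁ R S u)
    (hq : q ∉ P₁ R S u) : h = b' := by
  rw [mem_P₁] at hp hq
  obtain ⟨h1, h2⟩ := s.mR hh he hp.1 hp.2.1
  exact s.brg h (s.core.msub hh) p q he hp.1 hp.2.1 h1 h2 hp.2.2 (fun h3 => hq ⟨h1, h2, h3⟩)

lemma Sit.m2 (s : Sit G X M F D R S z u u' rf re we a₁ a₂ c₁ c₂ f e b e₁ e₂ b') {h : E}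
    {p q : V} (hh : h ∈ M) (he : G.ends h = s(p, q)) (hp : p ∈ P₂ R S u)
    (hq : q ∉ P₂ R S u) : h = b' := by
  rw [mem_P₂] at hp hq
  obtain ⟨h1, h2⟩ := s.mR hh he hp.1 hp.2.1
  have h3 : q ∈ S := by
    by_contra h3
    exact hq ⟨h1, h2, h3⟩
  exact s.brg h (s.core.msub hh) q p (by rw [he, Sym2.eq_swap]) h1 h2 hp.1 hp.2.1 h3 hp.2.2

/-- swap the two edges of weight one at `u` -/
lemma Sit.swap (s : Sit G X M F D R S z u u' rf re we a₁ a₂ c₁ c₂ f e b e₁ e₂ b') :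
    Sit G X M F D R S z u u' rf re we a₂ a₁ c₁ c₂ f e b e₂ e₁ b' :=
  { s with
    e1 := s.e2, a1R := s.a2R, a1u := s.a2u, e1W := s.e2W, e2 := s.e1, a2R := s.a1R,
    a2u := s.a1u, e2W := s.e1W, e12 := s.e12.symm, stu := fun h h1 h2 => (s.stu h h1 h2).symm }

lemma Sit.uf (s : Sit G X M F D R S z u u' rf re we a₁ a₂ c₁ c₂ f e b e₁ e₂ b') :
    u ∉ G.ends f := by
  intro h
  rcases mem_or s.fe h with h1 | h1
  · exact s.rfu h1.symm
  · exact s.zR (h1 ▸ s.uR)

lemma Sit.ue (s : Sit G X M F D R S z u u' rf re we a₁ a₂ c₁ c₂ f e b e₁ e₂ b') :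
    u ∉ G.ends e := by
  intro h
  rcases mem_or s.ee h with h1 | h1
  · exact s.reu h1.symm
  · exact s.weR (h1 ▸ s.uR)

lemma Sit.fe1 (s : Sit G X M F D R S z u u' rf re we a₁ a₂ c₁ c₂ f e b e₁ e₂ b') : f ≠ e₁ := by
  rintro rfl
  exact s.uf (left_mem s.e1)

lemma Sit.fe2 (s : Sit G X M F D R S z u u' rf re we a₁ a₂ c₁ c₂ f e b e₁ e₂ b') : f ≠ e₂ := by
  rintro rfl
  exact s.uf (left_mem s.e2)

lemma Sit.ee1 (s : Sit G X M F D R S z u u' rf re we a₁ a₂ c₁ c₂ f e b e₁ e₂ b') : e ≠ e₁ := by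
  rintro rfl
  exact s.ue (left_mem s.e1)

lemma Sit.ee2 (s : Sit G X M F D R S z u u' rf re we a₁ a₂ c₁ c₂ f e b e₁ e₂ b') : e ≠ e₂ := by
  rintro rfl
  exact s.ue (left_mem s.e2)

lemma Sit.sub1 (s : Sit G X M F D R S z u u' rf re we a₁ a₂ c₁ c₂ f e b e₁ e₂ b') :
    P₁ R S u ⊆ G.vx X := fun _ hv => s.Rvx (mem_P₁.mp hv).1

lemma Sit.sub2 (s : Sit G X M F D R S z u u' rf re we a₁ a₂ c₁ c₂ f e b e₁ e₂ b') :
    P₂ R S u ⊆ G.vx X := fun _ hv => s.Rvx (mem_P₂.mp hv).1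

lemma Sit.z1 (s : Sit G X M F D R S z u u' rf re we a₁ a₂ c₁ c₂ f e b e₁ e₂ b') :
    z ∉ P₁ R S u := fun hv => s.zR (mem_P₁.mp hv).1

lemma Sit.z2 (s : Sit G X M F D R S z u u' rf re we a₁ a₂ c₁ c₂ f e b e₁ e₂ b') :
    z ∉ P₂ R S u := fun hv => s.zR (mem_P₂.mp hv).1

lemma Sit.cut2 (s : Sit G X M F D R S z u u' rf re we a₁ a₂ c₁ c₂ f e b e₁ e₂ b')
    (h1b : S_C1b) (h1 : re ∈ S) (h2 : a₁ ∈ S) (h3 : a₂ ∈ S) : False := by
  refine h1b V E G X M F D z s.core (P₂ R S u) b' s.sub2 ?_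
  ext h
  rw [Finset.mem_inter, Finset.mem_singleton]
  constructor
  · rintro ⟨hX, hcut⟩
    obtain ⟨p, q, he, hp, hq⟩ := cut_ex hcut
    by_cases hM : h ∈ M
    · exact s.m2 hM he hp hq
    · exfalso
      have hp' := (mem_P₂.mp hp).2.2
      rcases s.w2 (Finset.mem_sdiff.mpr ⟨hX, hM⟩) he hp hq with ⟨-, h4, -⟩ | ⟨-, h4, -⟩ |
        ⟨-, h4, -⟩ <;> subst h4
      · exact hp' h1
      · exact hp' h2
      · exact hp' h3
  · rintro rfl
    refine ⟨s.core.msub s.b'M, ?_⟩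
    refine in_cut (p := c₂) (q := c₁) (by rw [s.b'e, Sym2.eq_swap])
      (mem_P₂.mpr ⟨s.c2R, s.c2u, s.c2S⟩) (fun h => (mem_P₂.mp h).2.2 s.c1S)

/-- parity for the first part -/
lemma Sit.par1 (s : Sit G X M F D R S z u u' rf re we a₁ a₂ c₁ c₂ f e b e₁ e₂ b')
    (h1a : S_C1a) : Even (1 + (if re ∈ S then 1 else 0) + (if a₁ ∈ S then 1 else 0) +
      (if a₂ ∈ S then 1 else 0)) := by
  have h := h1a V E G X M F D z s.core (P₁ R S u) s.sub1 s.z1
  rw [even_four s.ef.symm s.fe1 s.fe2 s.ee1 s.ee2 s.e12 (fun h hh => ?_)] at h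
  · have hf : f ∈ (X \ M) ∩ G.cut (P₁ R S u) :=
      Finset.mem_inter.mpr ⟨s.fW, in_cut s.fe (mem_P₁.mpr ⟨s.rfR, s.rfu, s.rfS⟩) s.z1⟩
    have he : e ∈ (X \ M) ∩ G.cut (P₁ R S u) ↔ re ∈ S := by
      rw [Finset.mem_inter, G.mem_cut s.ee, mem_P₁, mem_P₁]
      have := s.eW
      have := s.reR
      have := s.reu
      have := s.weR
      tauto
    have he1 : e₁ ∈ (X \ M) ∩ G.cut (P₁ R S u) ↔ a₁ ∈ S := by
      rw [Finset.mem_inter, G.mem_cut s.e1, mem_P₁, mem_P₁]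
      have := s.e1W
      have := s.a1R
      have := s.a1u
      tauto
    have he2 : e₂ ∈ (X \ M) ∩ G.cut (P₁ R S u) ↔ a₂ ∈ S := by
      rw [Finset.mem_inter, G.mem_cut s.e2, mem_P₁, mem_P₁]
      have := s.e2W
      have := s.a2R
      have := s.a2u
      tauto
    simp only [hf, he, he1, he2, if_true] at h
    exact h
  · rw [Finset.mem_inter] at hh
    obtain ⟨p, q, he, hp, hq⟩ := cut_ex hh.2
    rcases s.w1 hh.1 he hp hq with h1 | h1 | h1 | h1
    · exact Or.inl h1.1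
    · exact Or.inr (Or.inl h1.1)
    · exact Or.inr (Or.inr (Or.inl h1.1))
    · exact Or.inr (Or.inr (Or.inr h1.1))

/-- the case that `e` leaves from the first part -/
lemma Sit.caseA (s : Sit G X M F D R S z u u' rf re we a₁ a₂ c₁ c₂ f e b e₁ e₂ b')
    (h1a : S_C1a) (h1b : S_C1b) (h2 : S_C2) (hre : re ∈ S) : False := by
  have hpar := s.par1 h1a
  have ha : a₁ ∉ S ∧ a₂ ∉ S := by
    by_cases h3 : a₁ ∈ S <;> by_cases h4 : a₂ ∈ S
    · exact absurd (s.cut2 h1b hre h3 h4) id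
    · simp [hre, h3, h4] at hpar
      exact absurd hpar (by decide)
    · simp [hre, h3, h4] at hpar
      exact absurd hpar (by decide)
    · exact ⟨h3, h4⟩
  set Z : Finset V := insert u (P₂ R S u) with hZ
  have memZ : ∀ v, v ∈ Z ↔ v = u ∨ (v ∈ R ∧ v ≠ u ∧ v ∉ S) := by
    intro v
    rw [hZ, Finset.mem_insert, mem_P₂]
  have hZR : Z ⊆ R := by
    intro v hv
    rcases (memZ v).mp hv with rfl | h
    · exact s.uR
    · exact h.1
  have hzZ : z ∉ Z := fun h => s.zR (hZR h)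
  have hWZ : ∀ h ∈ X \ M, ∀ p q, G.ends h = s(p, q) → p ∈ Z → q ∈ Z := by
    intro h hh p q he hp
    by_contra hq
    rw [memZ] at hp
    rcases hp with rfl | hp
    · rcases s.wu hh (by rw [he, Sym2.eq_swap]) with ⟨-, h3⟩ | ⟨-, h3⟩ <;> subst h3
      · exact hq ((memZ _).mpr (Or.inr ⟨s.a1R, s.a1u, ha.1⟩))
      · exact hq ((memZ _).mpr (Or.inr ⟨s.a2R, s.a2u, ha.2⟩))
    · have hq' : q ∉ P₂ R S u := fun h => hq ((memZ q).mpr (Or.inr (mem_P₂.mp h)))
      rcases s.w2 hh he (mem_P₂.mpr hp) hq' with ⟨-, h3, -⟩ | ⟨-, -, h3⟩ | ⟨-, -, h3⟩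
      · exact hp.2.2 (h3 ▸ hre)
      · exact hq ((memZ q).mpr (Or.inl h3))
      · exact hq ((memZ q).mpr (Or.inl h3))
  have hcutZ : X ∩ G.cut Z ⊆ {b, b'} := by
    intro h hh
    rw [Finset.mem_inter] at hh
    obtain ⟨p, q, he, hp, hq⟩ := cut_ex hh.2
    rw [Finset.mem_insert, Finset.mem_singleton]
    by_cases hM : h ∈ M
    · rcases (memZ p).mp hp with rfl | hp'
      · exact Or.inl (uniqM s.core hM s.bM (left_mem he) (left_mem s.be))
      · exact Or.inr (s.m2 hM he (mem_P₂.mpr hp')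
          (fun h => hq ((memZ q).mpr (Or.inr (mem_P₂.mp h)))))
    · exact absurd (hWZ h (Finset.mem_sdiff.mpr ⟨hh.1, hM⟩) p q he hp) hq
  have hZ2 : 2 ≤ Z.card := by
    have h5 : ({u, c₂} : Finset V) ⊆ Z := by
      intro v hv
      rw [Finset.mem_insert, Finset.mem_singleton] at hv
      rcases hv with rfl | rfl
      · exact (memZ _).mpr (Or.inl rfl)
      · exact (memZ _).mpr (Or.inr ⟨s.c2R, s.c2u, s.c2S⟩)
    have h6 := Finset.card_le_card h5
    rwa [Finset.card_pair s.c2u.symm] at h6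
  have h4 := s.core.c4 Z (hZR.trans s.Rvx) hZ2
  have h5 : (X ∩ G.cut Z).card ≤ 2 :=
    (Finset.card_le_card hcutZ).trans Finset.card_le_two
  rw [if_neg hzZ] at h4
  have h6 : (G.ins F Z).Nonempty := by
    rw [← Finset.card_pos]
    omega
  obtain ⟨t, ht⟩ := h6
  rw [mem_ins] at ht
  obtain ⟨P, g, hPX, hzP, hgM, hcut, htf⟩ := h2 V E G X M F D z s.core t ht.1 f
    (Finset.mem_sdiff.mp s.fW).1 (right_mem s.fe)
  have htW : t ∈ X \ M := s.core.fsub ht.1
  have htc : t ∈ G.cut P := by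
    have : t ∈ X ∩ G.cut P := by rw [hcut]; simp
    exact (Finset.mem_inter.mp this).2
  have hone : (X \ M) ∩ G.cut (Z ∩ P) = {t} := by
    ext h
    rw [Finset.mem_inter, Finset.mem_singleton]
    constructor
    · rintro ⟨hW, hc⟩
      obtain ⟨p, q, he, hp, hq⟩ := cut_ex hc
      rw [Finset.mem_inter] at hp hq
      have hqZ := hWZ h hW p q he hp.1
      have hqP : q ∉ P := fun h => hq ⟨hqZ, h⟩
      rw [Finset.mem_sdiff] at hW
      have h7 : h ∈ X ∩ G.cut P := Finset.mem_inter.mpr ⟨hW.1, in_cut he hp.2 hqP⟩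
      rw [hcut] at h7
      simp only [Finset.mem_insert, Finset.mem_singleton] at h7
      rcases h7 with rfl | h7 | rfl
      · exfalso
        rw [s.fe] at he
        rcases pair_cases he with ⟨h8, h9⟩ | ⟨h8, h9⟩
        · exact hzZ (h9 ▸ hqZ)
        · exact hzZ (h9 ▸ hp.1)
      · exact h7
      · exact absurd hgM hW.2
    · rintro rfl
      refine ⟨htW, ?_⟩
      obtain ⟨p, q, he, hp, hq⟩ := cut_ex htc
      exact in_cut he (Finset.mem_inter.mpr ⟨ht.2 p (left_mem he), hp⟩)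
        (fun h => hq (Finset.mem_inter.mp h).2)
  have h7 := h1a V E G X M F D z s.core (Z ∩ P)
    (fun v hv => hPX (Finset.mem_inter.mp hv).2) (fun h => hzP (Finset.mem_inter.mp h).2)
  rw [hone, Finset.card_singleton] at h7
  exact absurd h7 (by decide)

/-- the second edge at the root -/
lemma other (hc : G.Core X M F D z) {f : E} (hf : f ∈ X) (hz : z ∈ G.ends f) :
    ∃ f' ∈ X, f' ≠ f ∧ z ∈ G.ends f' ∧ ∀ h ∈ X, z ∈ G.ends h → h = f ∨ h = f' := by
  have h1 := hc.degz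
  unfold MGraph.deg at h1
  obtain ⟨x, y, hxy, h2⟩ := Finset.card_eq_two.mp h1
  have hall : ∀ h, (h ∈ X ∧ z ∈ G.ends h) ↔ (h = x ∨ h = y) := by
    intro h
    have : h ∈ X.filter (fun e => z ∈ G.ends e) ↔ h ∈ ({x, y} : Finset E) := by rw [h2]
    simpa using this
  rcases (hall f).mp ⟨hf, hz⟩ with rfl | rfl
  · exact ⟨y, ((hall y).mpr (Or.inr rfl)).1, hxy.symm, ((hall y).mpr (Or.inr rfl)).2,
      fun h hh hhz => (hall h).mp ⟨hh, hhz⟩⟩
  · exact ⟨x, ((hall x).mpr (Or.inl rfl)).1, hxy, ((hall x).mpr (Or.inl rfl)).2,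
      fun h hh hhz => ((hall h).mp ⟨hh, hhz⟩).symm⟩

/-- no marked edge inside the second part -/
lemma Sit.noF (s : Sit G X M F D R S z u u' rf re we a₁ a₂ c₁ c₂ f e b e₁ e₂ b')
    (h1a : S_C1a) (h1c : S_C1c) (h2 : S_C2) (hre : re ∉ S) (ha1 : a₁ ∈ S) (ha2 : a₂ ∉ S) :
    G.ins F (P₂ R S u) = ∅ := by
  rw [Finset.eq_empty_iff_forall_notMem]
  intro t ht
  rw [mem_ins] at ht
  obtain ⟨htF, htin⟩ := ht
  have htW : t ∈ X \ M := s.core.fsub htF
  have fX : f ∈ X := (Finset.mem_sdiff.mp s.fW).1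
  obtain ⟨P, g, hPX, hzP, hgM, hcut, htf⟩ := h2 V E G X M F D z s.core t htF f fX
    (right_mem s.fe)
  have htc : t ∈ G.cut P := by
    have : t ∈ X ∩ G.cut P := by rw [hcut]; simp
    exact (Finset.mem_inter.mp this).2
  have hfc : f ∈ G.cut P := by
    have : f ∈ X ∩ G.cut P := by rw [hcut]; simp
    exact (Finset.mem_inter.mp this).2
  have hrfP : rf ∈ P := by
    rcases (G.mem_cut s.fe).mp hfc with h | h
    · exact h.1
    · exact absurd h.1 hzP
  obtain ⟨t₁, t₂, hte, ht1, ht2⟩ := cut_ex htc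
  have ht1P : t₁ ∈ P₂ R S u := htin _ (left_mem hte)
  have ht2P : t₂ ∈ P₂ R S u := htin _ (right_mem hte)
  have hrf2 : rf ∉ P₂ R S u := fun h => (mem_P₂.mp h).2.2 s.rfS
  have hu2 : u ∉ P₂ R S u := fun h => (mem_P₂.mp h).2.1 rfl
  have hwe2 : we ∉ P₂ R S u := fun h => s.weR (mem_P₂.mp h).1
  have hte' : t ≠ e := by
    rintro rfl
    exact hwe2 (htin _ (right_mem s.ee))
  have hte2 : t ≠ e₂ := by
    rintro rfl
    exact hu2 (htin _ (left_mem s.e2))
  have hXP : ∀ h ∈ X, ∀ p q, G.ends h = s(p, q) → p ∈ P → q ∉ P → h = f ∨ h = t ∨ h = g := by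
    intro h hh p q he hp hq
    have h1 : h ∈ X ∩ G.cut P := Finset.mem_inter.mpr ⟨hh, in_cut he hp hq⟩
    rw [hcut] at h1
    simpa using h1
  have hWP : ∀ h ∈ X \ M, ∀ p q, G.ends h = s(p, q) → p ∈ P → q ∉ P → h = f ∨ h = t := by
    intro h hh p q he hp hq
    rw [Finset.mem_sdiff] at hh
    rcases hXP h hh.1 p q he hp hq with h1 | h1 | rfl
    · exact Or.inl h1
    · exact Or.inr h1
    · exact absurd hgM hh.2
  have hMP : ∀ h ∈ M, ∀ p q, G.ends h = s(p, q) → p ∈ P → q ∉ P → h = g := by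
    intro h hh p q he hp hq
    rcases hXP h (s.core.msub hh) p q he hp hq with rfl | rfl | h1
    · exact absurd hh (Finset.mem_sdiff.mp s.fW).2
    · exact absurd hh (Finset.mem_sdiff.mp htW).2
    · exact h1
  have w2' : ∀ h ∈ X \ M, ∀ p q, G.ends h = s(p, q) → p ∈ P₂ R S u → q ∉ P₂ R S u →
      (h = e ∧ p = re ∧ q = we) ∨ (h = e₂ ∧ p = a₂ ∧ q = u) := by
    intro h hh p q he hp hq
    rcases s.w2 hh he hp hq with h1 | ⟨-, h1, -⟩ | h1
    · exact Or.inl h1
    · exact absurd (h1 ▸ ha1) (mem_P₂.mp hp).2.2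
    · exact Or.inr h1
  have wA : ∀ h ∈ X \ M, ∀ p q, G.ends h = s(p, q) → p ∈ P₂ R S u ∩ P →
      q ∉ P₂ R S u ∩ P → h = t ∨ (h = e ∧ re ∈ P) ∨ (h = e₂ ∧ a₂ ∈ P) := by
    intro h hh p q he hp hq
    rw [Finset.mem_inter] at hp hq
    by_cases hq2 : q ∈ P₂ R S u
    · rcases hWP h hh p q he hp.2 (fun h => hq ⟨hq2, h⟩) with rfl | h1
      · exfalso
        rw [s.fe] at he
        rcases pair_cases he with ⟨h8, h9⟩ | ⟨h8, h9⟩
        · exact hrf2 (h8 ▸ hp.1)
        · exact hrf2 (h8 ▸ hq2)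
      · exact Or.inl h1
    · rcases w2' h hh p q he hp.1 hq2 with h1 | h1
      · exact Or.inr (Or.inl ⟨h1.1, h1.2.1 ▸ hp.2⟩)
      · exact Or.inr (Or.inr ⟨h1.1, h1.2.1 ▸ hp.2⟩)
  have wB : ∀ h ∈ X \ M, ∀ p q, G.ends h = s(p, q) → p ∈ P₂ R S u \ P →
      q ∉ P₂ R S u \ P → h = t ∨ (h = e ∧ re ∉ P) ∨ (h = e₂ ∧ a₂ ∉ P) := by
    intro h hh p q he hp hq
    rw [Finset.mem_sdiff] at hp hq
    by_cases hq2 : q ∈ P₂ R S u
    · have hqP : q ∈ P := by
        by_contra h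
        exact hq ⟨hq2, h⟩
      rcases hWP h hh q p (by rw [he, Sym2.eq_swap]) hqP hp.2 with rfl | h1
      · exfalso
        rw [s.fe] at he
        rcases pair_cases he with ⟨h8, h9⟩ | ⟨h8, h9⟩
        · exact hrf2 (h8 ▸ hp.1)
        · exact hrf2 (h8 ▸ hq2)
      · exact Or.inl h1
    · rcases w2' h hh p q he hp.1 hq2 with h1 | h1
      · exact Or.inr (Or.inl ⟨h1.1, h1.2.1 ▸ hp.2⟩)
      · exact Or.inr (Or.inr ⟨h1.1, h1.2.1 ▸ hp.2⟩)
  have hre2 : re ∈ P₂ R S u := mem_P₂.mpr ⟨s.reR, s.reu, hre⟩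
  have ha22 : a₂ ∈ P₂ R S u := mem_P₂.mpr ⟨s.a2R, s.a2u, ha2⟩
  have hone : (re ∈ P ∧ a₂ ∉ P) ∨ (re ∉ P ∧ a₂ ∈ P) := by
    have h := h1a V E G X M F D z s.core (P₂ R S u ∩ P)
      (fun v hv => hPX (Finset.mem_inter.mp hv).2) (fun h => hzP (Finset.mem_inter.mp h).2)
    rw [even_three hte' hte2 s.ee2 (fun h hh => ?_)] at h
    · have k1 : t ∈ (X \ M) ∩ G.cut (P₂ R S u ∩ P) :=
        Finset.mem_inter.mpr ⟨htW, in_cut hte (Finset.mem_inter.mpr ⟨ht1P, ht1⟩)
          (fun h => ht2 (Finset.mem_inter.mp h).2)⟩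
      have k2 : e ∈ (X \ M) ∩ G.cut (P₂ R S u ∩ P) ↔ re ∈ P := by
        rw [Finset.mem_inter, G.mem_cut s.ee, Finset.mem_inter, Finset.mem_inter]
        have := s.eW
        tauto
      have k3 : e₂ ∈ (X \ M) ∩ G.cut (P₂ R S u ∩ P) ↔ a₂ ∈ P := by
        rw [Finset.mem_inter, G.mem_cut s.e2, Finset.mem_inter, Finset.mem_inter]
        have := s.e2W
        tauto
      simp only [k1, k2, k3, if_true] at h
      by_cases h3 : re ∈ P <;> by_cases h4 : a₂ ∈ P
      · simp [h3, h4] at h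
        exact absurd h (by decide)
      · exact Or.inl ⟨h3, h4⟩
      · exact Or.inr ⟨h3, h4⟩
      · simp [h3, h4] at h
    · rw [Finset.mem_inter] at hh
      obtain ⟨p, q, he, hp, hq⟩ := cut_ex hh.2
      rcases wA h hh.1 p q he hp hq with h1 | h1 | h1
      · exact Or.inl h1
      · exact Or.inr (Or.inl h1.1)
      · exact Or.inr (Or.inr h1.1)
  by_cases hg : ∀ v ∈ G.ends g, v ∈ P₂ R S u
  · -- `g` inside the second part
    obtain ⟨f', hf'X, hf'f, hzf', hf'all⟩ := other s.core fX (right_mem s.fe)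
    have hcl2 : ∀ h ∈ M, ∀ v w, G.ends h = s(v, w) → v ∉ P₂ R S u → v ≠ c₁ →
        w ∉ P₂ R S u ∧ (v ∈ P ↔ w ∈ P) := by
      intro h hh v w he hv hvc
      have hw : w ∉ P₂ R S u := by
        intro hw
        have h1 := s.m2 hh (by rw [he, Sym2.eq_swap]) hw hv
        subst h1
        rw [s.b'e] at he
        rcases pair_cases he with ⟨h8, h9⟩ | ⟨h8, h9⟩
        · exact hvc h8.symm
        · exact hv (h9 ▸ mem_P₂.mpr ⟨s.c2R, s.c2u, s.c2S⟩)
      refine ⟨hw, ?_, ?_⟩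
      · intro hvP
        by_contra hwP
        have h1 := hMP h hh v w he hvP hwP
        exact hv (hg v (h1 ▸ left_mem he))
      · intro hwP
        by_contra hvP
        have h1 := hMP h hh w v (by rw [he, Sym2.eq_swap]) hwP hvP
        exact hv (hg v (h1 ▸ left_mem he))
    by_cases hc1 : c₁ ∈ P
    · -- the outer part
      have hmem : ∀ v, v ∈ ((G.vx X).erase z \ P) \ P₂ R S u ↔
          v ∈ G.vx X ∧ v ≠ z ∧ v ∉ P ∧ v ∉ P₂ R S u := by
        intro v
        simp only [Finset.mem_sdiff, Finset.mem_erase]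
        tauto
      have hT : ((G.vx X).erase z \ P) \ P₂ R S u = ∅ := by
        refine h1c V E G X M F D z s.core _ (fun v hv => ((hmem v).mp hv).1)
          (fun h => ((hmem z).mp h).2.1 rfl) ?_ ?_ ?_
        · rintro h hh ⟨v, hv, hvT⟩
          rw [hmem] at hvT
          obtain ⟨w, hw⟩ := ends_of_mem hv
          have hvc : v ≠ c₁ := by
            rintro rfl
            exact hvT.2.2.1 hc1
          obtain ⟨k1, k2⟩ := hcl2 h hh v w hw hvT.2.2.2 hvc
          refine ends_in hw ((hmem v).mpr hvT) ((hmem w).mpr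
            ⟨mem_vx (s.core.msub hh) (right_mem hw), ?_, fun k3 => hvT.2.2.1 (k2.mpr k3), k1⟩)
          rintro rfl
          exact notM s.core hh (right_mem hw)
        · refine card_le_two (x := if re ∈ P then e₂ else e) (y := f') ?_
          intro h hh
          rw [Finset.mem_inter] at hh
          obtain ⟨p, q, he, hp, hq⟩ := cut_ex hh.2
          rw [hmem] at hp hq
          have hX := (Finset.mem_sdiff.mp hh.1).1
          by_cases hqP : q ∈ P
          · exfalso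
            rcases hWP h hh.1 q p (by rw [he, Sym2.eq_swap]) hqP hp.2.2.1 with rfl | rfl
            · rw [s.fe] at he
              rcases pair_cases he with ⟨h8, h9⟩ | ⟨h8, h9⟩
              · exact hp.2.2.1 (h8 ▸ hrfP)
              · exact hp.2.1 h9.symm
            · exact hp.2.2.2 (htin _ (left_mem he))
          · by_cases hq2 : q ∈ P₂ R S u
            · left
              rcases w2' h hh.1 q p (by rw [he, Sym2.eq_swap]) hq2 hp.2.2.2 with h1 | h1
              · rw [if_neg (h1.2.1 ▸ hqP)]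
                exact h1.1
              · have h5 : a₂ ∉ P := h1.2.1 ▸ hqP
                have h6 : re ∈ P := by tauto
                rw [if_pos h6]
                exact h1.1
            · right
              have hqz : q = z := by
                by_contra hqz
                exact hq ⟨mem_vx hX (right_mem he), hqz, hqP, hq2⟩
              rcases hf'all h hX (hqz ▸ right_mem he) with rfl | h1
              · exfalso
                rw [s.fe] at he
                rcases pair_cases he with ⟨h8, h9⟩ | ⟨h8, h9⟩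
                · exact hp.2.2.1 (h8 ▸ hrfP)
                · exact hp.2.1 h9.symm
              · exact h1
        · exact no_ac s.core (fun h => ((hmem z).mp h).2.1 rfl) htF
            (fun h => ((hmem t₁).mp ((mem_ins.mp h).2 t₁ (left_mem hte))).2.2.2 ht1P)
      obtain ⟨r, hr⟩ := ends_of_mem hzf'
      have hrz : r ≠ z := (G.ne_of_ends hr).symm
      have hf'P : ∀ h, h ∈ G.cut P → h ∈ X → h = f ∨ h = t ∨ h = g := by
        intro h hh hX
        have h1 : h ∈ X ∩ G.cut P := Finset.mem_inter.mpr ⟨hX, hh⟩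
        rw [hcut] at h1
        simpa using h1
      have hrP : r ∉ P := by
        intro hrP
        rcases hf'P f' (in_cut (p := r) (q := z) (by rw [hr, Sym2.eq_swap]) hrP hzP) hf'X with
          h1 | h1 | h1
        · exact hf'f h1
        · exact s.z2 (htin z (h1 ▸ hzf'))
        · exact notM s.core hgM (h1 ▸ hzf')
      have hr2 : r ∉ P₂ R S u := by
        intro h3
        have h4 : f' ∈ X ∩ G.cut R := Finset.mem_inter.mpr
          ⟨hf'X, in_cut (p := r) (q := z) (by rw [hr, Sym2.eq_swap]) (mem_P₂.mp h3).1 s.zR⟩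
        rw [s.cutR] at h4
        simp only [Finset.mem_insert, Finset.mem_singleton] at h4
        rcases h4 with h4 | h4 | h4
        · exact hf'f h4
        · rw [h4] at hzf'
          rcases mem_or s.ee hzf' with h5 | h5
          · exact s.zR (h5 ▸ s.reR)
          · exact s.wez h5.symm
        · exact notM s.core s.bM (h4 ▸ hzf')
      have h3 : r ∈ ((G.vx X).erase z \ P) \ P₂ R S u :=
        (hmem r).mpr ⟨mem_vx hf'X (right_mem hr), hrz, hrP, hr2⟩
      rw [hT] at h3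
      exact absurd h3 (Finset.notMem_empty r)
    · -- the inner part
      have hT : P \ P₂ R S u = ∅ := by
        refine h1c V E G X M F D z s.core _ (fun v hv => hPX (Finset.mem_sdiff.mp hv).1)
          (fun h => hzP (Finset.mem_sdiff.mp h).1) ?_ ?_ ?_
        · rintro h hh ⟨v, hv, hvT⟩
          rw [Finset.mem_sdiff] at hvT
          obtain ⟨w, hw⟩ := ends_of_mem hv
          have hvc : v ≠ c₁ := by
            rintro rfl
            exact hc1 hvT.1
          obtain ⟨k1, k2⟩ := hcl2 h hh v w hw hvT.2 hvc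
          exact ends_in hw (Finset.mem_sdiff.mpr hvT)
            (Finset.mem_sdiff.mpr ⟨k2.mp hvT.1, k1⟩)
        · refine card_le_two (x := f) (y := if re ∈ P then e else e₂) ?_
          intro h hh
          rw [Finset.mem_inter] at hh
          obtain ⟨p, q, he, hp, hq⟩ := cut_ex hh.2
          rw [Finset.mem_sdiff] at hp hq
          by_cases hqP : q ∈ P
          · right
            have hq2 : q ∈ P₂ R S u := by
              by_contra h
              exact hq ⟨hqP, h⟩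
            rcases w2' h hh.1 q p (by rw [he, Sym2.eq_swap]) hq2 hp.2 with h1 | h1
            · rw [if_pos (h1.2.1 ▸ hqP)]
              exact h1.1
            · have h5 : a₂ ∈ P := h1.2.1 ▸ hqP
              have h6 : re ∉ P := by tauto
              rw [if_neg h6]
              exact h1.1
          · left
            rcases hWP h hh.1 p q he hp.1 hqP with h1 | rfl
            · exact h1
            · exact absurd (htin _ (left_mem he)) hp.2
        · exact no_ac s.core (fun h => hzP (Finset.mem_sdiff.mp h).1) htF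
            (fun h => (Finset.mem_sdiff.mp ((mem_ins.mp h).2 t₁ (left_mem hte))).2 ht1P)
      have h3 : rf ∈ P \ P₂ R S u := Finset.mem_sdiff.mpr ⟨hrfP, hrf2⟩
      rw [hT] at h3
      exact absurd h3 (Finset.notMem_empty rf)
  · -- `g` not inside the second part
    have hcl : ∀ h ∈ M, ∀ v w, G.ends h = s(v, w) → v ∈ P₂ R S u → v ≠ c₂ →
        w ∈ P₂ R S u ∧ (v ∈ P ↔ w ∈ P) := by
      intro h hh v w he hv hvc
      have hw : w ∈ P₂ R S u := by
        by_contra hw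
        have h1 := s.m2 hh he hv hw
        subst h1
        rw [s.b'e] at he
        rcases pair_cases he with ⟨h8, h9⟩ | ⟨h8, h9⟩
        · exact (mem_P₂.mp hv).2.2 (h8 ▸ s.c1S)
        · exact hvc h9.symm
      refine ⟨hw, ?_, ?_⟩
      · intro hvP
        by_contra hwP
        have h1 := hMP h hh v w he hvP hwP
        exact hg (h1 ▸ ends_in he hv hw)
      · intro hwP
        by_contra hvP
        have h1 := hMP h hh w v (by rw [he, Sym2.eq_swap]) hwP hvP
        exact hg (h1 ▸ ends_in he hv hw)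
    by_cases hc2 : c₂ ∈ P
    · have hT : P₂ R S u \ P = ∅ := by
        refine h1c V E G X M F D z s.core _ (fun v hv => s.sub2 (Finset.mem_sdiff.mp hv).1)
          (fun h => s.z2 (Finset.mem_sdiff.mp h).1) ?_ ?_ ?_
        · rintro h hh ⟨v, hv, hvT⟩
          rw [Finset.mem_sdiff] at hvT
          obtain ⟨w, hw⟩ := ends_of_mem hv
          have hvc : v ≠ c₂ := by
            rintro rfl
            exact hvT.2 hc2
          obtain ⟨k1, k2⟩ := hcl h hh v w hw hvT.1 hvc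
          exact ends_in hw (Finset.mem_sdiff.mpr hvT)
            (Finset.mem_sdiff.mpr ⟨k1, fun k3 => hvT.2 (k2.mpr k3)⟩)
        · refine card_le_two (x := t) (y := if re ∈ P then e₂ else e) ?_
          intro h hh
          rw [Finset.mem_inter] at hh
          obtain ⟨p, q, he, hp, hq⟩ := cut_ex hh.2
          rcases wB h hh.1 p q he hp hq with h1 | h1 | h1
          · exact Or.inl h1
          · right
            rw [if_neg h1.2]
            exact h1.1
          · right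
            have h6 : re ∈ P := by tauto
            rw [if_pos h6]
            exact h1.1
        · exact s.noac _ (fun v hv => (mem_P₂.mp (Finset.mem_sdiff.mp hv).1).1)
      have h3 : t₂ ∈ P₂ R S u \ P := Finset.mem_sdiff.mpr ⟨ht2P, ht2⟩
      rw [hT] at h3
      exact absurd h3 (Finset.notMem_empty t₂)
    · have hT : P₂ R S u ∩ P = ∅ := by
        refine h1c V E G X M F D z s.core _ (fun v hv => s.sub2 (Finset.mem_inter.mp hv).1)
          (fun h => s.z2 (Finset.mem_inter.mp h).1) ?_ ?_ ?_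
        · rintro h hh ⟨v, hv, hvT⟩
          rw [Finset.mem_inter] at hvT
          obtain ⟨w, hw⟩ := ends_of_mem hv
          have hvc : v ≠ c₂ := by
            rintro rfl
            exact hc2 hvT.2
          obtain ⟨k1, k2⟩ := hcl h hh v w hw hvT.1 hvc
          exact ends_in hw (Finset.mem_inter.mpr hvT)
            (Finset.mem_inter.mpr ⟨k1, k2.mp hvT.2⟩)
        · refine card_le_two (x := t) (y := if re ∈ P then e else e₂) ?_
          intro h hh
          rw [Finset.mem_inter] at hh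
          obtain ⟨p, q, he, hp, hq⟩ := cut_ex hh.2
          rcases wA h hh.1 p q he hp hq with h1 | h1 | h1
          · exact Or.inl h1
          · right
            rw [if_pos h1.2]
            exact h1.1
          · right
            have h6 : re ∉ P := by tauto
            rw [if_neg h6]
            exact h1.1
        · exact s.noac _ (fun v hv => (mem_P₂.mp (Finset.mem_inter.mp hv).1).1)
      have h3 : t₁ ∈ P₂ R S u ∩ P := Finset.mem_inter.mpr ⟨ht1P, ht1⟩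
      rw [hT] at h3
      exact absurd h3 (Finset.notMem_empty t₁)

end sit

/-- the end of the case `e` not from the first part -/
lemma fin {R S : Finset V} {u u' rf re we a₁ a₂ c₁ c₂ : V} {f e b e₁ e₂ b' : E}
    (s : Sit G X M F D R S z u u' rf re we a₁ a₂ c₁ c₂ f e b e₁ e₂ b')
    (h1a : S_C1a) (h1c : S_C1c) (h2 : S_C2) (hre : re ∉ S) (ha1 : a₁ ∈ S) (ha2 : a₂ ∉ S) :
    ∃ (u n : V) (d e₁ b' : E), u ∈ R ∧ n ∈ R ∧ u ≠ n ∧ u ∈ G.ends b ∧ n ∈ G.ends e ∧
      u ∉ G.ends f ∧ n ∉ G.ends f ∧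
      d ∈ X \ M ∧ G.ends d = s(n, u) ∧ d ≠ e₁ ∧ e₁ ∈ X \ M ∧ u ∈ G.ends e₁ ∧ e₁ ≠ f ∧
      b' ∈ M ∧ n ∈ G.ends b' ∧ X ∩ G.cut (R \ {u, n}) = {f, e₁, b'} := by
  have hF := s.noF h1a h1c h2 hre ha1 ha2
  have hc2 : c₂ ∈ P₂ R S u := mem_P₂.mpr ⟨s.c2R, s.c2u, s.c2S⟩
  have hre2 : re ∈ P₂ R S u := mem_P₂.mpr ⟨s.reR, s.reu, hre⟩
  have ha22 : a₂ ∈ P₂ R S u := mem_P₂.mpr ⟨s.a2R, s.a2u, ha2⟩
  have hcard : (P₂ R S u).card ≤ 1 := by
    by_contra hcon
    have h4 := s.core.c4 (P₂ R S u) s.sub2 (by omega)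
    rw [if_neg s.z2, hF, Finset.card_empty] at h4
    have h5 : X ∩ G.cut (P₂ R S u) ⊆ {e, e₂, b'} := by
      intro h hh
      rw [Finset.mem_inter] at hh
      obtain ⟨p, q, he, hp, hq⟩ := cut_ex hh.2
      simp only [Finset.mem_insert, Finset.mem_singleton]
      by_cases hM : h ∈ M
      · exact Or.inr (Or.inr (s.m2 hM he hp hq))
      · rcases s.w2 (Finset.mem_sdiff.mpr ⟨hh.1, hM⟩) he hp hq with h1 | ⟨-, h1, -⟩ | h1
        · exact Or.inl h1.1
        · exact absurd (h1 ▸ ha1) (mem_P₂.mp hp).2.2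
        · exact Or.inr (Or.inl h1.1)
    have h6 := (Finset.card_le_card h5).trans Finset.card_le_three
    omega
  have hall : ∀ v ∈ P₂ R S u, v = c₂ := fun v hv =>
    Finset.card_le_one.mp hcard v hv c₂ hc2
  have hren : re = c₂ := hall re hre2
  have han : a₂ = c₂ := hall a₂ ha22
  have hmem : ∀ v, v ∈ R \ {u, c₂} ↔ v ∈ P₁ R S u := by
    intro v
    rw [Finset.mem_sdiff, Finset.mem_insert, Finset.mem_singleton, mem_P₁]
    constructor
    · rintro ⟨h1, h2⟩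
      refine ⟨h1, fun h => h2 (Or.inl h), ?_⟩
      by_contra h3
      exact h2 (Or.inr (hall v (mem_P₂.mpr ⟨h1, fun h => h2 (Or.inl h), h3⟩)))
    · rintro ⟨h1, h2, h3⟩
      refine ⟨h1, ?_⟩
      rintro (h | h)
      · exact h2 h
      · exact s.c2S (h ▸ h3)
  have hset : R \ {u, c₂} = P₁ R S u := Finset.ext hmem
  refine ⟨u, c₂, e₂, e₁, b', s.uR, s.c2R, s.c2u.symm, left_mem s.be, hren ▸ left_mem s.ee,
    s.uf, ?_, s.e2W, ?_, s.e12.symm, s.e1W, left_mem s.e1, s.fe1.symm, s.b'M,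
    right_mem s.b'e, ?_⟩
  · intro h
    rcases mem_or s.fe h with h1 | h1
    · exact s.c2S (h1 ▸ s.rfS)
    · exact s.zR (h1 ▸ s.c2R)
  · rw [s.e2, han, Sym2.eq_swap]
  · rw [hset]
    ext h
    simp only [Finset.mem_inter, Finset.mem_insert, Finset.mem_singleton]
    constructor
    · rintro ⟨hX, hcut⟩
      obtain ⟨p, q, he, hp, hq⟩ := cut_ex hcut
      by_cases hM : h ∈ M
      · exact Or.inr (Or.inr (s.m1 hM he hp hq))
      · rcases s.w1 (Finset.mem_sdiff.mpr ⟨hX, hM⟩) he hp hq with h1 | h1 | h1 | h1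
        · exact Or.inl h1.1
        · exact absurd (h1.2.1 ▸ (mem_P₁.mp hp).2.2) hre
        · exact Or.inr (Or.inl h1.1)
        · exact absurd (h1.2.1 ▸ (mem_P₁.mp hp).2.2) ha2
    · rintro (rfl | rfl | rfl)
      · exact ⟨(Finset.mem_sdiff.mp s.fW).1,
          in_cut s.fe (mem_P₁.mpr ⟨s.rfR, s.rfu, s.rfS⟩) s.z1⟩
      · refine ⟨(Finset.mem_sdiff.mp s.e1W).1, ?_⟩
        exact in_cut (p := a₁) (q := u) (by rw [s.e1, Sym2.eq_swap])
          (mem_P₁.mpr ⟨s.a1R, s.a1u, ha1⟩) (fun h => (mem_P₁.mp h).2.1 rfl)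
      · refine ⟨s.core.msub s.b'M, ?_⟩
        exact in_cut s.b'e (mem_P₁.mpr ⟨s.c1R, s.c1u, s.c1S⟩)
          (fun h => s.c2S (mem_P₁.mp h).2.2)

end core

end C3X

open C3X in
/-- the peeling step -/
theorem t_C3 (h1a : S_C1a) (h1b : S_C1b) (h1c : S_C1c) (h2 : S_C2) : S_C3 := by
  intro V E _ _ _ _ G X M F D z hc R f e b hRX hzR hzf heW hef hbM hcutR hmark hR2
  obtain ⟨t, htF, htR⟩ := hmark
  have hin : ∀ h, (h = f ∨ h = e ∨ h = b) → h ∈ X ∩ G.cut R := by
    intro h hh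
    rw [hcutR]
    simpa using hh
  have hfc := Finset.mem_inter.mp (hin f (Or.inl rfl))
  have hec := Finset.mem_inter.mp (hin e (Or.inr (Or.inl rfl)))
  have hbc := Finset.mem_inter.mp (hin b (Or.inr (Or.inr rfl)))
  have hfW : f ∈ X \ M := Finset.mem_sdiff.mpr ⟨hfc.1, fun h => notM hc h hzf⟩
  obtain ⟨u, u', hbe, huR, hu'R⟩ := cut_ex hbc.2
  obtain ⟨re, we, hee, hreR, hweR⟩ := cut_ex hec.2
  obtain ⟨rf, hfe, hrfR⟩ : ∃ rf, G.ends f = s(rf, z) ∧ rf ∈ R := by
    obtain ⟨p, q, he, hp, hq⟩ := cut_ex hfc.2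
    rcases mem_or he hzf with h1 | h1
    · exact absurd (h1 ▸ hp) hzR
    · exact ⟨p, by rw [he, h1], hp⟩
  have hcutR' : ∀ h ∈ X, h ∈ G.cut R → h = f ∨ h = e ∨ h = b := by
    intro h hX hh
    have h1 : h ∈ X ∩ G.cut R := Finset.mem_inter.mpr ⟨hX, hh⟩
    rw [hcutR] at h1
    simpa using h1
  have hwez : we ≠ z := by
    rintro rfl
    obtain ⟨f', hf'X, hf'f, hzf', hf'all⟩ := other hc hfc.1 hzf
    have hef' : f' = e := by
      rcases hf'all e hec.1 (right_mem hee) with h1 | h1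
      · exact absurd h1 hef
      · exact h1.symm
    refine h1b V E G X M F D we hc (insert we R) b ?_ ?_
    · intro v hv
      rcases Finset.mem_insert.mp hv with rfl | hv
      · exact mem_vx hfc.1 hzf
      · exact hRX hv
    · ext h
      rw [Finset.mem_inter, Finset.mem_singleton]
      constructor
      · rintro ⟨hX, hh⟩
        obtain ⟨p, q, he, hp, hq⟩ := cut_ex hh
        rw [Finset.mem_insert, not_or] at hq
        have hnf : h ≠ f := by
          rintro rfl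
          rw [hfe] at he
          rcases pair_cases he with ⟨h8, h9⟩ | ⟨h8, h9⟩
          · exact hq.1 h9.symm
          · exact hq.2 (h8 ▸ hrfR)
        have hne : h ≠ e := by
          rintro rfl
          rw [hee] at he
          rcases pair_cases he with ⟨h8, h9⟩ | ⟨h8, h9⟩
          · exact hq.1 h9.symm
          · exact hq.2 (h8 ▸ hreR)
        rcases Finset.mem_insert.mp hp with rfl | hp
        · rcases hf'all h hX (left_mem he) with h1 | h1
          · exact absurd h1 hnf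
          · exact absurd (h1.trans hef') hne
        · rcases hcutR' h hX (in_cut he hp hq.2) with h1 | h1 | h1
          · exact absurd h1 hnf
          · exact absurd h1 hne
          · exact h1
      · rintro rfl
        refine ⟨hbc.1, in_cut hbe (Finset.mem_insert_of_mem huR) ?_⟩
        rw [Finset.mem_insert, not_or]
        refine ⟨?_, hu'R⟩
        rintro rfl
        exact notM hc hbM (right_mem hbe)
  have huz : u ≠ z := by
    rintro rfl
    exact hzR huR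
  -- the edges of weight one at `u`
  have hdu := degW hc (hRX huR) huz
  unfold MGraph.deg at hdu
  obtain ⟨e₁, e₂, he12, hst⟩ := Finset.card_eq_two.mp hdu
  have hstar : ∀ h, (h ∈ X \ M ∧ u ∈ G.ends h) ↔ (h = e₁ ∨ h = e₂) := by
    intro h
    have : h ∈ (X \ M).filter (fun e => u ∈ G.ends e) ↔ h ∈ ({e₁, e₂} : Finset E) := by
      rw [hst]
    simpa only [Finset.mem_filter, Finset.mem_insert, Finset.mem_singleton] using this
  have he1 := (hstar e₁).mpr (Or.inl rfl)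
  have he2 := (hstar e₂).mpr (Or.inr rfl)
  -- the set without `u`
  have hTX : R.erase u ⊆ G.vx X := fun v hv => hRX (Finset.mem_of_mem_erase hv)
  have hTz : z ∉ R.erase u := fun h => hzR (Finset.mem_of_mem_erase h)
  have hTne : (R.erase u).Nonempty := by
    rw [← Finset.card_pos, Finset.card_erase_of_mem huR]
    omega
  have hTcl : ∀ g ∈ M, (∃ v ∈ G.ends g, v ∈ R.erase u) → ∀ v ∈ G.ends g, v ∈ R.erase u := by
    rintro g hg ⟨v, hv, hvT⟩
    rw [Finset.mem_erase] at hvT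
    obtain ⟨w, hw⟩ := ends_of_mem hv
    have hwR : w ∈ R := by
      by_contra hwR
      rcases hcutR' g (hc.msub hg) (in_cut hw hvT.2 hwR) with h1 | h1 | h1
      · exact (Finset.mem_sdiff.mp hfW).2 (h1 ▸ hg)
      · exact (Finset.mem_sdiff.mp heW).2 (h1 ▸ hg)
      · rw [h1, hbe] at hw
        rcases pair_cases hw with ⟨h8, h9⟩ | ⟨h8, h9⟩
        · exact hvT.1 h8.symm
        · exact hwR (h8 ▸ huR)
    refine ends_in hw (Finset.mem_erase.mpr hvT) (Finset.mem_erase.mpr ⟨?_, hwR⟩)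
    rintro rfl
    have h1 := uniqM hc hg hbM (right_mem hw) (left_mem hbe)
    rw [h1, hbe] at hw
    rcases pair_cases hw with ⟨h8, h9⟩ | ⟨h8, h9⟩
    · exact hvT.1 h8.symm
    · exact hu'R (h9 ▸ hvT.2)
  have hnoac : ∀ T : Finset V, T ⊆ R → ∀ D', D' ⊆ G.ins X T → ¬ G.IsAC M D' := by
    intro T hT
    refine no_ac hc (fun h => hzR (hT h)) htF (fun h => htR ?_)
    rw [mem_ins] at h ⊢
    exact ⟨h.1, fun v hv => hT (h.2 v hv)⟩
  have hTno := hnoac (R.erase u) (Finset.erase_subset u R)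
  -- `u` is not an end of `f` or `e`
  have hkey : ∀ x y, (∀ h ∈ X \ M, h ∈ G.cut R → h = x ∨ h = y) → x ∈ X \ M →
      x ∈ G.cut R → u ∈ G.ends x → False := by
    intro x y hxy hxW hxc hux
    obtain ⟨w, hw⟩ : ∃ w, ∀ h ∈ X \ M, u ∈ G.ends h → h = x ∨ h = w := by
      rcases (hstar x).mp ⟨hxW, hux⟩ with rfl | rfl
      · exact ⟨e₂, fun h h1 h2 => (hstar h).mp ⟨h1, h2⟩⟩
      · exact ⟨e₁, fun h h1 h2 => ((hstar h).mp ⟨h1, h2⟩).symm⟩
    have hxn : x ∉ G.cut (R.erase u) := by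
      intro h
      obtain ⟨p, q, he, hp, hq⟩ := cut_ex h
      rw [Finset.mem_erase] at hp
      obtain ⟨p', q', he', hp', hq'⟩ := cut_ex hxc
      have hup : u = q := by
        rcases mem_or he hux with h1 | h1
        · exact absurd h1.symm hp.1
        · exact h1
      rw [he] at he'
      rcases pair_cases he' with ⟨h8, h9⟩ | ⟨h8, h9⟩
      · exact hq' (h9 ▸ hup ▸ huR)
      · exact hq' (h8 ▸ hp.2)
    have hem := h1c V E G X M F D z hc (R.erase u) hTX hTz hTcl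
      (card_le_two (x := y) (y := w) (fun h hh => by
        rw [Finset.mem_inter] at hh
        have hhx : h ≠ x := by
          rintro rfl
          exact hxn hh.2
        obtain ⟨p, q, he, hp, hq⟩ := cut_ex hh.2
        rw [Finset.mem_erase] at hp
        by_cases hqR : q ∈ R
        · right
          have hqu : q = u := by
            by_contra hqu
            exact hq (Finset.mem_erase.mpr ⟨hqu, hqR⟩)
          rcases hw h hh.1 (hqu ▸ right_mem he) with h1 | h1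
          · exact absurd h1 hhx
          · exact h1
        · left
          rcases hxy h hh.1 (in_cut he hp.2 hqR) with h1 | h1
          · exact absurd h1 hhx
          · exact h1)) hTno
    exact absurd hem hTne.ne_empty
  have hWR : ∀ h ∈ X \ M, h ∈ G.cut R → h = f ∨ h = e := by
    intro h hh hcut
    rw [Finset.mem_sdiff] at hh
    rcases hcutR' h hh.1 hcut with h1 | h1 | h1
    · exact Or.inl h1
    · exact Or.inr h1
    · exact absurd (h1 ▸ hbM) hh.2
  have huf : u ∉ G.ends f := fun h => hkey f e hWR hfW hfc.2 h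
  have hue : u ∉ G.ends e := fun h => hkey e f (fun h h1 h2 => (hWR h h1 h2).symm) heW hec.2 h
  have hrfu : rf ≠ u := by
    rintro rfl
    exact huf (left_mem hfe)
  have hreu : re ≠ u := by
    rintro rfl
    exact hue (left_mem hee)
  have hinner : ∀ h, h ∈ X \ M ∧ u ∈ G.ends h → ∃ a, G.ends h = s(u, a) ∧ a ∈ R ∧ a ≠ u := by
    rintro h ⟨hW, hu⟩
    obtain ⟨a, ha⟩ := ends_of_mem hu
    refine ⟨a, ha, ?_, (G.ne_of_ends ha).symm⟩
    by_contra haR
    rcases hWR h hW (in_cut ha huR haR) with h1 | h1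
    · exact huf (h1 ▸ hu)
    · exact hue (h1 ▸ hu)
  obtain ⟨a₁, hea1, ha1R, ha1u⟩ := hinner e₁ he1
  obtain ⟨a₂, hea2, ha2R, ha2u⟩ := hinner e₂ he2
  obtain ⟨b', S, c₁, c₂, hb'M, hrS, hb'e, hc1T, hc1S, hc2T, hc2S, hbrg⟩ :=
    kot hc hTX hTz hTne hTcl hTno rf
  rw [Finset.mem_erase] at hc1T hc2T
  have s : Sit G X M F D R S z u u' rf re we a₁ a₂ c₁ c₂ f e b e₁ e₂ b' :=
    { core := hc, Rvx := hRX, zR := hzR, fW := hfW, eW := heW, ef := hef, bM := hbM,
      cutR := hcutR, be := hbe, uR := huR, u'R := hu'R, fe := hfe, rfR := hrfR, rfu := hrfu,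
      ee := hee, reR := hreR, reu := hreu, weR := hweR, wez := hwez, e1 := hea1, a1R := ha1R,
      a1u := ha1u, e1W := he1.1, e2 := hea2, a2R := ha2R, a2u := ha2u, e2W := he2.1,
      e12 := he12, stu := fun h h1 h2 => (hstar h).mp ⟨h1, h2⟩, b'M := hb'M, b'e := hb'e,
      c1R := hc1T.2, c1u := hc1T.1, c1S := hc1S, c2R := hc2T.2, c2u := hc2T.1, c2S := hc2S,
      rfS := hrS,
      brg := fun h hX p q he hp hpu hq hqu hpS hqS => hbrg h hX p q he
        (Finset.mem_erase.mpr ⟨hpu, hp⟩) (Finset.mem_erase.mpr ⟨hqu, hq⟩) hpS hqS,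
      noac := hnoac }
  by_cases hre : re ∈ S
  · exact absurd (s.caseA h1a h1b h2 hre) id
  · have hpar := s.par1 h1a
    by_cases h3 : a₁ ∈ S <;> by_cases h4 : a₂ ∈ S
    · simp [hre, h3, h4] at hpar
      exact absurd hpar (by decide)
    · exact fin s h1a h1c h2 hre h3 h4
    · exact fin s.swap h1a h1c h2 hre h4 h3
    · simp [hre, h3, h4] at hpar

end Pool.GOZ
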