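import Pool.Agent.GOZ.StmtsC

/-!
Theorem Z, part C: C4 (the half ladder), by strong induction from C3.
-/

set_option autoImplicit false
set_option linter.unusedSectionVars false

namespace Pool.GOZ

open Pool.GOD Pool.GOD.MGraph

namespace C4x

/-- prepend two values to a sequence -/
def two {α : Type} (x y : α) (q : ℕ → α) : ℕ → α
  | 0 => x
  | 1 => y
  | j + 2 => q j

/-- prepend one value to a sequence -/
def one {α : Type} (x : α) (q : ℕ → α) : ℕ → α
  | 0 => x
  | j + 1 => q j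

variable {V E : Type} [Fintype V] [DecidableEq V] [Fintype E] [DecidableEq E] {G : MGraph V E}
  {X M F D : Finset E} {z : V}

lemma ends_eq {e : E} {a b : V} (ha : a ∈ G.ends e) (hb : b ∈ G.ends e) (hab : a ≠ b) :
    G.ends e = s(a, b) := (Sym2.mem_and_mem_iff hab).1 ⟨ha, hb⟩

lemma of_cut {R : Finset V} {g : E} {T : Finset E} (hT : X ∩ G.cut R = T) (hg : g ∈ T) :
    g ∈ X ∧ (∃ a ∈ G.ends g, a ∈ R) ∧ ∃ b ∈ G.ends g, b ∉ R := by
  rw [← hT, Finset.mem_inter, cut, Finset.mem_filter] at hg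
  exact ⟨hg.1, hg.2.2.1, hg.2.2.2⟩

lemma f_notMem (h : G.Core X M F D z) {f : E} (hz : z ∈ G.ends f) : f ∉ M := by
  intro hf
  have h1 := G.deg_pos_iff.2 ⟨f, hf, hz⟩
  rw [h.degmz] at h1
  exact lt_irrefl _ h1

lemma base (h : G.Core X M F D z) {R : Finset V} {f e b : E} (hzR : z ∉ R) (hzf : z ∈ G.ends f)
    (hfX : f ∈ X) (he : e ∈ X \ M) (hb : b ∈ M) (hcut : X ∩ G.cut R = {f, e, b})
    (hR : R.card < 2) :
    ∃ (k : ℕ) (q : ℕ → V) (s c : ℕ → E), G.Half X M R z f e b k q s c := by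
  obtain ⟨-, ⟨a, ha, haR⟩, -⟩ := of_cut (g := f) hcut (by simp)
  obtain ⟨-, ⟨a', ha', haR'⟩, v', hv', hvR'⟩ := of_cut (g := e) hcut (by simp)
  obtain ⟨-, ⟨a'', ha'', haR''⟩, v'', hv'', hvR''⟩ := of_cut (g := b) hcut (by simp)
  have h1 : R = {a} := by
    apply (Finset.eq_of_subset_of_card_le (Finset.singleton_subset_iff.2 haR) _).symm
    rw [Finset.card_singleton]
    omega
  have h2 : a' = a := by rw [h1, Finset.mem_singleton] at haR'; exact haR'
  have h3 : a'' = a := by rw [h1, Finset.mem_singleton] at haR''; exact haR''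
  subst h2 h3
  refine ⟨0, fun _ => a'', fun _ => f, fun _ => b, ?_⟩
  exact {
    inj := fun i j hi hj _ => by omega
    mem := fun v => by
      rw [h1, Finset.mem_singleton]
      exact ⟨fun h => ⟨0, by omega, h⟩, fun ⟨_, _, h⟩ => h⟩
    es := fun j hj => by omega
    ef := ⟨rfl, Finset.mem_sdiff.2 ⟨hfX, f_notMem h hzf⟩,
      ends_eq ha hzf (fun hh => hzR (hh ▸ haR))⟩
    ee := ⟨he, ha', v', hv', hvR'⟩
    ec := fun i hi => by omega
    eb := ⟨hb, ha'', v'', hv'', hvR''⟩ }

lemma step {R : Finset V} {f e b : E} (he : e ∈ X \ M) (hb : b ∈ M)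
    (hcut : X ∩ G.cut R = {f, e, b}) {u n : V} {d e₁ b' : E} (huR : u ∈ R) (hnR : n ∈ R)
    (hun : u ≠ n) (hub : u ∈ G.ends b) (hne : n ∈ G.ends e) (hd : d ∈ X \ M)
    (hdn : G.ends d = s(n, u)) (hu₁ : u ∈ G.ends e₁)
    (hn' : n ∈ G.ends b') {k : ℕ} {q : ℕ → V} {s c : ℕ → E}
    (H : G.Half X M (R \ {u, n}) z f e₁ b' k q s c) :
    G.Half X M R z f e b (k + 1) (two n u q) (two d e₁ s) (one b' c) := by
  have hq : ∀ i, i ≤ 2 * k → q i ∈ R ∧ q i ≠ u ∧ q i ≠ n := by
    intro i hi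
    have h1 : q i ∈ R \ {u, n} := (H.mem (q i)).2 ⟨i, hi, rfl⟩
    rw [Finset.mem_sdiff, Finset.mem_insert, Finset.mem_singleton, not_or] at h1
    exact ⟨h1.1, h1.2.1, h1.2.2⟩
  obtain ⟨-, -, v', hv', hvR'⟩ := of_cut (g := e) hcut (by simp)
  obtain ⟨-, -, v'', hv'', hvR''⟩ := of_cut (g := b) hcut (by simp)
  have hmin : ∀ m : ℕ, two n u q (min (m + 2) (2 * (k + 1))) = q (min m (2 * k)) := by
    intro m
    have : min (m + 2) (2 * (k + 1)) = min m (2 * k) + 2 := by omega
    rw [this]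
    rfl
  exact {
    inj := by
      intro i j hi hj hij
      match i, j, hi, hj, hij with
      | 0, 0, _, _, _ => rfl
      | 0, 1, _, _, hij => exact absurd hij.symm hun
      | 0, j + 2, _, hj, hij => exact absurd hij.symm (hq j (by omega)).2.2
      | 1, 0, _, _, hij => exact absurd hij hun
      | 1, 1, _, _, _ => rfl
      | 1, j + 2, _, hj, hij => exact absurd hij.symm (hq j (by omega)).2.1
      | i + 2, 0, hi, _, hij => exact absurd hij (hq i (by omega)).2.2
      | i + 2, 1, hi, _, hij => exact absurd hij (hq i (by omega)).2.1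
      | i + 2, j + 2, hi, hj, hij =>
        have := H.inj i j (by omega) (by omega) hij
        omega
    mem := by
      intro v
      constructor
      · intro hv
        by_cases h1 : v = n
        · exact ⟨0, by omega, h1⟩
        by_cases h2 : v = u
        · exact ⟨1, by omega, h2⟩
        obtain ⟨i, hi, hvi⟩ := (H.mem v).1 (by
          rw [Finset.mem_sdiff, Finset.mem_insert, Finset.mem_singleton, not_or]
          exact ⟨hv, h2, h1⟩)
        exact ⟨i + 2, by omega, hvi⟩
      · rintro ⟨i, hi, hvi⟩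
        match i, hi, hvi with
        | 0, _, hvi => exact hvi ▸ hnR
        | 1, _, hvi => exact hvi ▸ huR
        | i + 2, hi, hvi => exact hvi ▸ (hq i (by omega)).1
    es := by
      intro j hj
      match j, hj with
      | 0, _ => exact ⟨hd, hdn⟩
      | 1, _ => exact ⟨H.ee.1, ends_eq hu₁ H.ee.2.1 (hq 0 (by omega)).2.1.symm⟩
      | j + 2, hj => exact H.es j (by omega)
    ef := H.ef
    ee := ⟨he, hne, v', hv', hvR'⟩
    ec := by
      intro i hi
      match i, hi with
      | 0, _ =>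
        refine ⟨H.eb.1, ?_⟩
        have h1 : two n u q (min (2 * 0 + 3) (2 * (k + 1))) = q (min 1 (2 * k)) := hmin 1
        rw [h1]
        exact ends_eq hn' H.eb.2.1 (hq _ (by omega)).2.2.symm
      | i + 1, hi =>
        refine ⟨(H.ec i (by omega)).1, ?_⟩
        have h1 : two n u q (min (2 * (i + 1) + 3) (2 * (k + 1))) = q (min (2 * i + 3) (2 * k)) :=
          hmin (2 * i + 3)
        rw [h1]
        exact (H.ec i (by omega)).2
    eb := by
      have h1 : min 1 (2 * (k + 1)) = 1 := by omega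
      rw [h1]
      exact ⟨hb, hub, v'', hv'', hvR''⟩ }

end C4x

open C4x in
theorem t_C4 (h3 : S_C3) : S_C4 := by
  intro V E _ _ _ _ G X M F D z h R
  induction R using Finset.strongInduction with
  | H R ih =>
    intro f e b hR hzR hzf hfX he hef hb hcut ht
    by_cases hc : R.card < 2
    · exact base h hzR hzf hfX he hb hcut hc
    obtain ⟨u, n, d, e₁, b', huR, hnR, hun, hub, hne, -, -, hd, hdn, -, he₁, hu₁, hef₁, hb', hn',
      hcut'⟩ := h3 V E G X M F D z h R f e b hR hzR hzf he hef hb hcut ht (by omega)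
    have hss : R \ {u, n} ⊂ R := by
      refine ⟨Finset.sdiff_subset, fun hh => ?_⟩
      have := hh huR
      rw [Finset.mem_sdiff] at this
      exact this.2 (Finset.mem_insert_self _ _)
    obtain ⟨t, htF, htR⟩ := ht
    obtain ⟨k, q, s, c, H⟩ := ih (R \ {u, n}) hss f e₁ b' (hss.1.trans hR)
      (fun hz => hzR (hss.1 hz)) hzf hfX he₁ hef₁ hb' hcut' ⟨t, htF, fun hh => htR (by
        rw [ins, Finset.mem_filter] at hh ⊢
        exact ⟨hh.1, fun v hv => hss.1 (hh.2 v hv)⟩)⟩
    exact ⟨k + 1, _, _, _, step he hb hcut huR hnR hun hub hne hd hdn hu₁ hn' H⟩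

end Pool.GOZ
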