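import Pool.Agent.GOZ.StmtsC

/-!
Theorem Z, part C5a: assembly of the zigzag from two half ladders.
-/

set_option autoImplicit false
set_option linter.unusedSectionVars false

namespace Pool.GOZ

open Pool.GOD Pool.GOD.MGraph

namespace C5aX

section

variable {V E : Type} [Fintype V] [DecidableEq V] [Fintype E] [DecidableEq E] (G : MGraph V E)

/-- if `v` has degree 2, two known edges are all edges -/
lemma two {X : Finset E} {v : V} (h : G.deg X v = 2) {a b e : E} (ha : a ∈ X) (hav : v ∈ G.ends a)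
    (hb : b ∈ X) (hbv : v ∈ G.ends b) (hab : a ≠ b) (he : e ∈ X) (hev : v ∈ G.ends e) :
    e = a ∨ e = b := by
  have hsub : ({a, b} : Finset E) ⊆ X.filter (fun e => v ∈ G.ends e) := by
    intro y hy
    rw [Finset.mem_insert, Finset.mem_singleton] at hy
    rcases hy with rfl | rfl
    · exact Finset.mem_filter.mpr ⟨ha, hav⟩
    · exact Finset.mem_filter.mpr ⟨hb, hbv⟩
  have hcard : ({a, b} : Finset E).card = 2 := Finset.card_pair hab
  have heq := Finset.eq_of_subset_of_card_le hsub (by rw [hcard]; exact h.le)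
  have hm : e ∈ X.filter (fun e => v ∈ G.ends e) := Finset.mem_filter.mpr ⟨he, hev⟩
  rw [← heq, Finset.mem_insert, Finset.mem_singleton] at hm
  exact hm

/-- if `v` has degree 3, three known edges are all edges -/
lemma three {X : Finset E} {v : V} (h : G.deg X v = 3) {a b c e : E} (ha : a ∈ X)
    (hav : v ∈ G.ends a) (hb : b ∈ X) (hbv : v ∈ G.ends b) (hc : c ∈ X) (hcv : v ∈ G.ends c)
    (hab : a ≠ b) (hac : a ≠ c) (hbc : b ≠ c) (he : e ∈ X) (hev : v ∈ G.ends e) :
    e = a ∨ e = b ∨ e = c := by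
  have hsub : ({a, b, c} : Finset E) ⊆ X.filter (fun e => v ∈ G.ends e) := by
    intro y hy
    rw [Finset.mem_insert, Finset.mem_insert, Finset.mem_singleton] at hy
    rcases hy with rfl | rfl | rfl
    · exact Finset.mem_filter.mpr ⟨ha, hav⟩
    · exact Finset.mem_filter.mpr ⟨hb, hbv⟩
    · exact Finset.mem_filter.mpr ⟨hc, hcv⟩
  have hcard : ({a, b, c} : Finset E).card = 3 := Finset.card_eq_three.mpr ⟨a, b, c, hab, hac, hbc, rfl⟩
  have heq := Finset.eq_of_subset_of_card_le hsub (by rw [hcard]; exact h.le)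
  have hm : e ∈ X.filter (fun e => v ∈ G.ends e) := Finset.mem_filter.mpr ⟨he, hev⟩
  rw [← heq, Finset.mem_insert, Finset.mem_insert, Finset.mem_singleton] at hm
  exact hm

/-- an edge with two known distinct ends -/
lemma ends_eq {e : E} {a b : V} (ha : a ∈ G.ends e) (hb : b ∈ G.ends e) (hab : a ≠ b) :
    G.ends e = s(a, b) := by
  exact ((Sym2.mem_and_mem_iff hab).mp ⟨ha, hb⟩)

/-- degree 2: there are two edges -/
lemma exists_two {X : Finset E} {v : V} (h : G.deg X v = 2) :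
    ∃ a b, a ∈ X ∧ v ∈ G.ends a ∧ b ∈ X ∧ v ∈ G.ends b ∧ a ≠ b := by
  unfold MGraph.deg at h
  obtain ⟨a, b, hab, hs⟩ := Finset.card_eq_two.mp h
  have ha : a ∈ X.filter (fun e => v ∈ G.ends e) := by rw [hs]; simp
  have hb : b ∈ X.filter (fun e => v ∈ G.ends e) := by rw [hs]; simp
  rw [Finset.mem_filter] at ha hb
  exact ⟨a, b, ha.1, ha.2, hb.1, hb.2, hab⟩

lemma mem_vx {X : Finset E} {v : V} : v ∈ G.vx X ↔ ∃ e ∈ X, v ∈ G.ends e := by
  unfold MGraph.vx
  rw [Finset.mem_filter, ← Nat.pos_iff_ne_zero, G.deg_pos_iff]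
  simp

/-- the marked set is non-empty -/
lemma F_nonempty {X M F D : Finset E} {z : V} (h : G.Core X M F D z) : ∃ t, t ∈ F := by
  obtain ⟨f₁, f₂, h1, h1z, h2, h2z, h12⟩ := exists_two G h.degz
  obtain ⟨a, b, hab, he⟩ := G.exists_ends f₁
  have ha : a ∈ G.vx X := (mem_vx G).mpr ⟨f₁, h1, by rw [he]; exact Sym2.mem_mk_left a b⟩
  have hb : b ∈ G.vx X := (mem_vx G).mpr ⟨f₁, h1, by rw [he]; exact Sym2.mem_mk_right a b⟩
  have hc2 : 2 ≤ (G.vx X).card := by
    have : ({a, b} : Finset V) ⊆ G.vx X := by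
      intro y hy
      rw [Finset.mem_insert, Finset.mem_singleton] at hy
      rcases hy with rfl | rfl
      · exact ha
      · exact hb
    calc 2 = ({a, b} : Finset V).card := (Finset.card_pair hab).symm
      _ ≤ _ := Finset.card_le_card this
  have h4 := h.c4 (G.vx X) (Finset.Subset.refl _) hc2
  have hcut : X ∩ G.cut (G.vx X) = ∅ := by
    rw [Finset.eq_empty_iff_forall_notMem]
    intro e hee
    rw [Finset.mem_inter] at hee
    obtain ⟨c, d, hcd, hce⟩ := G.exists_ends e
    rw [G.mem_cut hce] at hee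
    have hc' : c ∈ G.vx X := (mem_vx G).mpr ⟨e, hee.1, by rw [hce]; exact Sym2.mem_mk_left c d⟩
    have hd' : d ∈ G.vx X := (mem_vx G).mpr ⟨e, hee.1, by rw [hce]; exact Sym2.mem_mk_right c d⟩
    rcases hee.2 with hh | hh
    · exact hh.2 hd'
    · exact hh.2 hc'
  rw [hcut, Finset.card_empty] at h4
  have h5 : 0 < (G.ins F (G.vx X)).card := by
    split_ifs at h4 <;> omega
  obtain ⟨t, ht⟩ := Finset.card_pos.mp h5
  unfold MGraph.ins at ht
  exact ⟨t, (Finset.mem_filter.mp ht).1⟩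

/-- the glued sequence of points -/
def P (k' : ℕ) (q q' : ℕ → V) (i : ℕ) : V := if i ≤ 2 * k' then q' (2 * k' - i) else q (i - (2 * k' + 1))

/-- the glued sequence of arcs -/
def A (k' : ℕ) (t : E) (s s' : ℕ → E) (i : ℕ) : E :=
  if i < 2 * k' then s' (2 * k' - 1 - i) else if i = 2 * k' then t else s (i - (2 * k' + 1))

/-- the glued sequence of chords -/
def C (k' : ℕ) (g : E) (c c' : ℕ → E) (j : ℕ) : E :=
  if j < k' then c' (k' - 1 - j) else if j = k' then g else c (j - (k' + 1))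

lemma P_lo {k' : ℕ} {q q' : ℕ → V} {i : ℕ} (h : i ≤ 2 * k') : P k' q q' i = q' (2 * k' - i) := by
  unfold P; rw [if_pos h]

lemma P_hi {k' : ℕ} {q q' : ℕ → V} {i : ℕ} (h : 2 * k' < i) :
    P k' q q' i = q (i - (2 * k' + 1)) := by
  unfold P; rw [if_neg (by omega)]

/-- the assembly -/
lemma assemble {X M F D : Finset E} {z : V} (h : G.Core X M F D z) {f₁ f₂ t g : E}
    (h1z : z ∈ G.ends f₁) (h2z : z ∈ G.ends f₂) (h1X : f₁ ∈ X) (h2X : f₂ ∈ X)
    (h12 : f₁ ≠ f₂) (htM : t ∈ X \ M) (R R' : Finset V) (hzR : z ∉ R)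
    (hzR' : z ∉ R') (hdis : ∀ v, v ∈ R → v ∈ R' → False)
    (hcov : ∀ v, v ∈ G.vx X → v ≠ z → v ∈ R ∨ v ∈ R')
    {k k' : ℕ} {q q' : ℕ → V} {s c s' c' : ℕ → E}
    (H : G.Half X M R z f₁ t g k q s c) (H' : G.Half X M R' z f₂ t g k' q' s' c') :
    G.ZigS X M z (k + k' + 1) (P k' q q') (A k' t s s') (C k' g c c') f₂ f₁ := by
  have hqR : ∀ i, i ≤ 2 * k → q i ∈ R := fun i hi => (H.mem _).mpr ⟨i, hi, rfl⟩
  have hqR' : ∀ i, i ≤ 2 * k' → q' i ∈ R' := fun i hi => (H'.mem _).mpr ⟨i, hi, rfl⟩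
  have inj : ∀ i j, i < 2 * (k + k' + 1) → j < 2 * (k + k' + 1) → P k' q q' i = P k' q q' j →
      i = j := by
    intro i j hi hj hij
    rcases Nat.lt_or_ge (2 * k') i with h1 | h1 <;> rcases Nat.lt_or_ge (2 * k') j with h2 | h2
    · rw [P_hi h1, P_hi h2] at hij
      have := H.inj _ _ (by omega) (by omega) hij
      omega
    · rw [P_hi h1, P_lo h2] at hij
      exact (hdis (q (i - (2 * k' + 1))) (hqR _ (by omega)) (hij ▸ hqR' _ (by omega))).elim
    · rw [P_lo h1, P_hi h2] at hij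
      exact (hdis (q (j - (2 * k' + 1))) (hqR _ (by omega)) (hij ▸ hqR' _ (by omega))).elim
    · rw [P_lo h1, P_lo h2] at hij
      have := H'.inj _ _ (by omega) (by omega) hij
      omega
  have nz : ∀ i, i < 2 * (k + k' + 1) → P k' q q' i ≠ z := by
    intro i hi hz
    rcases Nat.lt_or_ge (2 * k') i with h1 | h1
    · rw [P_hi h1] at hz
      exact hzR (hz ▸ hqR _ (by omega))
    · rw [P_lo h1] at hz
      exact hzR' (hz ▸ hqR' _ (by omega))
  have ea : ∀ i, i + 1 < 2 * (k + k' + 1) → A k' t s s' i ∈ X \ M ∧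
      G.ends (A k' t s s' i) = s(P k' q q' i, P k' q q' (i + 1)) := by
    intro i hi
    rcases lt_trichotomy i (2 * k') with h1 | h1 | h1
    · have hA : A k' t s s' i = s' (2 * k' - 1 - i) := by unfold A; rw [if_pos h1]
      have := H'.es (2 * k' - 1 - i) (by omega)
      rw [hA, P_lo h1.le, P_lo (by omega : i + 1 ≤ 2 * k')]
      refine ⟨this.1, ?_⟩
      rw [this.2, show 2 * k' - 1 - i + 1 = 2 * k' - i by omega,
        show 2 * k' - 1 - i = 2 * k' - (i + 1) by omega, Sym2.eq_swap]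
    · subst h1
      have hA : A k' t s s' (2 * k') = t := by unfold A; rw [if_neg (lt_irrefl _), if_pos rfl]
      rw [hA, P_lo le_rfl, P_hi (by omega : 2 * k' < 2 * k' + 1), Nat.sub_self, Nat.sub_self]
      refine ⟨htM, ends_eq G H'.ee.2.1 H.ee.2.1 ?_⟩
      intro hqq
      exact hdis (q 0) (hqR 0 (by omega)) (hqq ▸ hqR' 0 (by omega))
    · have hA : A k' t s s' i = s (i - (2 * k' + 1)) := by
        unfold A; rw [if_neg (by omega), if_neg (by omega)]
      have := H.es (i - (2 * k' + 1)) (by omega)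
      rw [hA, P_hi h1, P_hi (by omega : 2 * k' < i + 1)]
      refine ⟨this.1, ?_⟩
      rw [this.2, show i - (2 * k' + 1) + 1 = i + 1 - (2 * k' + 1) by omega]
  have ec : ∀ j, j < k + k' + 1 → C k' g c c' j ∈ M ∧ G.ends (C k' g c c' j) =
      s(P k' q q' (2 * j - 1), P k' q q' (min (2 * j + 2) (2 * (k + k' + 1) - 1))) := by
    intro j hj
    rcases lt_trichotomy j k' with h1 | h1 | h1
    · have hC : C k' g c c' j = c' (k' - 1 - j) := by unfold C; rw [if_pos h1]
      have := H'.ec (k' - 1 - j) (by omega)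
      rw [hC, P_lo (by omega : 2 * j - 1 ≤ 2 * k'),
        P_lo (by omega : min (2 * j + 2) (2 * (k + k' + 1) - 1) ≤ 2 * k')]
      refine ⟨this.1, ?_⟩
      rw [this.2, Sym2.eq_swap]
      congr 2
      · omega
      · omega
    · subst h1
      have hC : C j g c c' j = g := by unfold C; rw [if_neg (lt_irrefl _), if_pos rfl]
      have e1 : P j q q' (2 * j - 1) = q' (min 1 (2 * j)) := by
        rw [P_lo (by omega)]; congr 1; omega
      have e2 : P j q q' (min (2 * j + 2) (2 * (k + j + 1) - 1)) = q (min 1 (2 * k)) := by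
        rw [P_hi (by omega)]; congr 1; omega
      rw [hC, e1, e2]
      refine ⟨H.eb.1, ends_eq G H'.eb.2.1 H.eb.2.1 ?_⟩
      intro hqq
      exact hdis (q (min 1 (2 * k))) (hqR _ (by omega)) (hqq ▸ hqR' _ (by omega))
    · have hC : C k' g c c' j = c (j - (k' + 1)) := by
        unfold C; rw [if_neg (by omega), if_neg (by omega)]
      have := H.ec (j - (k' + 1)) (by omega)
      rw [hC, P_hi (by omega : 2 * k' < 2 * j - 1),
        P_hi (by omega : 2 * k' < min (2 * j + 2) (2 * (k + k' + 1) - 1))]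
      refine ⟨this.1, ?_⟩
      rw [this.2]
      congr 2
      · omega
      · omega
  have ez0 : f₂ ∈ X \ M ∧ G.ends f₂ = s(z, P k' q q' 0) := by
    rw [P_lo (Nat.zero_le _), Nat.sub_zero]
    exact ⟨H'.ef.2.1, by rw [H'.ef.2.2, Sym2.eq_swap]⟩
  have ez1 : f₁ ∈ X \ M ∧ G.ends f₁ = s(P k' q q' (2 * (k + k' + 1) - 1), z) := by
    rw [P_hi (by omega), show 2 * (k + k' + 1) - 1 - (2 * k' + 1) = 2 * k by omega]
    exact ⟨H.ef.2.1, H.ef.2.2⟩
  have hM : ∀ {e e' : E}, e ∈ X \ M → e' ∈ M → e ≠ e' := by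
    intro e e' he he' hee
    exact (Finset.mem_sdiff.mp he).2 (hee ▸ he')
  refine ⟨by omega, inj, nz, ea, ec, ez0, ez1, h12.symm, ?_⟩
  intro e he
  by_cases hze : z ∈ G.ends e
  · rcases two G h.degz h2X h2z h1X h1z h12.symm he hze with h3 | h3
    · exact Or.inr (Or.inr (Or.inl h3))
    · exact Or.inr (Or.inr (Or.inr h3))
  obtain ⟨u, w, huw, hew⟩ := G.exists_ends e
  have hue : u ∈ G.ends e := by rw [hew]; exact Sym2.mem_mk_left u w
  have huz : u ≠ z := fun hh => hze (hh ▸ hue)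
  have huvx : u ∈ G.vx X := (mem_vx G).mpr ⟨e, he, hue⟩
  have hd3 : G.deg X u = 3 := by
    rcases h.deg u huz with h3 | h3
    · have : 0 < G.deg X u := G.deg_pos_iff.mpr ⟨e, he, hue⟩
      omega
    · exact h3.1
  have hPi : ∃ i, i < 2 * (k + k' + 1) ∧ u = P k' q q' i := by
    rcases hcov u huvx huz with h3 | h3
    · obtain ⟨i, hi, hui⟩ := (H.mem u).mp h3
      refine ⟨i + (2 * k' + 1), by omega, ?_⟩
      rw [P_hi (by omega), Nat.add_sub_cancel]
      exact hui
    · obtain ⟨i, hi, hui⟩ := (H'.mem u).mp h3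
      refine ⟨2 * k' - i, by omega, ?_⟩
      rw [P_lo (by omega), show 2 * k' - (2 * k' - i) = i by omega]
      exact hui
  obtain ⟨i, hi, hui⟩ := hPi
  -- the chord at `u`
  have hch : ∃ j, j < k + k' + 1 ∧ u ∈ G.ends (C k' g c c' j) := by
    rcases Nat.even_or_odd' i with ⟨r, hr | hr⟩
    · rcases Nat.eq_zero_or_pos r with h0 | h0
      · refine ⟨0, by omega, ?_⟩
        rw [(ec 0 (by omega)).2]
        have : P k' q q' (2 * 0 - 1) = u := by
          rw [hui]; congr 1; omega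
        rw [this]
        exact Sym2.mem_mk_left _ _
      · refine ⟨r - 1, by omega, ?_⟩
        rw [(ec (r - 1) (by omega)).2]
        have : P k' q q' (min (2 * (r - 1) + 2) (2 * (k + k' + 1) - 1)) = u := by
          rw [hui]; congr 1; omega
        rw [this]
        exact Sym2.mem_mk_right _ _
    · by_cases hlast : r = k + k'
      · refine ⟨k + k', by omega, ?_⟩
        rw [(ec (k + k') (by omega)).2]
        have : P k' q q' (min (2 * (k + k') + 2) (2 * (k + k' + 1) - 1)) = u := by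
          rw [hui]; congr 1; omega
        rw [this]
        exact Sym2.mem_mk_right _ _
      · refine ⟨r + 1, by omega, ?_⟩
        rw [(ec (r + 1) (by omega)).2]
        have : P k' q q' (2 * (r + 1) - 1) = u := by
          rw [hui]; congr 1; omega
        rw [this]
        exact Sym2.mem_mk_left _ _
  obtain ⟨j, hj, huj⟩ := hch
  have hcM := (ec j hj).1
  have hcX : C k' g c c' j ∈ X := h.msub hcM
  -- the two arcs at `u`
  have key : ∀ b₁ b₂ : E, b₁ ∈ X \ M → b₂ ∈ X \ M → u ∈ G.ends b₁ → u ∈ G.ends b₂ → b₁ ≠ b₂ →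
      e = b₁ ∨ e = b₂ ∨ e = C k' g c c' j := by
    intro b₁ b₂ h1 h2 h3 h4 h5
    exact three G hd3 (Finset.mem_sdiff.mp h1).1 h3 (Finset.mem_sdiff.mp h2).1 h4 hcX huj h5
      (hM h1 hcM) (hM h2 hcM) he hue
  have hm2 : 2 ≤ 2 * (k + k' + 1) := by omega
  rcases Nat.eq_zero_or_pos i with h0 | h0
  · -- `e0` and `a 0`
    subst h0
    have ha := ea 0 (by omega)
    have hne : f₂ ≠ A k' t s s' 0 := by
      intro hh
      have h5 : z ∈ G.ends (A k' t s s' 0) := hh ▸ h2z
      rw [ha.2, Sym2.mem_iff] at h5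
      rcases h5 with h5 | h5
      · exact nz 0 (by omega) h5.symm
      · exact nz 1 (by omega) h5.symm
    have hb : u ∈ G.ends f₂ := by rw [ez0.2, hui]; exact Sym2.mem_mk_right _ _
    have ha' : u ∈ G.ends (A k' t s s' 0) := by rw [ha.2, hui]; exact Sym2.mem_mk_left _ _
    rcases key _ _ ez0.1 ha.1 hb ha' hne with h5 | h5 | h5
    · exact Or.inr (Or.inr (Or.inl h5))
    · exact Or.inl ⟨0, by omega, h5⟩
    · exact Or.inr (Or.inl ⟨j, hj, h5⟩)
  · have hprev := ea (i - 1) (by omega)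
    rw [show i - 1 + 1 = i by omega] at hprev
    have hup : u ∈ G.ends (A k' t s s' (i - 1)) := by
      rw [hprev.2, hui]; exact Sym2.mem_mk_right _ _
    by_cases hlast : i + 1 = 2 * (k + k' + 1)
    · -- `a (i-1)` and `e1`
      have hb : u ∈ G.ends f₁ := by
        rw [ez1.2, hui, show 2 * (k + k' + 1) - 1 = i by omega]; exact Sym2.mem_mk_left _ _
      have hne : A k' t s s' (i - 1) ≠ f₁ := by
        intro hh
        have h5 : z ∈ G.ends (A k' t s s' (i - 1)) := hh ▸ h1z
        rw [hprev.2, Sym2.mem_iff] at h5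
        rcases h5 with h5 | h5
        · exact nz (i - 1) (by omega) h5.symm
        · exact nz i (by omega) h5.symm
      rcases key _ _ hprev.1 ez1.1 hup hb hne with h5 | h5 | h5
      · exact Or.inl ⟨i - 1, by omega, h5⟩
      · exact Or.inr (Or.inr (Or.inr h5))
      · exact Or.inr (Or.inl ⟨j, hj, h5⟩)
    · have hnext := ea i (by omega)
      have hun : u ∈ G.ends (A k' t s s' i) := by
        rw [hnext.2, hui]; exact Sym2.mem_mk_left _ _
      have hne : A k' t s s' (i - 1) ≠ A k' t s s' i := by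
        intro hh
        have h5 : P k' q q' (i + 1) ∈ G.ends (A k' t s s' (i - 1)) := by
          rw [hh, hnext.2]; exact Sym2.mem_mk_right _ _
        rw [hprev.2, Sym2.mem_iff] at h5
        rcases h5 with h5 | h5
        · have := inj _ _ (by omega) (by omega) h5
          omega
        · have := inj _ _ (by omega) (by omega) h5
          omega
      rcases key _ _ hprev.1 hnext.1 hup hun hne with h5 | h5 | h5
      · exact Or.inl ⟨i - 1, by omega, h5⟩
      · exact Or.inl ⟨i, by omega, h5⟩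
      · exact Or.inr (Or.inl ⟨j, hj, h5⟩)

end

end C5aX

theorem t_C5a (h2 : S_C2) (h4 : S_C4) : S_C5a := by
  intro V E _ _ _ _ G X M F D z h
  obtain ⟨t, htF⟩ := C5aX.F_nonempty G h
  obtain ⟨f₁, f₂, h1X, h1z, h2X, h2z, h12⟩ := C5aX.exists_two G h.degz
  obtain ⟨P, g, hP, hzP, hgM, hcut, htf⟩ := h2 V E G X M F D z h t htF f₁ h1X h1z
  have htXM : t ∈ X \ M := h.fsub htF
  have htX : t ∈ X := (Finset.mem_sdiff.mp htXM).1
  have htz : z ∉ G.ends t := by
    intro hz
    have htD : t ∈ D := h.m1 D h.dsub h.dac h.dz htF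
    have : 0 < G.deg D z := G.deg_pos_iff.mpr ⟨t, htD, hz⟩
    have := h.dz
    omega
  have hgz : z ∉ G.ends g := by
    intro hz
    have : 0 < G.deg M z := G.deg_pos_iff.mpr ⟨g, hgM, hz⟩
    have := h.degmz
    omega
  have hgX : g ∈ X := h.msub hgM
  have hf₂t : f₂ ≠ t := fun hh => htz (hh ▸ h2z)
  have hf₂g : f₂ ≠ g := fun hh => hgz (hh ▸ h2z)
  have hend : ∀ e ∈ X, ∀ v ∈ G.ends e, v ∈ G.vx X := fun e he v hv =>
    (C5aX.mem_vx G).mpr ⟨e, he, hv⟩
  set P' : Finset V := (G.vx X).erase z \ P with hP'def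
  have hmemP' : ∀ v, v ∈ P' ↔ v ∈ G.vx X ∧ v ≠ z ∧ v ∉ P := by
    intro v
    rw [hP'def, Finset.mem_sdiff, Finset.mem_erase]
    tauto
  have hcut' : X ∩ G.cut P' = {f₂, t, g} := by
    have hA : ∀ e ∈ X, z ∉ G.ends e → (e ∈ G.cut P' ↔ e ∈ G.cut P) := by
      intro e he hz
      obtain ⟨a, b, hab, hee⟩ := G.exists_ends e
      have ha : a ∈ G.ends e := by rw [hee]; exact Sym2.mem_mk_left a b
      have hb : b ∈ G.ends e := by rw [hee]; exact Sym2.mem_mk_right a b
      have ha' := hend e he a ha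
      have hb' := hend e he b hb
      have haz : a ≠ z := fun hh => hz (hh ▸ ha)
      have hbz : b ≠ z := fun hh => hz (hh ▸ hb)
      rw [G.mem_cut hee, G.mem_cut hee, hmemP', hmemP']
      tauto
    have hB : ∀ e ∈ X, z ∈ G.ends e → (e ∈ G.cut P' ↔ e ∉ G.cut P) := by
      intro e he hz
      obtain ⟨a, b, hab, hee⟩ := G.exists_ends e
      have ha : a ∈ G.ends e := by rw [hee]; exact Sym2.mem_mk_left a b
      have hb : b ∈ G.ends e := by rw [hee]; exact Sym2.mem_mk_right a b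
      have ha' := hend e he a ha
      have hb' := hend e he b hb
      rw [hee, Sym2.mem_iff] at hz
      rw [G.mem_cut hee, G.mem_cut hee, hmemP', hmemP']
      rcases hz with hz | hz
      · subst hz
        have : b ≠ z := hab.symm
        tauto
      · subst hz
        tauto
    have hf₁cut : f₁ ∈ G.cut P := by
      have : f₁ ∈ X ∩ G.cut P := by rw [hcut]; simp
      exact (Finset.mem_inter.mp this).2
    have htcut : t ∈ G.cut P := by
      have : t ∈ X ∩ G.cut P := by rw [hcut]; simp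
      exact (Finset.mem_inter.mp this).2
    have hgcut : g ∈ G.cut P := by
      have : g ∈ X ∩ G.cut P := by rw [hcut]; simp
      exact (Finset.mem_inter.mp this).2
    have hf₂cut : f₂ ∉ G.cut P := by
      intro hh
      have : f₂ ∈ X ∩ G.cut P := Finset.mem_inter.mpr ⟨h2X, hh⟩
      rw [hcut, Finset.mem_insert, Finset.mem_insert, Finset.mem_singleton] at this
      rcases this with h3 | h3 | h3
      · exact h12 h3.symm
      · exact hf₂t h3
      · exact hf₂g h3
    ext e
    rw [Finset.mem_inter, Finset.mem_insert, Finset.mem_insert, Finset.mem_singleton]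
    constructor
    · rintro ⟨he, hec⟩
      by_cases hz : z ∈ G.ends e
      · rcases C5aX.two G h.degz h2X h2z h1X h1z h12.symm he hz with h3 | h3
        · exact Or.inl h3
        · exact ((hB e he hz).mp hec (h3 ▸ hf₁cut)).elim
      · have h3 : e ∈ X ∩ G.cut P := Finset.mem_inter.mpr ⟨he, (hA e he hz).mp hec⟩
        rw [hcut, Finset.mem_insert, Finset.mem_insert, Finset.mem_singleton] at h3
        rcases h3 with h3 | h3 | h3
        · exact (hz (h3 ▸ h1z)).elim
        · exact Or.inr (Or.inl h3)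
        · exact Or.inr (Or.inr h3)
    · rintro (h3 | h3 | h3)
      · subst h3
        exact ⟨h2X, (hB _ h2X h2z).mpr hf₂cut⟩
      · subst h3
        exact ⟨htX, (hA _ htX htz).mpr htcut⟩
      · subst h3
        exact ⟨hgX, (hA _ hgX hgz).mpr hgcut⟩
  have hnotin : ∀ (R : Finset V) (f b : E), X ∩ G.cut R = {f, t, b} → ∃ t' ∈ F, t' ∉ G.ins X R := by
    intro R f b hR
    refine ⟨t, htF, ?_⟩
    intro hin
    have h3 : t ∈ X ∩ G.cut R := by rw [hR]; simp
    have h4' := (Finset.mem_inter.mp h3).2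
    unfold MGraph.cut at h4'
    obtain ⟨-, b', hb', hb''⟩ := (Finset.mem_filter.mp h4').2
    unfold MGraph.ins at hin
    exact hb'' ((Finset.mem_filter.mp hin).2 b' hb')
  have hzP' : z ∉ P' := by
    rw [hmemP']
    tauto
  have hP'sub : P' ⊆ G.vx X := fun v hv => ((hmemP' v).mp hv).1
  obtain ⟨k, q, s, c, H⟩ := h4 V E G X M F D z h P f₁ t g hP hzP h1z h1X htXM htf hgM hcut
    (hnotin P f₁ g hcut)
  obtain ⟨k', q', s', c', H'⟩ := h4 V E G X M F D z h P' f₂ t g hP'sub hzP' h2z h2X htXM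
    hf₂t.symm hgM hcut' (hnotin P' f₂ g hcut')
  refine ⟨k + k' + 1, C5aX.P k' q q', C5aX.A k' t s s', C5aX.C k' g c c', f₂, f₁, ?_, k',
    by omega, ?_⟩
  · refine C5aX.assemble G h h1z h2z h1X h2X h12 htXM P P' hzP hzP' ?_ ?_ H H'
    · intro v hv hv'
      exact ((hmemP' v).mp hv').2.2 hv
    · intro v hv hvz
      by_cases hvP : v ∈ P
      · exact Or.inl hvP
      · exact Or.inr ((hmemP' v).mpr ⟨hv, hvz, hvP⟩)
  · have hA : C5aX.A k' t s s' (2 * k') = t := by
      unfold C5aX.A; rw [if_neg (lt_irrefl _), if_pos rfl]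
    rw [hA]
    exact htF

end Pool.GOZ
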