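import Pool.Agent.GOZ.StmtsC

/-!
C5b: the circuit and the marks of the zigzag.
-/

set_option autoImplicit false
set_option linter.unusedSectionVars false

namespace Pool.GOZ

open Pool.GOD Pool.GOD.MGraph

namespace C5b

variable {V E : Type} [Fintype V] [DecidableEq V] [Fintype E] [DecidableEq E] {G : MGraph V E}
  {X M F D : Finset E} {z : V} {m : ℕ} {p : ℕ → V} {a c : ℕ → E} {e0 e1 : E}

lemma mem_img (hZ : G.ZigS X M z m p a c e0 e1) {I : Finset ℕ} (hI : ∀ i ∈ I, i < 2 * m) {i : ℕ}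
    (hi : i < 2 * m) : p i ∈ I.image p ↔ i ∈ I := by
  rw [Finset.mem_image]
  constructor
  · rintro ⟨j, hj, hji⟩
    rw [← hZ.inj j i (hI j hj) hi hji]
    exact hj
  · intro h
    exact ⟨i, h, rfl⟩

lemma z_not (hZ : G.ZigS X M z m p a c e0 e1) {I : Finset ℕ} (hI : ∀ i ∈ I, i < 2 * m) :
    z ∉ I.image p := by
  rw [Finset.mem_image]
  rintro ⟨j, hj, hji⟩
  exact hZ.nz j (hI j hj) hji

lemma hlo {l : ℕ} (hl : l < m) : ∀ i ∈ Finset.range (2 * l + 1), i < 2 * m := by
  intro i hi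
  rw [Finset.mem_range] at hi
  omega

lemma hhi {l : ℕ} : ∀ i ∈ Finset.Ico (2 * l + 1) (2 * m), i < 2 * m := by
  intro i hi
  rw [Finset.mem_Ico] at hi
  omega

lemma cut_lo (hZ : G.ZigS X M z m p a c e0 e1) {l : ℕ} (hl : l < m) :
    X ∩ G.cut ((Finset.range (2 * l + 1)).image p) ⊆ {e0, a (2 * l), c l} := by
  intro e he
  rw [Finset.mem_inter] at he
  obtain ⟨heX, he⟩ := he
  have hI := hlo (m := m) hl
  rcases hZ.all e heX with ⟨i, hi, rfl⟩ | ⟨j, hj, rfl⟩ | rfl | rfl
  · rw [G.mem_cut (hZ.ea i hi).2, mem_img hZ hI (by omega), mem_img hZ hI (by omega),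
      Finset.mem_range, Finset.mem_range] at he
    have h : i = 2 * l := by omega
    subst h
    simp
  · rw [G.mem_cut (hZ.ec j hj).2, mem_img hZ hI (by omega), mem_img hZ hI (by omega),
      Finset.mem_range, Finset.mem_range] at he
    have h : j = l := by omega
    subst h
    simp
  · simp
  · have h1 := z_not hZ hI
    rw [G.mem_cut hZ.ez1.2, mem_img hZ hI (by omega), Finset.mem_range] at he
    exfalso
    rcases he with ⟨h2, -⟩ | ⟨h2, -⟩
    · omega
    · exact h1 h2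

lemma cut_hi (hZ : G.ZigS X M z m p a c e0 e1) {l : ℕ} (hl : l < m) :
    X ∩ G.cut ((Finset.Ico (2 * l + 1) (2 * m)).image p) ⊆ {e1, a (2 * l), c l} := by
  intro e he
  rw [Finset.mem_inter] at he
  obtain ⟨heX, he⟩ := he
  have hI := hhi (m := m) (l := l)
  rcases hZ.all e heX with ⟨i, hi, rfl⟩ | ⟨j, hj, rfl⟩ | rfl | rfl
  · rw [G.mem_cut (hZ.ea i hi).2, mem_img hZ hI (by omega), mem_img hZ hI (by omega),
      Finset.mem_Ico, Finset.mem_Ico] at he
    have h : i = 2 * l := by omega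
    subst h
    simp
  · rw [G.mem_cut (hZ.ec j hj).2, mem_img hZ hI (by omega), mem_img hZ hI (by omega),
      Finset.mem_Ico, Finset.mem_Ico] at he
    have h : j = l := by omega
    subst h
    simp
  · have h1 := z_not hZ hI
    rw [G.mem_cut hZ.ez0.2, mem_img hZ hI (by omega), Finset.mem_Ico] at he
    exfalso
    rcases he with ⟨h2, -⟩ | ⟨h2, -⟩
    · exact h1 h2
    · omega
  · simp

/-- an edge of `D` is not at `z` -/
lemma notMem_of_z (hC : G.Core X M F D z) {e : E} (h : z ∈ G.ends e) : e ∉ D := by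
  intro he
  have h1 : 0 < G.deg D z := G.deg_pos_iff.mpr ⟨e, he, h⟩
  rw [hC.dz] at h1
  exact absurd h1 (lt_irrefl 0)

lemma e0_notMem (hC : G.Core X M F D z) (hZ : G.ZigS X M z m p a c e0 e1) : e0 ∉ D :=
  notMem_of_z hC (by rw [hZ.ez0.2]; exact Sym2.mem_mk_left _ _)

lemma e1_notMem (hC : G.Core X M F D z) (hZ : G.ZigS X M z m p a c e0 e1) : e1 ∉ D :=
  notMem_of_z hC (by rw [hZ.ez1.2]; exact Sym2.mem_mk_right _ _)

/-- the parity of the lower cut -/
lemma a_iff_c (hC : G.Core X M F D z) (hZ : G.ZigS X M z m p a c e0 e1) {l : ℕ} (hl : l < m) :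
    a (2 * l) ∈ D ↔ c l ∈ D := by
  have hI := hlo (m := m) hl
  have hev := (hC.dac.circ.isEven G).card_inter_cut G ((Finset.range (2 * l + 1)).image p)
  have hsub : D ∩ G.cut ((Finset.range (2 * l + 1)).image p) ⊆ {a (2 * l), c l} := by
    intro e he
    rw [Finset.mem_inter] at he
    have h1 := cut_lo hZ hl (Finset.mem_inter.mpr ⟨hC.dsub he.1, he.2⟩)
    simp only [Finset.mem_insert, Finset.mem_singleton] at h1 ⊢
    rcases h1 with rfl | h1
    · exact absurd he.1 (e0_notMem hC hZ)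
    · exact h1
  have ha : a (2 * l) ∈ G.cut ((Finset.range (2 * l + 1)).image p) := by
    rw [G.mem_cut (hZ.ea (2 * l) (by omega)).2, mem_img hZ hI (by omega),
      mem_img hZ hI (by omega), Finset.mem_range, Finset.mem_range]
    omega
  have hc : c l ∈ G.cut ((Finset.range (2 * l + 1)).image p) := by
    rw [G.mem_cut (hZ.ec l hl).2, mem_img hZ hI (by omega),
      mem_img hZ hI (by omega), Finset.mem_range, Finset.mem_range]
    omega
  have key : ∀ x y : E, D ∩ G.cut ((Finset.range (2 * l + 1)).image p) ⊆ {x, y} →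
      x ∈ G.cut ((Finset.range (2 * l + 1)).image p) → x ∈ D → y ∈ D := by
    intro x y hxy hx hxD
    by_contra hy
    have h1 : D ∩ G.cut ((Finset.range (2 * l + 1)).image p) = {x} := by
      ext e
      rw [Finset.mem_inter, Finset.mem_singleton]
      constructor
      · rintro ⟨h1, h2⟩
        have h3 := hxy (Finset.mem_inter.mpr ⟨h1, h2⟩)
        simp only [Finset.mem_insert, Finset.mem_singleton] at h3
        rcases h3 with h3 | h3
        · exact h3
        · rw [h3] at h1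
          exact absurd h1 hy
      · rintro rfl
        exact ⟨hxD, hx⟩
    rw [h1, Finset.card_singleton] at hev
    exact absurd hev (by decide)
  exact ⟨key _ _ hsub ha, key _ _ (by rwa [Finset.pair_comm]) hc⟩

/-- alternation at the vertex `v` -/
lemma alt_at (hC : G.Core X M F D z) {e : E} {v : V} (he : e ∈ D) (heM : e ∉ M)
    (hv : v ∈ G.ends e) :
    (∃ g ∈ D, g ∈ M ∧ v ∈ G.ends g) ∧ ∀ f ∈ D, f ∉ M → v ∈ G.ends f → f = e := by
  have h1 : 0 < G.deg D v := G.deg_pos_iff.mpr ⟨e, he, hv⟩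
  have h2 : G.deg D v = 2 := by
    rcases hC.dac.circ.2.1 v with h | h
    · omega
    · exact h
  have h3 := hC.dac.alt v h2
  have h4 : 0 < G.deg (D ∩ M) v := by omega
  obtain ⟨g, hg, hgv⟩ := G.deg_pos_iff.mp h4
  rw [Finset.mem_inter] at hg
  refine ⟨⟨g, hg.1, hg.2, hgv⟩, fun f hf hfM hfv => ?_⟩
  have h5 := G.deg_sdiff (Finset.inter_subset_left : D ∩ M ⊆ D) v
  have h6 : G.deg (D \ (D ∩ M)) v = 1 := by omega
  unfold deg at h6
  rw [Finset.card_eq_one] at h6
  obtain ⟨x, hx⟩ := h6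
  have h7 : ∀ y, y ∈ D → y ∉ M → v ∈ G.ends y → y = x := by
    intro y hy hyM hyv
    have h8 : y ∈ (D \ (D ∩ M)).filter (fun e => v ∈ G.ends e) := by
      rw [Finset.mem_filter, Finset.mem_sdiff, Finset.mem_inter]
      exact ⟨⟨hy, fun h => hyM h.2⟩, hyv⟩
    rw [hx, Finset.mem_singleton] at h8
    exact h8
  rw [h7 f hf hfM hfv, h7 e he heM hv]

/-- the edges of `M` are chords -/
lemma chord (hZ : G.ZigS X M z m p a c e0 e1) {g : E} (hg : g ∈ M) (hgX : g ∈ X) :
    ∃ j < m, g = c j := by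
  rcases hZ.all g hgX with ⟨i, hi, rfl⟩ | h | rfl | rfl
  · exact absurd hg (Finset.mem_sdiff.mp (hZ.ea i hi).1).2
  · exact h
  · exact absurd hg (Finset.mem_sdiff.mp hZ.ez0.1).2
  · exact absurd hg (Finset.mem_sdiff.mp hZ.ez1.1).2

lemma chord_at (hC : G.Core X M F D z) (hZ : G.ZigS X M z m p a c e0 e1) {g : E} (hg : g ∈ M)
    {i : ℕ} (hi : i < 2 * m) (hv : p i ∈ G.ends g) :
    ∃ j < m, g = c j ∧ (i = 2 * j - 1 ∨ i = min (2 * j + 2) (2 * m - 1)) := by
  obtain ⟨j, hj, rfl⟩ := chord hZ hg (hC.msub hg)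
  refine ⟨j, hj, rfl, ?_⟩
  rw [(hZ.ec j hj).2, Sym2.mem_iff] at hv
  rcases hv with h | h
  · exact Or.inl (hZ.inj _ _ hi (by omega) h)
  · exact Or.inr (hZ.inj _ _ hi (by omega) h)

/-- the step upwards -/
lemma up (hC : G.Core X M F D z) (hZ : G.ZigS X M z m p a c e0 e1) {l : ℕ} (hl : l + 1 < m)
    (h : a (2 * l) ∈ D) : a (2 * (l + 1)) ∈ D ∧ a (2 * l + 1) ∉ D := by
  have hE := hZ.ea (2 * l) (by omega)
  have hE' := hZ.ea (2 * l + 1) (by omega)
  obtain ⟨⟨g, hg, hgM, hgv⟩, hun⟩ := alt_at hC (v := p (2 * l + 1)) h (Finset.mem_sdiff.mp hE.1).2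
    (by rw [hE.2]; exact Sym2.mem_mk_right _ _)
  obtain ⟨j, hj, rfl, hij⟩ := chord_at hC hZ hgM (by omega) hgv
  have hj1 : j = l + 1 := by omega
  subst hj1
  refine ⟨(a_iff_c hC hZ hj).mpr hg, fun hcon => ?_⟩
  have h1 := hun _ hcon (Finset.mem_sdiff.mp hE'.1).2 (by rw [hE'.2]; exact Sym2.mem_mk_left _ _)
  have h2 : p (2 * l) ∈ G.ends (a (2 * l + 1)) := by
    rw [h1, hE.2]
    exact Sym2.mem_mk_left _ _
  rw [hE'.2, Sym2.mem_iff] at h2
  rcases h2 with h2 | h2
  · have := hZ.inj _ _ (by omega) (by omega) h2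
    omega
  · have := hZ.inj _ _ (by omega) (by omega) h2
    omega

/-- the step downwards -/
lemma down (hC : G.Core X M F D z) (hZ : G.ZigS X M z m p a c e0 e1) {l : ℕ} (hl : l + 1 < m)
    (h : a (2 * (l + 1)) ∈ D) : a (2 * l) ∈ D := by
  have hE := hZ.ea (2 * (l + 1)) (by omega)
  obtain ⟨⟨g, hg, hgM, hgv⟩, -⟩ := alt_at hC (v := p (2 * (l + 1))) h (Finset.mem_sdiff.mp hE.1).2
    (by rw [hE.2]; exact Sym2.mem_mk_left _ _)
  obtain ⟨j, hj, rfl, hij⟩ := chord_at hC hZ hgM (by omega) hgv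
  have hj1 : j = l := by omega
  subst hj1
  exact (a_iff_c hC hZ hj).mpr hg

lemma all_up (hC : G.Core X M F D z) (hZ : G.ZigS X M z m p a c e0 e1)
    (h : a 0 ∈ D) : ∀ l < m, a (2 * l) ∈ D := by
  intro l
  induction l with
  | zero => exact fun _ => h
  | succ l ih => exact fun hl => (up hC hZ hl (ih (by omega))).1

lemma to_zero (hC : G.Core X M F D z) (hZ : G.ZigS X M z m p a c e0 e1) :
    ∀ l < m, a (2 * l) ∈ D → a 0 ∈ D := by
  intro l
  induction l with
  | zero => exact fun _ h => h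
  | succ l ih => exact fun hl h => ih (by omega) (down hC hZ hl h)

/-- the points are vertices -/
lemma p_mem (hZ : G.ZigS X M z m p a c e0 e1) {i : ℕ} (hi : i < 2 * m) :
    p i ∈ G.vx X := by
  have key : ∀ e ∈ X, ∀ v ∈ G.ends e, v ∈ G.vx X := by
    intro e he v hv
    unfold vx
    rw [Finset.mem_filter]
    exact ⟨Finset.mem_univ _, (G.deg_pos_iff.mpr ⟨e, he, hv⟩).ne'⟩
  by_cases h : i + 1 < 2 * m
  · exact key (a i) (Finset.mem_sdiff.mp (hZ.ea i h).1).1 _
      (by rw [(hZ.ea i h).2]; exact Sym2.mem_mk_left _ _)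
  · have h1 : i = 2 * m - 1 := by omega
    subst h1
    exact key e1 (Finset.mem_sdiff.mp hZ.ez1.1).1 _ (by rw [hZ.ez1.2]; exact Sym2.mem_mk_left _ _)

lemma card_img (hZ : G.ZigS X M z m p a c e0 e1) {I : Finset ℕ} (hI : ∀ i ∈ I, i < 2 * m) :
    (I.image p).card = I.card :=
  Finset.card_image_of_injOn fun i hi j hj h => hZ.inj i j (hI i hi) (hI j hj) h

/-- a set of points with at most three leaving edges has a marked edge inside -/
lemma marked (hC : G.Core X M F D z) (hZ : G.ZigS X M z m p a c e0 e1) {I : Finset ℕ}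
    (hI : ∀ i ∈ I, i < 2 * m) (h2 : 2 ≤ I.card) (h3 : (X ∩ G.cut (I.image p)).card ≤ 3) :
    ∃ t ∈ F, ∀ v ∈ G.ends t, v ∈ I.image p := by
  have h4 := hC.c4 (I.image p) (fun v hv => by
    obtain ⟨i, hi, rfl⟩ := Finset.mem_image.mp hv
    exact p_mem hZ (hI i hi)) (by rw [card_img hZ hI]; exact h2)
  rw [if_neg (z_not hZ hI)] at h4
  have h5 : 0 < (G.ins F (I.image p)).card := by omega
  obtain ⟨t, ht⟩ := Finset.card_pos.mp h5
  unfold ins at ht
  rw [Finset.mem_filter] at ht
  exact ⟨t, ht.1, ht.2⟩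

end C5b

open C5b in
theorem t_C5b : S_C5b := by
  intro V E _ _ _ _ G X M F D z hC m p a c e0 e1 hZ hF
  obtain ⟨i, hi, hiF⟩ := hF
  have hFD : F ⊆ D := hC.m1 D hC.dsub hC.dac hC.dz
  have hall := all_up hC hZ (to_zero hC hZ i hi (hFD hiF))
  have hodd : ∀ j, 2 * j + 1 + 1 < 2 * m → a (2 * j + 1) ∉ D := fun j hj =>
    (up hC hZ (by omega) (hall j (by omega))).2
  have hcd : ∀ e, e ∈ D ↔ (∃ i, i < m ∧ e = a (2 * i)) ∨ ∃ j < m, e = c j := by
    intro e
    constructor
    · intro he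
      rcases hZ.all e (hC.dsub he) with ⟨j, hj, rfl⟩ | h | rfl | rfl
      · left
        rcases Nat.even_or_odd' j with ⟨l, hl | hl⟩
        · exact ⟨l, by omega, by rw [hl]⟩
        · subst hl
          exact absurd he (hodd l hj)
      · exact Or.inr h
      · exact absurd he (e0_notMem hC hZ)
      · exact absurd he (e1_notMem hC hZ)
    · rintro (⟨j, hj, rfl⟩ | ⟨j, hj, rfl⟩)
      · exact hall j hj
      · exact (a_iff_c hC hZ hj).mp (hall j hj)
  have hmark : ∀ e ∈ F, ∃ i < m, e = a (2 * i) := by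
    intro e he
    rcases (hcd e).mp (hFD he) with h | ⟨j, hj, rfl⟩
    · exact h
    · exact absurd (hZ.ec j hj).1 (Finset.mem_sdiff.mp (hC.fsub he)).2
  have hm2 : 2 ≤ m := by
    by_contra hcon
    have hm1 : m = 1 := by have := hZ.one; omega
    subst hm1
    have hz : z ∈ G.vx X := by
      unfold vx
      rw [Finset.mem_filter]
      exact ⟨Finset.mem_univ _, by rw [hC.degz]; decide⟩
    have h4 := hC.c4 {z, p 0, p 1} (by
      intro v hv
      simp only [Finset.mem_insert, Finset.mem_singleton] at hv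
      rcases hv with rfl | rfl | rfl
      · exact hz
      · exact p_mem hZ (by omega)
      · exact p_mem hZ (by omega)) (by
      have h5 : ({p 0, z} : Finset V) ⊆ {z, p 0, p 1} := by
        intro v hv
        simp only [Finset.mem_insert, Finset.mem_singleton] at hv ⊢
        tauto
      have h6 := Finset.card_le_card h5
      rw [Finset.card_pair (hZ.nz 0 (by omega))] at h6
      exact h6)
    have h5 : X ∩ G.cut {z, p 0, p 1} = ∅ := by
      rw [Finset.eq_empty_iff_forall_notMem]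
      intro e he
      rw [Finset.mem_inter] at he
      obtain ⟨heX, he⟩ := he
      rcases hZ.all e heX with ⟨i, hi, rfl⟩ | ⟨j, hj, rfl⟩ | rfl | rfl
      · have h0 : i = 0 := by omega
        subst h0
        rw [G.mem_cut (hZ.ea 0 hi).2] at he
        simp at he
      · have h0 : j = 0 := by omega
        subst h0
        rw [G.mem_cut (hZ.ec 0 hj).2] at he
        simp at he
      · rw [G.mem_cut hZ.ez0.2] at he
        simp at he
      · rw [G.mem_cut hZ.ez1.2] at he
        simp at he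
    have h6 : (G.ins F {z, p 0, p 1}).card ≤ 1 := by
      rw [Finset.card_le_one]
      intro x hx y hy
      unfold ins at hx hy
      rw [Finset.mem_filter] at hx hy
      obtain ⟨i, hi, rfl⟩ := hmark x hx.1
      obtain ⟨j, hj, rfl⟩ := hmark y hy.1
      have h0 : i = 0 := by omega
      have h1 : j = 0 := by omega
      rw [h0, h1]
    rw [h5, Finset.card_empty] at h4
    split_ifs at h4 <;> omega
  have hcard : ∀ x y w : E, ({x, y, w} : Finset E).card ≤ 3 := fun x y w => Finset.card_le_three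
  refine ⟨{ toZigS := hZ, two := hm2, cd := hcd }, ?_, ?_, hmark⟩
  · obtain ⟨t, ht, hv⟩ := marked hC hZ (hlo (m := m) (l := 1) (by omega))
      (by rw [Finset.card_range]; omega)
      ((Finset.card_le_card (cut_lo hZ (l := 1) (by omega))).trans (hcard _ _ _))
    obtain ⟨j, hj, rfl⟩ := hmark t ht
    have h1 := hv (p (2 * j + 1)) (by
      rw [(hZ.ea (2 * j) (by omega)).2]
      exact Sym2.mem_mk_right _ _)
    rw [mem_img hZ (hlo (m := m) (l := 1) (by omega)) (by omega), Finset.mem_range] at h1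
    have h2 : j = 0 := by omega
    subst h2
    exact ht
  · obtain ⟨t, ht, hv⟩ := marked hC hZ (hhi (m := m) (l := m - 2))
      (by rw [Nat.card_Ico]; omega)
      ((Finset.card_le_card (cut_hi hZ (l := m - 2) (by omega))).trans (hcard _ _ _))
    obtain ⟨j, hj, rfl⟩ := hmark t ht
    have h1 := hv (p (2 * j)) (by
      rw [(hZ.ea (2 * j) (by omega)).2]
      exact Sym2.mem_mk_left _ _)
    rw [mem_img hZ (hhi (m := m) (l := m - 2)) (by omega), Finset.mem_Ico] at h1
    have h2 : 2 * j = 2 * m - 2 := by omega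
    rw [← h2]
    exact ht

end Pool.GOZ
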