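import Pool.Agent.GOZ.StmtsE

/-!
Theorem Z, exchange part: C6 (no unrooted core).
-/

set_option autoImplicit false
set_option linter.unusedSectionVars false

namespace Pool.GOZ

open Pool.GOD Pool.GOD.MGraph

namespace C6x

variable {V E : Type} [Fintype V] [DecidableEq V] [Fintype E] [DecidableEq E] {G : MGraph V E}
  {X M F D : Finset E}

lemma mem_vx {v : V} : v ∈ G.vx X ↔ G.deg X v ≠ 0 := by
  simp [vx]

lemma ends_mem_vx {e : E} (he : e ∈ X) {v : V} (hv : v ∈ G.ends e) : v ∈ G.vx X := by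
  rw [mem_vx]
  exact (G.deg_pos_iff.2 ⟨e, he, hv⟩).ne'

/-- both ends of an edge -/
lemma ends_in {e : E} (he : e ∈ X) : ∃ a b, a ≠ b ∧ G.ends e = s(a, b) ∧ a ∈ G.vx X ∧
    b ∈ G.vx X := by
  obtain ⟨a, b, hne, hab⟩ := G.exists_ends e
  exact ⟨a, b, hne, hab, ends_mem_vx he (by rw [hab]; exact Sym2.mem_mk_left a b),
    ends_mem_vx he (by rw [hab]; exact Sym2.mem_mk_right a b)⟩

lemma inter_cut_sdiff (P : Finset V) : X ∩ G.cut (G.vx X \ P) = X ∩ G.cut P := by
  ext e
  rw [Finset.mem_inter, Finset.mem_inter]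
  refine and_congr_right fun he => ?_
  obtain ⟨a, b, -, hab, ha, hb⟩ := ends_in (G := G) he
  rw [G.mem_cut hab, G.mem_cut hab, Finset.mem_sdiff, Finset.mem_sdiff]
  tauto

lemma inter_cut_inter (P : Finset V) : X ∩ G.cut (P ∩ G.vx X) = X ∩ G.cut P := by
  ext e
  rw [Finset.mem_inter, Finset.mem_inter]
  refine and_congr_right fun he => ?_
  obtain ⟨a, b, -, hab, ha, hb⟩ := ends_in (G := G) he
  rw [G.mem_cut hab, G.mem_cut hab, Finset.mem_inter, Finset.mem_inter]
  tauto

lemma inter_cut_vx : X ∩ G.cut (G.vx X) = ∅ := by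
  rw [Finset.eq_empty_iff_forall_notMem]
  intro e he
  rw [Finset.mem_inter] at he
  obtain ⟨a, b, -, hab, ha, hb⟩ := ends_in (G := G) he.1
  have h := he.2
  rw [G.mem_cut hab] at h
  tauto

lemma card_inter_cut_singleton (v : V) : (X ∩ G.cut {v}).card = G.deg X v := by
  rw [G.cut_singleton]
  unfold deg
  congr 1
  ext e
  rw [Finset.mem_inter, mem_star, Finset.mem_filter]

/-- parity of the weight one edges of a cut -/
lemma par (h : G.Core0 X M F D) {P : Finset V} (hP : P ⊆ G.vx X) :
    Even ((X \ M) ∩ G.cut P).card := by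
  have h1 := G.sum_deg (X \ M) P
  have h2 : ∀ v ∈ P, G.deg (X \ M) v = 2 := by
    intro v hv
    have h3 := G.deg_sdiff h.msub v
    have h4 := mem_vx.1 (hP hv)
    rcases h.deg v with h5 | h5
    · exact absurd h5 h4
    · omega
  rw [Finset.sum_congr rfl h2, Finset.sum_const, smul_eq_mul] at h1
  rw [Nat.even_iff]
  omega

/-- no bridge whose side `R` has no marked edge inside -/
lemma side (h : G.Core0 X M F D) {R : Finset V} (hR : R ⊆ G.vx X)
    {g : E} (hg : X ∩ G.cut R = {g}) (hF : ∀ e ∈ F, ∃ v ∈ G.ends e, v ∉ R) : False := by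
  have h1 : (X ∩ G.cut R).card = 1 := by rw [hg, Finset.card_singleton]
  by_cases hc : 2 ≤ R.card
  · have h2 := h.c4 R hR hc
    have h3 : G.ins F R = ∅ := by
      rw [Finset.eq_empty_iff_forall_notMem]
      intro e he
      rw [ins, Finset.mem_filter] at he
      obtain ⟨v, hv, hvR⟩ := hF e he.1
      exact hvR (he.2 v hv)
    rw [h3, Finset.card_empty, h1] at h2
    omega
  · have h4 : R.card = 0 ∨ R.card = 1 := by omega
    rcases h4 with h4 | h4
    · rw [Finset.card_eq_zero] at h4
      rw [h4, cut_empty, Finset.inter_empty] at hg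
      exact absurd hg.symm (Finset.singleton_ne_empty g)
    · obtain ⟨v, rfl⟩ := Finset.card_eq_one.1 h4
      rw [card_inter_cut_singleton] at h1
      rcases h.deg v with h5 | h5
      · omega
      · omega

/-- no bridge at all -/
lemma nobridge (h : G.Core0 X M F D) {P : Finset V} {g : E} (hP : P ⊆ G.vx X)
    (hg : X ∩ G.cut P = {g}) : False := by
  have hDe : Even (D ∩ G.cut P).card := h.dac.circ.isEven.card_inter_cut G P
  have hsub : D ∩ G.cut P ⊆ {g} := by
    rw [← hg]
    exact Finset.inter_subset_inter_right h.dsub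
  have hle := Finset.card_le_card hsub
  rw [Finset.card_singleton] at hle
  have hD0 : D ∩ G.cut P = ∅ := by
    rw [← Finset.card_eq_zero]
    rw [Nat.even_iff] at hDe
    omega
  have hFD : F ⊆ D := h.m1 D h.dsub h.dac
  have hnc : ∀ e ∈ D, e ∉ G.cut P := by
    intro e he hc
    have : e ∈ D ∩ G.cut P := Finset.mem_inter.2 ⟨he, hc⟩
    rw [hD0] at this
    exact absurd this (Finset.notMem_empty e)
  have hdeg2 : ∀ e ∈ D, ∀ v ∈ G.ends e, G.deg D v = 2 := by
    intro e he v hv
    rcases h.dac.circ.2.1 v with h0 | h0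
    · exact absurd h0 (G.deg_pos_iff.2 ⟨e, he, hv⟩).ne'
    · exact h0
  -- the circuit lives on one side
  by_cases hin : ∃ e ∈ D, ∃ v ∈ G.ends e, v ∈ P
  · obtain ⟨e, he, v, hv, hvP⟩ := hin
    refine side h (R := G.vx X \ P) Finset.sdiff_subset (g := g) ?_ ?_
    · rw [inter_cut_sdiff]
      exact hg
    · intro f hf
      obtain ⟨a, b, -, hab⟩ := G.exists_ends f
      have ha : a ∈ G.ends f := by rw [hab]; exact Sym2.mem_mk_left a b
      refine ⟨a, ha, fun haR => ?_⟩
      rw [Finset.mem_sdiff] at haR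
      have hconn := h.dac.circ.2.2 v a (hdeg2 e he v hv) (hdeg2 f (hFD hf) a ha)
      obtain ⟨e', he', hc'⟩ := G.exists_cut_of_connIn hconn hvP haR.2
      exact hnc e' he' hc'
  · push Not at hin
    refine side h hP hg ?_
    intro f hf
    obtain ⟨a, b, -, hab⟩ := G.exists_ends f
    have ha : a ∈ G.ends f := by rw [hab]; exact Sym2.mem_mk_left a b
    exact ⟨a, ha, hin f (hFD hf) a ha⟩

end C6x

open C6x

theorem t_C6 : S_C6 := by
  intro V E _ _ _ _ G X M F D h
  obtain ⟨d, hd⟩ := h.dac.circ.1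
  obtain ⟨a, b, hne, hab, ha, hb⟩ := ends_in (G := G) (h.dsub hd)
  -- a marked edge
  have hcard : 2 ≤ (G.vx X).card := by
    have h1 : ({a, b} : Finset V) ⊆ G.vx X := by
      intro x hx
      rw [Finset.mem_insert, Finset.mem_singleton] at hx
      rcases hx with rfl | rfl
      · exact ha
      · exact hb
    have h2 := Finset.card_le_card h1
    rw [Finset.card_pair hne] at h2
    exact h2
  have hc := h.c4 (G.vx X) (Finset.Subset.refl _) hcard
  rw [inter_cut_vx, Finset.card_empty] at hc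
  have hpos : 0 < (G.ins F (G.vx X)).card := by omega
  obtain ⟨t, ht⟩ := Finset.card_pos.1 hpos
  have htF : t ∈ F := by
    rw [ins, Finset.mem_filter] at ht
    exact ht.1
  have htXM := Finset.mem_sdiff.1 (h.fsub htF)
  -- Kotzig
  have hMY : M ⊆ X.erase t := by
    intro e he
    rw [Finset.mem_erase]
    exact ⟨fun hte => htXM.2 (hte ▸ he), h.msub he⟩
  have hMne : M.Nonempty := by
    have h1 := mem_vx.1 ha
    rcases h.deg a with h2 | h2
    · exact absurd h2 h1
    · have h3 : 0 < G.deg M a := by omega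
      obtain ⟨e, he, -⟩ := G.deg_pos_iff.1 h3
      exact ⟨e, he⟩
  obtain ⟨g, hgM, hgB⟩ := t_Kotzig V E G (X.erase t) M hMY (hMne.mono hMY)
    (by
      intro v hv
      have h1 := G.deg_mono (Finset.erase_subset t X) v
      rcases h.deg v with h2 | h2
      · omega
      · exact h2.2)
    (by
      intro D' hD' hcirc
      by_contra hcon
      push Not at hcon
      have h1 : F ⊆ D' := h.m1 D' (hD'.trans (Finset.erase_subset t X)) ⟨hcirc, hcon⟩
      have h2 := hD' (h1 htF)
      rw [Finset.mem_erase] at h2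
      exact h2.1 rfl)
  obtain ⟨S, hS⟩ := G.isBridge_iff.1 hgB
  set P := S ∩ G.vx X with hPdef
  have hPX : P ⊆ G.vx X := Finset.inter_subset_right
  have hcutP : X ∩ G.cut P = X ∩ G.cut S := inter_cut_inter S
  have hmem : ∀ e, e ∈ X → e ∈ G.cut P → e ≠ t → e = g := by
    intro e he hc' het
    have h1 : e ∈ X ∩ G.cut P := Finset.mem_inter.2 ⟨he, hc'⟩
    rw [hcutP, Finset.mem_inter] at h1
    have h2 : e ∈ X.erase t ∩ G.cut S := by
      rw [Finset.mem_inter, Finset.mem_erase]
      exact ⟨⟨het, he⟩, h1.2⟩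
    rw [hS, Finset.mem_singleton] at h2
    exact h2
  have hgcut : g ∈ G.cut P := by
    have h1 : g ∈ X.erase t ∩ G.cut S := by
      rw [hS]
      exact Finset.mem_singleton_self g
    rw [Finset.mem_inter, Finset.mem_erase] at h1
    have h2 : g ∈ X ∩ G.cut S := Finset.mem_inter.2 ⟨h1.1.2, h1.2⟩
    rw [← hcutP, Finset.mem_inter] at h2
    exact h2.2
  have htcut : t ∉ G.cut P := by
    intro htc
    have h1 : (X \ M) ∩ G.cut P = {t} := by
      ext e
      rw [Finset.mem_inter, Finset.mem_sdiff, Finset.mem_singleton]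
      constructor
      · rintro ⟨⟨he, heM⟩, hc'⟩
        by_contra het
        exact heM (hmem e he hc' het ▸ hgM)
      · rintro rfl
        exact ⟨htXM, htc⟩
    have h2 := par h hPX
    rw [h1, Finset.card_singleton] at h2
    exact absurd h2 (by decide)
  refine nobridge h hPX (g := g) ?_
  ext e
  rw [Finset.mem_inter, Finset.mem_singleton]
  constructor
  · rintro ⟨he, hc'⟩
    exact hmem e he hc' (fun het => htcut (het ▸ hc'))
  · rintro rfl
    exact ⟨h.msub hgM, hgcut⟩

end Pool.GOZ
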