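import Pool.Agent.GOD.BCirc
import Pool.Agent.GOD.BDeco

/-!
# Closures of the sides of small cuts (MP_7b7176_co)

`G.ctr S z hz` (`z ∉ S`) is the multigraph in which the edges of the cut of `S` are re-ended at `z`; together with
the edge set `G.clX X S` (the edges of `X` that meet `S`) it is the graph `X` with the complement of `S` contracted
to the vertex `z`.  Circuits and bridges are transferred by even sets and cuts; no degrees are used here.
-/

set_option autoImplicit false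
set_option linter.unusedSectionVars false

namespace Pool.GOD

namespace MGraph

variable {V E : Type} [Fintype V] [DecidableEq V] [Fintype E] [DecidableEq E] (G : MGraph V E)

/-! ### Circuits are the minimal nonempty even sets -/

theorem circ_iff {D : Finset E} : G.IsCircuit D ↔ D.Nonempty ∧ G.IsEven D ∧
    ∀ D' ⊆ D, D'.Nonempty → G.IsEven D' → D' = D := by
  constructor
  · intro h
    exact ⟨h.1, h.isEven, fun D' h1 h2 h3 => t_BMin V E G D D' h h1 h2 h3⟩
  · rintro ⟨⟨e, he⟩, h2, h3⟩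
    obtain ⟨C, hC, heC, hC'⟩ := t_BCirc V E G D e he (h2.bridgeless G e)
    rw [← h3 C hC ⟨e, heC⟩ hC'.isEven]
    exact hC'

variable {G} in
/-- Even sets only depend on the ends of their edges. -/
theorem deg_congr {G' : MGraph V E} {D : Finset E} (h : ∀ e ∈ D, G.ends e = G'.ends e) (v : V) :
    G.deg D v = G'.deg D v := by
  unfold deg
  congr 1
  refine Finset.filter_congr fun e he => ?_
  rw [h e he]

variable {G} in
theorem isEven_congr {G' : MGraph V E} {D : Finset E} (h : ∀ e ∈ D, G.ends e = G'.ends e) :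
    G.IsEven D ↔ G'.IsEven D := by
  refine forall_congr' fun v => ?_
  rw [deg_congr h]

variable {G} in
theorem circ_congr {G' : MGraph V E} {D : Finset E} (h : ∀ e ∈ D, G.ends e = G'.ends e) :
    G.IsCircuit D ↔ G'.IsCircuit D := by
  rw [circ_iff, circ_iff, isEven_congr h]
  constructor
  · rintro ⟨h1, h2, h3⟩
    exact ⟨h1, h2, fun D' h4 h5 h6 => h3 D' h4 h5 ((isEven_congr fun e he => h e (h4 he)).2 h6)⟩
  · rintro ⟨h1, h2, h3⟩
    exact ⟨h1, h2, fun D' h4 h5 h6 => h3 D' h4 h5 ((isEven_congr fun e he => h e (h4 he)).1 h6)⟩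

/-! ### Bridges and cuts -/

theorem bridgeless_iff {X : Finset E} :
    G.Bridgeless X ↔ ∀ (T : Finset V) (e : E), X ∩ G.cut T ≠ {e} := by
  constructor
  · intro h T e he
    exact h e (G.isBridge_iff.2 ⟨T, he⟩)
  · intro h e he
    obtain ⟨T, hT⟩ := G.isBridge_iff.1 he
    exact h T e hT

theorem bridgeless_iff_card {X : Finset E} :
    G.Bridgeless X ↔ ∀ T : Finset V, (X ∩ G.cut T).card ≠ 1 := by
  rw [bridgeless_iff]
  constructor
  · intro h T hT
    obtain ⟨e, he⟩ := Finset.card_eq_one.1 hT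
    exact h T e he
  · intro h T e he
    exact h T (by rw [he, Finset.card_singleton])

/-- A cut of size at most one of a connected ... : every cut that separates two vertices of `X` has at least two edges. -/
def TEC (X : Finset E) : Prop :=
  ∀ T : Finset V, (∃ v ∈ T, G.deg X v ≠ 0) → (∃ v ∉ T, G.deg X v ≠ 0) → 2 ≤ (X ∩ G.cut T).card

variable {G} in
theorem TEC.bridgeless {X : Finset E} (h : G.TEC X) : G.Bridgeless X := by
  rw [bridgeless_iff]
  intro T e he
  have h1 : e ∈ X ∩ G.cut T := by rw [he]; exact Finset.mem_singleton_self e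
  rw [Finset.mem_inter] at h1
  obtain ⟨a, b, -, hab⟩ := G.exists_ends e
  have hda : G.deg X a ≠ 0 :=
    ((G.deg_pos_iff).2 ⟨e, h1.1, by rw [hab]; exact Sym2.mem_mk_left a b⟩).ne'
  have hdb : G.deg X b ≠ 0 :=
    ((G.deg_pos_iff).2 ⟨e, h1.1, by rw [hab]; exact Sym2.mem_mk_right a b⟩).ne'
  have h2 : 2 ≤ (X ∩ G.cut T).card := by
    rcases (G.mem_cut hab).1 h1.2 with ⟨h3, h4⟩ | ⟨h3, h4⟩
    · exact h T ⟨a, h3, hda⟩ ⟨b, h4, hdb⟩
    · exact h T ⟨b, h3, hdb⟩ ⟨a, h4, hda⟩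
  rw [he, Finset.card_singleton] at h2
  omega

/-! ### Contraction of the complement of `S` -/

/-- The edges of `X` that meet `S`. -/
def clX (X : Finset E) (S : Finset V) : Finset E := X.filter (fun e => ∃ a ∈ G.ends e, a ∈ S)

theorem mem_clX {X : Finset E} {S : Finset V} {e : E} :
    e ∈ G.clX X S ↔ e ∈ X ∧ ∃ a ∈ G.ends e, a ∈ S := by
  rw [clX, Finset.mem_filter]

theorem clX_subset (X : Finset E) (S : Finset V) : G.clX X S ⊆ X := Finset.filter_subset _ _

theorem mem_clX' {X : Finset E} {S : Finset V} {e : E} {a b : V} (h : G.ends e = s(a, b)) :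
    e ∈ G.clX X S ↔ e ∈ X ∧ (a ∈ S ∨ b ∈ S) := by
  rw [mem_clX, h]
  constructor
  · rintro ⟨h1, x, hx, hxS⟩
    rcases Sym2.mem_iff.1 hx with rfl | rfl
    · exact ⟨h1, Or.inl hxS⟩
    · exact ⟨h1, Or.inr hxS⟩
  · rintro ⟨h1, h2 | h2⟩
    · exact ⟨h1, a, Sym2.mem_mk_left a b, h2⟩
    · exact ⟨h1, b, Sym2.mem_mk_right a b, h2⟩

theorem clX_union_compl (X : Finset E) (S : Finset V) : G.clX X S ∪ G.clX X Sᶜ = X := by
  ext e
  obtain ⟨a, b, -, h⟩ := G.exists_ends e
  rw [Finset.mem_union, G.mem_clX' h, G.mem_clX' h, Finset.mem_compl, Finset.mem_compl]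
  tauto

theorem clX_inter_compl (X : Finset E) (S : Finset V) :
    G.clX X S ∩ G.clX X Sᶜ = X ∩ G.cut S := by
  ext e
  obtain ⟨a, b, hab, h⟩ := G.exists_ends e
  rw [Finset.mem_inter, G.mem_clX' h, G.mem_clX' h, Finset.mem_compl, Finset.mem_compl,
    Finset.mem_inter, G.mem_cut h]
  tauto

theorem inter_cut_subset_clX (X : Finset E) (S : Finset V) : X ∩ G.cut S ⊆ G.clX X S := by
  rw [← G.clX_inter_compl X S]
  exact Finset.inter_subset_left

theorem clX_inter_cut (X : Finset E) (S : Finset V) : G.clX X S ∩ G.cut S = X ∩ G.cut S := by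
  ext e
  rw [Finset.mem_inter, Finset.mem_inter]
  constructor
  · rintro ⟨h1, h2⟩
    exact ⟨G.clX_subset X S h1, h2⟩
  · intro h
    exact ⟨G.inter_cut_subset_clX X S (Finset.mem_inter.2 h), h.2⟩

theorem deg_clX (X : Finset E) {S : Finset V} {v : V} (hv : v ∈ S) :
    G.deg (G.clX X S) v = G.deg X v := by
  unfold deg
  congr 1
  ext e
  rw [Finset.mem_filter, Finset.mem_filter, mem_clX]
  constructor
  · rintro ⟨⟨h1, -⟩, h2⟩
    exact ⟨h1, h2⟩
  · rintro ⟨h1, h2⟩
    exact ⟨⟨h1, v, h2, hv⟩, h2⟩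

theorem clX_mono {X Y : Finset E} (h : X ⊆ Y) (S : Finset V) : G.clX X S ⊆ G.clX Y S :=
  Finset.filter_subset_filter _ h

theorem clX_inter (X Y : Finset E) (S : Finset V) : G.clX (X ∩ Y) S = G.clX X S ∩ Y := by
  ext e
  rw [mem_clX, Finset.mem_inter, Finset.mem_inter, mem_clX]
  tauto

theorem clX_sdiff (X Y : Finset E) (S : Finset V) : G.clX (X \ Y) S = G.clX X S \ G.clX Y S := by
  ext e
  rw [mem_clX, Finset.mem_sdiff, Finset.mem_sdiff, mem_clX, mem_clX]
  constructor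
  · rintro ⟨⟨h1, h2⟩, h3⟩
    exact ⟨⟨h1, h3⟩, fun h => h2 h.1⟩
  · rintro ⟨⟨h1, h3⟩, h2⟩
    exact ⟨⟨h1, fun h => h2 ⟨h, h3⟩⟩, h3⟩

/-- The edges of the cut of `S` are re-ended at `z`. -/
def ctr (S : Finset V) (z : V) (hz : z ∉ S) : MGraph V E where
  ends e := if e ∈ G.cut S then (G.ends e).map (fun v => if v ∈ S then v else z) else G.ends e
  loopless e := by
    split_ifs with h
    · obtain ⟨a, b, hab, he⟩ := G.exists_ends e
      rw [he, Sym2.map_mk, Sym2.mk_isDiag_iff]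
      rcases (G.mem_cut he).1 h with ⟨h1, h2⟩ | ⟨h1, h2⟩
      · simp only [h1, h2, if_true, if_false]
        rintro rfl
        exact hz h1
      · simp only [h1, h2, if_true, if_false]
        rintro rfl
        exact hz h1
    · exact G.loopless e

variable {S : Finset V} {z : V} (hz : z ∉ S)

theorem ctr_ends_cut {e : E} {a b : V} (h : G.ends e = s(a, b)) (ha : a ∈ S) (hb : b ∉ S) :
    (G.ctr S z hz).ends e = s(a, z) := by
  have h1 : e ∈ G.cut S := (G.mem_cut h).2 (Or.inl ⟨ha, hb⟩)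
  simp only [ctr, h1, if_true, h, Sym2.map_mk, ha, hb, if_false]

theorem ctr_ends_of {e : E} (h : e ∉ G.cut S) : (G.ctr S z hz).ends e = G.ends e := by
  simp only [ctr, h, if_false]

/-- The ends of an edge of the closure. -/
theorem ctr_cases {X : Finset E} {e : E} (he : e ∈ G.clX X S) :
    ∃ a b, a ≠ b ∧ a ∈ S ∧ G.ends e = s(a, b) ∧
      ((b ∈ S ∧ e ∉ G.cut S ∧ (G.ctr S z hz).ends e = s(a, b)) ∨
        (b ∉ S ∧ e ∈ G.cut S ∧ (G.ctr S z hz).ends e = s(a, z))) := by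
  obtain ⟨a, b, hab, h⟩ := G.exists_ends e
  rw [G.mem_clX' h] at he
  by_cases ha : a ∈ S
  · by_cases hb : b ∈ S
    · have h1 : e ∉ G.cut S := by rw [G.mem_cut h]; tauto
      exact ⟨a, b, hab, ha, h, Or.inl ⟨hb, h1, by rw [G.ctr_ends_of hz h1, h]⟩⟩
    · exact ⟨a, b, hab, ha, h, Or.inr ⟨hb, (G.mem_cut h).2 (Or.inl ⟨ha, hb⟩),
        G.ctr_ends_cut hz h ha hb⟩⟩
  · have hb : b ∈ S := by tauto
    have h' : G.ends e = s(b, a) := by rw [h, Sym2.eq_swap]
    exact ⟨b, a, hab.symm, hb, h', Or.inr ⟨ha, (G.mem_cut h').2 (Or.inl ⟨hb, ha⟩),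
      G.ctr_ends_cut hz h' hb ha⟩⟩

theorem mem_ctr_ends {v : V} (hv : v ∈ S) (e : E) : v ∈ (G.ctr S z hz).ends e ↔ v ∈ G.ends e := by
  obtain ⟨a, b, hab, h⟩ := G.exists_ends e
  by_cases hc : e ∈ G.cut S
  · have hvz : v ≠ z := fun h => hz (h ▸ hv)
    rcases (G.mem_cut h).1 hc with ⟨h1, h2⟩ | ⟨h1, h2⟩
    · rw [G.ctr_ends_cut hz h h1 h2, h, Sym2.mem_iff, Sym2.mem_iff]
      have : v ≠ b := fun h => h2 (h ▸ hv)
      tauto
    · have h' : G.ends e = s(b, a) := by rw [h, Sym2.eq_swap]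
      rw [G.ctr_ends_cut hz h' h1 h2, h', Sym2.mem_iff, Sym2.mem_iff]
      have : v ≠ a := fun h => h2 (h ▸ hv)
      tauto
  · rw [G.ctr_ends_of hz hc]

theorem ctr_deg (Y : Finset E) {v : V} (hv : v ∈ S) : (G.ctr S z hz).deg Y v = G.deg Y v := by
  unfold deg
  congr 1
  exact Finset.filter_congr fun e _ => G.mem_ctr_ends hz hv e

theorem ctr_deg_z {Y : Finset E} (hY : Y ⊆ G.clX Y S) :
    (G.ctr S z hz).deg Y z = (Y ∩ G.cut S).card := by
  unfold deg
  congr 1
  ext e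
  rw [Finset.mem_filter, Finset.mem_inter]
  refine and_congr_right fun he => ?_
  obtain ⟨a, b, hab, ha, h, ⟨hb, h1, h2⟩ | ⟨hb, h1, h2⟩⟩ := G.ctr_cases hz (hY he)
  · rw [h2, Sym2.mem_iff]
    constructor
    · rintro (rfl | rfl)
      · exact absurd ha hz
      · exact absurd hb hz
    · intro h3
      exact absurd h3 h1
  · rw [h2]
    exact ⟨fun _ => h1, fun _ => Sym2.mem_mk_right a z⟩

theorem ctr_deg_out {Y : Finset E} (hY : Y ⊆ G.clX Y S) {v : V} (hv : v ∉ S) (hvz : v ≠ z) :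
    (G.ctr S z hz).deg Y v = 0 := by
  unfold deg
  rw [Finset.card_eq_zero, Finset.filter_eq_empty_iff]
  intro e he hve
  obtain ⟨a, b, hab, ha, h, ⟨hb, h1, h2⟩ | ⟨hb, h1, h2⟩⟩ := G.ctr_cases hz (hY he)
  · rw [h2, Sym2.mem_iff] at hve
    rcases hve with rfl | rfl
    · exact hv ha
    · exact hv hb
  · rw [h2, Sym2.mem_iff] at hve
    rcases hve with rfl | rfl
    · exact hv ha
    · exact hvz rfl

theorem clX_self {X : Finset E} {S : Finset V} : G.clX X S ⊆ G.clX (G.clX X S) S := by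
  intro e he
  rw [mem_clX]
  exact ⟨he, (G.mem_clX.1 he).2⟩

theorem sub_clX {X Y : Finset E} {S : Finset V} (h : Y ⊆ G.clX X S) : Y ⊆ G.clX Y S := by
  intro e he
  rw [mem_clX]
  exact ⟨he, (G.mem_clX.1 (h he)).2⟩

/-- The vertex set of `G` that corresponds to the vertex set `T` of the closure. -/
def lft (S : Finset V) (z : V) (T : Finset V) : Finset V := (T ∩ S) ∪ (if z ∈ T then Sᶜ else ∅)

theorem mem_lft_in {T : Finset V} {v : V} (hv : v ∈ S) : v ∈ lft S z T ↔ v ∈ T := by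
  unfold lft
  rw [Finset.mem_union, Finset.mem_inter]
  split_ifs
  · rw [Finset.mem_compl]
    tauto
  · simp [hv]

theorem mem_lft_out {T : Finset V} {v : V} (hv : v ∉ S) : v ∈ lft S z T ↔ z ∈ T := by
  unfold lft
  rw [Finset.mem_union, Finset.mem_inter]
  split_ifs with h
  · rw [Finset.mem_compl]
    tauto
  · simp [hv, h]

theorem ctr_cut {Y : Finset E} (hY : Y ⊆ G.clX Y S) (T : Finset V) :
    Y ∩ (G.ctr S z hz).cut T = Y ∩ G.cut (lft S z T) := by
  ext e
  rw [Finset.mem_inter, Finset.mem_inter]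
  refine and_congr_right fun he => ?_
  obtain ⟨a, b, hab, ha, h, ⟨hb, h1, h2⟩ | ⟨hb, h1, h2⟩⟩ := G.ctr_cases hz (hY he)
  · rw [mem_cut _ h2, mem_cut _ h, mem_lft_in ha, mem_lft_in hb]
  · rw [mem_cut _ h2, mem_cut _ h, mem_lft_in ha, mem_lft_out hb]

/-- The cuts that do not split the complement of `S` only use edges that meet `S`. -/
theorem inter_cut_lft (Y : Finset E) (T : Finset V) :
    G.clX Y S ∩ G.cut (lft S z T) = Y ∩ G.cut (lft S z T) := by
  ext e
  rw [Finset.mem_inter, Finset.mem_inter]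
  refine and_congr_left fun he => ⟨fun h => G.clX_subset Y S h, fun h => ?_⟩
  obtain ⟨a, b, hab, hh⟩ := G.exists_ends e
  rw [G.mem_clX' hh]
  refine ⟨h, ?_⟩
  by_contra hcon
  push Not at hcon
  rw [mem_cut _ hh, mem_lft_out hcon.1, mem_lft_out hcon.2] at he
  tauto

/-! ### Bridges -/

theorem ctr_bridgeless {Y : Finset E} (h : G.Bridgeless Y) :
    (G.ctr S z hz).Bridgeless (G.clX Y S) := by
  rw [bridgeless_iff] at h ⊢
  intro T e he
  rw [G.ctr_cut hz G.clX_self, G.inter_cut_lft] at he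
  exact h _ _ he

theorem ctr_card_cut {Y : Finset E} (T : Finset V) :
    (G.clX Y S ∩ (G.ctr S z hz).cut T).card = (Y ∩ G.cut (lft S z T)).card := by
  rw [G.ctr_cut hz G.clX_self, G.inter_cut_lft]

omit [Fintype E] [DecidableEq E] in
theorem lft_sub {S' : Finset V} {y : V} (hy : y ∉ S') {T : Finset V} (hT : T ⊆ S') :
    lft S' y T = T := by
  ext v
  by_cases hv : v ∈ S'
  · rw [mem_lft_in hv]
  · rw [mem_lft_out hv]
    exact ⟨fun h => absurd (hT h) hy, fun h => absurd (hT h) hv⟩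

theorem ctr_card_cut_sub {Y : Finset E} {T : Finset V} (hT : T ⊆ S) :
    (G.clX Y S ∩ (G.ctr S z hz).cut T).card = (Y ∩ G.cut T).card := by
  rw [ctr_card_cut, lft_sub hz hT]

/-- The numbers of edges between the four cells of two vertex sets. -/
theorem cells (Y : Finset E) (S T : Finset V) : ∃ x1 x2 x3 x4 x5 x6 : ℕ,
    (Y ∩ G.cut T).card = x1 + x3 + x4 + x6 ∧ (Y ∩ G.cut S).card = x2 + x3 + x4 + x5 ∧
    (Y ∩ G.cut (S ∩ T)).card = x1 + x2 + x3 ∧ (Y ∩ G.cut (S \ T)).card = x1 + x4 + x5 ∧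
    (Y ∩ G.cut (T \ S)).card = x2 + x4 + x6 ∧ (Y ∩ G.cut (S ∪ T)).card = x3 + x5 + x6 := by
  classical
  have key : ∀ P : Finset V, (Y ∩ G.cut P).card = ∑ e ∈ Y, if e ∈ G.cut P then 1 else 0 := by
    intro P
    rw [← Finset.filter_mem_eq_inter, Finset.card_filter]
  refine ⟨∑ e ∈ Y, if e ∈ G.cut (S ∩ T) ∧ e ∈ G.cut (S \ T) then 1 else 0,
    ∑ e ∈ Y, if e ∈ G.cut (S ∩ T) ∧ e ∈ G.cut (T \ S) then 1 else 0,
    ∑ e ∈ Y, if e ∈ G.cut (S ∩ T) ∧ e ∈ G.cut (S ∪ T) then 1 else 0,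
    ∑ e ∈ Y, if e ∈ G.cut (S \ T) ∧ e ∈ G.cut (T \ S) then 1 else 0,
    ∑ e ∈ Y, if e ∈ G.cut (S \ T) ∧ e ∈ G.cut (S ∪ T) then 1 else 0,
    ∑ e ∈ Y, if e ∈ G.cut (T \ S) ∧ e ∈ G.cut (S ∪ T) then 1 else 0, ?_⟩
  simp only [key, ← Finset.sum_add_distrib]
  refine ⟨?_, ?_, ?_, ?_, ?_, ?_⟩ <;> refine Finset.sum_congr rfl fun e _ => ?_ <;>
  · obtain ⟨a, b, hab, h⟩ := G.exists_ends e
    simp only [G.mem_cut h, Finset.mem_inter, Finset.mem_sdiff, Finset.mem_union]
    by_cases h1 : a ∈ S <;> by_cases h2 : a ∈ T <;> by_cases h3 : b ∈ S <;>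
      by_cases h4 : b ∈ T <;> simp [h1, h2, h3, h4]

/-- Gluing of bridgeless graphs at a cut with at most three edges, in terms of cuts. -/
theorem glue_core {Y : Finset E} (h3 : (Y ∩ G.cut S).card ≤ 3)
    (h1 : ∀ T ⊆ S, (Y ∩ G.cut T).card ≠ 1) (h2 : ∀ T : Finset V, Disjoint T S →
      (Y ∩ G.cut T).card ≠ 1) : G.Bridgeless Y := by
  rw [bridgeless_iff_card]
  intro T hT
  obtain ⟨x1, x2, x3, x4, x5, x6, e1, e2, e3, e4, e5, e6⟩ := G.cells Y S T
  have a1 := h1 (S ∩ T) Finset.inter_subset_left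
  have a2 := h1 (S \ T) Finset.sdiff_subset
  have a3 := h2 (T \ S) Finset.sdiff_disjoint
  have a4 := h2 (S ∪ T)ᶜ (by
    rw [Finset.disjoint_left]
    intro v hv hvS
    rw [Finset.mem_compl, Finset.mem_union] at hv
    exact hv (Or.inl hvS))
  rw [G.cut_compl] at a4
  omega

theorem glue_bridgeless {Y : Finset E} {z' : V} (hz' : z' ∉ Sᶜ) (h3 : (Y ∩ G.cut S).card ≤ 3)
    (h1 : (G.ctr S z hz).Bridgeless (G.clX Y S))
    (h2 : (G.ctr Sᶜ z' hz').Bridgeless (G.clX Y Sᶜ)) : G.Bridgeless Y := by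
  rw [bridgeless_iff_card] at h1 h2
  refine G.glue_core h3 (fun T hT => ?_) fun T hT => ?_
  · rw [← G.ctr_card_cut_sub hz hT]
    exact h1 T
  · have hT' : T ⊆ Sᶜ := fun v hv => Finset.mem_compl.2 fun h => Finset.disjoint_left.1 hT hv h
    rw [← G.ctr_card_cut_sub hz' hT']
    exact h2 T

/-! ### Even sets and circuits -/

theorem ctr_even_iff {D : Finset E} (hD : D ⊆ G.clX D S) :
    (G.ctr S z hz).IsEven D ↔ ∀ v ∈ S, Even (G.deg D v) := by
  constructor
  · intro h v hv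
    rw [← G.ctr_deg hz D hv]
    exact h v
  · intro h v
    by_cases hv : v ∈ S
    · rw [G.ctr_deg hz D hv]
      exact h v hv
    · by_cases hvz : v = z
      · subst hvz
        rw [G.ctr_deg_z hz hD]
        have h1 := G.sum_deg D S
        have h2 : Even (∑ v ∈ S, G.deg D v) := Finset.even_sum _ fun v hv => h v hv
        rw [h1] at h2
        exact (Nat.even_add.1 h2).2 ⟨_, by ring⟩
      · rw [G.ctr_deg_out hz hD hv hvz]
        exact ⟨0, rfl⟩

theorem ctr_even {D : Finset E} (h : G.IsEven D) : (G.ctr S z hz).IsEven (G.clX D S) := by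
  rw [G.ctr_even_iff hz G.clX_self]
  intro v hv
  rw [G.deg_clX D hv]
  exact h v

/-- A circuit that lies inside `S` is the same in `G` and in the closure. -/
theorem ctr_circ_in {D : Finset E} (hD : Disjoint D (G.cut S)) :
    (G.ctr S z hz).IsCircuit D ↔ G.IsCircuit D :=
  circ_congr fun _ he => G.ctr_ends_of hz (Finset.disjoint_left.1 hD he)

theorem deg_glue_in {D1 D2 : Finset E} (h2 : D2 ⊆ G.clX D2 Sᶜ) (h : D2 ∩ G.cut S ⊆ D1) {v : V}
    (hv : v ∈ S) : G.deg (D1 ∪ D2) v = G.deg D1 v := by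
  unfold deg
  congr 1
  ext e
  rw [Finset.mem_filter, Finset.mem_filter, Finset.mem_union]
  constructor
  · rintro ⟨h3 | h3, h4⟩
    · exact ⟨h3, h4⟩
    · refine ⟨h (Finset.mem_inter.2 ⟨h3, ?_⟩), h4⟩
      obtain ⟨b, hb, hbS⟩ := (G.mem_clX.1 (h2 h3)).2
      rw [cut, Finset.mem_filter]
      exact ⟨Finset.mem_univ _, ⟨v, h4, hv⟩, b, hb, Finset.mem_compl.1 hbS⟩
  · rintro ⟨h3, h4⟩
    exact ⟨Or.inl h3, h4⟩

/-- A circuit that uses the cut of `S` exactly twice becomes a circuit of the closure. -/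
theorem ctr_circ {D : Finset E} (h : G.IsCircuit D) (h2 : (D ∩ G.cut S).card = 2) :
    (G.ctr S z hz).IsCircuit (G.clX D S) := by
  rw [circ_iff] at h ⊢
  obtain ⟨hne, hev, hmin⟩ := h
  have hcut : (D ∩ G.cut S).Nonempty := by
    rw [← Finset.card_pos, h2]
    omega
  refine ⟨?_, G.ctr_even hz hev, fun D' h3 h4 h5 => ?_⟩
  · obtain ⟨e, he⟩ := hcut
    exact ⟨e, G.inter_cut_subset_clX D S he⟩
  · have hD' : D' ⊆ G.clX D' S := G.sub_clX h3
    have h6 : Even (D' ∩ G.cut S).card := by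
      rw [← G.ctr_deg_z hz hD']
      exact h5 z
    have h7 : D' ∩ G.cut S ⊆ D ∩ G.cut S :=
      Finset.inter_subset_inter_right (h3.trans (G.clX_subset D S))
    have h8 : (D' ∩ G.cut S).card ≤ 2 := h2 ▸ Finset.card_le_card h7
    rw [G.ctr_even_iff hz hD'] at h5
    have h9 : (D' ∩ G.cut S).card = 0 ∨ (D' ∩ G.cut S).card = 2 := by
      rcases h6 with ⟨k, hk⟩
      omega
    rcases h9 with h9 | h9
    · exfalso
      rw [Finset.card_eq_zero] at h9
      have h10 : G.IsEven D' := by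
        intro v
        by_cases hv : v ∈ S
        · exact h5 v hv
        · have : G.deg D' v = 0 := by
            unfold deg
            rw [Finset.card_eq_zero, Finset.filter_eq_empty_iff]
            intro e he hve
            obtain ⟨a, ha, haS⟩ := (G.mem_clX.1 (hD' he)).2
            have : e ∈ D' ∩ G.cut S := by
              rw [Finset.mem_inter, cut, Finset.mem_filter]
              exact ⟨he, Finset.mem_univ _, ⟨a, ha, haS⟩, v, hve, hv⟩
            rw [h9] at this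
            exact absurd this (Finset.notMem_empty e)
          rw [this]
          exact ⟨0, rfl⟩
      have h11 := hmin D' (h3.trans (G.clX_subset D S)) h4 h10
      rw [h11] at h9
      rw [h9] at hcut
      exact Finset.not_nonempty_empty hcut
    · have h10 : D' ∩ G.cut S = D ∩ G.cut S :=
        Finset.eq_of_subset_of_card_le h7 (by rw [h9, h2])
      have h11 : G.IsEven (D' ∪ G.clX D Sᶜ) := by
        intro v
        by_cases hv : v ∈ S
        · rw [G.deg_glue_in G.clX_self ?_ hv]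
          · exact h5 v hv
          · rw [← G.cut_compl S, G.clX_inter_cut, G.cut_compl, ← h10]
            exact Finset.inter_subset_left
        · have hv' : v ∈ Sᶜ := Finset.mem_compl.2 hv
          rw [Finset.union_comm, G.deg_glue_in (S := Sᶜ) ?_ ?_ hv', G.deg_clX D hv']
          · exact hev v
          · rw [compl_compl]
            exact hD'
          · rw [G.cut_compl, h10, ← G.cut_compl S]
            exact G.inter_cut_subset_clX D Sᶜ
      have h12 : D' ∪ G.clX D Sᶜ = D := by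
        refine hmin _ ?_ ?_ h11
        · exact Finset.union_subset (h3.trans (G.clX_subset D S)) (G.clX_subset D Sᶜ)
        · obtain ⟨e, he⟩ := h4
          exact ⟨e, Finset.mem_union_left _ he⟩
      refine Finset.Subset.antisymm h3 fun e he => ?_
      have h13 : e ∈ D' ∪ G.clX D Sᶜ := by
        rw [h12]
        exact G.clX_subset D S he
      rcases Finset.mem_union.1 h13 with h14 | h14
      · exact h14
      · have h15 : e ∈ D ∩ G.cut S := by
          rw [← G.clX_inter_compl]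
          exact Finset.mem_inter.2 ⟨he, h14⟩
        rw [← h10] at h15
        exact (Finset.mem_inter.1 h15).1

theorem clX_glue {D1 D2 : Finset E} (h1 : D1 ⊆ G.clX D1 S) (h2 : D2 ⊆ G.clX D2 Sᶜ)
    (h : D2 ∩ G.cut S ⊆ D1) : G.clX (D1 ∪ D2) S = D1 := by
  ext e
  rw [mem_clX, Finset.mem_union]
  constructor
  · rintro ⟨h3 | h3, a, ha, haS⟩
    · exact h3
    · refine h (Finset.mem_inter.2 ⟨h3, ?_⟩)
      obtain ⟨b, hb, hbS⟩ := (G.mem_clX.1 (h2 h3)).2
      rw [cut, Finset.mem_filter]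
      exact ⟨Finset.mem_univ _, ⟨a, ha, haS⟩, b, hb, Finset.mem_compl.1 hbS⟩
  · intro h3
    exact ⟨Or.inl h3, (G.mem_clX.1 (h1 h3)).2⟩

/-- Circuits of the two closures with the same two edges in the cut are glued to a circuit. -/
theorem glue_circ {D1 D2 : Finset E} {z' : V} (hz' : z' ∉ Sᶜ) (h1 : D1 ⊆ G.clX D1 S)
    (h2 : D2 ⊆ G.clX D2 Sᶜ) (h : D1 ∩ G.cut S = D2 ∩ G.cut S) (hne : (D1 ∩ G.cut S).Nonempty)
    (hD1 : (G.ctr S z hz).IsCircuit D1) (hD2 : (G.ctr Sᶜ z' hz').IsCircuit D2) :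
    G.IsCircuit (D1 ∪ D2) := by
  rw [circ_iff] at hD1 hD2 ⊢
  obtain ⟨a1, a2, a3⟩ := hD1
  obtain ⟨b1, b2, b3⟩ := hD2
  have c1 : D2 ∩ G.cut S ⊆ D1 := by
    rw [← h]
    exact Finset.inter_subset_left
  have c2 : D1 ∩ G.cut Sᶜ ⊆ D2 := by
    rw [G.cut_compl, h]
    exact Finset.inter_subset_left
  have h1' : D1 ⊆ G.clX D1 Sᶜᶜ := by
    rw [compl_compl]
    exact h1
  rw [G.ctr_even_iff hz h1] at a2
  rw [G.ctr_even_iff hz' h2] at b2
  have e1 : G.clX (D1 ∪ D2) S = D1 := G.clX_glue h1 h2 c1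
  have e2 : G.clX (D1 ∪ D2) Sᶜ = D2 := by
    rw [Finset.union_comm]
    exact G.clX_glue h2 h1' c2
  refine ⟨?_, ?_, fun D' h3 h4 h5 => ?_⟩
  · obtain ⟨e, he⟩ := a1
    exact ⟨e, Finset.mem_union_left _ he⟩
  · intro v
    by_cases hv : v ∈ S
    · rw [G.deg_glue_in h2 c1 hv]
      exact a2 v hv
    · have hv' : v ∈ Sᶜ := Finset.mem_compl.2 hv
      rw [Finset.union_comm, G.deg_glue_in (S := Sᶜ) h1' c2 hv']
      exact b2 v hv'
  · have d1 : G.clX D' S ⊆ D1 := by
      rw [← e1]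
      exact G.clX_mono h3 S
    have d2 : G.clX D' Sᶜ ⊆ D2 := by
      rw [← e2]
      exact G.clX_mono h3 Sᶜ
    have f1 : (G.clX D' S).Nonempty → G.clX D' S = D1 := fun hn => a3 _ d1 hn (G.ctr_even hz h5)
    have f2 : (G.clX D' Sᶜ).Nonempty → G.clX D' Sᶜ = D2 :=
      fun hn => b3 _ d2 hn (G.ctr_even hz' h5)
    have g1 : G.clX D' S = D1 := by
      by_contra hcon
      have n1 : G.clX D' S = ∅ := by
        rw [← Finset.not_nonempty_iff_eq_empty]
        exact fun hn => hcon (f1 hn)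
      have n2 : D' ∩ G.cut S = ∅ := by
        rw [← Finset.subset_empty, ← n1]
        exact G.inter_cut_subset_clX D' S
      have n3 : (G.clX D' Sᶜ).Nonempty := by
        rw [← G.clX_union_compl D' S, n1, Finset.empty_union] at h4
        exact h4
      have n4 := f2 n3
      obtain ⟨e, he⟩ := hne
      rw [h, ← n4] at he
      have : e ∈ D' ∩ G.cut S :=
        Finset.mem_inter.2 ⟨G.clX_subset _ _ (Finset.mem_inter.1 he).1, (Finset.mem_inter.1 he).2⟩
      rw [n2] at this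
      exact absurd this (Finset.notMem_empty e)
    have g2 : G.clX D' Sᶜ = D2 := by
      refine f2 ?_
      obtain ⟨e, he⟩ := hne
      have h6 : e ∈ D' := by
        have h7 := (Finset.mem_inter.1 he).1
        rw [← g1] at h7
        exact G.clX_subset _ _ h7
      refine ⟨e, G.inter_cut_subset_clX D' Sᶜ (Finset.mem_inter.2 ⟨h6, ?_⟩)⟩
      rw [G.cut_compl]
      exact (Finset.mem_inter.1 he).2
    rw [← G.clX_union_compl D' S, g1, g2]

end MGraph

end Pool.GOD
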