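import Pool.Agent.GOZ.Defs
import Pool.Agent.GOZ.Cl

/-!
# Closures of sides in the weighted model (MP_7b7176_co)

Transfer of cubic graphs with a perfect matching, alternating circuits and removable circuits between `G` and the
closures `G.ctr S z hz` of the two sides of a cut with at most three edges.
-/

set_option autoImplicit false
set_option linter.unusedSectionVars false

namespace Pool.GOD

namespace MGraph

variable {V E : Type} [Fintype V] [DecidableEq V] [Fintype E] [DecidableEq E] (G : MGraph V E)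

theorem mem_vx {X : Finset E} {v : V} : v ∈ G.vx X ↔ G.deg X v ≠ 0 := by
  simp [vx]

theorem clX_rst (X M D : Finset E) (S : Finset V) :
    G.clX (rst X M D) S = rst (G.clX X S) (G.clX M S) (G.clX D S) := by
  unfold rst
  rw [clX_sdiff, clX_sdiff]

theorem deg_inter_clX (D M : Finset E) {S : Finset V} {v : V} (hv : v ∈ S) :
    G.deg (G.clX D S ∩ G.clX M S) v = G.deg (D ∩ M) v := by
  rw [← G.deg_clX (D ∩ M) hv]
  congr 1
  ext e
  rw [Finset.mem_inter, mem_clX, mem_clX, mem_clX, Finset.mem_inter]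
  constructor
  · rintro ⟨⟨h1, h2⟩, h3, -⟩
    exact ⟨⟨h1, h3⟩, h2⟩
  · rintro ⟨⟨h1, h3⟩, h2⟩
    exact ⟨⟨h1, h2⟩, h3, h2⟩

variable {S : Finset V} {z : V} (hz : z ∉ S)

/-- The vertices of the closure. -/
theorem ctr_vx {X : Finset E} (hc : (X ∩ G.cut S).Nonempty) :
    (G.ctr S z hz).vx (G.clX X S) = insert z (S ∩ G.vx X) := by
  ext v
  rw [mem_vx, Finset.mem_insert, Finset.mem_inter, mem_vx]
  by_cases hv : v ∈ S
  · rw [G.ctr_deg hz _ hv, G.deg_clX X hv]
    constructor
    · exact fun h => Or.inr ⟨hv, h⟩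
    · rintro (rfl | h)
      · exact absurd hv hz
      · exact h.2
  · by_cases hvz : v = z
    · subst hvz
      rw [G.ctr_deg_z hz G.clX_self, G.clX_inter_cut]
      exact ⟨fun _ => Or.inl rfl, fun _ => (Finset.card_pos.2 hc).ne'⟩
    · rw [G.ctr_deg_out hz G.clX_self hv hvz]
      constructor
      · exact fun h => absurd rfl h
      · rintro (h | h)
        · exact absurd h hvz
        · exact absurd h.1 hv

/-- The closure of a side of a cut with three edges, one of them in `M`, is cubic with a perfect matching. -/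
theorem ctr_cm {X M : Finset E} (h : G.CM X M) (h3 : (X ∩ G.cut S).card = 3)
    (h1 : (M ∩ G.cut S).card = 1) : (G.ctr S z hz).CM (G.clX X S) (G.clX M S) := by
  refine ⟨G.clX_mono h.sub S, fun v => ?_⟩
  by_cases hv : v ∈ S
  · rw [G.ctr_deg hz _ hv, G.ctr_deg hz _ hv, G.deg_clX X hv, G.deg_clX M hv]
    exact h.deg v
  · by_cases hvz : v = z
    · subst hvz
      right
      rw [G.ctr_deg_z hz G.clX_self, G.ctr_deg_z hz G.clX_self, G.clX_inter_cut, G.clX_inter_cut]
      exact ⟨h3, h1⟩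
    · left
      exact G.ctr_deg_out hz G.clX_self hv hvz

/-- Alternating circuits inside `S`. -/
theorem ctr_ac_in {M D : Finset E} (hD : D ⊆ G.clX D S) (hc : D ∩ G.cut S = ∅) :
    (G.ctr S z hz).IsAC (G.clX M S) D ↔ G.IsAC M D := by
  have hd : Disjoint D (G.cut S) := Finset.disjoint_iff_inter_eq_empty.2 hc
  have he : ∀ e ∈ D, (G.ctr S z hz).ends e = G.ends e := fun e he =>
    G.ctr_ends_of hz (Finset.disjoint_left.1 hd he)
  have h1 : D ∩ G.clX M S = D ∩ M := by
    ext e
    rw [Finset.mem_inter, Finset.mem_inter, mem_clX]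
    exact ⟨fun h => ⟨h.1, h.2.1⟩, fun h => ⟨h.1, h.2, (G.mem_clX.1 (hD h.1)).2⟩⟩
  have h2 : ∀ v, (G.ctr S z hz).deg D v = G.deg D v := deg_congr he
  have h3 : ∀ v, (G.ctr S z hz).deg (D ∩ M) v = G.deg (D ∩ M) v :=
    deg_congr fun e h => he e (Finset.mem_inter.1 h).1
  constructor
  · intro h
    refine ⟨(circ_congr he).1 h.circ, fun v hv => ?_⟩
    have := h.alt v (by rw [h2]; exact hv)
    rwa [h1, h3] at this
  · intro h
    refine ⟨(circ_congr he).2 h.circ, fun v hv => ?_⟩
    rw [h1, h3]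
    exact h.alt v (by rw [← h2]; exact hv)

/-- An alternating circuit that uses two edges of the cut, one of them in `M`, in the closure. -/
theorem ctr_ac {M D : Finset E} (h : G.IsAC M D) (h2 : (D ∩ G.cut S).card = 2)
    (h1 : (D ∩ M ∩ G.cut S).card = 1) : (G.ctr S z hz).IsAC (G.clX M S) (G.clX D S) := by
  refine ⟨G.ctr_circ hz h.circ h2, fun v hv => ?_⟩
  by_cases hvS : v ∈ S
  · rw [G.ctr_deg hz _ hvS, G.deg_inter_clX D M hvS]
    rw [G.ctr_deg hz _ hvS, G.deg_clX D hvS] at hv
    exact h.alt v hv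
  · by_cases hvz : v = z
    · subst hvz
      rw [G.ctr_deg_z hz ?_]
      · rw [← h1]
        congr 1
        ext e
        rw [Finset.mem_inter, Finset.mem_inter, mem_clX, mem_clX, Finset.mem_inter,
          Finset.mem_inter]
        constructor
        · rintro ⟨⟨⟨a1, -⟩, a3, -⟩, a5⟩
          exact ⟨⟨a1, a3⟩, a5⟩
        · rintro ⟨⟨a1, a3⟩, a5⟩
          have a6 := (G.mem_clX.1 (G.inter_cut_subset_clX D S (Finset.mem_inter.2 ⟨a1, a5⟩))).2
          exact ⟨⟨⟨a1, a6⟩, a3, a6⟩, a5⟩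
      · exact G.sub_clX (X := D) Finset.inter_subset_left
    · rw [G.ctr_deg_out hz G.clX_self hvS hvz] at hv
      omega

/-- Alternating circuits of the two closures with the same two edges in the cut are glued. -/
theorem glue_ac {M D1 D2 : Finset E} {z' : V} (hz' : z' ∉ Sᶜ) (h1 : D1 ⊆ G.clX D1 S)
    (h2 : D2 ⊆ G.clX D2 Sᶜ) (h : D1 ∩ G.cut S = D2 ∩ G.cut S) (hne : (D1 ∩ G.cut S).Nonempty)
    (hD1 : (G.ctr S z hz).IsAC (G.clX M S) D1) (hD2 : (G.ctr Sᶜ z' hz').IsAC (G.clX M Sᶜ) D2) :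
    G.IsAC M (D1 ∪ D2) := by
  have c1 : D2 ∩ G.cut S ⊆ D1 := by
    rw [← h]
    exact Finset.inter_subset_left
  have c2 : D1 ∩ G.cut Sᶜ ⊆ D2 := by
    rw [G.cut_compl, h]
    exact Finset.inter_subset_left
  have h1' : D1 ⊆ G.clX D1 Sᶜᶜ := by
    rw [compl_compl]
    exact h1
  refine ⟨G.glue_circ hz hz' h1 h2 h hne hD1.circ hD2.circ, fun v hv => ?_⟩
  rw [Finset.union_inter_distrib_right]
  by_cases hvS : v ∈ S
  · rw [G.deg_glue_in h2 c1 hvS] at hv
    have a1 : D2 ∩ M ⊆ G.clX (D2 ∩ M) Sᶜ := G.sub_clX (Finset.inter_subset_left.trans h2)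
    have a2 : D2 ∩ M ∩ G.cut S ⊆ D1 ∩ M := fun e he => by
      rw [Finset.mem_inter, Finset.mem_inter] at he
      exact Finset.mem_inter.2 ⟨c1 (Finset.mem_inter.2 ⟨he.1.1, he.2⟩), he.1.2⟩
    rw [G.deg_glue_in a1 a2 hvS]
    have a3 := hD1.alt v (by rw [G.ctr_deg hz _ hvS]; exact hv)
    rw [G.ctr_deg hz _ hvS] at a3
    rw [← a3]
    congr 1
    ext e
    rw [Finset.mem_inter, Finset.mem_inter, mem_clX]
    exact ⟨fun he => ⟨he.1, he.2, (G.mem_clX.1 (h1 he.1)).2⟩, fun he => ⟨he.1, he.2.1⟩⟩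
  · have hvS' : v ∈ Sᶜ := Finset.mem_compl.2 hvS
    rw [Finset.union_comm, G.deg_glue_in (S := Sᶜ) h1' c2 hvS'] at hv
    have a1 : D1 ∩ M ⊆ G.clX (D1 ∩ M) Sᶜᶜ := by
      rw [compl_compl]
      exact G.sub_clX (Finset.inter_subset_left.trans h1)
    have a2 : D1 ∩ M ∩ G.cut Sᶜ ⊆ D2 ∩ M := fun e he => by
      rw [Finset.mem_inter, Finset.mem_inter] at he
      exact Finset.mem_inter.2 ⟨c2 (Finset.mem_inter.2 ⟨he.1.1, he.2⟩), he.1.2⟩
    rw [Finset.union_comm, G.deg_glue_in a1 a2 hvS']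
    have a3 := hD2.alt v (by rw [G.ctr_deg hz' _ hvS']; exact hv)
    rw [G.ctr_deg hz' _ hvS'] at a3
    rw [← a3]
    congr 1
    ext e
    rw [Finset.mem_inter, Finset.mem_inter, mem_clX]
    exact ⟨fun he => ⟨he.1, he.2, (G.mem_clX.1 (h2 he.1)).2⟩, fun he => ⟨he.1, he.2.1⟩⟩

/-! ### Removable circuits -/

/-- A removable circuit of the closure that avoids the new vertex is removable in `G`. -/
theorem rem_of_ctr {X M D : Finset E} (hX : G.Bridgeless X) (h3 : (X ∩ G.cut S).card ≤ 3)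
    (hc : D ∩ G.cut S = ∅) (hD : (G.ctr S z hz).Rem (G.clX X S) (G.clX M S) D) :
    G.Rem X M D := by
  classical
  have hDX : D ⊆ X := hD.sub.trans (G.clX_subset X S)
  have hDc : D ⊆ G.clX D S := G.sub_clX hD.sub
  have hDo : G.clX D Sᶜ = ∅ := by
    rw [Finset.eq_empty_iff_forall_notMem]
    intro e he
    have : e ∈ D ∩ G.cut S := by
      rw [← G.clX_inter_compl]
      exact Finset.mem_inter.2 ⟨hDc (G.clX_subset _ _ he), he⟩
    rw [hc] at this
    exact absurd this (Finset.notMem_empty e)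
  refine ⟨hDX, (G.ctr_ac_in hz hDc hc).1 hD.ac, ?_⟩
  refine G.glue_core (S := S) ?_ (fun T hT => ?_) fun T hT => ?_
  · exact (Finset.card_le_card (Finset.inter_subset_inter_right Finset.sdiff_subset)).trans h3
  · have h4 := (bridgeless_iff_card _).1 hD.br T
    have h5 : rst (G.clX X S) (G.clX M S) D = G.clX (rst X M D) S := by
      rw [clX_rst]
      congr 1
      exact Finset.Subset.antisymm hDc (G.clX_subset D S)
    rw [h5, G.ctr_card_cut_sub hz hT] at h4
    exact h4
  · have h4 := (bridgeless_iff_card _).1 hX T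
    have h5 : rst X M D ∩ G.cut T = X ∩ G.cut T := by
      ext e
      rw [Finset.mem_inter, Finset.mem_inter, rst, Finset.mem_sdiff, Finset.mem_sdiff]
      constructor
      · rintro ⟨⟨a1, -⟩, a2⟩
        exact ⟨a1, a2⟩
      · rintro ⟨a1, a2⟩
        refine ⟨⟨a1, fun a3 => ?_⟩, a2⟩
        rw [cut, Finset.mem_filter] at a2
        obtain ⟨-, ⟨a, ha, haT⟩, -⟩ := a2
        have : e ∈ G.clX D Sᶜ := by
          rw [mem_clX]
          exact ⟨a3.1, a, ha, Finset.mem_compl.2 fun h => Finset.disjoint_left.1 hT haT h⟩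
        rw [hDo] at this
        exact absurd this (Finset.notMem_empty e)
    rw [h5]
    exact h4

/-- Removable circuits of both closures with the same two edges in the cut are glued. -/
theorem glue_rem {X M D1 D2 : Finset E} {z' : V} (hz' : z' ∉ Sᶜ) (h3 : (X ∩ G.cut S).card ≤ 3)
    (h : D1 ∩ G.cut S = D2 ∩ G.cut S) (hne : (D1 ∩ G.cut S).Nonempty)
    (hD1 : (G.ctr S z hz).Rem (G.clX X S) (G.clX M S) D1)
    (hD2 : (G.ctr Sᶜ z' hz').Rem (G.clX X Sᶜ) (G.clX M Sᶜ) D2) : G.Rem X M (D1 ∪ D2) := by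
  have h1 : D1 ⊆ G.clX D1 S := G.sub_clX hD1.sub
  have h2 : D2 ⊆ G.clX D2 Sᶜ := G.sub_clX hD2.sub
  have c1 : D2 ∩ G.cut S ⊆ D1 := by
    rw [← h]
    exact Finset.inter_subset_left
  have c2 : D1 ∩ G.cut Sᶜ ⊆ D2 := by
    rw [G.cut_compl, h]
    exact Finset.inter_subset_left
  have h1' : D1 ⊆ G.clX D1 Sᶜᶜ := by
    rw [compl_compl]
    exact h1
  have e1 : G.clX (D1 ∪ D2) S = D1 := G.clX_glue h1 h2 c1
  have e2 : G.clX (D1 ∪ D2) Sᶜ = D2 := by
    rw [Finset.union_comm]
    exact G.clX_glue h2 h1' c2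
  refine ⟨Finset.union_subset (hD1.sub.trans (G.clX_subset X S))
    (hD2.sub.trans (G.clX_subset X Sᶜ)), G.glue_ac hz hz' h1 h2 h hne hD1.ac hD2.ac, ?_⟩
  refine G.glue_bridgeless hz hz' ?_ ?_ ?_
  · exact (Finset.card_le_card (Finset.inter_subset_inter_right Finset.sdiff_subset)).trans h3
  · rw [clX_rst, e1]
    exact hD1.br
  · rw [clX_rst, e2]
    exact hD2.br

/-- The part of a removable circuit in the closure is removable. -/
theorem ctr_rem {X M D : Finset E} (h : G.Rem X M D) (h2 : (D ∩ G.cut S).card = 2)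
    (h1 : (D ∩ M ∩ G.cut S).card = 1) :
    (G.ctr S z hz).Rem (G.clX X S) (G.clX M S) (G.clX D S) := by
  refine ⟨G.clX_mono h.sub S, G.ctr_ac hz h.ac h2 h1, ?_⟩
  rw [← clX_rst]
  exact G.ctr_bridgeless hz h.br

/-- A removable circuit inside `S` is removable in the closure. -/
theorem ctr_rem_in {X M D : Finset E} (h : G.Rem X M D) (hD : D ⊆ G.clX D S)
    (hc : D ∩ G.cut S = ∅) : (G.ctr S z hz).Rem (G.clX X S) (G.clX M S) D := by
  refine ⟨fun e he => ?_, (G.ctr_ac_in hz hD hc).2 h.ac, ?_⟩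
  · exact G.clX_mono h.sub S (hD he)
  · have h5 : G.clX D S = D := Finset.Subset.antisymm (G.clX_subset D S) hD
    have h6 := G.ctr_bridgeless hz h.br
    rw [clX_rst, h5] at h6
    exact h6

/-! ### Minimal sides -/

/-- If every side of a cut with at most three edges that is properly contained in `S` is trivial, then the closure
of `S` has only trivial cuts with at most three edges. -/
theorem ctr_c4 {X : Finset E} (hc : (X ∩ G.cut S).Nonempty)
    (hmin : ∀ T : Finset V, T ⊆ S → (X ∩ G.cut T).card ≤ 3 → (T ∩ G.vx X).card ≤ 1 ∨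
      ((S ∩ G.vx X) \ T).card = 0) :
    (G.ctr S z hz).C4 (G.clX X S) := by
  intro T hT
  rw [G.ctr_vx hz hc]
  rw [G.ctr_card_cut hz] at hT
  by_cases hzT : z ∈ T
  · have h1 : (S \ T) ⊆ S := Finset.sdiff_subset
    have h2 : lft S z T = (S \ T)ᶜ := by
      ext v
      rw [Finset.mem_compl, Finset.mem_sdiff]
      by_cases hv : v ∈ S
      · rw [mem_lft_in hv]
        tauto
      · rw [mem_lft_out hv]
        tauto
    rw [h2, G.cut_compl] at hT
    rcases hmin _ h1 hT with h3 | h3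
    · right
      refine (Finset.card_le_card fun v hv => ?_).trans h3
      rw [Finset.mem_sdiff, Finset.mem_insert, Finset.mem_inter] at hv
      rw [Finset.mem_inter, Finset.mem_sdiff]
      rcases hv.1 with rfl | h4
      · exact absurd hzT hv.2
      · exact ⟨⟨h4.1, hv.2⟩, h4.2⟩
    · left
      rw [Finset.card_eq_zero] at h3
      have h5 : T ∩ insert z (S ∩ G.vx X) ⊆ {z} := by
        intro v hv
        rw [Finset.mem_inter, Finset.mem_insert] at hv
        rw [Finset.mem_singleton]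
        rcases hv.2 with rfl | h4
        · rfl
        · exfalso
          have : v ∈ (S ∩ G.vx X) \ (S \ T) := by
            rw [Finset.mem_sdiff, Finset.mem_sdiff]
            exact ⟨h4, fun h => h.2 hv.1⟩
          rw [h3] at this
          exact absurd this (Finset.notMem_empty v)
      exact (Finset.card_le_card h5).trans (Finset.card_singleton z).le
  · have h1 : (T ∩ S) ⊆ S := Finset.inter_subset_right
    have h2 : lft S z T = T ∩ S := by
      ext v
      rw [Finset.mem_inter]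
      by_cases hv : v ∈ S
      · rw [mem_lft_in hv]
        tauto
      · rw [mem_lft_out hv]
        tauto
    rw [h2] at hT
    rcases hmin _ h1 hT with h3 | h3
    · left
      refine (Finset.card_le_card fun v hv => ?_).trans h3
      rw [Finset.mem_inter, Finset.mem_insert, Finset.mem_inter] at hv
      rw [Finset.mem_inter, Finset.mem_inter]
      rcases hv.2 with rfl | h4
      · exact absurd hv.1 hzT
      · exact ⟨⟨hv.1, h4.1⟩, h4.2⟩
    · right
      rw [Finset.card_eq_zero] at h3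
      have h5 : insert z (S ∩ G.vx X) \ T ⊆ {z} := by
        intro v hv
        rw [Finset.mem_sdiff, Finset.mem_insert] at hv
        rw [Finset.mem_singleton]
        rcases hv.1 with rfl | h4
        · rfl
        · exfalso
          have : v ∈ (S ∩ G.vx X) \ (T ∩ S) := by
            exact Finset.mem_sdiff.2 ⟨h4, fun h => hv.2 (Finset.mem_inter.1 h).1⟩
          rw [h3] at this
          exact absurd this (Finset.notMem_empty v)
      exact (Finset.card_le_card h5).trans (Finset.card_singleton z).le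

end MGraph

end Pool.GOD
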