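import Pool.Agent.GOD.Kotzig

/-!
MP_7b7176_co, second road to Q1 (folder GOZ): Theorem Z (helper27) and what is built on it.

MODEL.  Everything lives in ONE ambient multigraph `G : MGraph V E`.  A graph is an edge set `X`
(its vertices are the non-isolated ones, `G.vx X`), `M ⊆ X` is a perfect matching of it (the edges
of weight 2); the edges of `X \ M` have weight 1.  The support of `w - χ_D` for an alternating
circuit `D` is `rst X M D = X \ (D \ M)`.
-/

set_option autoImplicit false
set_option linter.unusedSectionVars false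

namespace Pool.GOD

namespace MGraph

section defs

variable {V E : Type} [Fintype V] [DecidableEq V] [Fintype E] [DecidableEq E] (G : MGraph V E)

/-- The vertices of the subgraph `X`. -/
def vx (X : Finset E) : Finset V := Finset.univ.filter (fun v => G.deg X v ≠ 0)

/-- The edges of `X` with both ends in `P`. -/
def ins (X : Finset E) (P : Finset V) : Finset E := X.filter (fun e => ∀ v ∈ G.ends e, v ∈ P)

/-- `D` is an `M`-alternating circuit: every vertex of `D` has exactly one edge of `M` in `D`. -/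
structure IsAC (M D : Finset E) : Prop where
  circ : G.IsCircuit D
  alt : ∀ v, G.deg D v = 2 → G.deg (D ∩ M) v = 1

/-- `X` is cubic (on its vertices) and `M` is a perfect matching of `X`. -/
structure CM (X M : Finset E) : Prop where
  sub : M ⊆ X
  deg : ∀ v, G.deg X v = 0 ∨ (G.deg X v = 3 ∧ G.deg M v = 1)

/-- The support of `w - χ_D` (weight 2 on `M`, weight 1 on `X \ M`). -/
def rst (X M D : Finset E) : Finset E := X \ (D \ M)

/-- `D` is a removable circuit of `(X, M)`. -/
structure Rem (X M D : Finset E) : Prop where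
  sub : D ⊆ X
  ac : G.IsAC M D
  br : G.Bridgeless (rst X M D)

/-- Every edge cut with at most three edges is trivial. -/
def C4 (X : Finset E) : Prop :=
  ∀ S : Finset V, (X ∩ G.cut S).card ≤ 3 → (S ∩ G.vx X).card ≤ 1 ∨ (G.vx X \ S).card ≤ 1

/-- `a` and `b` are not separated by the deletion of an edge of `X` (and are connected in `X`). -/
def Tc (X : Finset E) (a b : V) : Prop := G.ConnIn X a b ∧ ∀ e, G.ConnIn (X.erase e) a b

/-- The core situation of Theorem Z: `z` is a root of degree 2, all other vertices of `X` are cubic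
and matched by `M`, `F` is the set of marked edges, `D` is an alternating circuit avoiding `z`,
every alternating circuit avoiding `z` contains all marked edges; the cut condition is the
translation of cyclic 4-edge-connectivity (a marked edge inside `P` counts twice, the root once). -/
structure Core (X M F D : Finset E) (z : V) : Prop where
  msub : M ⊆ X
  fsub : F ⊆ X \ M
  degz : G.deg X z = 2
  degmz : G.deg M z = 0
  deg : ∀ v, v ≠ z → G.deg X v = 0 ∨ (G.deg X v = 3 ∧ G.deg M v = 1)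
  dsub : D ⊆ X
  dac : G.IsAC M D
  dz : G.deg D z = 0
  m1 : ∀ D', D' ⊆ X → G.IsAC M D' → G.deg D' z = 0 → F ⊆ D'
  c4 : ∀ P : Finset V, P ⊆ G.vx X → 2 ≤ P.card →
    4 ≤ (X ∩ G.cut P).card + 2 * (G.ins F P).card + (if z ∈ P then 1 else 0)

/-- A half ladder: `R` has the vertices `q 0, ..., q (2k)`, the edges of weight 1 are
`s j = q j q (j+1)` for `j < 2k` and `s (2k) = f = q (2k) z`; `e` is an edge of weight 1 leaving
`R` at `q 0`; the matching edges are `c i = q (2i) q (min (2i+3) (2k))` for `i < k` and `b`, which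
leaves `R` at `q 1` (at `q 0` if `k = 0`). -/
structure Half (X M : Finset E) (R : Finset V) (z : V) (f e b : E) (k : ℕ) (q : ℕ → V)
    (s c : ℕ → E) : Prop where
  inj : ∀ i j, i ≤ 2 * k → j ≤ 2 * k → q i = q j → i = j
  mem : ∀ v, v ∈ R ↔ ∃ i ≤ 2 * k, v = q i
  es : ∀ j, j < 2 * k → s j ∈ X \ M ∧ G.ends (s j) = s(q j, q (j + 1))
  ef : s (2 * k) = f ∧ f ∈ X \ M ∧ G.ends f = s(q (2 * k), z)
  ee : e ∈ X \ M ∧ q 0 ∈ G.ends e ∧ ∃ v ∈ G.ends e, v ∉ R
  ec : ∀ i, i < k → c i ∈ M ∧ G.ends (c i) = s(q (2 * i), q (min (2 * i + 3) (2 * k)))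
  eb : b ∈ M ∧ q (min 1 (2 * k)) ∈ G.ends b ∧ ∃ v ∈ G.ends b, v ∉ R

/-- The zigzag without the circuit: the vertices are the root `z` and `p 0, ..., p (2m-1)`;
weight 1: the path `z, p 0, p 1, ..., p (2m-1), z` (edges `e0`, `a i`, `e1`); matching: the chords
`c j = p (2j-1) p (2j+2)`, i.e. `(0,2), (1,4), (3,6), ..., (2m-3, 2m-1)`. -/
structure ZigS (X M : Finset E) (z : V) (m : ℕ) (p : ℕ → V) (a c : ℕ → E) (e0 e1 : E) : Prop where
  one : 1 ≤ m
  inj : ∀ i j, i < 2 * m → j < 2 * m → p i = p j → i = j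
  nz : ∀ i, i < 2 * m → p i ≠ z
  ea : ∀ i, i + 1 < 2 * m → a i ∈ X \ M ∧ G.ends (a i) = s(p i, p (i + 1))
  ec : ∀ j, j < m → c j ∈ M ∧ G.ends (c j) = s(p (2 * j - 1), p (min (2 * j + 2) (2 * m - 1)))
  ez0 : e0 ∈ X \ M ∧ G.ends e0 = s(z, p 0)
  ez1 : e1 ∈ X \ M ∧ G.ends e1 = s(p (2 * m - 1), z)
  ne : e0 ≠ e1
  all : ∀ e ∈ X, (∃ i, i + 1 < 2 * m ∧ e = a i) ∨ (∃ j < m, e = c j) ∨ e = e0 ∨ e = e1

/-- The zigzag with the circuit `D`, which consists of the chords and the arcs
`a 0, a 2, ..., a (2m-2)`. -/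
structure Zig (X M D : Finset E) (z : V) (m : ℕ) (p : ℕ → V) (a c : ℕ → E) (e0 e1 : E) : Prop
    extends G.ZigS X M z m p a c e0 e1 where
  two : 2 ≤ m
  cd : ∀ e, e ∈ D ↔ (∃ i, i < m ∧ e = a (2 * i)) ∨ ∃ j < m, e = c j

end defs

end MGraph

end Pool.GOD
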