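import Pool.Agent.GOZ.DefsS

/-!
Theorem Z, part E (exchange): the hub, the parts, the potential, optimal circuits, zigzag ends.
-/

set_option autoImplicit false
set_option linter.unusedSectionVars false

namespace Pool.GOD

namespace MGraph

section defs

variable {V E : Type} [Fintype V] [DecidableEq V] [Fintype E] [DecidableEq E] (G : MGraph V E)

/-- The vertices which are not separated from `u0` by the deletion of an edge of `H`. -/
noncomputable def tcc (H : Finset E) (u0 : V) : Finset V := by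
  classical exact Finset.univ.filter (fun a => G.Tc H u0 a)

/-- The edges of `H` with no end in `W`. -/
def outE (H : Finset E) (W : Finset V) : Finset E := H.filter (fun e => ∀ v ∈ G.ends e, v ∉ W)

/-- The hub of `D`: the vertices which are not separated from `u0` by the deletion of an edge of
`X \ (D \ M)`. -/
noncomputable def hub (X M D : Finset E) (u0 : V) : Finset V := G.tcc (rst X M D) u0

/-- The parts of `D`: the components of `X \ (D \ M)` without the hub. -/
noncomputable def parts (X M D : Finset E) (u0 : V) : Finset (Finset V) :=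
  (G.vx X \ G.hub X M D u0).image (G.comp (G.outE (rst X M D) (G.hub X M D u0)))

/-- The potential. -/
noncomputable def pot (X M D : Finset E) (u0 : V) : ℕ := ∑ P ∈ G.parts X M D u0, 3 ^ P.card

/-- The alternating circuits which do not use an edge of `U` of weight 1. -/
structure Fam (X M U D : Finset E) : Prop where
  sub : D ⊆ X
  ac : G.IsAC M D
  u : D ∩ U ⊆ M

/-- The standing hypotheses: `(X, M)` is a cubic graph with a perfect matching, cyclically
4-edge-connected, `U` is a (possibly empty) subgraph inside the 2-edge-connected block of `u0`. -/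
structure Anc (X M U : Finset E) (u0 : V) : Prop where
  cm : G.CM X M
  c4 : G.C4 X
  sub : U ⊆ X
  mem : u0 ∈ G.vx X
  tc : ∀ a, G.deg U a ≠ 0 → G.Tc U u0 a

/-- `D` is optimal: the hub has the maximal number of vertices, then the potential is maximal. -/
structure Opt (X M U D : Finset E) (u0 : V) : Prop where
  fam : G.Fam X M U D
  maxW : ∀ D', G.Fam X M U D' → (G.hub X M D' u0).card ≤ (G.hub X M D u0).card
  maxP : ∀ D', G.Fam X M U D' → (G.hub X M D' u0).card = (G.hub X M D u0).card →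
    G.pot X M D' u0 ≤ G.pot X M D u0

/-- The core situation without a root (it does not exist, see `S_C6`). -/
structure Core0 (X M F D : Finset E) : Prop where
  msub : M ⊆ X
  fsub : F ⊆ X \ M
  deg : ∀ v, G.deg X v = 0 ∨ (G.deg X v = 3 ∧ G.deg M v = 1)
  dsub : D ⊆ X
  dac : G.IsAC M D
  m1 : ∀ D', D' ⊆ X → G.IsAC M D' → F ⊆ D'
  c4 : ∀ P : Finset V, P ⊆ G.vx X → 2 ≤ P.card →
    4 ≤ (X ∩ G.cut P).card + 2 * (G.ins F P).card

/-- A zigzag end.  The part `P` has the vertices `z` and `p 0, ..., p (2m-1)`; the edges of `X` at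
the vertices of `P` are: `f` (the matching edge of `z`, the bridge), `e0 = z p 0`,
`e1 = p (2m-1) z`, the edges `a i = p (2i+1) p (2i+2)` for `i < m - 1` (weight 1, not in `D`),
the chords `c j = p (2j-1) p (min (2j+2) (2m-1))` for `j < m` (matching edges in `D`) and the first
and last edges of the runs `R i`, `i < m`: `R i` is a path of `D` from `p (2i)` to `p (2i+1)` with
all inner vertices outside `P`; `D` is the union of the chords and the runs. -/
structure ZEnd (X M D : Finset E) (P : Finset V) (z : V) (f : E) (m : ℕ) (p : ℕ → V)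
    (a c : ℕ → E) (e0 e1 : E) (R : ℕ → Finset E) : Prop where
  two : 2 ≤ m
  inj : ∀ i j, i < 2 * m → j < 2 * m → p i = p j → i = j
  nz : ∀ i, i < 2 * m → p i ≠ z
  mem : ∀ v, v ∈ P ↔ v = z ∨ ∃ i < 2 * m, v = p i
  ef : f ∈ X ∧ f ∈ M ∧ f ∉ D ∧ z ∈ G.ends f
  cutf : rst X M D ∩ G.cut P = {f}
  ea : ∀ i, i + 1 < m → a i ∈ X ∧ a i ∉ M ∧ a i ∉ D ∧
    G.ends (a i) = s(p (2 * i + 1), p (2 * i + 2))
  ec : ∀ j, j < m → c j ∈ M ∧ G.ends (c j) = s(p (2 * j - 1), p (min (2 * j + 2) (2 * m - 1)))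
  ez0 : e0 ∈ X ∧ e0 ∉ M ∧ e0 ∉ D ∧ G.ends e0 = s(z, p 0)
  ez1 : e1 ∈ X ∧ e1 ∉ M ∧ e1 ∉ D ∧ G.ends e1 = s(p (2 * m - 1), z)
  ne : e0 ≠ e1
  path : ∀ i, i < m → G.PathS (R i) (p (2 * i)) (p (2 * i + 1))
  rsub : ∀ i, i < m → R i ⊆ D
  rin : ∀ i, i < m → ∀ v ∈ P, v ≠ p (2 * i) → v ≠ p (2 * i + 1) → G.deg (R i) v = 0
  rm : ∀ i, i < m → ∀ v ∈ P, G.deg (R i ∩ M) v = 0
  disj : ∀ i j, i < m → j < m → i ≠ j → ∀ v, G.deg (R i) v = 0 ∨ G.deg (R j) v = 0
  cd : ∀ e, e ∈ D ↔ (∃ i, i < m ∧ e ∈ R i) ∨ ∃ j, j < m ∧ e = c j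
  mark0 : ∃ v, v ∉ P ∧ G.deg (R 0) v = 2
  mark1 : ∃ v, v ∉ P ∧ G.deg (R (m - 1)) v = 2

end defs

end MGraph

end Pool.GOD
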