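import Pool.Agent.GOZ.Defs

/-!
Suppression of vertices of degree 2 inside one ambient multigraph: the thread `run e` is replaced
by the single edge `e`, which is re-ended to the two ends of the thread.
-/

set_option autoImplicit false
set_option linter.unusedSectionVars false

namespace Pool.GOD

namespace MGraph

section defs

variable {V E : Type} [Fintype V] [DecidableEq V] [Fintype E] [DecidableEq E] (G : MGraph V E)

/-- `R` is the edge set of a path from `x` to `y`. -/
structure PathS (R : Finset E) (x y : V) : Prop where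
  ne : x ≠ y
  dx : G.deg R x = 1
  dy : G.deg R y = 1
  deg : ∀ v, v ≠ x → v ≠ y → G.deg R v = 0 ∨ G.deg R v = 2
  conn : ∀ v, G.deg R v ≠ 0 → G.ConnIn R x v

/-- The multigraph `G` with the edge `e` re-ended to `a, b`. -/
def reEnd (e : E) (a b : V) (hab : a ≠ b) : MGraph V E where
  ends := fun f => if f = e then s(a, b) else G.ends f
  loopless := by
    intro f
    by_cases h : f = e
    · simpa [h] using hab
    · simpa [h] using G.loopless f

/-- `(G', X')` is obtained from `(G, X)` by suppressing the vertices outside `K`: `run e` is the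
thread of `G` which is replaced by the edge `e` of `G'`. -/
structure Sup (G' : MGraph V E) (X X' : Finset E) (K : Finset V) (run : E → Finset E) : Prop where
  sub : X' ⊆ X
  kept : ∀ e ∈ X', ∀ v ∈ G'.ends e, v ∈ K
  self : ∀ e ∈ X', e ∈ run e
  runsub : ∀ e ∈ X', run e ⊆ X
  part : ∀ f ∈ X, ∃! e, e ∈ X' ∧ f ∈ run e
  path : ∀ e ∈ X', ∀ x y, G'.ends e = s(x, y) → G.PathS (run e) x y
  innerK : ∀ e ∈ X', ∀ v ∈ K, v ∉ G'.ends e → G.deg (run e) v = 0
  inner : ∀ v, v ∉ K → ∀ e ∈ X', ∀ e' ∈ X', G.deg (run e) v ≠ 0 → G.deg (run e') v ≠ 0 → e = e'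

/-- Compatibility of a suppression with the matching `M`: the edges of `M` in `X'` are not
subdivided, the threads of the other edges start and end with edges not in `M` and alternate. -/
structure SupM (G' : MGraph V E) (M X' : Finset E) (K : Finset V) (run : E → Finset E) : Prop where
  m : ∀ e ∈ X', e ∈ M → run e = {e} ∧ G'.ends e = G.ends e
  e : ∀ e ∈ X', e ∉ M → ∀ v ∈ K, G.deg (run e ∩ M) v = 0
  i : ∀ e ∈ X', e ∉ M → ∀ v, v ∉ K → G.deg (run e) v = 2 → G.deg (run e ∩ M) v = 1
  s : ∀ e ∈ X', e ∉ M → run e ≠ {e} → ∃ f ∈ run e, f ∈ M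
  r : ∀ e ∈ X', run e = {e} → G'.ends e = G.ends e

/-- The edge set of `G` which corresponds to the edge set `C'` of `G'`. -/
def lft (run : E → Finset E) (C' : Finset E) : Finset E := C'.biUnion run

end defs

end MGraph

end Pool.GOD
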