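import Pool.Agent.GOZ.StmtsE

/-!
Theorem Z, part E: existence of optimal circuits (`S_E0`).
-/

set_option autoImplicit false

namespace Pool.GOZ

open Pool.GOD Pool.GOD.MGraph

theorem t_E0 : S_E0 := by
  classical
  intro V E _ _ _ _ G X M U u0 hex
  obtain ⟨D₀, hD₀⟩ := hex
  have hne : (Finset.univ.filter (fun D : Finset E => G.Fam X M U D)).Nonempty :=
    ⟨D₀, by simp [hD₀]⟩
  obtain ⟨D₁, hD₁, hmax₁⟩ := Finset.exists_max_image _
    (fun D : Finset E => (G.hub X M D u0).card) hne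
  have hne' : ((Finset.univ.filter (fun D : Finset E => G.Fam X M U D)).filter
      (fun D : Finset E => (G.hub X M D u0).card = (G.hub X M D₁ u0).card)).Nonempty :=
    ⟨D₁, by
      rw [Finset.mem_filter]
      exact ⟨hD₁, rfl⟩⟩
  obtain ⟨D₂, hD₂, hmax₂⟩ := Finset.exists_max_image _
    (fun D : Finset E => G.pot X M D u0) hne'
  rw [Finset.mem_filter, Finset.mem_filter] at hD₂
  obtain ⟨⟨_, hf₂⟩, hc₂⟩ := hD₂
  refine ⟨D₂, hf₂, ?_, ?_⟩
  · intro D' hD'
    rw [hc₂]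
    exact hmax₁ D' (by
      rw [Finset.mem_filter]
      exact ⟨Finset.mem_univ _, hD'⟩)
  · intro D' hD' hc'
    exact hmax₂ D' (by
      rw [Finset.mem_filter, Finset.mem_filter]
      exact ⟨⟨Finset.mem_univ _, hD'⟩, hc'.trans hc₂⟩)

end Pool.GOZ
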