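import Pool.Agent.GOZ.StmtsE

/-!
MP_7b7176_co, GOZ, E1: the edges of weight 1 of `X` outside `D` and the matching edges of `D` form
a 2-regular subgraph; the bridges of `rst X M D` are matching edges outside `D`.
-/

set_option autoImplicit false
set_option linter.unusedSectionVars false

namespace Pool.GOZ

open Pool.GOD Pool.GOD.MGraph

namespace E1

variable {V E : Type} [Fintype V] [DecidableEq V] [Fintype E] [DecidableEq E] {G : MGraph V E}
variable {X M D : Finset E}

/-- The even set. -/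
lemma deg_Y (h : G.CM X M) (hD : D ⊆ X) (hA : G.IsAC M D) (v : V) :
    G.deg (((X \ M) \ D) ∪ (M ∩ D)) v = 0 ∨ G.deg (((X \ M) \ D) ∪ (M ∩ D)) v = 2 := by
  have h1 : Disjoint ((X \ M) \ D) (M ∩ D) := by
    rw [Finset.disjoint_left]
    intro e he he'
    rw [Finset.mem_sdiff] at he
    exact he.2 (Finset.mem_inter.mp he').2
  have h2 := G.deg_sdiff h.sub v
  have hMD : M ∩ D ⊆ D := Finset.inter_subset_right
  have h3 := G.deg_sdiff hMD v
  have h4 : D \ (M ∩ D) ⊆ X \ M := by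
    intro e he
    rw [Finset.mem_sdiff, Finset.mem_inter] at he
    rw [Finset.mem_sdiff]
    exact ⟨hD he.1, fun hm => he.2 ⟨hm, he.1⟩⟩
  have h5 := G.deg_sdiff h4 v
  have h6 : (X \ M) \ (D \ (M ∩ D)) = (X \ M) \ D := by
    ext e
    simp only [Finset.mem_sdiff, Finset.mem_inter]
    tauto
  rw [h6] at h5
  rw [G.deg_union h1]
  have h7 := G.deg_mono hD v
  have h8 := G.deg_mono hMD v
  rcases h.deg v with hx | ⟨hx, hm⟩
  · left
    omega
  · rcases hA.circ.2.1 v with hd | hd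
    · right
      omega
    · right
      have h9 := hA.alt v hd
      rw [Finset.inter_comm] at h9
      omega

lemma Y_even (h : G.CM X M) (hD : D ⊆ X) (hA : G.IsAC M D) :
    G.IsEven (((X \ M) \ D) ∪ (M ∩ D)) := by
  intro v
  rcases deg_Y h hD hA v with h1 | h1 <;> rw [h1] <;> decide

lemma Y_sub (h : G.CM X M) : ((X \ M) \ D) ∪ (M ∩ D) ⊆ rst X M D := by
  intro e he
  rw [Finset.mem_union, Finset.mem_sdiff, Finset.mem_sdiff, Finset.mem_inter] at he
  unfold rst
  rw [Finset.mem_sdiff, Finset.mem_sdiff]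
  rcases he with he | he
  · exact ⟨he.1.1, fun hh => he.2 hh.1⟩
  · exact ⟨h.sub he.1, fun hh => hh.2 he.1⟩

lemma mem_Y {g : E} (hg : g ∈ rst X M D) (h : g ∉ M ∨ g ∈ D) :
    g ∈ ((X \ M) \ D) ∪ (M ∩ D) := by
  unfold rst at hg
  rw [Finset.mem_sdiff, Finset.mem_sdiff] at hg
  rw [Finset.mem_union, Finset.mem_sdiff, Finset.mem_sdiff, Finset.mem_inter]
  tauto

lemma not_bridge (h : G.CM X M) (hD : D ⊆ X) (hA : G.IsAC M D) {g : E} (hg : g ∈ rst X M D)
    (hgM : g ∉ M ∨ g ∈ D) : ¬ G.IsBridge (rst X M D) g := by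
  intro hb
  obtain ⟨S, hS⟩ := G.isBridge_iff.mp hb
  have h1 := (Y_even h hD hA).card_inter_cut G S
  have h2 : (((X \ M) \ D) ∪ (M ∩ D)) ∩ G.cut S = {g} := by
    apply Finset.Subset.antisymm
    · rw [← hS]
      exact Finset.inter_subset_inter_right (Y_sub h)
    · intro e he
      rw [Finset.mem_singleton] at he
      subst he
      have h3 : e ∈ rst X M D ∩ G.cut S := by
        rw [hS]
        exact Finset.mem_singleton_self e
      exact Finset.mem_inter.mpr ⟨mem_Y hg hgM, (Finset.mem_inter.mp h3).2⟩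
  rw [h2, Finset.card_singleton] at h1
  exact absurd h1 (by decide)

lemma tc (h : G.CM X M) (hD : D ⊆ X) (hA : G.IsAC M D) {g : E} (hg : g ∈ rst X M D)
    (hgM : g ∉ M ∨ g ∈ D) {a b : V} (hab : G.ends g = s(a, b)) : G.Tc (rst X M D) a b := by
  refine ⟨ConnIn.single hg hab, fun e => ?_⟩
  by_cases hne : e = g
  · subst hne
    by_contra hcon
    apply not_bridge h hD hA hg hgM
    refine ⟨hg, fun c d hcd hc => hcon ?_⟩
    rw [hab, Sym2.eq_iff] at hcd
    rcases hcd with ⟨rfl, rfl⟩ | ⟨rfl, rfl⟩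
    · exact hc
    · exact hc.symm
  · exact ConnIn.single (Finset.mem_erase.mpr ⟨fun h' => hne h'.symm, hg⟩) hab

lemma mem_D (h : G.CM X M) (hD : D ⊆ X) (hA : G.IsAC M D) {v : V} (hv : G.deg D v = 2) {g : E}
    (hg : g ∈ M) (hvg : v ∈ G.ends g) : g ∈ D := by
  have h1 := hA.alt v hv
  have h2 : G.deg M v = 1 := by
    rcases h.deg v with hx | ⟨-, hm⟩
    · have := G.deg_mono hD v
      omega
    · exact hm
  unfold deg at h1 h2
  have h3 : (D ∩ M).filter (fun e => v ∈ G.ends e) = M.filter (fun e => v ∈ G.ends e) :=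
    Finset.eq_of_subset_of_card_le
      (Finset.filter_subset_filter _ Finset.inter_subset_right) (by rw [h1, h2])
  have h4 : g ∈ M.filter (fun e => v ∈ G.ends e) := Finset.mem_filter.mpr ⟨hg, hvg⟩
  rw [← h3] at h4
  exact (Finset.mem_inter.mp (Finset.mem_filter.mp h4).1).1

end E1

theorem t_E1 : S_E1 := by
  intro V E _ _ _ _ G X M D h hD hA
  refine ⟨fun v => E1.deg_Y h hD hA v, fun g hg => ?_, fun g hg hgM a b hab =>
    E1.tc h hD hA hg hgM hab, fun v hv g hg hvg => E1.mem_D h hD hA hv hg hvg⟩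
  by_contra hcon
  refine E1.not_bridge h hD hA hg.1 ?_ hg
  by_contra h2
  rw [not_or, not_not] at h2
  exact hcon h2

end Pool.GOZ
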