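import Pool.Agent.GOZ.StmtsE
import Pool.Agent.GOD.BaseApi

/-!
Theorem Z, part E2: general facts on `Tc` and `tcc`.
-/

set_option autoImplicit false
set_option linter.unusedSectionVars false

namespace Pool.GOZ

namespace E2

open Pool.GOD Pool.GOD.MGraph

variable {V E : Type} [Fintype V] [DecidableEq V] [Fintype E] [DecidableEq E] (G : MGraph V E)

theorem refl' (H : Finset E) (a : V) : G.Tc H a a :=
  ⟨ConnIn.refl H a, fun e => ConnIn.refl (H.erase e) a⟩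

theorem mem_tcc (H : Finset E) (u0 a : V) : a ∈ G.tcc H u0 ↔ G.Tc H u0 a := by
  classical
  unfold tcc
  rw [Finset.mem_filter]
  exact ⟨fun h => h.2, fun h => ⟨Finset.mem_univ _, h⟩⟩

theorem symm' (H : Finset E) (a b : V) (h : G.Tc H a b) : G.Tc H b a :=
  ⟨ConnIn.symm h.1, fun e => ConnIn.symm (h.2 e)⟩

theorem trans' (H : Finset E) (a b c : V) (h : G.Tc H a b) (h' : G.Tc H b c) : G.Tc H a c :=
  ⟨ConnIn.trans h.1 h'.1, fun e => ConnIn.trans (h.2 e) (h'.2 e)⟩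

theorem mono' (H H' : Finset E) (a b : V) (hs : H ⊆ H') (h : G.Tc H a b) : G.Tc H' a b :=
  ⟨ConnIn.mono hs h.1, fun e => ConnIn.mono (Finset.erase_subset_erase e hs) (h.2 e)⟩

theorem bridge' (H : Finset E) (u0 x y : V) (g : E) (hg : g ∈ H) (he : G.ends g = s(x, y))
    (hx : x ∈ G.tcc H u0) (hy : y ∉ G.tcc H u0) : G.IsBridge H g := by
  rw [mem_tcc] at hx hy
  refine ⟨hg, fun a b hab hc => hy ?_⟩
  have hxy : G.ConnIn (H.erase g) x y := by
    rw [he] at hab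
    rcases Sym2.eq_iff.mp hab with ⟨h1, h2⟩ | ⟨h1, h2⟩
    · rw [h1, h2]; exact hc
    · rw [h1, h2]; exact ConnIn.symm hc
  refine ⟨ConnIn.trans hx.1 (ConnIn.single hg he), fun e => ?_⟩
  by_cases h : e = g
  · subst h
    exact ConnIn.trans (hx.2 e) hxy
  · exact ConnIn.trans (hx.2 e) (ConnIn.single (Finset.mem_erase.mpr ⟨fun h' => h h'.symm, hg⟩) he)

theorem walk (H H0 K : Finset E) (u0 : V) (hH : H0 ⊆ H)
    (hK : ∀ h ∈ H0, (∀ v ∈ G.ends h, v ∈ G.tcc H u0) → h ∈ K) (b : V) (hb : G.ConnIn H0 u0 b) :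
    (b ∈ G.tcc H u0 → G.ConnIn K u0 b) ∧
    (b ∉ G.tcc H u0 → ∃ (g : E) (s t : V), g ∈ H0 ∧ G.ends g = s(s, t) ∧ s ∈ G.tcc H u0 ∧
      t ∉ G.tcc H u0 ∧ G.ConnIn K u0 s ∧ G.ConnIn (H0.erase g) t b) := by
  induction hb with
  | refl =>
    refine ⟨fun _ => ConnIn.refl K u0, fun h => absurd ?_ h⟩
    rw [mem_tcc]
    exact refl' G H u0
  | @tail b c _ hbc ih =>
    obtain ⟨h, hh, hbc⟩ := hbc
    by_cases hbW : b ∈ G.tcc H u0
    · have h1 := ih.1 hbW
      refine ⟨fun hc => ?_, fun hc => ⟨h, b, c, hh, hbc, hbW, hc, h1, ConnIn.refl _ c⟩⟩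
      refine ConnIn.trans h1 (ConnIn.single (hK h hh ?_) hbc)
      intro v hv
      rw [hbc, Sym2.mem_iff] at hv
      rcases hv with rfl | rfl
      · exact hbW
      · exact hc
    · obtain ⟨g, s, t, hg, hst, hs, ht, h1, h2⟩ := ih.2 hbW
      by_cases hgh : h = g
      · subst hgh
        rw [hbc] at hst
        rcases Sym2.eq_iff.mp hst with ⟨h3, h4⟩ | ⟨h3, h4⟩
        · exact absurd (h3 ▸ hs) hbW
        · rw [h4]
          exact ⟨fun _ => h1, fun h5 => absurd hs h5⟩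
      · have h3 : h ∈ H0.erase g := Finset.mem_erase.mpr ⟨hgh, hh⟩
        have h4 : G.ConnIn (H0.erase g) t c := ConnIn.trans h2 (ConnIn.single h3 hbc)
        refine ⟨fun hc => ?_, fun _ => ⟨g, s, t, hg, hst, hs, ht, h1, h4⟩⟩
        exfalso
        have h5 := bridge' G H u0 s t g (hH hg) hst hs ht
        rw [mem_tcc] at hs hc
        apply h5.2 s t hst
        have h6 : G.ConnIn (H.erase g) t c := ConnIn.mono (Finset.erase_subset_erase g hH) h4
        exact ConnIn.trans (ConnIn.trans (ConnIn.symm (hs.2 g)) (hc.2 g)) (ConnIn.symm h6)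

theorem inside (H : Finset E) (u0 a : V) (ha : a ∈ G.tcc H u0) :
    G.Tc (G.ins H (G.tcc H u0)) u0 a := by
  have ha' := (mem_tcc G H u0 a).mp ha
  refine ⟨(walk G H H _ u0 (Finset.Subset.refl H) ?_ a ha'.1).1 ha, fun e =>
    (walk G H (H.erase e) _ u0 (Finset.erase_subset e H) ?_ a (ha'.2 e)).1 ha⟩
  · intro h hh hv
    exact Finset.mem_filter.mpr ⟨hh, hv⟩
  · intro h hh hv
    rw [Finset.mem_erase] at hh ⊢
    exact ⟨hh.1, Finset.mem_filter.mpr ⟨hh.2, hv⟩⟩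

end E2

theorem t_E2 : S_E2 := by
  intro V E _ _ _ _ G
  exact ⟨E2.refl' G, E2.symm' G, E2.trans' G, E2.mono' G, E2.bridge' G, E2.inside G⟩

end Pool.GOZ
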