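import Pool.Agent.GOZ.StmtsE

/-!
Theorem Z, part E, module E3: the parts.
-/

set_option autoImplicit false
set_option linter.unusedSectionVars false

namespace Pool.GOZ

open Pool.GOD Pool.GOD.MGraph

namespace E3X

variable {V E : Type} [Fintype V] [DecidableEq V] [Fintype E] [DecidableEq E] {G : MGraph V E}

lemma cut_ex {S : Finset V} {h : E} (hh : h ∈ G.cut S) :
    ∃ p q, G.ends h = s(p, q) ∧ p ∈ S ∧ q ∉ S := by
  obtain ⟨a, b, -, hab⟩ := G.exists_ends h
  rcases (G.mem_cut hab).mp hh with ⟨h1, h2⟩ | ⟨h1, h2⟩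
  · exact ⟨a, b, hab, h1, h2⟩
  · exact ⟨b, a, by rw [hab, Sym2.eq_swap], h1, h2⟩

lemma in_cut {S : Finset V} {h : E} {p q : V} (hh : G.ends h = s(p, q)) (hp : p ∈ S)
    (hq : q ∉ S) : h ∈ G.cut S := (G.mem_cut hh).mpr (Or.inl ⟨hp, hq⟩)

lemma left_mem {h : E} {p q : V} (hh : G.ends h = s(p, q)) : p ∈ G.ends h := by
  rw [hh]; exact Sym2.mem_mk_left p q

lemma right_mem {h : E} {p q : V} (hh : G.ends h = s(p, q)) : q ∈ G.ends h := by
  rw [hh]; exact Sym2.mem_mk_right p q

lemma mem_or {h : E} {p q v : V} (hh : G.ends h = s(p, q)) (hv : v ∈ G.ends h) :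
    v = p ∨ v = q := by
  rw [hh] at hv; exact Sym2.mem_iff.mp hv

lemma ends_of_mem {h : E} {v : V} (hv : v ∈ G.ends h) : ∃ w, G.ends h = s(v, w) := by
  obtain ⟨w, hw⟩ := Sym2.mem_iff_exists.mp hv
  exact ⟨w, hw⟩

lemma mem_vx {X : Finset E} {h : E} {v : V} (hh : h ∈ X) (hv : v ∈ G.ends h) : v ∈ G.vx X := by
  simp only [vx, Finset.mem_filter, Finset.mem_univ, true_and]
  exact (G.deg_pos_iff.mpr ⟨h, hh, hv⟩).ne'

lemma mem_tcc {H : Finset E} {u0 a : V} : a ∈ G.tcc H u0 ↔ G.Tc H u0 a := by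
  simp [tcc]

lemma mem_hub {X M D : Finset E} {u0 a : V} :
    a ∈ G.hub X M D u0 ↔ G.Tc (rst X M D) u0 a := by
  simp [hub, mem_tcc]

lemma mem_rst {X M D : Finset E} {e : E} : e ∈ rst X M D ↔ e ∈ X ∧ (e ∈ D → e ∈ M) := by
  simp only [rst, Finset.mem_sdiff]
  tauto

lemma mem_outE {H : Finset E} {W : Finset V} {e : E} :
    e ∈ G.outE H W ↔ e ∈ H ∧ ∀ v ∈ G.ends e, v ∉ W := by
  simp [outE]

lemma mem_ins {X : Finset E} {P : Finset V} {h : E} :
    h ∈ G.ins X P ↔ h ∈ X ∧ ∀ v ∈ G.ends h, v ∈ P := by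
  simp [ins]

/-- vertices reached by a nontrivial walk are met by an edge -/
lemma conn_edge {Y : Finset E} {a b : V} (h : G.ConnIn Y a b) :
    a = b ∨ ∃ e ∈ Y, b ∈ G.ends e := by
  induction h with
  | refl => exact Or.inl rfl
  | tail _ h2 _ =>
    obtain ⟨e, he, h3⟩ := h2
    exact Or.inr ⟨e, he, right_mem h3⟩

end E3X

open E3X in
/-- the parts -/
theorem t_E3 (h1 : S_E1) (h2 : S_E2) : S_E3 := by
  intro V E _ _ _ _ G X M U D u0 hA hF
  obtain ⟨-, hbr, htc, hMD⟩ := h1 V E G X M D hA.cm hF.sub hF.ac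
  obtain ⟨trefl, tsymm, ttrans, -, tbr, -⟩ := h2 V E G
  have hcirc := hF.ac.circ
  have hH : rst X M D ⊆ X := fun e he => (mem_rst.mp he).1
  have hu0 : u0 ∈ G.hub X M D u0 := mem_hub.mpr (trefl _ _)
  -- the hub is inside
  have hWX : G.hub X M D u0 ⊆ G.vx X := by
    intro v hv
    rcases conn_edge (mem_hub.mp hv).1 with h | ⟨e, he, hev⟩
    · exact h ▸ hA.mem
    · exact mem_vx (hH he) hev
  -- a nonbridge at u0
  have hW2 : 2 ≤ (G.hub X M D u0).card := by
    have hd := hA.mem
    simp only [vx, Finset.mem_filter, Finset.mem_univ, true_and] at hd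
    have hd3 : G.deg X u0 = 3 ∧ G.deg M u0 = 1 := by
      rcases hA.cm.deg u0 with h | h
      · exact absurd h hd
      · exact h
    obtain ⟨g, hg, hgu, hgc⟩ : ∃ g ∈ rst X M D, u0 ∈ G.ends g ∧ (g ∉ M ∨ g ∈ D) := by
      rcases hcirc.2.1 u0 with h0 | h0
      · have h3 := G.deg_sdiff hA.cm.sub u0
        have h4 : 0 < G.deg (X \ M) u0 := by omega
        obtain ⟨g, hg, hgu⟩ := G.deg_pos_iff.mp h4
        rw [Finset.mem_sdiff] at hg
        refine ⟨g, mem_rst.mpr ⟨hg.1, fun hgD => ?_⟩, hgu, Or.inl hg.2⟩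
        have h5 := G.deg_pos_iff.mpr ⟨g, hgD, hgu⟩
        omega
      · have h4 : 0 < G.deg M u0 := by omega
        obtain ⟨g, hg, hgu⟩ := G.deg_pos_iff.mp h4
        exact ⟨g, mem_rst.mpr ⟨hA.cm.sub hg, fun _ => hg⟩, hgu, Or.inr (hMD u0 h0 g hg hgu)⟩
    obtain ⟨w, hw⟩ := ends_of_mem hgu
    have h6 : w ∈ G.hub X M D u0 := mem_hub.mpr (htc g hg hgc u0 w hw)
    have h7 : ({u0, w} : Finset V) ⊆ G.hub X M D u0 := by
      intro v hv
      rw [Finset.mem_insert, Finset.mem_singleton] at hv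
      rcases hv with rfl | rfl
      · exact hu0
      · exact h6
    have h8 := Finset.card_le_card h7
    rwa [Finset.card_pair (G.ne_of_ends hw)] at h8
  have hpart : ∀ P, P ∈ G.parts X M D u0 ↔ ∃ v, (v ∈ G.vx X ∧ v ∉ G.hub X M D u0) ∧
      G.comp (G.outE (rst X M D) (G.hub X M D u0)) v = P := by
    intro P
    simp only [parts, Finset.mem_image, Finset.mem_sdiff]
  refine ⟨hW2, hWX, ?_, ?_, ?_⟩
  · intro v hv hvW
    exact ⟨_, (hpart _).mpr ⟨v, ⟨hv, hvW⟩, rfl⟩, G.self_mem_comp _ v⟩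
  · intro P hP Q hQ hPQ
    obtain ⟨a, -, rfl⟩ := (hpart P).mp hP
    obtain ⟨b, -, rfl⟩ := (hpart Q).mp hQ
    rw [Finset.disjoint_left]
    intro x hxa hxb
    rw [mem_comp] at hxa hxb
    refine hPQ ?_
    ext y
    rw [mem_comp, mem_comp]
    exact ⟨fun h => (hxb.trans hxa.symm).trans h, fun h => (hxa.trans hxb.symm).trans h⟩
  · intro P hP
    obtain ⟨v, ⟨hvX, hvW⟩, rfl⟩ := (hpart P).mp hP
    set W := G.hub X M D u0 with hWdef
    set C := G.comp (G.outE (rst X M D) W) v with hC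
    have hvC : v ∈ C := G.self_mem_comp _ v
    have hCsub : C ⊆ G.vx X \ W := by
      intro x hx
      rw [hC, mem_comp] at hx
      rw [Finset.mem_sdiff]
      rcases conn_edge hx with h | ⟨e, he, hex⟩
      · exact h ▸ ⟨hvX, hvW⟩
      · rw [mem_outE] at he
        exact ⟨mem_vx (hH he.1) hex, he.2 x hex⟩
    have hconn : ∀ a b, a ∈ C → b ∈ C → G.ConnIn (G.outE (rst X M D) W) a b := by
      intro a b ha hb
      rw [hC, mem_comp] at ha hb
      exact ha.symm.trans hb
    -- edges leaving the part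
    have hleave : ∀ g ∈ rst X M D, ∀ x w, G.ends g = s(x, w) → x ∈ C → w ∉ C →
        w ∈ W ∧ G.IsBridge (rst X M D) g := by
      intro g hg x w he hx hw
      have hxW : x ∉ W := (Finset.mem_sdiff.mp (hCsub hx)).2
      have hwW : w ∈ W := by
        by_contra hwW
        apply hw
        rw [hC, mem_comp] at hx ⊢
        refine hx.trans (ConnIn.single (e := g) (mem_outE.mpr ⟨hg, ?_⟩) he)
        intro y hy
        rcases mem_or he hy with rfl | rfl
        · exact hxW
        · exact hwW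
      refine ⟨hwW, tbr (rst X M D) u0 w x g hg (by rw [he, Sym2.eq_swap]) ?_ ?_⟩
      · exact mem_tcc.mpr (mem_hub.mp hwW)
      · intro h
        exact hxW (mem_hub.mpr (mem_tcc.mp h))
    have hle : (rst X M D ∩ G.cut C).card ≤ 1 := by
      rw [Finset.card_le_one]
      intro g hg g' hg'
      by_contra hne
      rw [Finset.mem_inter] at hg hg'
      obtain ⟨x, w, he, hx, hw⟩ := cut_ex hg.2
      obtain ⟨x', w', he', hx', hw'⟩ := cut_ex hg'.2
      obtain ⟨hwW, hb⟩ := hleave g hg.1 x w he hx hw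
      obtain ⟨hwW', -⟩ := hleave g' hg'.1 x' w' he' hx' hw'
      refine hb.2 x w he ?_
      have k1 : G.ConnIn ((rst X M D).erase g) x x' := by
        refine (hconn x x' hx hx').mono ?_
        intro h hh
        rw [mem_outE] at hh
        refine Finset.mem_erase.mpr ⟨?_, hh.1⟩
        rintro rfl
        exact hh.2 w (right_mem he) hwW
      have k2 : G.ConnIn ((rst X M D).erase g) x' w' :=
        ConnIn.single (Finset.mem_erase.mpr ⟨fun h => hne h.symm, hg'.1⟩) he'
      have k3 : G.ConnIn ((rst X M D).erase g) u0 w' := (mem_hub.mp hwW').2 g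
      have k4 : G.ConnIn ((rst X M D).erase g) u0 w := (mem_hub.mp hwW).2 g
      exact ((k1.trans k2).trans k3.symm).trans k4
    have hthree : ∀ g ∈ rst X M D ∩ G.cut C, g ∈ M ∧ g ∉ D ∧
        ∃ w ∈ W, ∃ z ∈ C, G.ends g = s(w, z) ∧ G.deg D z = 0 := by
      intro g hg
      rw [Finset.mem_inter] at hg
      obtain ⟨x, w, he, hx, hw⟩ := cut_ex hg.2
      obtain ⟨hwW, hb⟩ := hleave g hg.1 x w he hx hw
      obtain ⟨hgM, hgD⟩ := hbr g hb
      refine ⟨hgM, hgD, w, hwW, x, hx, by rw [he, Sym2.eq_swap], ?_⟩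
      rcases hcirc.2.1 x with h0 | h0
      · exact h0
      · exact absurd (hMD x h0 g hgM (left_mem he)) hgD
    refine ⟨⟨v, hvC⟩, hCsub, hthree, hle, ?_, ?_, ?_, hconn⟩
    · by_contra hcon
      push Not at hcon
      have h0 : ∀ x ∈ C, G.deg D x = 0 := by
        intro x hx
        rcases hcirc.2.1 x with h | h
        · exact h
        · exact absurd h (hcon x hx)
      have hcut : X ∩ G.cut C ⊆ rst X M D ∩ G.cut C := by
        intro e he
        rw [Finset.mem_inter] at he ⊢
        refine ⟨mem_rst.mpr ⟨he.1, fun heD => ?_⟩, he.2⟩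
        obtain ⟨x, w, hxw, hx, -⟩ := cut_ex he.2
        have h3 := G.deg_pos_iff.mpr ⟨e, heD, left_mem hxw⟩
        have h4 := h0 x hx
        omega
      have hc1 : (X ∩ G.cut C).card ≤ 1 := (Finset.card_le_card hcut).trans hle
      rcases hA.c4 C (by omega) with h3 | h3
      · have h4 : C ∩ G.vx X = C := by
          rw [Finset.inter_eq_left]
          exact fun x hx => (Finset.mem_sdiff.mp (hCsub hx)).1
        rw [h4] at h3
        have h5 : C = {v} := by
          ext x
          rw [Finset.mem_singleton]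
          exact ⟨fun hx => Finset.card_le_one.mp h3 x hx v hvC, fun hx => hx ▸ hvC⟩
        rw [h5, G.cut_singleton] at hc1
        have h6 : X ∩ G.star v = X.filter (fun e => v ∈ G.ends e) := by
          ext e
          rw [Finset.mem_inter, mem_star, Finset.mem_filter]
        rw [h6] at hc1
        have h7 : G.deg X v = 3 := by
          simp only [vx, Finset.mem_filter, Finset.mem_univ, true_and] at hvX
          rcases hA.cm.deg v with h | h
          · exact absurd h hvX
          · exact h.1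
        unfold MGraph.deg at h7
        omega
      · have h4 : W ⊆ G.vx X \ C := by
          intro x hx
          rw [Finset.mem_sdiff]
          exact ⟨hWX hx, fun h => (Finset.mem_sdiff.mp (hCsub h)).2 hx⟩
        have h5 := Finset.card_le_card h4
        omega
    · rintro g hg ⟨x, hxg, hx⟩
      rw [Finset.mem_inter] at hg
      obtain ⟨w, hw⟩ := ends_of_mem hxg
      have hwC : w ∈ C := by
        by_contra hwC
        have h3 := hthree g (Finset.mem_inter.mpr
          ⟨mem_rst.mpr ⟨hF.sub hg.2, fun _ => hg.1⟩, in_cut hw hx hwC⟩)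
        exact h3.2.1 hg.2
      intro y hy
      rcases mem_or hw hy with rfl | rfl
      · exact hx
      · exact hwC
    · rintro e he ⟨x, hxe, hx⟩
      obtain ⟨w, hw⟩ := ends_of_mem hxe
      by_cases heD : e ∈ D
      · exact Or.inl (Finset.mem_union_left _ heD)
      · by_cases hwC : w ∈ C
        · left
          refine Finset.mem_union_right _ (mem_ins.mpr ⟨he, ?_⟩)
          intro y hy
          rcases mem_or hw hy with rfl | rfl
          · exact hx
          · exact hwC
        · right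
          exact Finset.mem_inter.mpr
            ⟨mem_rst.mpr ⟨he, fun h => absurd h heD⟩, in_cut hw hx hwC⟩

end Pool.GOZ
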