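import Pool.Agent.GOZ.StmtsE

/-!
E4: the exchange lemma.
-/

set_option autoImplicit false
set_option linter.unusedSectionVars false

namespace Pool.GOZ

open Pool.GOD Pool.GOD.MGraph

namespace E4

variable {V E : Type} [Fintype V] [DecidableEq V] [Fintype E] [DecidableEq E] {G : MGraph V E}
  {X M U D D' : Finset E} {P : Finset V}

lemma mem_rst {e : E} : e ∈ rst X M D ↔ e ∈ X ∧ (e ∈ D → e ∈ M) := by
  unfold rst
  rw [Finset.mem_sdiff, Finset.mem_sdiff]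
  tauto

lemma mem_tcc {H : Finset E} {u a : V} : a ∈ G.tcc H u ↔ G.Tc H u a := by
  unfold tcc
  simp

lemma mem_outE {H : Finset E} {W : Finset V} {e : E} :
    e ∈ G.outE H W ↔ e ∈ H ∧ ∀ v ∈ G.ends e, v ∉ W := by
  unfold outE
  rw [Finset.mem_filter]

lemma mem_ins {Q : Finset V} {e : E} : e ∈ G.ins X Q ↔ e ∈ X ∧ ∀ v ∈ G.ends e, v ∈ Q := by
  unfold ins
  rw [Finset.mem_filter]

lemma mem_vx {v : V} : v ∈ G.vx X ↔ ∃ e ∈ X, v ∈ G.ends e := by
  unfold vx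
  rw [Finset.mem_filter, ← G.deg_pos_iff, Nat.pos_iff_ne_zero]
  simp

/-- an edge of `rst X M D` which is not inside `P` is in `rst X M D'` -/
lemma rst_sub (h : D' ⊆ D ∪ G.ins X P) {e : E} (he : e ∈ rst X M D) (hP : e ∉ G.ins X P) :
    e ∈ rst X M D' := by
  rw [mem_rst] at he ⊢
  refine ⟨he.1, fun h1 => ?_⟩
  rcases Finset.mem_union.mp (h h1) with h2 | h2
  · exact he.2 h2
  · exact absurd h2 hP

end E4

open E4 in
theorem t_E4 (h1 : S_E1) (h2 : S_E2) (h3 : S_E3) (h4a : S_E4a) (h4p : S_E4p) : S_E4 := by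
  intro V E _ _ _ _ G X M U D D' u0 P hA hO hP hmin hD' hac
  obtain ⟨hT0, hT1, hT2, hT3, -, hT5⟩ := h2 V E G
  obtain ⟨-, -, hcov, hdisj, hpart⟩ := h3 V E G X M U D u0 hA hO.fam
  obtain ⟨hPne, hPsub, -, -, hPD, hPM, -, -⟩ := hpart P hP
  have hPW : ∀ v ∈ P, v ∉ G.hub X M D u0 := fun v hv => (Finset.mem_sdiff.mp (hPsub hv)).2
  have hDX : D ⊆ X := hO.fam.sub
  have hD'X : D' ⊆ X := fun e he => by
    rcases Finset.mem_union.mp (hD' he) with h | h
    · exact hDX h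
    · exact (mem_ins.mp h).1
  -- the vertices of `U`
  have hUH : U ⊆ rst X M D := fun e he =>
    mem_rst.mpr ⟨hA.sub he, fun h => hO.fam.u (Finset.mem_inter.mpr ⟨h, he⟩)⟩
  have hUW : ∀ e ∈ U, ∀ v ∈ G.ends e, v ∈ G.hub X M D u0 := by
    intro e he v hv
    have hd : G.deg U v ≠ 0 := (G.deg_pos_iff.mpr ⟨e, he, hv⟩).ne'
    exact mem_tcc.mpr (hT3 _ _ _ _ hUH (hA.tc v hd))
  have hfam : G.Fam X M U D' := by
    refine ⟨hD'X, hac, fun e he => ?_⟩
    rw [Finset.mem_inter] at he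
    rcases Finset.mem_union.mp (hD' he.1) with h | h
    · exact hO.fam.u (Finset.mem_inter.mpr ⟨h, he.2⟩)
    · obtain ⟨a, b, -, hab⟩ := G.exists_ends e
      have ha : a ∈ G.ends e := by rw [hab]; exact Sym2.mem_mk_left _ _
      exact absurd (hUW e he.2 a ha) (hPW a ((mem_ins.mp h).2 a ha))
  -- the hub
  have hsubW : G.hub X M D u0 ⊆ G.hub X M D' u0 := by
    intro a ha
    refine mem_tcc.mpr (hT3 _ _ _ _ ?_ (hT5 (rst X M D) u0 a ha))
    intro e he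
    rw [mem_ins] at he
    refine rst_sub hD' he.1 fun hcon => ?_
    obtain ⟨x, y, -, hxy⟩ := G.exists_ends e
    have hx : x ∈ G.ends e := by rw [hxy]; exact Sym2.mem_mk_left _ _
    exact hPW x ((mem_ins.mp hcon).2 x hx) (he.2 x hx)
  have hW : G.hub X M D' u0 = G.hub X M D u0 :=
    (Finset.eq_of_subset_of_card_le hsubW (hO.maxW D' hfam)).symm
  -- the edges in the cut
  apply h4a V E G X M D D' P hO.fam.ac hac hDX hD' hPD
  intro d hd
  rw [Finset.mem_inter] at hd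
  by_contra hdD'
  obtain ⟨v, w, hvw, hvP, hwP⟩ : ∃ v w, G.ends d = s(v, w) ∧ v ∈ P ∧ w ∉ P := by
    obtain ⟨a, b, -, hab⟩ := G.exists_ends d
    rcases (G.mem_cut hab).mp hd.2 with ⟨h, h'⟩ | ⟨h, h'⟩
    · exact ⟨a, b, hab, h, h'⟩
    · exact ⟨b, a, by rw [hab, Sym2.eq_swap], h, h'⟩
  have hv : v ∈ G.ends d := by rw [hvw]; exact Sym2.mem_mk_left _ _
  have hw : w ∈ G.ends d := by rw [hvw]; exact Sym2.mem_mk_right _ _
  have hdM : d ∉ M := fun h =>
    hwP (hPM d (Finset.mem_inter.mpr ⟨h, hd.1⟩) ⟨v, hv, hvP⟩ w hw)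
  have hdH' : d ∈ rst X M D' := mem_rst.mpr ⟨hDX hd.1, fun h => absurd h hdD'⟩
  have hTvw : G.Tc (rst X M D') v w :=
    (h1 V E G X M D' hA.cm hD'X hac).2.2.1 d hdH' (Or.inl hdM) v w hvw
  by_cases hwW : w ∈ G.hub X M D u0
  · have h5 : w ∈ G.hub X M D' u0 := hsubW hwW
    have h6 : v ∈ G.hub X M D' u0 := mem_tcc.mpr (hT2 _ _ _ _ (mem_tcc.mp h5) (hT1 _ _ _ hTvw))
    rw [hW] at h6
    exact hPW v hvP h6
  have hwX : w ∈ G.vx X := mem_vx.mpr ⟨d, hDX hd.1, hw⟩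
  obtain ⟨Q₁, hQ₁, hwQ₁⟩ := hcov w hwX hwW
  have hQ₁P : Q₁ ≠ P := fun h => hwP (h ▸ hwQ₁)
  -- the parts
  have hcomp : ∀ Q ∈ G.parts X M D u0, Q ≠ P → ∀ q ∈ Q,
      Q ⊆ G.comp (G.outE (rst X M D') (G.hub X M D' u0)) q := by
    intro Q hQ hQP q hq b hb
    obtain ⟨-, -, -, -, -, -, -, hconn⟩ := hpart Q hQ
    rw [G.mem_comp, hW]
    have h5 := hconn q b hq hb
    have hQcl : ∀ c, G.ConnIn (G.outE (rst X M D) (G.hub X M D u0)) q c → c ∈ Q := by
      intro c hc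
      unfold parts at hQ
      rw [Finset.mem_image] at hQ
      obtain ⟨q', -, rfl⟩ := hQ
      rw [G.mem_comp] at hq ⊢
      exact hq.trans hc
    clear hb
    induction h5 with
    | refl => exact ConnIn.refl _ _
    | @tail c d' h6 h7 ih =>
      obtain ⟨e, he, hec⟩ := h7
      have hc : c ∉ P := Finset.disjoint_left.mp (hdisj Q hQ P hP hQP) (hQcl c h6)
      have he' : e ∈ G.outE (rst X M D') (G.hub X M D u0) := by
        rw [mem_outE] at he ⊢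
        refine ⟨rst_sub hD' he.1 fun hcon => ?_, he.2⟩
        exact hc ((mem_ins.mp hcon).2 c (by rw [hec]; exact Sym2.mem_mk_left _ _))
      exact ih.trans (ConnIn.single he' hec)
  have hmemp : ∀ q ∈ G.vx X, q ∉ G.hub X M D u0 →
      G.comp (G.outE (rst X M D') (G.hub X M D' u0)) q ∈ G.parts X M D' u0 := by
    intro q hq hqW
    unfold parts
    rw [Finset.mem_image]
    exact ⟨q, Finset.mem_sdiff.mpr ⟨hq, by rw [hW]; exact hqW⟩, rfl⟩
  have hlt := h4p V (G.parts X M D u0) (G.parts X M D' u0) P hP (fun Q hQ => (hpart Q hQ).1) hdisj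
    hmin (by
      intro Q hQ hQP
      obtain ⟨q, hq⟩ := (hpart Q hQ).1
      have h5 := Finset.mem_sdiff.mp ((hpart Q hQ).2.1 hq)
      exact ⟨_, hmemp q h5.1 h5.2, hcomp Q hQ hQP q hq⟩)
    Q₁ hQ₁ hQ₁P _ (hmemp w hwX hwW) (hcomp Q₁ hQ₁ hQ₁P w hwQ₁) v hvP (by
      rw [G.mem_comp, hW]
      refine ConnIn.symm (ConnIn.single (mem_outE.mpr ⟨hdH', fun x hx => ?_⟩) hvw)
      rw [hvw, Sym2.mem_iff] at hx
      rcases hx with rfl | rfl
      · exact hPW _ hvP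
      · exact hwW)
  have hle := hO.maxP D' hfam (by rw [hW])
  unfold pot at hle
  exact absurd hle (not_le.mpr hlt)

end Pool.GOZ
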