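import Pool.Agent.GOZ.StmtsE

/-!
E4a: a new circuit which keeps the edges of the cut keeps the outside.
-/

set_option autoImplicit false
set_option linter.unusedSectionVars false

namespace Pool.GOZ

open Pool.GOD Pool.GOD.MGraph

namespace E4aX

variable {V E : Type} [Fintype V] [DecidableEq V] [Fintype E] [DecidableEq E] {G : MGraph V E}

/-- a subset of a circuit with degrees 0 and 2 which misses a vertex of the circuit is empty -/
lemma circ_sub {D B : Finset E} (hD : G.IsCircuit D) (hB : B ⊆ D)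
    (h : ∀ v, G.deg B v = 0 ∨ G.deg B v = 2) {v0 : V} (h2 : G.deg D v0 = 2)
    (h0 : G.deg B v0 = 0) : B = ∅ := by
  by_contra hne
  obtain ⟨e, he⟩ := Finset.nonempty_iff_ne_empty.mpr hne
  obtain ⟨a, b, -, hab⟩ := G.exists_ends e
  have hpos : ∀ {f : E} {c : V}, f ∈ B → c ∈ G.ends f → G.deg B c = 2 := by
    intro f c hf hc
    have h1 : 0 < G.deg B c := G.deg_pos_iff.mpr ⟨f, hf, hc⟩
    rcases h c with h3 | h3
    · omega
    · exact h3
  have hD2 : ∀ {c : V}, G.deg B c = 2 → G.deg D c = 2 := by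
    intro c hc
    have h1 := G.deg_mono hB c
    rcases hD.2.1 c with h3 | h3
    · omega
    · exact h3
  have ha : G.deg B a = 2 := hpos he (by rw [hab]; exact Sym2.mem_mk_left _ _)
  have hconn := hD.2.2 a v0 (hD2 ha) h2
  obtain ⟨f, hf, hfS⟩ := exists_cut_of_connIn (G := G) hconn
    (S := Finset.univ.filter fun v => G.deg B v ≠ 0)
    (Finset.mem_filter.mpr ⟨Finset.mem_univ _, by omega⟩)
    (fun hh => (Finset.mem_filter.mp hh).2 h0)
  obtain ⟨c, d, -, hcd⟩ := G.exists_ends f
  have key : ∀ c d : V, G.ends f = s(c, d) → G.deg B c ≠ 0 → G.deg B d = 0 → False := by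
    intro c d hcd hc hd
    have hc2 : G.deg B c = 2 := (h c).resolve_left hc
    have hDc : G.deg D c = 2 := hD2 hc2
    have hcf : c ∈ G.ends f := by rw [hcd]; exact Sym2.mem_mk_left _ _
    have hdf : d ∈ G.ends f := by rw [hcd]; exact Sym2.mem_mk_right _ _
    have hsub : B.filter (fun e => c ∈ G.ends e) ⊆ D.filter (fun e => c ∈ G.ends e) :=
      Finset.filter_subset_filter _ hB
    have heq : B.filter (fun e => c ∈ G.ends e) = D.filter (fun e => c ∈ G.ends e) := by
      apply Finset.eq_of_subset_of_card_le hsub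
      unfold MGraph.deg at hc2 hDc
      omega
    have hfB : f ∈ B := by
      have : f ∈ B.filter (fun e => c ∈ G.ends e) := by
        rw [heq]
        exact Finset.mem_filter.mpr ⟨hf, hcf⟩
      exact (Finset.mem_filter.mp this).1
    have := hpos hfB hdf
    omega
  rw [G.mem_cut hcd] at hfS
  simp only [Finset.mem_filter, Finset.mem_univ, true_and, not_not] at hfS
  rcases hfS with ⟨h1, h3⟩ | ⟨h1, h3⟩
  · exact key c d hcd h1 h3
  · exact key d c (by rw [hcd, Sym2.eq_swap]) h1 h3

end E4aX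

open E4aX in
theorem t_E4a : S_E4a := by
  intro V E _ _ _ _ G X M D D' P hD hD' hDX hsub ⟨v0, hv0P, hv0⟩ hcut
  have hins : ∀ {f : E} {v : V}, v ∉ P → v ∈ G.ends f → f ∉ G.ins X P := by
    intro f v hv hvf hf
    exact hv ((Finset.mem_filter.mp hf).2 v hvf)
  have hBP : ∀ v ∈ P, G.deg ((D \ G.ins X P) \ D') v = 0 := by
    intro v hv
    by_contra hne
    obtain ⟨f, hf, hvf⟩ := G.deg_pos_iff.mp (Nat.pos_of_ne_zero hne)
    rw [Finset.mem_sdiff, Finset.mem_sdiff] at hf
    obtain ⟨⟨hfD, hfI⟩, hfD'⟩ := hf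
    apply hfD'
    apply hcut
    rw [Finset.mem_inter]
    refine ⟨hfD, ?_⟩
    have h1 : ∃ b ∈ G.ends f, b ∉ P := by
      by_contra hcon
      push Not at hcon
      exact hfI (Finset.mem_filter.mpr ⟨hDX hfD, hcon⟩)
    exact Finset.mem_filter.mpr ⟨Finset.mem_univ _, ⟨v, hvf, hv⟩, h1⟩
  have hB : ∀ v, G.deg ((D \ G.ins X P) \ D') v = 0 ∨ G.deg ((D \ G.ins X P) \ D') v = 2 := by
    intro v
    by_cases hv : v ∈ P
    · exact Or.inl (hBP v hv)
    · have h1 : G.deg ((D \ G.ins X P) \ D') v + G.deg D' v = G.deg D v := by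
        unfold MGraph.deg
        rw [← Finset.card_union_of_disjoint]
        · congr 1
          ext f
          simp only [Finset.mem_union, Finset.mem_filter, Finset.mem_sdiff]
          constructor
          · rintro (⟨⟨⟨h1, _⟩, _⟩, h2⟩ | ⟨h1, h2⟩)
            · exact ⟨h1, h2⟩
            · rcases Finset.mem_union.mp (hsub h1) with h3 | h3
              · exact ⟨h3, h2⟩
              · exact absurd h3 (hins hv h2)
          · rintro ⟨h1, h2⟩
            by_cases h3 : f ∈ D'
            · exact Or.inr ⟨h3, h2⟩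
            · exact Or.inl ⟨⟨⟨h1, hins hv h2⟩, h3⟩, h2⟩
        · rw [Finset.disjoint_left]
          intro f hf hf'
          rw [Finset.mem_filter, Finset.mem_sdiff] at hf
          rw [Finset.mem_filter] at hf'
          exact hf.1.2 hf'.1
      have h2 := hD.circ.2.1 v
      have h3 := hD'.circ.2.1 v
      omega
  have hE := circ_sub hD.circ (B := (D \ G.ins X P) \ D')
    (fun f hf => (Finset.mem_sdiff.mp (Finset.mem_sdiff.mp hf).1).1) hB hv0 (hBP v0 hv0P)
  exact Finset.sdiff_eq_empty_iff_subset.mp hE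

end Pool.GOZ
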