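import Pool.Agent.GOZ.StmtsE

/-!
Theorem Z, module E4p: the potential lemma.
-/

set_option autoImplicit false

namespace Pool.GOZ

open Pool.GOD Pool.GOD.MGraph

namespace E4pAux

theorem two_pow {a b : ℕ} (ha : 1 ≤ a) (hb : 1 ≤ b) : 3 ^ a + 3 ^ b ≤ 3 ^ (a + b) := by
  rw [pow_add]
  have h1 : 3 ≤ 3 ^ a := by
    calc (3 : ℕ) = 3 ^ 1 := by norm_num
      _ ≤ 3 ^ a := Nat.pow_le_pow_right (by norm_num) ha
  have h2 : 3 ≤ 3 ^ b := by
    calc (3 : ℕ) = 3 ^ 1 := by norm_num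
      _ ≤ 3 ^ b := Nat.pow_le_pow_right (by norm_num) hb
  nlinarith

theorem sum_pow {V : Type} [DecidableEq V] (F : Finset (Finset V)) (h : ∀ Q ∈ F, Q.Nonempty) :
    ∑ Q ∈ F, 3 ^ Q.card ≤ 3 ^ (∑ Q ∈ F, Q.card) := by
  classical
  induction F using Finset.induction_on with
  | empty => simp
  | insert Q F hQ ih =>
    rw [Finset.sum_insert hQ, Finset.sum_insert hQ]
    have h1 : 1 ≤ Q.card := Finset.card_pos.2 (h Q (Finset.mem_insert_self _ _))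
    have h2 := ih (fun R hR => h R (Finset.mem_insert_of_mem hR))
    rcases F.eq_empty_or_nonempty with hF | ⟨R, hR⟩
    · subst hF
      simp
    · have h3 : 1 ≤ ∑ Q ∈ F, Q.card := by
        have h4 : 1 ≤ R.card := Finset.card_pos.2 (h R (Finset.mem_insert_of_mem hR))
        exact h4.trans (Finset.single_le_sum (f := fun Q : Finset V => Q.card)
          (fun _ _ => Nat.zero_le _) hR)
      calc 3 ^ Q.card + ∑ Q ∈ F, 3 ^ Q.card ≤ 3 ^ Q.card + 3 ^ (∑ Q ∈ F, Q.card) :=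
            Nat.add_le_add_left h2 _
        _ ≤ _ := two_pow h1 h3

theorem sum_card {V : Type} [DecidableEq V] (F : Finset (Finset V)) (S : Finset V)
    (hd : ∀ Q ∈ F, ∀ Q' ∈ F, Q ≠ Q' → Disjoint Q Q') (hS : ∀ Q ∈ F, Q ⊆ S) :
    ∑ Q ∈ F, Q.card ≤ S.card := by
  classical
  have h1 : (F.biUnion id).card = ∑ Q ∈ F, Q.card := by
    rw [Finset.card_biUnion]
    · rfl
    · intro Q hQ Q' hQ' hne
      exact hd Q hQ Q' hQ' hne
  rw [← h1]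
  refine Finset.card_le_card ?_
  intro x hx
  obtain ⟨Q, hQ, hxQ⟩ := Finset.mem_biUnion.1 hx
  exact hS Q hQ hxQ

end E4pAux

open E4pAux in
theorem t_E4p : S_E4p := by
  classical
  intro V _ _ A B P hP hne hdis hsm hcov Q₁ hQ₁ hQ₁P T hT hQT v hvP hvT
  have hch : ∀ Q : Finset V, ∃ S : Finset V, Q ∈ A → Q ≠ P → S ∈ B ∧ Q ⊆ S := by
    intro Q
    by_cases h : Q ∈ A ∧ Q ≠ P
    · obtain ⟨S, hS, hQS⟩ := hcov Q h.1 h.2
      exact ⟨S, fun _ _ => ⟨hS, hQS⟩⟩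
    · exact ⟨∅, fun h1 h2 => absurd ⟨h1, h2⟩ h⟩
  choose φ₀ hφ₀ using hch
  set φ : Finset V → Finset V := fun Q => if Q = Q₁ then T else φ₀ Q with hφ
  have hφ1 : ∀ Q ∈ A.erase P, φ Q ∈ B ∧ Q ⊆ φ Q := by
    intro Q hQ
    rw [Finset.mem_erase] at hQ
    by_cases h : Q = Q₁
    · subst h
      simp only [hφ, if_true]
      exact ⟨hT, hQT⟩
    · simp only [hφ, if_neg h]
      exact hφ₀ Q hQ.2 hQ.1
  have hφQ : φ Q₁ = T := by simp [hφ]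
  have hQ₁e : Q₁ ∈ A.erase P := Finset.mem_erase.2 ⟨hQ₁P, hQ₁⟩
  have hsum : ∑ Q ∈ A.erase P, 3 ^ Q.card =
      ∑ S ∈ B, ∑ Q ∈ A.erase P with φ Q = S, 3 ^ Q.card :=
    (Finset.sum_fiberwise_of_maps_to (fun Q hQ => (hφ1 Q hQ).1) _).symm
  have hfib : ∀ S : Finset V, ∀ Q ∈ (A.erase P).filter (fun Q => φ Q = S),
      Q ∈ A ∧ Q ≠ P ∧ Q ⊆ S := by
    intro S Q hQ
    rw [Finset.mem_filter] at hQ
    have h1 := Finset.mem_erase.1 hQ.1
    refine ⟨h1.2, h1.1, ?_⟩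
    have h2 := (hφ1 Q hQ.1).2
    rwa [hQ.2] at h2
  have hle : ∀ S ∈ B, ∑ Q ∈ A.erase P with φ Q = S, 3 ^ Q.card ≤ 3 ^ S.card := by
    intro S hS
    refine (sum_pow _ (fun Q hQ => hne Q (hfib S Q hQ).1)).trans ?_
    refine Nat.pow_le_pow_right (by norm_num) (sum_card _ S ?_ (fun Q hQ => (hfib S Q hQ).2.2))
    intro Q hQ Q' hQ' h
    exact hdis Q (hfib S Q hQ).1 Q' (hfib S Q' hQ').1 h
  have hlt : 3 ^ P.card + ∑ Q ∈ A.erase P with φ Q = T, 3 ^ Q.card < 3 ^ T.card := by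
    set F := (A.erase P).filter (fun Q => φ Q = T) with hF
    have hQ₁F : Q₁ ∈ F := Finset.mem_filter.2 ⟨hQ₁e, hφQ⟩
    have h1 : ∑ Q ∈ F, 3 ^ Q.card ≤ 3 ^ (∑ Q ∈ F, Q.card) :=
      sum_pow _ (fun Q hQ => hne Q (hfib T Q hQ).1)
    have h2 : ∑ Q ∈ F, Q.card ≤ (T.erase v).card := by
      refine sum_card _ _ ?_ ?_
      · intro Q hQ Q' hQ' h
        exact hdis Q (hfib T Q hQ).1 Q' (hfib T Q' hQ').1 h
      · intro Q hQ x hx
        obtain ⟨hQA, hQP, hQS⟩ := hfib T Q hQ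
        refine Finset.mem_erase.2 ⟨?_, hQS hx⟩
        rintro rfl
        exact (Finset.disjoint_left.1 (hdis Q hQA P hP hQP)) hx hvP
    have h3 : (T.erase v).card + 1 = T.card := Finset.card_erase_add_one hvT
    have h4 : 3 ^ P.card ≤ 3 ^ Q₁.card := Nat.pow_le_pow_right (by norm_num) (hsm Q₁ hQ₁)
    have h5 : 3 ^ Q₁.card ≤ ∑ Q ∈ F, 3 ^ Q.card :=
      Finset.single_le_sum (f := fun Q : Finset V => 3 ^ Q.card)
        (fun _ _ => Nat.zero_le _) hQ₁F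
    have h6 : 3 ^ (∑ Q ∈ F, Q.card) ≤ 3 ^ (T.erase v).card :=
      Nat.pow_le_pow_right (by norm_num) h2
    have h7 : 3 ^ T.card = 3 * 3 ^ (T.erase v).card := by
      rw [← h3, pow_succ]
      ring
    have h8 : 0 < 3 ^ P.card := by positivity
    rw [h7]
    omega
  have hA : ∑ Q ∈ A, 3 ^ Q.card = 3 ^ P.card + ∑ Q ∈ A.erase P, 3 ^ Q.card :=
    (Finset.add_sum_erase A (fun Q : Finset V => 3 ^ Q.card) hP).symm
  have hB1 : ∑ S ∈ B, ∑ Q ∈ A.erase P with φ Q = S, 3 ^ Q.card =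
      (∑ Q ∈ A.erase P with φ Q = T, 3 ^ Q.card) +
        ∑ S ∈ B.erase T, ∑ Q ∈ A.erase P with φ Q = S, 3 ^ Q.card :=
    (Finset.add_sum_erase B (fun S : Finset V => ∑ Q ∈ A.erase P with φ Q = S, 3 ^ Q.card)
      hT).symm
  have hB2 : ∑ S ∈ B, 3 ^ S.card = 3 ^ T.card + ∑ S ∈ B.erase T, 3 ^ S.card :=
    (Finset.add_sum_erase B (fun S : Finset V => 3 ^ S.card) hT).symm
  have hB3 : ∑ S ∈ B.erase T, ∑ Q ∈ A.erase P with φ Q = S, 3 ^ Q.card ≤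
      ∑ S ∈ B.erase T, 3 ^ S.card :=
    Finset.sum_le_sum (fun S hS => hle S (Finset.mem_of_mem_erase hS))
  rw [hA, hsum, hB1, hB2]
  omega

end Pool.GOZ
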