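import Pool.Agent.GOZ.DefsS

/-!
Theorem Z, part S (suppression): statements and proofs.
-/

set_option autoImplicit false

namespace Pool.GOZ

open Pool.GOD Pool.GOD.MGraph

/-- S1 (one smoothing step).  `D` is an alternating circuit of `X`; `u, u'` are the ends of
`p ∈ M ∩ D`, both of degree 2 in `X` (so all edges of `X` at `u` and `u'` are in `D`), `e₁ = x u`
and `e₂ = u' y` are the other two edges of `D` at `u, u'`.  Then `x ≠ y` (otherwise `D` would be
`{e₁, p, e₂}`, not alternating at `x`; note `x ≠ u'`, `y ≠ u` because otherwise `D = {p, e₁}`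
would leave a vertex `u'`... with `e₁ = e₂`, excluded by `hne`), and `G' = G` with `e₁` re-ended
to `x, y`, `X' = X \ {p, e₂}`, `D' = D \ {p, e₂}` satisfy: degrees outside `u, u'` are unchanged,
`u, u'` become isolated, `D'` is an alternating circuit. -/
def S_S1 : Prop :=
  ∀ (V E : Type) [Fintype V] [DecidableEq V] [Fintype E] [DecidableEq E] (G : MGraph V E)
    (X M D : Finset E) (u u' x y : V) (p e₁ e₂ : E), D ⊆ X → G.IsAC M D →
    p ∈ M → p ∈ D → G.ends p = s(u, u') → G.deg X u = 2 → G.deg X u' = 2 →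
    e₁ ∈ D → e₂ ∈ D → e₁ ∉ M → e₂ ∉ M → G.ends e₁ = s(x, u) → G.ends e₂ = s(u', y) →
    x ≠ u' → y ≠ u →
    ∃ hxy : x ≠ y, e₁ ≠ e₂ ∧
      (∀ v, v ≠ u → v ≠ u' → (G.reEnd e₁ x y hxy).deg (X \ {p, e₂}) v = G.deg X v) ∧
      (G.reEnd e₁ x y hxy).deg (X \ {p, e₂}) u = 0 ∧ (G.reEnd e₁ x y hxy).deg (X \ {p, e₂}) u' = 0 ∧
      (G.reEnd e₁ x y hxy).IsAC (M \ {p}) (D \ {p, e₂})

/-- S2 (suppression theorem).  `D` is an alternating circuit of `X` meeting `K`, every vertex outside
`K` has degree 0 or 2 in `X` and in the second case both its edges are in `D`, every vertex of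
degree 2 in `D` in `K` has its matching partner in `K`.  Then the vertices outside `K` can be
suppressed.  Proof: induction on the number of vertices of `X` outside `K`, with S1 (the matching
edge `p` of a vertex `u` outside `K` joins it to `u'` outside `K`; the two other edges `e₁, e₂` at
`u, u'` are different and `x ≠ u'`, since otherwise `D = {p, e₁}` would not meet `K`), composing
the relations `Sup` (`run` of the re-ended edge: `{e₁, p, e₂}`, then biUnion) and `SupM`. -/
def S_S2 : Prop :=
  ∀ (V E : Type) [Fintype V] [DecidableEq V] [Fintype E] [DecidableEq E] (G : MGraph V E)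
    (X M D : Finset E) (K : Finset V), D ⊆ X → G.IsAC M D →
    (∃ v ∈ K, G.deg D v = 2) →
    (∀ v, v ∉ K → G.deg X v = 0 ∨ (G.deg X v = 2 ∧ G.deg D v = 2)) →
    (∀ p ∈ M ∩ D, (∃ v ∈ G.ends p, v ∈ K) → ∀ v ∈ G.ends p, v ∈ K) →
    ∃ (G' : MGraph V E) (X' : Finset E) (run : E → Finset E),
      G.Sup G' X X' K run ∧ G.SupM G' M X' K run ∧
      (∀ e ∈ X', run e ≠ {e} → run e ⊆ D ∧ ∃ v, v ∉ K ∧ G.deg (run e) v = 2)

/-- T1 (degrees).  `deg (lift C') v = deg' C' v` for `v ∈ K`; for `v ∉ K` it is 0 or 2; and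
degrees inside `K` of `X` and `X'` agree, `X'` is isolated outside `K`. -/
def S_T1 : Prop :=
  ∀ (V E : Type) [Fintype V] [DecidableEq V] [Fintype E] [DecidableEq E] (G G' : MGraph V E)
    (X X' : Finset E) (K : Finset V) (run : E → Finset E), G.Sup G' X X' K run →
    ∀ C' ⊆ X', (∀ v ∈ K, G.deg (lft run C') v = G'.deg C' v) ∧
      (∀ v, v ∉ K → G.deg (lft run C') v = 0 ∨ G.deg (lft run C') v = 2) ∧
      (∀ v, v ∉ K → G'.deg C' v = 0) ∧ lft run C' ⊆ X ∧ lft run X' = X

/-- T2 (connectivity).  Both directions between vertices of `K`; every vertex outside `K` met by the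
lift is connected in the lift to a vertex of `K` (an end of its run).  Backward direction by cuts:
`S' =` component of `x` in `C'`; `S = S' ∪` inner vertices of the runs of the edges of `C'` inside
`S'`; no edge of the lift leaves `S` (`exists_cut_of_connIn`). -/
def S_T2 : Prop :=
  ∀ (V E : Type) [Fintype V] [DecidableEq V] [Fintype E] [DecidableEq E] (G G' : MGraph V E)
    (X X' : Finset E) (K : Finset V) (run : E → Finset E), G.Sup G' X X' K run →
    ∀ C' ⊆ X', (∀ x y, G'.ConnIn C' x y → G.ConnIn (lft run C') x y) ∧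
      (∀ x ∈ K, ∀ y ∈ K, G.ConnIn (lft run C') x y → G'.ConnIn C' x y) ∧
      (∀ v, v ∉ K → G.deg (lft run C') v ≠ 0 →
        ∃ x ∈ K, G'.deg C' x ≠ 0 ∧ G.ConnIn (lft run C') x v)

/-- T3 (circuits).  `C'` is a circuit iff its lift is. -/
def S_T3 : Prop :=
  ∀ (V E : Type) [Fintype V] [DecidableEq V] [Fintype E] [DecidableEq E] (G G' : MGraph V E)
    (X X' : Finset E) (K : Finset V) (run : E → Finset E), G.Sup G' X X' K run →
    ∀ C' ⊆ X', (G'.IsCircuit C' ↔ G.IsCircuit (lft run C'))

/-- T4 (alternating circuits).  With `SupM`: `C'` is `M`-alternating iff its lift is. -/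
def S_T4 : Prop :=
  ∀ (V E : Type) [Fintype V] [DecidableEq V] [Fintype E] [DecidableEq E] (G G' : MGraph V E)
    (X X' M : Finset E) (K : Finset V) (run : E → Finset E), G.Sup G' X X' K run →
    G.SupM G' M X' K run → ∀ C' ⊆ X', (G'.IsAC M C' ↔ G.IsAC M (lft run C'))

/-- T5 (every circuit meeting `K` is a lift).  At a vertex outside `K` of degree 2 in `X` a set `C`
with all degrees 0 or 2 has both edges or none, so a run is contained in `C` or disjoint from it
(connectivity of the run). -/
def S_T5 : Prop :=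
  ∀ (V E : Type) [Fintype V] [DecidableEq V] [Fintype E] [DecidableEq E] (G G' : MGraph V E)
    (X X' : Finset E) (K : Finset V) (run : E → Finset E), G.Sup G' X X' K run →
    ∀ C ⊆ X, (∀ v, G.deg C v = 0 ∨ G.deg C v = 2) →
      C = lft run (C ∩ X') ∧ ∀ e ∈ X', (run e ⊆ C ∨ Disjoint (run e) C)

/-- T6 (cuts).  For `P ⊆ K` the cut of `P` in `G` has the edges of the cut in `G'`, plus two for every
subdivided edge inside `P`.  (Count run by run: a run with ends `x, y` contributes the edge at `x`
if `x ∈ P` and the edge at `y` if `y ∈ P`; they are different if the run is not a single edge.) -/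
def S_T6 : Prop :=
  ∀ (V E : Type) [Fintype V] [DecidableEq V] [Fintype E] [DecidableEq E] (G G' : MGraph V E)
    (X X' : Finset E) (K : Finset V) (run : E → Finset E), G.Sup G' X X' K run →
    (∀ e ∈ X', run e = {e} ∨ ∃ v, v ∉ K ∧ G.deg (run e) v = 2) →
    ∀ P ⊆ K, (X ∩ G.cut P).card = (X' ∩ G'.cut P).card +
      2 * (G'.ins (X'.filter (fun e => run e ≠ {e})) P).card

end Pool.GOZ
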