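import Pool.Agent.GOZ.StmtsE
import Pool.Agent.GOZ.StmtsS

/-!
Theorem Z, E5: the suppressed graph of a smallest part is a core.
-/

set_option autoImplicit false
set_option linter.unusedSectionVars false

namespace Pool.GOZ

open Pool.GOD Pool.GOD.MGraph

namespace E5

section

variable {V E : Type} [Fintype V] [DecidableEq V] [Fintype E] [DecidableEq E] {G G' : MGraph V E}
variable {X M D X' : Finset E} {P : Finset V} {run : E → Finset E}

lemma mem_vx {v : V} : v ∈ G.vx X ↔ G.deg X v ≠ 0 := by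
  simp [MGraph.vx]

lemma isAC_inter {C : Finset E} (hC : C ⊆ X') : G'.IsAC (M ∩ X') C ↔ G'.IsAC M C := by
  have h : C ∩ (M ∩ X') = C ∩ M := by
    ext e
    simp only [Finset.mem_inter]
    exact ⟨fun h => ⟨h.1, h.2.1⟩, fun h => ⟨h.1, h.2, hC h.1⟩⟩
  constructor
  · intro hh
    refine ⟨hh.circ, fun v hv => ?_⟩
    rw [← h]
    exact hh.alt v hv
  · intro hh
    refine ⟨hh.circ, fun v hv => ?_⟩
    rw [h]
    exact hh.alt v hv

lemma lft_inter (hm : G.SupM G' M X' P run) : MGraph.lft run (M ∩ X') = M ∩ X' := by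
  ext e
  simp only [MGraph.lft, Finset.mem_biUnion]
  constructor
  · rintro ⟨g, hg, he⟩
    rw [(hm.m g (Finset.mem_inter.mp hg).2 (Finset.mem_inter.mp hg).1).1,
      Finset.mem_singleton] at he
    rw [he]
    exact hg
  · intro he
    refine ⟨e, he, ?_⟩
    rw [(hm.m e (Finset.mem_inter.mp he).2 (Finset.mem_inter.mp he).1).1]
    exact Finset.mem_singleton_self e

/-- a matching edge of `Y` at a vertex of `P` is in `X'`. -/
lemma mem_X' {Y : Finset E} (hs : G.Sup G' Y X' P run) (hm : G.SupM G' M X' P run) {g : E}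
    (hg : g ∈ M) (hY : g ∈ Y) {v : V} (hv : v ∈ P) (hvg : v ∈ G.ends g) : g ∈ X' := by
  obtain ⟨e, ⟨he, hge⟩, -⟩ := hs.part g hY
  by_cases heM : e ∈ M
  · rw [(hm.m e he heM).1, Finset.mem_singleton] at hge
    rw [hge]
    exact he
  · exfalso
    have h1 := hm.e e he heM v hv
    have h2 : 0 < G.deg (run e ∩ M) v :=
      G.deg_pos_iff.mpr ⟨g, Finset.mem_inter.mpr ⟨hge, hg⟩, hvg⟩
    omega

/-- The common facts on a part. -/
structure Ctx (G : MGraph V E) (X M D : Finset E) (P : Finset V) : Prop where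
  cm : G.CM X M
  dsub : D ⊆ X
  ac : G.IsAC M D
  psub : P ⊆ G.vx X
  cov : ∀ e ∈ X, (∃ v ∈ G.ends e, v ∈ P) → e ∈ D ∪ G.ins X P ∨ e ∈ rst X M D ∩ G.cut P
  cutm : ∀ g ∈ rst X M D ∩ G.cut P, g ∈ M ∧ g ∉ D
  big : ∀ Q : Finset V, Q ⊆ P → 2 ≤ Q.card → 4 ≤ (X ∩ G.cut Q).card

lemma not_mem_Y (h : Ctx G X M D P) {g : E} (hg : g ∈ rst X M D ∩ G.cut P) :
    g ∉ D ∪ G.ins X P := by
  intro hh
  rw [Finset.mem_union] at hh
  rcases hh with hh | hh
  · exact (h.cutm g hg).2 hh
  · obtain ⟨a, b, -, hab⟩ := G.exists_ends g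
    have h1 := (Finset.mem_filter.mp hh).2
    have h2 := (G.mem_cut hab).mp (Finset.mem_inter.mp hg).2
    have ha := h1 a (by rw [hab]; exact Sym2.mem_mk_left a b)
    have hb := h1 b (by rw [hab]; exact Sym2.mem_mk_right a b)
    tauto

lemma Y_sub (h : Ctx G X M D P) : D ∪ G.ins X P ⊆ X :=
  Finset.union_subset h.dsub (Finset.filter_subset _ _)

/-- edges at a vertex of `P` not met by the leaving edge. -/
lemma filter_Y (h : Ctx G X M D P) {v : V} (hv : v ∈ P)
    (hn : ∀ g ∈ rst X M D ∩ G.cut P, v ∉ G.ends g) (Z : Finset E) (hZ : Z ⊆ X) :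
    Z.filter (fun e => v ∈ G.ends e) = (Z ∩ (D ∪ G.ins X P)).filter (fun e => v ∈ G.ends e) := by
  ext e
  rw [Finset.mem_filter, Finset.mem_filter, Finset.mem_inter]
  constructor
  · rintro ⟨h1, h2⟩
    refine ⟨⟨h1, ?_⟩, h2⟩
    rcases h.cov e (hZ h1) ⟨v, h2, hv⟩ with h3 | h3
    · exact h3
    · exact absurd h2 (hn e h3)
  · rintro ⟨⟨h1, -⟩, h2⟩
    exact ⟨h1, h2⟩

lemma deg_Y (h : Ctx G X M D P) {v : V} (hv : v ∈ P)
    (hn : ∀ g ∈ rst X M D ∩ G.cut P, v ∉ G.ends g) : G.deg (D ∪ G.ins X P) v = 3 := by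
  have h1 := filter_Y h hv hn X (Finset.Subset.refl X)
  rw [Finset.inter_eq_right.mpr (Y_sub h)] at h1
  have h2 : G.deg (D ∪ G.ins X P) v = G.deg X v := by
    unfold MGraph.deg
    rw [h1]
  rw [h2]
  rcases h.cm.deg v with h3 | h3
  · exact absurd h3 (mem_vx.mp (h.psub hv))
  · exact h3.1

lemma deg_M (h : Ctx G X M D P) (hs : G.Sup G' (D ∪ G.ins X P) X' P run)
    (hm : G.SupM G' M X' P run) {v : V} (hv : v ∈ P)
    (hn : ∀ g ∈ rst X M D ∩ G.cut P, v ∉ G.ends g) : G.deg (M ∩ X') v = 1 := by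
  have h2 : G.deg (M ∩ X') v = G.deg M v := by
    unfold MGraph.deg
    congr 1
    ext e
    rw [Finset.mem_filter, Finset.mem_filter, Finset.mem_inter]
    constructor
    · rintro ⟨⟨h1, -⟩, h2⟩
      exact ⟨h1, h2⟩
    · rintro ⟨h1, h2⟩
      refine ⟨⟨h1, ?_⟩, h2⟩
      rcases h.cov e (h.cm.sub h1) ⟨v, h2, hv⟩ with h3 | h3
      · exact mem_X' hs hm h1 h3 hv h2
      · exact absurd h2 (hn e h3)
  rw [h2]
  rcases h.cm.deg v with h3 | h3
  · exact absurd h3 (mem_vx.mp (h.psub hv))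
  · exact h3.2

/-- degrees at the root. -/
lemma deg_root (h : Ctx G X M D P) (hs : G.Sup G' (D ∪ G.ins X P) X' P run) {f : E} {z : V}
    (hf : rst X M D ∩ G.cut P = {f}) (hz : z ∈ P) (hzf : z ∈ G.ends f) :
    G.deg (D ∪ G.ins X P) z = 2 ∧ G.deg (M ∩ X') z = 0 := by
  have hfm : f ∈ rst X M D ∩ G.cut P := by rw [hf]; exact Finset.mem_singleton_self f
  have hfM := (h.cutm f hfm).1
  have hfX := h.cm.sub hfM
  have hd : G.deg X z = 3 ∧ G.deg M z = 1 := by
    rcases h.cm.deg z with h3 | h3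
    · exact absurd h3 (mem_vx.mp (h.psub hz))
    · exact h3
  have hfY := not_mem_Y h hfm
  constructor
  · have h1 : X.filter (fun e => z ∈ G.ends e) =
        insert f ((D ∪ G.ins X P).filter (fun e => z ∈ G.ends e)) := by
      ext e
      rw [Finset.mem_insert, Finset.mem_filter, Finset.mem_filter]
      constructor
      · rintro ⟨h1, h2⟩
        rcases h.cov e h1 ⟨z, h2, hz⟩ with h3 | h3
        · exact Or.inr ⟨h3, h2⟩
        · rw [hf, Finset.mem_singleton] at h3
          exact Or.inl h3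
      · rintro (h1 | ⟨h1, h2⟩)
        · rw [h1]
          exact ⟨hfX, hzf⟩
        · exact ⟨Y_sub h h1, h2⟩
    have h2 : G.deg X z = G.deg (D ∪ G.ins X P) z + 1 := by
      unfold MGraph.deg
      rw [h1, Finset.card_insert_of_notMem]
      intro hh
      exact hfY (Finset.mem_filter.mp hh).1
    omega
  · have h1 : M.filter (fun e => z ∈ G.ends e) = {f} := by
      obtain ⟨g, hg⟩ := Finset.card_eq_one.mp hd.2
      have h2 : f ∈ M.filter (fun e => z ∈ G.ends e) := Finset.mem_filter.mpr ⟨hfM, hzf⟩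
      rw [hg, Finset.mem_singleton] at h2
      rw [hg, h2]
    unfold MGraph.deg
    rw [Finset.card_eq_zero, Finset.filter_eq_empty_iff]
    intro e he hze
    rw [Finset.mem_inter] at he
    have h2 : e ∈ M.filter (fun e => z ∈ G.ends e) := Finset.mem_filter.mpr ⟨he.1, hze⟩
    rw [h1, Finset.mem_singleton] at h2
    rw [h2] at he
    exact hfY (hs.sub he.2)

end

end E5

open E5 in
theorem t_E5 (h3 : S_E3) (h4 : S_E4) (ht1 : S_T1) (ht4 : S_T4) (ht5 : S_T5) (ht6 : S_T6) :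
    S_E5 := by
  intro V E _ _ _ _ G X M U D u0 P hA hO hP hmin G' X' run hs hm hmark
  obtain ⟨hW2, hWX, -, -, hpart⟩ := h3 V E G X M U D u0 hA hO.fam
  obtain ⟨hPne, hPsub, hcut, -, -, -, hcov, -⟩ := hpart P hP
  have hWP : G.hub X M D u0 ⊆ G.vx X \ P := by
    intro w hw
    rw [Finset.mem_sdiff]
    exact ⟨hWX hw, fun hwP => (Finset.mem_sdiff.mp (hPsub hwP)).2 hw⟩
  have hC : Ctx G X M D P := by
    refine ⟨hA.cm, hO.fam.sub, hO.fam.ac, hPsub.trans Finset.sdiff_subset, hcov,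
      fun g hg => ⟨(hcut g hg).1, (hcut g hg).2.1⟩, ?_⟩
    intro Q hQ hQ2
    by_contra hlt
    have h5 : (X ∩ G.cut Q).card ≤ 3 := by omega
    rcases hA.c4 Q h5 with h6 | h6
    · rw [Finset.inter_eq_left.mpr (hQ.trans (hPsub.trans Finset.sdiff_subset))] at h6
      omega
    · have h7 : G.hub X M D u0 ⊆ G.vx X \ Q := by
        intro w hw
        have := Finset.mem_sdiff.mp (hWP hw)
        exact Finset.mem_sdiff.mpr ⟨this.1, fun hwQ => this.2 (hQ hwQ)⟩
      have := Finset.card_le_card h7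
      omega
  have hT1 := ht1 V E G G' (D ∪ G.ins X P) X' P run hs
  have hlX : MGraph.lft run X' = D ∪ G.ins X P := (hT1 X' (Finset.Subset.refl X')).2.2.2.2
  -- degrees in `X'`
  have hdX : ∀ v ∈ P, G'.deg X' v = G.deg (D ∪ G.ins X P) v := by
    intro v hv
    rw [← (hT1 X' (Finset.Subset.refl X')).1 v hv, hlX]
  have hdX0 : ∀ v, v ∉ P → G'.deg X' v = 0 := fun v hv =>
    (hT1 X' (Finset.Subset.refl X')).2.2.1 v hv
  have hdM : ∀ v ∈ P, G'.deg (M ∩ X') v = G.deg (M ∩ X') v := by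
    intro v hv
    rw [← (hT1 (M ∩ X') Finset.inter_subset_right).1 v hv, lft_inter hm]
  -- the circuit
  have hDl : D = MGraph.lft run (D ∩ X') :=
    (ht5 V E G G' (D ∪ G.ins X P) X' P run hs D Finset.subset_union_left
      hO.fam.ac.circ.2.1).1
  have hdac : G'.IsAC (M ∩ X') (D ∩ X') := by
    rw [isAC_inter Finset.inter_subset_right,
      ht4 V E G G' (D ∪ G.ins X P) X' M P run hs hm (D ∩ X') Finset.inter_subset_right, ← hDl]
    exact hO.fam.ac
  -- the marks
  have hfsub : X'.filter (fun e => run e ≠ {e}) ⊆ X' \ (M ∩ X') := by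
    intro e he
    rw [Finset.mem_filter] at he
    rw [Finset.mem_sdiff]
    exact ⟨he.1, fun h5 => he.2 (hm.m e he.1 (Finset.mem_inter.mp h5).1).1⟩
  have hm1 : ∀ D', D' ⊆ X' → G'.IsAC (M ∩ X') D' → X'.filter (fun e => run e ≠ {e}) ⊆ D' := by
    intro D' hD' hac e he
    rw [Finset.mem_filter] at he
    have h5 : G.IsAC M (MGraph.lft run D') :=
      (ht4 V E G G' (D ∪ G.ins X P) X' M P run hs hm D' hD').mp ((isAC_inter hD').mp hac)
    have h6 : MGraph.lft run D' ⊆ D ∪ G.ins X P := (hT1 D' hD').2.2.2.1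
    have h7 := h4 V E G X M U D (MGraph.lft run D') u0 P hA hO hP hmin h6 h5
    obtain ⟨h8, v, hv, hv2⟩ := hmark e he.1 he.2
    obtain ⟨g, hg, hvg⟩ := G.deg_pos_iff.mp (show 0 < G.deg (run e) v by omega)
    have h9 : g ∈ D \ G.ins X P := by
      rw [Finset.mem_sdiff]
      refine ⟨h8 hg, fun hh => hv ((Finset.mem_filter.mp hh).2 v hvg)⟩
    have h10 := h7 h9
    rw [MGraph.lft, Finset.mem_biUnion] at h10
    obtain ⟨e', he', hge'⟩ := h10
    have h11 : g ∈ D ∪ G.ins X P := Finset.mem_union_left _ (h8 hg)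
    have h12 := (hs.part g h11).unique ⟨he.1, hg⟩ ⟨hD' he', hge'⟩
    rw [h12]
    exact he'
  -- the cuts
  have hvxP : G'.vx X' ⊆ P := by
    intro v hv
    by_contra hvP
    exact (mem_vx.mp hv) (hdX0 v hvP)
  have hT6 : ∀ Q ⊆ P, ((D ∪ G.ins X P) ∩ G.cut Q).card = (X' ∩ G'.cut Q).card +
      2 * (G'.ins (X'.filter (fun e => run e ≠ {e})) Q).card := by
    refine ht6 V E G G' (D ∪ G.ins X P) X' P run hs ?_
    intro e he
    by_cases h5 : run e = {e}
    · exact Or.inl h5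
    · exact Or.inr (hmark e he h5).2
  have hcutQ : ∀ Q ⊆ P, X ∩ G.cut Q ⊆
      ((D ∪ G.ins X P) ∩ G.cut Q) ∪ ((rst X M D ∩ G.cut P) ∩ G.cut Q) := by
    intro Q hQ e he
    rw [Finset.mem_inter] at he
    obtain ⟨a, b, -, hab⟩ := G.exists_ends e
    have h5 : ∃ v ∈ G.ends e, v ∈ P := by
      rcases (G.mem_cut hab).mp he.2 with h6 | h6
      · exact ⟨a, by rw [hab]; exact Sym2.mem_mk_left a b, hQ h6.1⟩
      · exact ⟨b, by rw [hab]; exact Sym2.mem_mk_right a b, hQ h6.1⟩
    rw [Finset.mem_union, Finset.mem_inter, Finset.mem_inter]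
    rcases hcov e he.1 h5 with h6 | h6
    · exact Or.inl ⟨h6, he.2⟩
    · exact Or.inr ⟨h6, he.2⟩
  constructor
  · intro hemp
    have hn : ∀ v : V, ∀ g ∈ rst X M D ∩ G.cut P, v ∉ G.ends g := by
      intro v g hg
      rw [hemp] at hg
      exact absurd hg (Finset.notMem_empty g)
    refine ⟨Finset.inter_subset_right, hfsub, ?_, Finset.inter_subset_right, hdac, hm1, ?_⟩
    · intro v
      by_cases hv : v ∈ P
      · right
        rw [hdX v hv, hdM v hv]
        exact ⟨deg_Y hC hv (hn v), deg_M hC hs hm hv (hn v)⟩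
      · exact Or.inl (hdX0 v hv)
    · intro Q hQ hQ2
      have hQP := hQ.trans hvxP
      have h5 := hC.big Q hQP hQ2
      have h6 := Finset.card_le_card (hcutQ Q hQP)
      rw [hemp, Finset.empty_inter, Finset.union_empty] at h6
      rw [← hT6 Q hQP]
      omega
  · intro f z hf hz hzf
    have hfm : f ∈ rst X M D ∩ G.cut P := by rw [hf]; exact Finset.mem_singleton_self f
    obtain ⟨hfM, hfD, w, hw, z', hz', hfe, hdz⟩ := hcut f hfm
    have hwP : w ∉ P := (Finset.mem_sdiff.mp (hWP hw)).2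
    have hzz : z' = z := by
      rw [hfe, Sym2.mem_iff] at hzf
      rcases hzf with h5 | h5
      · exact absurd (h5 ▸ hz) hwP
      · exact h5.symm
    rw [hzz] at hfe hdz
    have hn : ∀ v ∈ P, v ≠ z → ∀ g ∈ rst X M D ∩ G.cut P, v ∉ G.ends g := by
      intro v hv hvz g hg
      rw [hf, Finset.mem_singleton] at hg
      rw [hg, hfe, Sym2.mem_iff]
      rintro (h5 | h5)
      · exact hwP (h5 ▸ hv)
      · exact hvz h5
    have hroot := deg_root hC hs hf hz hzf
    refine ⟨Finset.inter_subset_right, hfsub, ?_, ?_, ?_, Finset.inter_subset_right, hdac, ?_,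
      fun D' h5 h6 _ => hm1 D' h5 h6, ?_⟩
    · rw [hdX z hz]
      exact hroot.1
    · rw [hdM z hz]
      exact hroot.2
    · intro v hvz
      by_cases hv : v ∈ P
      · right
        rw [hdX v hv, hdM v hv]
        exact ⟨deg_Y hC hv (hn v hv hvz), deg_M hC hs hm hv (hn v hv hvz)⟩
      · exact Or.inl (hdX0 v hv)
    · rw [← (hT1 (D ∩ X') Finset.inter_subset_right).1 z hz, ← hDl]
      exact hdz
    · intro Q hQ hQ2
      have hQP := hQ.trans hvxP
      have h5 := hC.big Q hQP hQ2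
      have h6 := (Finset.card_le_card (hcutQ Q hQP)).trans (Finset.card_union_le _ _)
      rw [← hT6 Q hQP]
      have h7 : ((rst X M D ∩ G.cut P) ∩ G.cut Q).card ≤ if z ∈ Q then 1 else 0 := by
        rw [hf]
        split_ifs with hzQ
        · exact (Finset.card_le_card Finset.inter_subset_left).trans
            (by rw [Finset.card_singleton])
        · rw [Nat.le_zero, Finset.card_eq_zero, Finset.eq_empty_iff_forall_notMem]
          intro e he
          rw [Finset.mem_inter, Finset.mem_singleton] at he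
          have h8 := he.2
          rw [he.1, G.mem_cut hfe] at h8
          rcases h8 with h8 | h8
          · exact hwP (hQP h8.1)
          · exact hzQ h8.1
      omega

end Pool.GOZ
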