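import Pool.Agent.GOZ.StmtsE
import Pool.Agent.GOZ.StmtsS
import Pool.Agent.GOD.BaseApi

/-!
Theorem Z, module E6: translation of the zigzag in the suppressed graph back to a zigzag end.
-/

set_option autoImplicit false

namespace Pool.GOZ

open Pool.GOD Pool.GOD.MGraph

theorem t_E6 (h3 : S_E3) (ht1 : S_T1) : S_E6 := by
  intro V E _ _ _ _ G X M U D u0 P hA hF hP G' X' run hS hM hrun f z hcf hzP hzf m p a c e0 e1
    hZ ha0 ha1 hall
  obtain ⟨-, -, -, -, h3P⟩ := h3 V E G X M U D u0 hA hF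
  obtain ⟨hPne, hPsub, hPcut, hPcard, hPD, hPM, hPX, hPconn⟩ := h3P P hP
  have hm : 2 ≤ m := hZ.two
  -- basic facts on edges of `X'`
  have hX'X : ∀ e ∈ X', e ∈ X := by
    intro e he
    rcases Finset.mem_union.1 (hS.sub he) with h | h
    · exact hF.sub h
    · exact (Finset.mem_filter.1 h).1
  have hea : ∀ i, i + 1 < 2 * m → a i ∈ X' ∧ a i ∉ M ∧ G'.ends (a i) = s(p i, p (i + 1)) := by
    intro i hi
    obtain ⟨h1, h2⟩ := hZ.ea i hi
    rw [Finset.mem_sdiff, Finset.mem_inter] at h1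
    exact ⟨h1.1, fun h => h1.2 ⟨h, h1.1⟩, h2⟩
  have hec : ∀ j, j < m → c j ∈ X' ∧ c j ∈ M ∧
      G'.ends (c j) = s(p (2 * j - 1), p (min (2 * j + 2) (2 * m - 1))) := by
    intro j hj
    obtain ⟨h1, h2⟩ := hZ.ec j hj
    rw [Finset.mem_inter] at h1
    exact ⟨h1.2, h1.1, h2⟩
  have he0 : e0 ∈ X' ∧ e0 ∉ M ∧ G'.ends e0 = s(z, p 0) := by
    obtain ⟨h1, h2⟩ := hZ.ez0
    rw [Finset.mem_sdiff, Finset.mem_inter] at h1
    exact ⟨h1.1, fun h => h1.2 ⟨h, h1.1⟩, h2⟩
  have he1 : e1 ∈ X' ∧ e1 ∉ M ∧ G'.ends e1 = s(p (2 * m - 1), z) := by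
    obtain ⟨h1, h2⟩ := hZ.ez1
    rw [Finset.mem_sdiff, Finset.mem_inter] at h1
    exact ⟨h1.1, fun h => h1.2 ⟨h, h1.1⟩, h2⟩
  -- an even arc is none of the other edges
  have hodd : ∀ i i', i + 1 < m → i' < m → a (2 * i + 1) ≠ a (2 * i') := by
    intro i i' hi hi' h
    have h1 := (hea (2 * i + 1) (by omega)).2.2
    have h2 := (hea (2 * i') (by omega)).2.2
    rw [h, h2] at h1
    have h3 : p (2 * i + 1) ∈ s(p (2 * i'), p (2 * i' + 1)) := by
      rw [h1]
      exact Sym2.mem_mk_left _ _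
    have h4 : p (2 * i + 1 + 1) ∈ s(p (2 * i'), p (2 * i' + 1)) := by
      rw [h1]
      exact Sym2.mem_mk_right _ _
    rw [Sym2.mem_iff] at h3 h4
    have h5 : 2 * i + 1 = 2 * i' ∨ 2 * i + 1 = 2 * i' + 1 := by
      rcases h3 with h3 | h3
      · exact Or.inl (hZ.inj _ _ (by omega) (by omega) h3)
      · exact Or.inr (hZ.inj _ _ (by omega) (by omega) h3)
    have h6 : 2 * i + 1 + 1 = 2 * i' ∨ 2 * i + 1 + 1 = 2 * i' + 1 := by
      rcases h4 with h4 | h4
      · exact Or.inl (hZ.inj _ _ (by omega) (by omega) h4)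
      · exact Or.inr (hZ.inj _ _ (by omega) (by omega) h4)
    omega
  have heven : ∀ i i', i < m → i' < m → a (2 * i) = a (2 * i') → i = i' := by
    intro i i' hi hi' h
    have h1 := (hea (2 * i) (by omega)).2.2
    have h2 := (hea (2 * i') (by omega)).2.2
    rw [h, h2] at h1
    have h3 : p (2 * i) ∈ s(p (2 * i'), p (2 * i' + 1)) := by
      rw [h1]
      exact Sym2.mem_mk_left _ _
    rw [Sym2.mem_iff] at h3
    have h5 : 2 * i = 2 * i' ∨ 2 * i = 2 * i' + 1 := by
      rcases h3 with h3 | h3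
      · exact Or.inl (hZ.inj _ _ (by omega) (by omega) h3)
      · exact Or.inr (hZ.inj _ _ (by omega) (by omega) h3)
    omega
  -- edges at `z` are not even arcs
  have hzne : ∀ e, z ∈ G'.ends e → ∀ i, i < m → e ≠ a (2 * i) := by
    intro e hze i hi h
    rw [h, (hea (2 * i) (by omega)).2.2, Sym2.mem_iff] at hze
    rcases hze with h1 | h1
    · exact hZ.nz (2 * i) (by omega) h1.symm
    · exact hZ.nz (2 * i + 1) (by omega) h1.symm
  -- an edge of `X'` which is no even arc keeps its ends, and is not in `D` if it is not in `M`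
  have hun : ∀ e ∈ X', (∀ i, i < m → e ≠ a (2 * i)) → run e = {e} := by
    intro e he hne
    by_contra hr
    obtain ⟨i, hi, h⟩ := hall e (Finset.mem_filter.2 ⟨he, hr⟩)
    exact hne i hi h
  have hends : ∀ e ∈ X', (∀ i, i < m → e ≠ a (2 * i)) → G.ends e = G'.ends e := by
    intro e he hne
    exact (hM.r e he (hun e he hne)).symm
  have hnD : ∀ e ∈ X', e ∉ M → (∀ i, i < m → e ≠ a (2 * i)) → e ∉ D := by
    intro e he heM hne heD
    rcases (hZ.cd e).1 (Finset.mem_inter.2 ⟨heD, he⟩) with ⟨i, hi, h⟩ | ⟨j, hj, h⟩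
    · exact hne i hi h
    · apply heM
      rw [h]
      exact (hec j hj).2.1
  have haD : ∀ i, i < m → a (2 * i) ∈ D := fun i hi =>
    (Finset.mem_inter.1 ((hZ.cd _).2 (Or.inl ⟨i, hi, rfl⟩))).1
  have hrsub : ∀ i, i < m → run (a (2 * i)) ⊆ D := by
    intro i hi
    have h1 := (hea (2 * i) (by omega)).1
    by_cases hr : run (a (2 * i)) = {a (2 * i)}
    · rw [hr, Finset.singleton_subset_iff]
      exact haD i hi
    · exact (hrun _ h1 hr).1
  have hpP : ∀ i, i < 2 * m → p i ∈ P := by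
    intro i hi
    rcases Nat.lt_or_ge (i + 1) (2 * m) with h | h
    · obtain ⟨h1, -, h2⟩ := hea i h
      refine hS.kept _ h1 _ ?_
      rw [h2]
      exact Sym2.mem_mk_left _ _
    · have h5 : i = 2 * m - 1 := by omega
      refine hS.kept _ he1.1 _ ?_
      rw [he1.2.2, h5]
      exact Sym2.mem_mk_left _ _
  have hff : f ∈ rst X M D ∩ G.cut P := by
    rw [hcf]
    exact Finset.mem_singleton_self f
  refine ⟨hm, hZ.inj, hZ.nz, ?_, ?_, hcf, ?_, ?_, ?_, ?_, hZ.ne, ?_, hrsub, ?_, ?_, ?_, ?_, ?_, ?_⟩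
  · -- the vertices
    intro v
    constructor
    · intro hv
      have hvx : G.deg X v = 3 := by
        have h1 := (Finset.mem_sdiff.1 (hPsub hv)).1
        have h2 : G.deg X v ≠ 0 := (Finset.mem_filter.1 h1).2
        rcases hA.cm.deg v with h | h
        · exact absurd h h2
        · exact h.1
      have hdeg : 0 < G.deg (D ∪ G.ins X P) v := by
        by_contra h0
        rw [G.deg_pos_iff] at h0
        push Not at h0
        have h1 : X.filter (fun e => v ∈ G.ends e) ⊆ {f} := by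
          intro e he
          rw [Finset.mem_filter] at he
          rcases hPX e he.1 ⟨v, he.2, hv⟩ with h | h
          · exact absurd he.2 (h0 e h)
          · rwa [hcf] at h
        have h2 := Finset.card_le_card h1
        rw [Finset.card_singleton] at h2
        have h3' : (X.filter (fun e => v ∈ G.ends e)).card = 3 := hvx
        omega
      obtain ⟨ht, -, -, -, hl⟩ := ht1 V E G G' (D ∪ G.ins X P) X' P run hS X' (Finset.Subset.refl _)
      have h4 := ht v hv
      rw [hl] at h4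
      rw [h4] at hdeg
      obtain ⟨e, he, hve⟩ := G'.deg_pos_iff.1 hdeg
      rcases hZ.all e he with ⟨i, hi, h⟩ | ⟨j, hj, h⟩ | h | h
      · rw [h, (hea i hi).2.2, Sym2.mem_iff] at hve
        rcases hve with h | h
        · exact Or.inr ⟨i, by omega, h⟩
        · exact Or.inr ⟨i + 1, hi, h⟩
      · rw [h, (hec j hj).2.2, Sym2.mem_iff] at hve
        rcases hve with h | h
        · exact Or.inr ⟨2 * j - 1, by omega, h⟩
        · refine Or.inr ⟨min (2 * j + 2) (2 * m - 1), ?_, h⟩
          have := min_le_right (2 * j + 2) (2 * m - 1)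
          omega
      · rw [h, he0.2.2, Sym2.mem_iff] at hve
        rcases hve with h | h
        · exact Or.inl h
        · exact Or.inr ⟨0, by omega, h⟩
      · rw [h, he1.2.2, Sym2.mem_iff] at hve
        rcases hve with h | h
        · exact Or.inr ⟨2 * m - 1, by omega, h⟩
        · exact Or.inl h
    · rintro (h | ⟨i, hi, h⟩)
      · rw [h]
        exact hzP
      · rw [h]
        exact hpP i hi
  · -- the edge `f`
    obtain ⟨h1, h2, -⟩ := hPcut f hff
    refine ⟨?_, h1, h2, hzf⟩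
    have h4 := (Finset.mem_inter.1 hff).1
    exact (Finset.mem_sdiff.1 h4).1
  · -- the odd arcs
    intro i hi
    obtain ⟨h1, h2, h3'⟩ := hea (2 * i + 1) (by omega)
    have hne : ∀ i', i' < m → a (2 * i + 1) ≠ a (2 * i') := fun i' hi' => hodd i i' hi hi'
    refine ⟨hX'X _ h1, h2, hnD _ h1 h2 hne, ?_⟩
    rw [hends _ h1 hne, h3']
  · -- the chords
    intro j hj
    obtain ⟨h1, h2, h3'⟩ := hec j hj
    refine ⟨h2, ?_⟩
    rw [← (hM.m _ h1 h2).2, h3']
  · obtain ⟨h1, h2, h3'⟩ := he0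
    have hne : ∀ i, i < m → e0 ≠ a (2 * i) := hzne e0 (by rw [h3']; exact Sym2.mem_mk_left _ _)
    refine ⟨hX'X _ h1, h2, hnD _ h1 h2 hne, ?_⟩
    rw [hends _ h1 hne, h3']
  · obtain ⟨h1, h2, h3'⟩ := he1
    have hne : ∀ i, i < m → e1 ≠ a (2 * i) := hzne e1 (by rw [h3']; exact Sym2.mem_mk_right _ _)
    refine ⟨hX'X _ h1, h2, hnD _ h1 h2 hne, ?_⟩
    rw [hends _ h1 hne, h3']
  · -- paths
    intro i hi
    obtain ⟨h1, -, h2⟩ := hea (2 * i) (by omega)
    exact hS.path _ h1 _ _ h2
  · intro i hi v hv h1 h2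
    obtain ⟨h4, -, h5⟩ := hea (2 * i) (by omega)
    refine hS.innerK _ h4 v hv ?_
    rw [h5, Sym2.mem_iff]
    rintro (h | h)
    · exact h1 h
    · exact h2 h
  · intro i hi v hv
    obtain ⟨h4, h5, -⟩ := hea (2 * i) (by omega)
    exact hM.e _ h4 h5 v hv
  · -- disjointness
    intro i j hi hj hij v
    obtain ⟨h4, -, h5⟩ := hea (2 * i) (by omega)
    obtain ⟨h4', -, h5'⟩ := hea (2 * j) (by omega)
    by_cases hv : v ∈ P
    · by_cases h6 : v ∈ G'.ends (a (2 * i))
      · right
        refine hS.innerK _ h4' v hv ?_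
        rw [h5, Sym2.mem_iff] at h6
        rw [h5', Sym2.mem_iff]
        rintro (h7 | h7)
        · rcases h6 with h6 | h6
          · have := hZ.inj _ _ (by omega) (by omega) (h6.symm.trans h7)
            omega
          · have := hZ.inj _ _ (by omega) (by omega) (h6.symm.trans h7)
            omega
        · rcases h6 with h6 | h6
          · have := hZ.inj _ _ (by omega) (by omega) (h6.symm.trans h7)
            omega
          · have := hZ.inj _ _ (by omega) (by omega) (h6.symm.trans h7)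
            omega
      · left
        exact hS.innerK _ h4 v hv h6
    · by_contra hcon
      push Not at hcon
      have h7 := hS.inner v hv _ h4 _ h4' hcon.1 hcon.2
      exact hij (heven i j hi hj h7)
  · -- the edges of `D`
    intro e
    constructor
    · intro he
      obtain ⟨e', ⟨he', hee'⟩, -⟩ := hS.part e (Finset.mem_union_left _ he)
      by_cases hr : run e' = {e'}
      · rw [hr, Finset.mem_singleton] at hee'
        subst hee'
        rcases (hZ.cd e).1 (Finset.mem_inter.2 ⟨he, he'⟩) with ⟨i, hi, h⟩ | ⟨j, hj, h⟩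
        · refine Or.inl ⟨i, hi, ?_⟩
          rw [← h]
          exact hS.self e he'
        · exact Or.inr ⟨j, hj, h⟩
      · obtain ⟨i, hi, h⟩ := hall e' (Finset.mem_filter.2 ⟨he', hr⟩)
        refine Or.inl ⟨i, hi, ?_⟩
        rw [← h]
        exact hee'
    · rintro (⟨i, hi, h⟩ | ⟨j, hj, h⟩)
      · exact hrsub i hi h
      · exact (Finset.mem_inter.1 ((hZ.cd _).2 (Or.inr ⟨j, hj, h⟩))).1
  · rw [Finset.mem_filter] at ha0
    exact (hrun _ ha0.1 ha0.2).2
  · rw [Finset.mem_filter] at ha1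
    have h1 : 2 * (m - 1) = 2 * m - 2 := by omega
    have h2 := (hrun _ ha1.1 ha1.2).2
    rw [← h1] at h2
    exact h2

end Pool.GOZ
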