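import Pool.Agent.GOZ.StmtsS

/-!
One smoothing step (S1).
-/

set_option autoImplicit false
set_option linter.unusedSectionVars false

namespace Pool.GOZ

open Pool.GOD Pool.GOD.MGraph

namespace S1X

variable {V E : Type} [Fintype V] [DecidableEq V] [Fintype E] [DecidableEq E] {G : MGraph V E}

lemma ends_eq {e₁ : E} {x y : V} (hxy : x ≠ y) :
    (G.reEnd e₁ x y hxy).ends e₁ = s(x, y) := by
  simp [reEnd]

lemma ends_ne {e₁ f : E} {x y : V} (hxy : x ≠ y) (h : f ≠ e₁) :
    (G.reEnd e₁ x y hxy).ends f = G.ends f := by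
  simp [reEnd, h]

/-- the degree with one edge removed -/
lemma deg_erase {Y : Finset E} {f : E} (hf : f ∈ Y) (v : V) :
    G.deg Y v = (if v ∈ G.ends f then 1 else 0) + G.deg (Y.erase f) v := by
  unfold MGraph.deg
  rw [Finset.filter_erase]
  by_cases h : v ∈ G.ends f
  · rw [if_pos h, Finset.card_erase_of_mem (Finset.mem_filter.mpr ⟨hf, h⟩)]
    have : 0 < (Y.filter (fun e => v ∈ G.ends e)).card :=
      Finset.card_pos.mpr ⟨f, Finset.mem_filter.mpr ⟨hf, h⟩⟩
    omega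
  · rw [if_neg h, Finset.erase_eq_of_notMem, zero_add]
    intro h'
    exact h (Finset.mem_filter.mp h').2

lemma deg_reEnd {Y : Finset E} {e₁ : E} {x y : V} (hxy : x ≠ y) (h : e₁ ∉ Y) (v : V) :
    (G.reEnd e₁ x y hxy).deg Y v = G.deg Y v := by
  unfold MGraph.deg
  congr 1
  apply Finset.filter_congr
  intro f hf
  have hfe : f ≠ e₁ := by
    rintro rfl
    exact h hf
  rw [ends_ne hxy hfe]

/-- degrees after the smoothing step -/
lemma deg_step {Y : Finset E} {u u' x y : V} {p e₁ e₂ : E} (hp : p ∈ Y) (h1 : e₁ ∈ Y)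
    (h2 : e₂ ∈ Y) (hpu : G.ends p = s(u, u')) (he1 : G.ends e₁ = s(x, u))
    (he2 : G.ends e₂ = s(u', y)) (hp1 : p ≠ e₁) (hp2 : p ≠ e₂) (h12 : e₁ ≠ e₂)
    (hxu : x ≠ u') (hyu : y ≠ u) (hxy : x ≠ y) :
    (∀ v, v ≠ u → v ≠ u' → (G.reEnd e₁ x y hxy).deg (Y \ {p, e₂}) v = G.deg Y v) ∧
      (G.deg Y u = 2 → (G.reEnd e₁ x y hxy).deg (Y \ {p, e₂}) u = 0) ∧
      (G.deg Y u' = 2 → (G.reEnd e₁ x y hxy).deg (Y \ {p, e₂}) u' = 0) := by
  have huu : u ≠ u' := G.ne_of_ends hpu
  have hxu' : x ≠ u := G.ne_of_ends he1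
  have huy : u' ≠ y := G.ne_of_ends he2
  set W : Finset E := ((Y.erase p).erase e₂).erase e₁ with hW
  have hWe : e₁ ∉ W := Finset.notMem_erase _ _
  have e0 : Y \ {p, e₂} = (Y.erase p).erase e₂ := by
    ext f
    simp only [Finset.mem_sdiff, Finset.mem_insert, Finset.mem_singleton, Finset.mem_erase]
    tauto
  have m1 : e₁ ∈ (Y.erase p).erase e₂ :=
    Finset.mem_erase.mpr ⟨h12, Finset.mem_erase.mpr ⟨hp1.symm, h1⟩⟩
  have m2 : e₂ ∈ Y.erase p := Finset.mem_erase.mpr ⟨hp2.symm, h2⟩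
  have hG' : ∀ v, (G.reEnd e₁ x y hxy).deg (Y \ {p, e₂}) v =
      (if v = x ∨ v = y then 1 else 0) + G.deg W v := by
    intro v
    rw [e0, deg_erase m1, ends_eq hxy, deg_reEnd hxy hWe]
    simp only [Sym2.mem_iff]
  have hG : ∀ v, G.deg Y v = (if v = u ∨ v = u' then 1 else 0) +
      ((if v = u' ∨ v = y then 1 else 0) + ((if v = x ∨ v = u then 1 else 0) + G.deg W v)) := by
    intro v
    rw [deg_erase hp, deg_erase m2, deg_erase m1, hpu, he1, he2]
    simp only [Sym2.mem_iff]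
    rfl
  refine ⟨?_, ?_, ?_⟩
  · intro v hv hv'
    rw [hG', hG]
    by_cases hvx : v = x
    · subst hvx
      simp [hv, hv', hxy]
    · by_cases hvy : v = y
      · subst hvy
        simp [hv, hv', hvx]
      · simp [hv, hv', hvx, hvy]
  · intro h
    rw [hG] at h
    rw [hG']
    simp only [huu, hyu.symm, hxu'.symm, or_self, or_false, if_true, if_false, or_true] at h ⊢
    omega
  · intro h
    rw [hG] at h
    rw [hG']
    simp only [huu.symm, hxu.symm, huy, or_self, or_false, if_true, if_false, or_true] at h ⊢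
    omega

lemma mem_of_two {Y : Finset E} {v : V} {a b f : E} (h : G.deg Y v = 2) (ha : a ∈ Y)
    (hb : b ∈ Y) (hab : a ≠ b) (ha' : v ∈ G.ends a) (hb' : v ∈ G.ends b) (hf : f ∈ Y)
    (hf' : v ∈ G.ends f) : f = a ∨ f = b := by
  have h1 : ({a, b} : Finset E) ⊆ Y.filter (fun e => v ∈ G.ends e) := by
    intro g hg
    rw [Finset.mem_insert, Finset.mem_singleton] at hg
    rcases hg with rfl | rfl
    · exact Finset.mem_filter.mpr ⟨ha, ha'⟩
    · exact Finset.mem_filter.mpr ⟨hb, hb'⟩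
  have h2 : ({a, b} : Finset E) = Y.filter (fun e => v ∈ G.ends e) := by
    apply Finset.eq_of_subset_of_card_le h1
    rw [Finset.card_pair hab]
    exact h.le
  have h3 : f ∈ ({a, b} : Finset E) := by
    rw [h2]
    exact Finset.mem_filter.mpr ⟨hf, hf'⟩
  rw [Finset.mem_insert, Finset.mem_singleton] at h3
  exact h3

lemma two_le {Y : Finset E} {v : V} {a b : E} (ha : a ∈ Y)
    (hb : b ∈ Y) (hab : a ≠ b) (ha' : v ∈ G.ends a) (hb' : v ∈ G.ends b) : 2 ≤ G.deg Y v := by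
  have h1 : ({a, b} : Finset E) ⊆ Y.filter (fun e => v ∈ G.ends e) := by
    intro g hg
    rw [Finset.mem_insert, Finset.mem_singleton] at hg
    rcases hg with rfl | rfl
    · exact Finset.mem_filter.mpr ⟨ha, ha'⟩
    · exact Finset.mem_filter.mpr ⟨hb, hb'⟩
  have h2 := Finset.card_le_card h1
  rw [Finset.card_pair hab] at h2
  exact h2

end S1X

open S1X in
theorem t_S1 : S_S1 := by
  intro V E _ _ _ _ G X M D u u' x y p e₁ e₂ hDX hAC hpM hpD hpu hXu hXu' h1D h2D h1M h2M he1 he2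
    hxu hyu
  have huu : u ≠ u' := G.ne_of_ends hpu
  have hxu' : x ≠ u := G.ne_of_ends he1
  have huy : u' ≠ y := G.ne_of_ends he2
  have hp1 : p ≠ e₁ := fun h => h1M (h ▸ hpM)
  have hp2 : p ≠ e₂ := fun h => h2M (h ▸ hpM)
  have h12 : e₁ ≠ e₂ := by
    rintro rfl
    rw [he1, Sym2.eq_iff] at he2
    rcases he2 with ⟨h, -⟩ | ⟨-, h⟩
    · exact hxu h
    · exact huu h
  have hxy : x ≠ y := by
    rintro rfl
    have hx1 : x ∈ G.ends e₁ := by rw [he1]; exact Sym2.mem_mk_left _ _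
    have hx2 : x ∈ G.ends e₂ := by rw [he2]; exact Sym2.mem_mk_right _ _
    have h2 := two_le h1D h2D h12 hx1 hx2
    have h3 : G.deg D x = 2 := by
      rcases hAC.circ.2.1 x with h | h
      · omega
      · exact h
    have h4 := hAC.alt x h3
    have h5 : 0 < G.deg (D ∩ M) x := by omega
    obtain ⟨f, hf, hfx⟩ := G.deg_pos_iff.mp h5
    rw [Finset.mem_inter] at hf
    rcases mem_of_two h3 h1D h2D h12 hx1 hx2 hf.1 hfx with rfl | rfl
    · exact h1M hf.2
    · exact h2M hf.2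
  have hup : u ∈ G.ends p := by rw [hpu]; exact Sym2.mem_mk_left _ _
  have hup' : u' ∈ G.ends p := by rw [hpu]; exact Sym2.mem_mk_right _ _
  have hu1 : u ∈ G.ends e₁ := by rw [he1]; exact Sym2.mem_mk_right _ _
  have hu2 : u' ∈ G.ends e₂ := by rw [he2]; exact Sym2.mem_mk_left _ _
  have hDu : G.deg D u = 2 := by
    have := two_le hpD h1D hp1 hup hu1
    rcases hAC.circ.2.1 u with h | h
    · omega
    · exact h
  have hDu' : G.deg D u' = 2 := by
    have := two_le hpD h2D hp2 hup' hu2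
    rcases hAC.circ.2.1 u' with h | h
    · omega
    · exact h
  have hX := deg_step (hDX hpD) (hDX h1D) (hDX h2D) hpu he1 he2 hp1 hp2 h12 hxu hyu hxy
  have hD := deg_step hpD h1D h2D hpu he1 he2 hp1 hp2 h12 hxu hyu hxy
  refine ⟨hxy, h12, hX.1, hX.2.1 hXu, hX.2.2 hXu', ?_⟩
  have hD0 := hD.2.1 hDu
  have hD0' := hD.2.2 hDu'
  -- vertices of the new circuit
  have hv : ∀ v, (G.reEnd e₁ x y hxy).deg (D \ {p, e₂}) v = 2 →
      v ≠ u ∧ v ≠ u' ∧ G.deg D v = 2 := by
    intro v h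
    have h1 : v ≠ u := by
      rintro rfl
      omega
    have h2 : v ≠ u' := by
      rintro rfl
      omega
    refine ⟨h1, h2, ?_⟩
    rw [← hD.1 v h1 h2]
    exact h
  have he1D : e₁ ∈ D \ {p, e₂} := by
    rw [Finset.mem_sdiff, Finset.mem_insert, Finset.mem_singleton]
    exact ⟨h1D, fun h => h.elim hp1.symm h12⟩
  -- connectivity
  let π : V → V := fun v => if v = u ∨ v = u' then x else v
  have πu : π u = x := by simp [π]
  have πu' : π u' = x := by simp [π]
  have πne : ∀ v, v ≠ u → v ≠ u' → π v = v := by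
    intro v h h'
    simp [π, h, h']
  have step : ∀ f ∈ D, ∀ c d, G.ends f = s(c, d) →
      (G.reEnd e₁ x y hxy).ConnIn (D \ {p, e₂}) (π c) (π d) := by
    intro f hf c d hfe
    by_cases hfp : f = p
    · subst hfp
      rw [hpu, Sym2.eq_iff] at hfe
      rcases hfe with ⟨rfl, rfl⟩ | ⟨rfl, rfl⟩
      · rw [πu, πu']
        exact ConnIn.refl _ _
      · rw [πu, πu']
        exact ConnIn.refl _ _
    by_cases hf1 : f = e₁
    · subst hf1
      rw [he1, Sym2.eq_iff] at hfe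
      rcases hfe with ⟨rfl, rfl⟩ | ⟨rfl, rfl⟩
      · rw [πu, πne _ hxu' hxu]
        exact ConnIn.refl _ _
      · rw [πu, πne _ hxu' hxu]
        exact ConnIn.refl _ _
    by_cases hf2 : f = e₂
    · subst hf2
      have hc : (G.reEnd e₁ x y hxy).ConnIn (D \ {p, f}) x y :=
        ConnIn.single he1D (ends_eq hxy)
      rw [he2, Sym2.eq_iff] at hfe
      rcases hfe with ⟨rfl, rfl⟩ | ⟨rfl, rfl⟩
      · rw [πu', πne _ hyu huy.symm]
        exact hc
      · rw [πu', πne _ hyu huy.symm]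
        exact hc.symm
    have hfD : f ∈ D \ {p, e₂} := by
      rw [Finset.mem_sdiff, Finset.mem_insert, Finset.mem_singleton]
      exact ⟨hf, fun h => h.elim hfp hf2⟩
    have hno : ∀ v, v ∈ G.ends f → v ≠ u ∧ v ≠ u' := by
      intro v hvf
      constructor
      · rintro rfl
        rcases mem_of_two hDu hpD h1D hp1 hup hu1 hf hvf with h | h
        · exact hfp h
        · exact hf1 h
      · rintro rfl
        rcases mem_of_two hDu' hpD h2D hp2 hup' hu2 hf hvf with h | h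
        · exact hfp h
        · exact hf2 h
    have hc := hno c (by rw [hfe]; exact Sym2.mem_mk_left _ _)
    have hd := hno d (by rw [hfe]; exact Sym2.mem_mk_right _ _)
    rw [πne c hc.1 hc.2, πne d hd.1 hd.2]
    exact ConnIn.single hfD (by rw [ends_ne hxy hf1]; exact hfe)
  have conn : ∀ a b, G.ConnIn D a b →
      (G.reEnd e₁ x y hxy).ConnIn (D \ {p, e₂}) (π a) (π b) := by
    intro a b h
    induction h with
    | refl => exact ConnIn.refl _ _
    | tail _ h2 ih =>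
      obtain ⟨f, hf, hfe⟩ := h2
      exact ih.trans (step f hf _ _ hfe)
  refine ⟨⟨⟨e₁, he1D⟩, ?_, ?_⟩, ?_⟩
  · intro v
    by_cases h1 : v = u
    · subst h1
      exact Or.inl hD0
    by_cases h2 : v = u'
    · subst h2
      exact Or.inl hD0'
    rw [hD.1 v h1 h2]
    exact hAC.circ.2.1 v
  · intro a b ha hb
    obtain ⟨ha1, ha2, ha3⟩ := hv a ha
    obtain ⟨hb1, hb2, hb3⟩ := hv b hb
    have h := conn a b (hAC.circ.2.2 a b ha3 hb3)
    rwa [πne a ha1 ha2, πne b hb1 hb2] at h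
  · intro v h
    obtain ⟨hv1, hv2, hv3⟩ := hv v h
    rw [← hAC.alt v hv3]
    unfold MGraph.deg
    congr 1
    ext f
    simp only [Finset.mem_filter, Finset.mem_inter, Finset.mem_sdiff, Finset.mem_insert,
      Finset.mem_singleton]
    constructor
    · rintro ⟨⟨⟨hfD, _⟩, hfM, _⟩, hfv⟩
      have hf1 : f ≠ e₁ := by
        rintro rfl
        exact h1M hfM
      rw [ends_ne hxy hf1] at hfv
      exact ⟨⟨hfD, hfM⟩, hfv⟩
    · rintro ⟨⟨hfD, hfM⟩, hfv⟩
      have hfp : f ≠ p := by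
        rintro rfl
        rw [hpu, Sym2.mem_iff] at hfv
        exact hfv.elim hv1 hv2
      have hf2 : f ≠ e₂ := by
        rintro rfl
        exact h2M hfM
      have hf1 : f ≠ e₁ := by
        rintro rfl
        exact h1M hfM
      rw [ends_ne hxy hf1]
      exact ⟨⟨⟨hfD, fun h' => h'.elim hfp hf2⟩, hfM, hfp⟩, hfv⟩

end Pool.GOZ
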