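import Pool.Agent.GOZ.StmtsS

/-!
Theorem Z, part S: the suppression theorem S2, by iteration of the smoothing step S1.
-/

set_option autoImplicit false
set_option linter.unusedSectionVars false

namespace Pool.GOZ

open Pool.GOD Pool.GOD.MGraph

namespace S2X

section

variable {V E : Type} [Fintype V] [DecidableEq V] [Fintype E] [DecidableEq E]

lemma deg_insert (G : MGraph V E) {R : Finset E} {e : E} (he : e ∉ R) (v : V) :
    G.deg (insert e R) v = G.deg R v + (if v ∈ G.ends e then 1 else 0) := by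
  unfold MGraph.deg
  rw [Finset.filter_insert]
  by_cases h : v ∈ G.ends e
  · rw [if_pos h, if_pos h, Finset.card_insert_of_notMem]
    exact fun h' => he (Finset.mem_filter.mp h').1
  · rw [if_neg h, if_neg h, add_zero]

lemma deg_single (G : MGraph V E) (e : E) (v : V) :
    G.deg {e} v = if v ∈ G.ends e then 1 else 0 := by
  have h := deg_insert G (R := ∅) (e := e) (Finset.notMem_empty e) v
  rw [insert_empty_eq] at h
  rw [h]
  simp [MGraph.deg]

lemma deg_congr {G G₁ : MGraph V E} {R : Finset E} (h : ∀ e ∈ R, G₁.ends e = G.ends e) (v : V) :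
    G₁.deg R v = G.deg R v := by
  unfold MGraph.deg
  congr 1
  refine Finset.filter_congr fun e he => ?_
  rw [h e he]

lemma conn_congr {G G₁ : MGraph V E} {R : Finset E} (h : ∀ e ∈ R, G₁.ends e = G.ends e) {a b : V}
    (hc : G₁.ConnIn R a b) : G.ConnIn R a b := by
  induction hc with
  | refl => exact ConnIn.refl R a
  | tail _ h2 ih =>
    obtain ⟨e, he, h3⟩ := h2
    exact ih.trans (ConnIn.single he (by rw [← h e he, h3]))

/-- the path with one edge -/
lemma pathS_single (G : MGraph V E) {e : E} {x y : V} (h : G.ends e = s(x, y)) :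
    G.PathS {e} x y := by
  have hne := G.ne_of_ends h
  refine ⟨hne, ?_, ?_, fun v hx hy => ?_, fun v hv => ?_⟩
  · rw [deg_single, h, if_pos (Sym2.mem_mk_left x y)]
  · rw [deg_single, h, if_pos (Sym2.mem_mk_right x y)]
  · left
    rw [deg_single, h, if_neg]
    rw [Sym2.mem_iff]
    tauto
  · rw [deg_single, h] at hv
    have h1 : v ∈ s(x, y) := by
      by_contra h2
      rw [if_neg h2] at hv
      exact hv rfl
    rcases Sym2.mem_iff.mp h1 with rfl | rfl
    · exact ConnIn.refl _ _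
    · exact ConnIn.single (Finset.mem_singleton_self e) h

/-- the data of one smoothing step: `G₁` is `G` with `e₁ = x u` re-ended to `x, y`;
`p = u u'`, `e₂ = u' y` -/
structure Stp (G G₁ : MGraph V E) (u u' x y : V) (p e₁ e₂ : E) : Prop where
  o : ∀ f, f ≠ e₁ → G₁.ends f = G.ends f
  n : G₁.ends e₁ = s(x, y)
  h1 : G.ends e₁ = s(x, u)
  hp : G.ends p = s(u, u')
  h2 : G.ends e₂ = s(u', y)
  p1 : p ≠ e₁
  p2 : p ≠ e₂
  e12 : e₁ ≠ e₂
  xu' : x ≠ u'
  yu : y ≠ u

/-- the thread which replaces `R` -/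
def ex (p e₁ e₂ : E) (R : Finset E) : Finset E := if e₁ ∈ R then insert p (insert e₂ R) else R

lemma ex_pos {p e₁ e₂ : E} {R : Finset E} (h : e₁ ∈ R) :
    ex p e₁ e₂ R = insert p (insert e₂ R) := if_pos h

lemma ex_neg {p e₁ e₂ : E} {R : Finset E} (h : e₁ ∉ R) : ex p e₁ e₂ R = R := if_neg h

lemma sub_ex (p e₁ e₂ : E) (R : Finset E) : R ⊆ ex p e₁ e₂ R := by
  by_cases h : e₁ ∈ R
  · rw [ex_pos h]
    exact fun f hf => Finset.mem_insert_of_mem (Finset.mem_insert_of_mem hf)
  · rw [ex_neg h]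

variable {G G₁ : MGraph V E} {u u' x y : V} {p e₁ e₂ : E}

lemma Stp.deg_pos (hS : Stp G G₁ u u' x y p e₁ e₂) {R : Finset E} (hpR : p ∉ R) (he₂ : e₂ ∉ R)
    (h : e₁ ∈ R) (v : V) :
    G.deg (ex p e₁ e₂ R) v = G₁.deg (R.erase e₁) v + (if v ∈ s(x, u) then 1 else 0) +
      (if v ∈ s(u', y) then 1 else 0) + (if v ∈ s(u, u') then 1 else 0) ∧
    G₁.deg R v = G₁.deg (R.erase e₁) v + (if v ∈ s(x, y) then 1 else 0) := by
  have hR : insert e₁ (R.erase e₁) = R := Finset.insert_erase h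
  have h1 : G₁.deg R v = G₁.deg (R.erase e₁) v + (if v ∈ s(x, y) then 1 else 0) := by
    conv_lhs => rw [← hR]
    rw [deg_insert G₁ (Finset.notMem_erase e₁ R), hS.n]
  refine ⟨?_, h1⟩
  rw [ex_pos h, deg_insert G (by
    rw [Finset.mem_insert]
    exact fun h' => h'.elim hS.p2 hpR), deg_insert G he₂, hS.hp, hS.h2]
  have h2 : G.deg R v = G₁.deg (R.erase e₁) v + (if v ∈ s(x, u) then 1 else 0) := by
    conv_lhs => rw [← hR]
    rw [deg_insert G (Finset.notMem_erase e₁ R), hS.h1,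
      deg_congr (G := G) (G₁ := G₁) (fun f hf => hS.o f (Finset.ne_of_mem_erase hf))]
  rw [h2]

lemma Stp.deg_neg (hS : Stp G G₁ u u' x y p e₁ e₂) {R : Finset E} (h : e₁ ∉ R) (v : V) :
    G₁.deg R v = G.deg R v :=
  deg_congr (fun f hf => hS.o f (fun h' => h (h' ▸ hf))) v

/-- degrees outside `u, u'` do not change -/
lemma Stp.deg_ex (hS : Stp G G₁ u u' x y p e₁ e₂) {R : Finset E} (hpR : p ∉ R) (he₂ : e₂ ∉ R)
    {v : V} (hu : v ≠ u) (hu' : v ≠ u') : G.deg (ex p e₁ e₂ R) v = G₁.deg R v := by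
  by_cases h : e₁ ∈ R
  · obtain ⟨h1, h2⟩ := hS.deg_pos hpR he₂ h v
    have hxy : x ≠ y := G₁.ne_of_ends hS.n
    rw [h1, h2, if_neg (c := v ∈ s(u, u')) (by rw [Sym2.mem_iff]; tauto)]
    by_cases hx : v = x
    · rw [if_pos (by rw [hx]; exact Sym2.mem_mk_left _ _), if_neg (by
        rw [Sym2.mem_iff]
        rintro (h' | h')
        · exact hu' h'
        · exact hxy (hx.symm.trans h')), if_pos (by rw [hx]; exact Sym2.mem_mk_left _ _)]
    · by_cases hy : v = y
      · rw [if_neg (by rw [Sym2.mem_iff]; tauto),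
          if_pos (by rw [hy]; exact Sym2.mem_mk_right _ _),
          if_pos (by rw [hy]; exact Sym2.mem_mk_right _ _)]
      · rw [if_neg (by rw [Sym2.mem_iff]; tauto), if_neg (by rw [Sym2.mem_iff]; tauto),
          if_neg (by rw [Sym2.mem_iff]; tauto)]
  · rw [ex_neg h, hS.deg_neg h]

/-- the degree at `u` -/
lemma Stp.deg_u (hS : Stp G G₁ u u' x y p e₁ e₂) {R : Finset E} (hpR : p ∉ R) (he₂ : e₂ ∉ R)
    (h : e₁ ∈ R) (h0 : G₁.deg R u = 0) : G.deg (ex p e₁ e₂ R) u = 2 := by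
  obtain ⟨h1, h2⟩ := hS.deg_pos hpR he₂ h u
  have huu' := G.ne_of_ends hS.hp
  rw [h1, if_pos (Sym2.mem_mk_right _ _), if_pos (c := u ∈ s(u, u')) (Sym2.mem_mk_left _ _),
    if_neg (by
      rw [Sym2.mem_iff]
      rintro (h' | h')
      · exact huu' h'
      · exact hS.yu h'.symm)]
  omega

/-- the degree at `u'` -/
lemma Stp.deg_u' (hS : Stp G G₁ u u' x y p e₁ e₂) {R : Finset E} (hpR : p ∉ R) (he₂ : e₂ ∉ R)
    (h : e₁ ∈ R) (h0 : G₁.deg R u' = 0) : G.deg (ex p e₁ e₂ R) u' = 2 := by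
  obtain ⟨h1, h2⟩ := hS.deg_pos hpR he₂ h u'
  have huu' := G.ne_of_ends hS.hp
  rw [h1, if_pos (c := u' ∈ s(u', y)) (Sym2.mem_mk_left _ _),
    if_pos (c := u' ∈ s(u, u')) (Sym2.mem_mk_right _ _),
    if_neg (by
      rw [Sym2.mem_iff]
      rintro (h' | h')
      · exact hS.xu' h'.symm
      · exact huu' h'.symm)]
  omega

/-- degrees in `M` -/
lemma Stp.deg_M (hS : Stp G G₁ u u' x y p e₁ e₂) {R M : Finset E} (hpR : p ∉ R)
    (hpM : p ∈ M) (h1M : e₁ ∉ M) (h2M : e₂ ∉ M) (v : V) :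
    G.deg (ex p e₁ e₂ R ∩ M) v = G₁.deg (R ∩ (M \ {p})) v +
      (if e₁ ∈ R ∧ v ∈ s(u, u') then 1 else 0) := by
  have h0 : R ∩ M = R ∩ (M \ {p}) := by
    ext f
    simp only [Finset.mem_inter, Finset.mem_sdiff, Finset.mem_singleton]
    constructor
    · rintro ⟨h3, h4⟩
      exact ⟨h3, h4, fun h5 => hpR (h5 ▸ h3)⟩
    · rintro ⟨h3, h4, -⟩
      exact ⟨h3, h4⟩
  have h1 : e₁ ∉ R ∩ (M \ {p}) := fun h' =>
    h1M (Finset.mem_sdiff.mp (Finset.mem_inter.mp h').2).1
  rw [hS.deg_neg h1]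
  by_cases h : e₁ ∈ R
  · have h3 : ex p e₁ e₂ R ∩ M = insert p (R ∩ (M \ {p})) := by
      rw [ex_pos h, Finset.insert_inter_of_mem hpM, Finset.insert_inter_of_notMem h2M, h0]
    rw [h3, deg_insert G (fun h' => hpR (Finset.mem_inter.mp h').1), hS.hp]
    simp [h]
  · rw [ex_neg h, h0, if_neg (fun h' => h h'.1), add_zero]

lemma Stp.conn_ex (hS : Stp G G₁ u u' x y p e₁ e₂) {R : Finset E} (h : e₁ ∈ R) {a b : V}
    (hc : G₁.ConnIn R a b) : G.ConnIn (ex p e₁ e₂ R) a b := by
  have hm : ∀ f ∈ R, f ∈ ex p e₁ e₂ R := fun f hf => sub_ex p e₁ e₂ R hf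
  have hpm : p ∈ ex p e₁ e₂ R := by rw [ex_pos h]; exact Finset.mem_insert_self _ _
  have h2m : e₂ ∈ ex p e₁ e₂ R := by
    rw [ex_pos h]
    exact Finset.mem_insert_of_mem (Finset.mem_insert_self _ _)
  have hxy : G.ConnIn (ex p e₁ e₂ R) x y :=
    ((ConnIn.single (hm e₁ h) hS.h1).trans (ConnIn.single hpm hS.hp)).trans
      (ConnIn.single h2m hS.h2)
  induction hc with
  | refl => exact ConnIn.refl _ a
  | tail _ h2 ih =>
    obtain ⟨f, hf, h3⟩ := h2
    by_cases hfe : f = e₁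
    · rw [hfe, hS.n] at h3
      rcases Sym2.eq_iff.mp h3 with ⟨rfl, rfl⟩ | ⟨rfl, rfl⟩
      · exact ih.trans hxy
      · exact ih.trans hxy.symm
    · exact ih.trans (ConnIn.single (hm f hf) (by rw [← hS.o f hfe, h3]))

lemma Stp.path (hS : Stp G G₁ u u' x y p e₁ e₂) {R : Finset E} (hpR : p ∉ R) (he₂ : e₂ ∉ R)
    (hu : G₁.deg R u = 0) (hu' : G₁.deg R u' = 0) {a b : V} (hP : G₁.PathS R a b) :
    G.PathS (ex p e₁ e₂ R) a b := by
  by_cases h : e₁ ∈ R
  · have hau : a ≠ u := fun h' => by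
      have := hP.dx
      rw [h', hu] at this
      omega
    have hau' : a ≠ u' := fun h' => by
      have := hP.dx
      rw [h', hu'] at this
      omega
    have hbu : b ≠ u := fun h' => by
      have := hP.dy
      rw [h', hu] at this
      omega
    have hbu' : b ≠ u' := fun h' => by
      have := hP.dy
      rw [h', hu'] at this
      omega
    have hx0 : G₁.deg R x ≠ 0 := by
      have := (hS.deg_pos hpR he₂ h x).2
      rw [if_pos (Sym2.mem_mk_left _ _)] at this
      omega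
    have hy0 : G₁.deg R y ≠ 0 := by
      have := (hS.deg_pos hpR he₂ h y).2
      rw [if_pos (Sym2.mem_mk_right _ _)] at this
      omega
    refine ⟨hP.ne, ?_, ?_, fun v hva hvb => ?_, fun v hv => ?_⟩
    · rw [hS.deg_ex hpR he₂ hau hau', hP.dx]
    · rw [hS.deg_ex hpR he₂ hbu hbu', hP.dy]
    · by_cases h1 : v = u
      · right
        rw [h1]
        exact hS.deg_u hpR he₂ h hu
      · by_cases h2 : v = u'
        · right
          rw [h2]
          exact hS.deg_u' hpR he₂ h hu'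
        · rw [hS.deg_ex hpR he₂ h1 h2]
          exact hP.deg v hva hvb
    · by_cases h1 : v = u
      · rw [h1]
        exact (hS.conn_ex h (hP.conn x hx0)).trans
          (ConnIn.single (sub_ex p e₁ e₂ R h) hS.h1)
      · by_cases h2 : v = u'
        · rw [h2]
          refine (hS.conn_ex h (hP.conn y hy0)).trans (ConnIn.single (e := e₂) ?_ hS.h2).symm
          rw [ex_pos h]
          exact Finset.mem_insert_of_mem (Finset.mem_insert_self _ _)
        · rw [hS.deg_ex hpR he₂ h1 h2] at hv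
          exact hS.conn_ex h (hP.conn v hv)
  · rw [ex_neg h]
    have hd : ∀ v, G₁.deg R v = G.deg R v := fun v => hS.deg_neg h v
    refine ⟨hP.ne, by rw [← hd, hP.dx], by rw [← hd, hP.dy], fun v hva hvb => ?_,
      fun v hv => ?_⟩
    · rw [← hd]
      exact hP.deg v hva hvb
    · rw [← hd] at hv
      exact conn_congr (fun f hf => hS.o f (fun h' => h (h' ▸ hf))) (hP.conn v hv)

/-- nothing to suppress -/
lemma base (G : MGraph V E) (X M D : Finset E) (K : Finset V)
    (h : ∀ v, v ∉ K → G.deg X v = 0) :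
    ∃ (G' : MGraph V E) (X' : Finset E) (run : E → Finset E),
      G.Sup G' X X' K run ∧ G.SupM G' M X' K run ∧
      (∀ e ∈ X', run e ≠ {e} → run e ⊆ D ∧ ∃ v, v ∉ K ∧ G.deg (run e) v = 2) := by
  have hK : ∀ e ∈ X, ∀ v ∈ G.ends e, v ∈ K := by
    intro e he v hv
    by_contra hvK
    have h1 : 0 < G.deg X v := G.deg_pos_iff.mpr ⟨e, he, hv⟩
    have h2 := h v hvK
    omega
  have hone : ∀ e v, G.deg {e} v ≠ 0 → v ∈ G.ends e := by
    intro e v hv
    rw [deg_single] at hv
    by_contra h1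
    rw [if_neg h1] at hv
    exact hv rfl
  refine ⟨G, X, fun e => {e}, ⟨Finset.Subset.refl X, hK, fun e _ => Finset.mem_singleton_self e,
    fun e he => Finset.singleton_subset_iff.mpr he, fun f hf => ?_, fun e _ x y hxy =>
      pathS_single G hxy, fun e _ v _ hv => ?_, fun v hv e he e' _ h1 _ => ?_⟩,
    ⟨fun e _ _ => ⟨rfl, rfl⟩, fun e _ heM v _ => ?_, fun e he _ v hv h2 => ?_,
      fun e _ _ h1 => absurd rfl h1, fun e _ _ => rfl⟩, fun e _ h1 => absurd rfl h1⟩
  · refine ⟨f, ⟨hf, Finset.mem_singleton_self f⟩, fun e he => ?_⟩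
    exact (Finset.mem_singleton.mp he.2).symm
  · rw [deg_single, if_neg hv]
  · exact absurd (hK e he v (hone e v h1)) hv
  · have h1 : ({e} : Finset E) ∩ M = ∅ := Finset.singleton_inter_of_notMem heM
    change G.deg ({e} ∩ M) v = 0
    rw [h1]
    simp [MGraph.deg]
  · have h2' : G.deg {e} v = 2 := h2
    exact absurd (hK e he v (hone e v (by omega))) hv

/-- composition of a smoothing step and a suppression -/
lemma step (hS : Stp G G₁ u u' x y p e₁ e₂) {X M D : Finset E} {K : Finset V}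
    (hDX : D ⊆ X) (hpD : p ∈ D) (hpM : p ∈ M) (h1D : e₁ ∈ D) (h2D : e₂ ∈ D) (h1M : e₁ ∉ M)
    (h2M : e₂ ∉ M) (huK : u ∉ K) (huK' : u' ∉ K)
    (hu : G₁.deg (X \ {p, e₂}) u = 0) (hu' : G₁.deg (X \ {p, e₂}) u' = 0)
    {G' : MGraph V E} {X' : Finset E} {run : E → Finset E}
    (hs : G₁.Sup G' (X \ {p, e₂}) X' K run) (hm : G₁.SupM G' (M \ {p}) X' K run)
    (h3 : ∀ e ∈ X', run e ≠ {e} →
      run e ⊆ D \ {p, e₂} ∧ ∃ v, v ∉ K ∧ G₁.deg (run e) v = 2) :
    G.Sup G' X X' K (fun e => ex p e₁ e₂ (run e)) ∧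
      G.SupM G' M X' K (fun e => ex p e₁ e₂ (run e)) ∧
      (∀ e ∈ X', ex p e₁ e₂ (run e) ≠ {e} →
        ex p e₁ e₂ (run e) ⊆ D ∧ ∃ v, v ∉ K ∧ G.deg (ex p e₁ e₂ (run e)) v = 2) := by
  have hX₁ : ∀ f ∈ X \ {p, e₂}, f ∈ X ∧ f ≠ p ∧ f ≠ e₂ := by
    intro f hf
    rw [Finset.mem_sdiff, Finset.mem_insert, Finset.mem_singleton] at hf
    tauto
  have hpR : ∀ e ∈ X', p ∉ run e := fun e he h => (hX₁ p (hs.runsub e he h)).2.1 rfl
  have h2R : ∀ e ∈ X', e₂ ∉ run e := fun e he h => (hX₁ e₂ (hs.runsub e he h)).2.2 rfl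
  have hRu : ∀ e ∈ X', G₁.deg (run e) u = 0 := by
    intro e he
    have := G₁.deg_mono (hs.runsub e he) u
    omega
  have hRu' : ∀ e ∈ X', G₁.deg (run e) u' = 0 := by
    intro e he
    have := G₁.deg_mono (hs.runsub e he) u'
    omega
  have he₁X : e₁ ∈ X \ {p, e₂} := by
    rw [Finset.mem_sdiff, Finset.mem_insert, Finset.mem_singleton]
    exact ⟨hDX h1D, fun h => h.elim (fun h => hS.p1 h.symm) hS.e12⟩
  have huniq : ∀ e ∈ X', ∀ e' ∈ X', e₁ ∈ run e → e₁ ∈ run e' → e = e' := by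
    intro e he e' he' h h'
    exact (hs.part e₁ he₁X).unique ⟨he, h⟩ ⟨he', h'⟩
  -- a vertex `u` or `u'` is only on the thread with `e₁`
  have hmem : ∀ e ∈ X', ∀ v, (v = u ∨ v = u') → G.deg (ex p e₁ e₂ (run e)) v ≠ 0 →
      e₁ ∈ run e := by
    intro e he v hv h
    by_contra h1
    rw [ex_neg h1, ← hS.deg_neg h1] at h
    rcases hv with rfl | rfl
    · exact h (hRu e he)
    · exact h (hRu' e he)
  refine ⟨⟨?_, hs.kept, ?_, ?_, ?_, ?_, ?_, ?_⟩, ⟨?_, ?_, ?_, ?_, ?_⟩, ?_⟩
  · exact fun f hf => (hX₁ f (hs.sub hf)).1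
  · exact fun e he => sub_ex p e₁ e₂ _ (hs.self e he)
  · intro e he f hf
    change f ∈ ex p e₁ e₂ (run e) at hf
    by_cases h1 : e₁ ∈ run e
    · rw [ex_pos h1, Finset.mem_insert, Finset.mem_insert] at hf
      rcases hf with rfl | rfl | hf
      · exact hDX hpD
      · exact hDX h2D
      · exact (hX₁ f (hs.runsub e he hf)).1
    · rw [ex_neg h1] at hf
      exact (hX₁ f (hs.runsub e he hf)).1
  · intro f hf
    by_cases hfp : f = p ∨ f = e₂
    · obtain ⟨e, he, hun⟩ := hs.part e₁ he₁X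
      refine ⟨e, ⟨he.1, ?_⟩, fun e' he' => hun e' ⟨he'.1, ?_⟩⟩
      · change f ∈ ex p e₁ e₂ (run e)
        rw [ex_pos he.2, Finset.mem_insert, Finset.mem_insert]
        tauto
      · by_contra h1
        have h2 : f ∈ ex p e₁ e₂ (run e') := he'.2
        rw [ex_neg h1] at h2
        have h4 := hX₁ f (hs.runsub e' he'.1 h2)
        rcases hfp with h | h
        · exact h4.2.1 h
        · exact h4.2.2 h
    · have hf₁ : f ∈ X \ {p, e₂} := by
        rw [Finset.mem_sdiff, Finset.mem_insert, Finset.mem_singleton]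
        exact ⟨hf, hfp⟩
      obtain ⟨e, he, hun⟩ := hs.part f hf₁
      refine ⟨e, ⟨he.1, sub_ex p e₁ e₂ _ he.2⟩, fun e' he' => hun e' ⟨he'.1, ?_⟩⟩
      have h2 : f ∈ ex p e₁ e₂ (run e') := he'.2
      by_cases h1 : e₁ ∈ run e'
      · rw [ex_pos h1, Finset.mem_insert, Finset.mem_insert] at h2
        rcases h2 with h2 | h2 | h2
        · exact absurd (Or.inl h2) hfp
        · exact absurd (Or.inr h2) hfp
        · exact h2
      · rwa [ex_neg h1] at h2
  · intro e he a b hab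
    exact hS.path (hpR e he) (h2R e he) (hRu e he) (hRu' e he) (hs.path e he a b hab)
  · intro e he v hvK hv
    change G.deg (ex p e₁ e₂ (run e)) v = 0
    rw [hS.deg_ex (hpR e he) (h2R e he) (fun h => huK (h ▸ hvK)) (fun h => huK' (h ▸ hvK))]
    exact hs.innerK e he v hvK hv
  · intro v hvK e he e' he' h h'
    change G.deg (ex p e₁ e₂ (run e)) v ≠ 0 at h
    change G.deg (ex p e₁ e₂ (run e')) v ≠ 0 at h'
    by_cases hv : v = u ∨ v = u'
    · exact huniq e he e' he' (hmem e he v hv h) (hmem e' he' v hv h')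
    · rw [not_or] at hv
      rw [hS.deg_ex (hpR e he) (h2R e he) hv.1 hv.2] at h
      rw [hS.deg_ex (hpR e' he') (h2R e' he') hv.1 hv.2] at h'
      exact hs.inner v hvK e he e' he' h h'
  · intro e he heM
    have h1 := hX₁ e (hs.sub he)
    have h2 : e ∈ M \ {p} := Finset.mem_sdiff.mpr ⟨heM, fun h => h1.2.1 (Finset.mem_singleton.mp h)⟩
    obtain ⟨h4, h5⟩ := hm.m e he h2
    have h6 : e ≠ e₁ := fun h => h1M (h ▸ heM)
    refine ⟨?_, by rw [h5, hS.o e h6]⟩
    change ex p e₁ e₂ (run e) = {e}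
    rw [h4, ex_neg]
    rw [Finset.mem_singleton]
    exact fun h => h6 h.symm
  · intro e he heM v hvK
    change G.deg (ex p e₁ e₂ (run e) ∩ M) v = 0
    rw [hS.deg_M (hpR e he) hpM h1M h2M, hm.e e he (fun h => heM (Finset.mem_sdiff.mp h).1) v hvK,
      if_neg]
    rintro ⟨-, h⟩
    rcases Sym2.mem_iff.mp h with h | h
    · exact huK (h ▸ hvK)
    · exact huK' (h ▸ hvK)
  · intro e he heM v hvK h
    change G.deg (ex p e₁ e₂ (run e)) v = 2 at h
    change G.deg (ex p e₁ e₂ (run e) ∩ M) v = 1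
    rw [hS.deg_M (hpR e he) hpM h1M h2M]
    by_cases hv : v = u ∨ v = u'
    · have h4 : e₁ ∈ run e := hmem e he v hv (by omega)
      have h5 : G₁.deg (run e ∩ (M \ {p})) v = 0 := by
        have h6 := G₁.deg_mono (Finset.inter_subset_left (s₁ := run e) (s₂ := M \ {p})) v
        rcases hv with rfl | rfl
        · have := hRu e he
          omega
        · have := hRu' e he
          omega
      rw [h5, if_pos ⟨h4, Sym2.mem_iff.mpr hv⟩]
    · rw [if_neg (fun h' => hv (Sym2.mem_iff.mp h'.2)), add_zero]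
      rw [not_or] at hv
      rw [hS.deg_ex (hpR e he) (h2R e he) hv.1 hv.2] at h
      exact hm.i e he (fun h' => heM (Finset.mem_sdiff.mp h').1) v hvK h
  · intro e he heM h
    change ex p e₁ e₂ (run e) ≠ {e} at h
    by_cases h1 : e₁ ∈ run e
    · refine ⟨p, ?_, hpM⟩
      change p ∈ ex p e₁ e₂ (run e)
      rw [ex_pos h1]
      exact Finset.mem_insert_self _ _
    · rw [ex_neg h1] at h
      obtain ⟨f, hf, hfM⟩ := hm.s e he (fun h' => heM (Finset.mem_sdiff.mp h').1) h
      exact ⟨f, sub_ex p e₁ e₂ _ hf, (Finset.mem_sdiff.mp hfM).1⟩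
  · intro e he h
    change ex p e₁ e₂ (run e) = {e} at h
    by_cases h1 : e₁ ∈ run e
    · rw [ex_pos h1] at h
      have h4 : p ∈ ({e} : Finset E) := by
        rw [← h]
        exact Finset.mem_insert_self _ _
      exact absurd (Finset.mem_singleton.mp h4).symm (hX₁ e (hs.sub he)).2.1
    · rw [ex_neg h1] at h
      have h4 : e ≠ e₁ := fun h' => h1 (by rw [h, h']; exact Finset.mem_singleton_self _)
      rw [hm.r e he h, hS.o e h4]
  · intro e he h
    by_cases h1 : e₁ ∈ run e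
    · refine ⟨?_, u, huK, hS.deg_u (hpR e he) (h2R e he) h1 (hRu e he)⟩
      have h4 : run e ⊆ D := by
        by_cases h5 : run e = {e}
        · rw [h5] at h1 ⊢
          rw [← Finset.mem_singleton.mp h1]
          exact Finset.singleton_subset_iff.mpr h1D
        · exact (h3 e he h5).1.trans Finset.sdiff_subset
      rw [ex_pos h1]
      intro f hf
      rw [Finset.mem_insert, Finset.mem_insert] at hf
      rcases hf with rfl | rfl | hf
      · exact hpD
      · exact h2D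
      · exact h4 hf
    · rw [ex_neg h1] at h ⊢
      obtain ⟨h4, v, hv, h5⟩ := h3 e he h
      exact ⟨h4.trans Finset.sdiff_subset, v, hv, by rw [← hS.deg_neg h1]; exact h5⟩


/-- the two edges of an alternating circuit at a vertex -/
lemma two_edges {M D : Finset E} (hac : G.IsAC M D) {w : V} {p : E} (hw : G.deg D w = 2)
    (hpD : p ∈ D) (hpM : p ∈ M) (hp : w ∈ G.ends p) :
    ∃ e ∈ D, e ∉ M ∧ e ≠ p ∧ w ∈ G.ends e ∧ ∀ f ∈ D, w ∈ G.ends f → f = p ∨ f = e := by
  have h1 : ((D ∩ M).filter (fun e => w ∈ G.ends e)).card = 1 := hac.alt w hw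
  have h2 : (D.filter (fun e => w ∈ G.ends e)).card = 2 := hw
  obtain ⟨q, hq⟩ := Finset.card_eq_one.mp h1
  have hpq : p = q := by
    have : p ∈ (D ∩ M).filter (fun e => w ∈ G.ends e) :=
      Finset.mem_filter.mpr ⟨Finset.mem_inter.mpr ⟨hpD, hpM⟩, hp⟩
    rw [hq] at this
    exact Finset.mem_singleton.mp this
  obtain ⟨r, t, hrt, h3⟩ := Finset.card_eq_two.mp h2
  have hp3 : p ∈ ({r, t} : Finset E) := by
    rw [← h3]
    exact Finset.mem_filter.mpr ⟨hpD, hp⟩
  have key : ∀ a b : E, a ≠ b → D.filter (fun e => w ∈ G.ends e) = {a, b} → p = a →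
      ∃ e ∈ D, e ∉ M ∧ e ≠ p ∧ w ∈ G.ends e ∧ ∀ f ∈ D, w ∈ G.ends f → f = p ∨ f = e := by
    intro a b hab h4 hpa
    have hb : b ∈ D.filter (fun e => w ∈ G.ends e) := by
      rw [h4]
      exact Finset.mem_insert_of_mem (Finset.mem_singleton_self b)
    rw [Finset.mem_filter] at hb
    have hbp : b ≠ p := fun h => hab (hpa.symm.trans h.symm)
    refine ⟨b, hb.1, fun hbM => ?_, hbp, hb.2, fun f hf hwf => ?_⟩
    · have : b ∈ (D ∩ M).filter (fun e => w ∈ G.ends e) :=
        Finset.mem_filter.mpr ⟨Finset.mem_inter.mpr ⟨hb.1, hbM⟩, hb.2⟩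
      rw [hq] at this
      exact hbp ((Finset.mem_singleton.mp this).trans hpq.symm)
    · have : f ∈ ({a, b} : Finset E) := by
        rw [← h4]
        exact Finset.mem_filter.mpr ⟨hf, hwf⟩
      rw [Finset.mem_insert, Finset.mem_singleton] at this
      rw [hpa]
      exact this
  rw [Finset.mem_insert, Finset.mem_singleton] at hp3
  rcases hp3 with h | h
  · exact key r t hrt h3 h
  · exact key t r hrt.symm (by rw [h3, Finset.pair_comm]) h

lemma other {e : E} {w : V} (h : w ∈ G.ends e) : ∃ z, z ≠ w ∧ G.ends e = s(z, w) := by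
  obtain ⟨a, b, hab, h1⟩ := G.exists_ends e
  rw [h1] at h
  rcases Sym2.mem_iff.mp h with rfl | rfl
  · exact ⟨b, hab.symm, by rw [h1, Sym2.eq_swap]⟩
  · exact ⟨a, hab, h1⟩

/-- the induction -/
lemma main (hS1 : S_S1) (n : ℕ) : ∀ (G : MGraph V E) (X M D : Finset E) (K : Finset V),
    D ⊆ X → G.IsAC M D → (∃ v ∈ K, G.deg D v = 2) →
    (∀ v, v ∉ K → G.deg X v = 0 ∨ (G.deg X v = 2 ∧ G.deg D v = 2)) →
    (∀ p ∈ M ∩ D, (∃ v ∈ G.ends p, v ∈ K) → ∀ v ∈ G.ends p, v ∈ K) →
    (Finset.univ.filter (fun v => v ∉ K ∧ G.deg X v ≠ 0)).card ≤ n →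
    ∃ (G' : MGraph V E) (X' : Finset E) (run : E → Finset E),
      G.Sup G' X X' K run ∧ G.SupM G' M X' K run ∧
      (∀ e ∈ X', run e ≠ {e} → run e ⊆ D ∧ ∃ v, v ∉ K ∧ G.deg (run e) v = 2) := by
  induction n with
  | zero =>
    intro G X M D K _ _ _ _ _ hn
    refine base G X M D K fun v hv => ?_
    by_contra h
    have h1 : v ∈ Finset.univ.filter (fun v => v ∉ K ∧ G.deg X v ≠ 0) :=
      Finset.mem_filter.mpr ⟨Finset.mem_univ v, hv, h⟩
    rw [Finset.card_eq_zero.mp (Nat.le_zero.mp hn)] at h1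
    exact Finset.notMem_empty v h1
  | succ n ih =>
    intro G X M D K hDX hac hK hdeg hpart hn
    by_cases hall : ∀ v, v ∉ K → G.deg X v = 0
    · exact base G X M D K hall
    push Not at hall
    obtain ⟨u, huK, hu0⟩ := hall
    have huX : G.deg X u = 2 ∧ G.deg D u = 2 := (hdeg u huK).resolve_left hu0
    obtain ⟨p, hp, hup⟩ : ∃ p ∈ D ∩ M, u ∈ G.ends p := by
      refine G.deg_pos_iff.mp ?_
      rw [hac.alt u huX.2]
      exact Nat.one_pos
    rw [Finset.mem_inter] at hp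
    obtain ⟨hpD, hpM⟩ := hp
    obtain ⟨u', huu', hpe⟩ := other hup
    have hu'K : u' ∉ K := by
      intro h
      refine huK (hpart p (Finset.mem_inter.mpr ⟨hpM, hpD⟩) ⟨u', ?_, h⟩ u hup)
      rw [hpe]
      exact Sym2.mem_mk_left _ _
    have hu'p : u' ∈ G.ends p := by
      rw [hpe]
      exact Sym2.mem_mk_left _ _
    have hu'0 : G.deg X u' ≠ 0 := by
      have : 0 < G.deg X u' := G.deg_pos_iff.mpr ⟨p, hDX hpD, hu'p⟩
      omega
    have hu'X : G.deg X u' = 2 ∧ G.deg D u' = 2 := (hdeg u' hu'K).resolve_left hu'0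
    obtain ⟨e₁, h1D, h1M, h1p, hue₁, hall₁⟩ := two_edges hac huX.2 hpD hpM hup
    obtain ⟨e₂, h2D, h2M, h2p, hue₂, hall₂⟩ := two_edges hac hu'X.2 hpD hpM hu'p
    obtain ⟨x, hxu, hx⟩ := other hue₁
    obtain ⟨y, hyu', hy⟩ := other hue₂
    -- the digon is excluded by the connectivity of `D`
    have hdig : e₁ ≠ e₂ := by
      intro he
      obtain ⟨v, hvK, hv2⟩ := hK
      have hc := hac.circ.2.2 u v huX.2 hv2
      obtain ⟨f, hf, hfc⟩ := G.exists_cut_of_connIn (S := {u, u'}) hc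
        (Finset.mem_insert_self _ _) (by
          rw [Finset.mem_insert, Finset.mem_singleton]
          rintro (h | h)
          · exact huK (h ▸ hvK)
          · exact hu'K (h ▸ hvK))
      have hnot : ∀ g, (g = p ∨ g = e₁) → g ∉ G.cut {u, u'} := by
        intro g hg hcut
        have hends : ∀ b ∈ G.ends g, b ∈ ({u, u'} : Finset V) := by
          intro b hb
          rw [Finset.mem_insert, Finset.mem_singleton]
          rcases hg with rfl | rfl
          · rw [hpe] at hb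
            exact (Sym2.mem_iff.mp hb).symm
          · have h5 : u' ∈ G.ends g := by
              rw [he]
              exact hue₂
            rw [hx] at h5 hb
            rcases Sym2.mem_iff.mp h5 with h5 | h5
            · rw [← h5] at hb
              exact (Sym2.mem_iff.mp hb).symm
            · exact absurd h5 huu'
        simp only [MGraph.cut, Finset.mem_filter, Finset.mem_univ, true_and] at hcut
        obtain ⟨-, b, hb, hb'⟩ := hcut
        exact hb' (hends b hb)
      have hcut := hfc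
      simp only [MGraph.cut, Finset.mem_filter, Finset.mem_univ, true_and] at hcut
      obtain ⟨⟨a, ha, haS⟩, -⟩ := hcut
      rw [Finset.mem_insert, Finset.mem_singleton] at haS
      rcases haS with rfl | rfl
      · exact hnot f (hall₁ f hf ha) hfc
      · refine hnot f ?_ hfc
        rw [he]
        exact hall₂ f hf ha
    have hxu' : x ≠ u' := by
      intro h
      have h5 : u' ∈ G.ends e₁ := by
        rw [hx, h]
        exact Sym2.mem_mk_left _ _
      rcases hall₂ e₁ h1D h5 with h6 | h6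
      · exact h1p h6
      · exact hdig h6
    have hyu : y ≠ u := by
      intro h
      have h5 : u ∈ G.ends e₂ := by
        rw [hy, h]
        exact Sym2.mem_mk_left _ _
      rcases hall₁ e₂ h2D h5 with h6 | h6
      · exact h2p h6
      · exact hdig h6.symm
    have hpe' : G.ends p = s(u, u') := by rw [hpe, Sym2.eq_swap]
    have hy' : G.ends e₂ = s(u', y) := by rw [hy, Sym2.eq_swap]
    obtain ⟨hxy, -, hd, hdu, hdu', hac₁⟩ := hS1 V E G X M D u u' x y p e₁ e₂ hDX hac hpM hpD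
      hpe' huX.1 hu'X.1 h1D h2D h1M h2M hx hy' hxu' hyu
    obtain ⟨hxy', -, hdD, -, -, -⟩ := hS1 V E G D M D u u' x y p e₁ e₂ (Finset.Subset.refl D) hac
      hpM hpD hpe' huX.2 hu'X.2 h1D h2D h1M h2M hx hy' hxu' hyu
    have hSt : Stp G (G.reEnd e₁ x y hxy) u u' x y p e₁ e₂ :=
      ⟨fun f hf => if_neg hf, if_pos rfl, hx, hpe', hy', fun h => h1p h.symm,
        fun h => h2p h.symm, hdig, hxu', hyu⟩
    obtain ⟨G', X', run, hs, hm, h3⟩ := ih (G.reEnd e₁ x y hxy) (X \ {p, e₂}) (M \ {p})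
      (D \ {p, e₂}) K (Finset.sdiff_subset_sdiff hDX (Finset.Subset.refl _)) hac₁ (by
        obtain ⟨v, hvK, hv2⟩ := hK
        refine ⟨v, hvK, ?_⟩
        rw [← hv2]
        exact hdD v (fun h => huK (h ▸ hvK)) (fun h => hu'K (h ▸ hvK))) (by
        intro v hvK
        by_cases h1 : v = u
        · left
          rw [h1]
          exact hdu
        · by_cases h2 : v = u'
          · left
            rw [h2]
            exact hdu'
          · rw [hd v h1 h2]
            have h4 := hdD v h1 h2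
            rcases hdeg v hvK with h | ⟨h, h'⟩
            · exact Or.inl h
            · exact Or.inr ⟨h, h4.trans h'⟩) (by
        intro q hq
        rw [Finset.mem_inter, Finset.mem_sdiff, Finset.mem_sdiff] at hq
        have hqe : q ≠ e₁ := fun h => h1M (h ▸ hq.1.1)
        have h4 : (G.reEnd e₁ x y hxy).ends q = G.ends q := if_neg hqe
        rw [h4]
        exact hpart q (Finset.mem_inter.mpr ⟨hq.1.1, hq.2.1⟩)) (by
        have hlt : (Finset.univ.filter (fun v => v ∉ K ∧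
            (G.reEnd e₁ x y hxy).deg (X \ {p, e₂}) v ≠ 0)).card <
            (Finset.univ.filter (fun v => v ∉ K ∧ G.deg X v ≠ 0)).card := by
          refine Finset.card_lt_card ⟨fun v hv => ?_, fun hsub => ?_⟩
          · rw [Finset.mem_filter] at hv ⊢
            refine ⟨Finset.mem_univ v, hv.2.1, ?_⟩
            by_cases h1 : v = u
            · exact absurd (h1 ▸ hdu) hv.2.2
            · by_cases h2 : v = u'
              · exact absurd (h2 ▸ hdu') hv.2.2
              · rw [← hd v h1 h2]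
                exact hv.2.2
          · have h1 := hsub (Finset.mem_filter.mpr ⟨Finset.mem_univ u, huK, hu0⟩)
            rw [Finset.mem_filter] at h1
            exact h1.2.2 hdu
        omega)
    have hfin := step hSt hDX hpD hpM h1D h2D h1M h2M huK hu'K hdu hdu' hs hm h3
    exact ⟨G', X', _, hfin.1, hfin.2.1, hfin.2.2⟩

end

end S2X

theorem t_S2 (h1 : S_S1) : S_S2 := by
  intro V E _ _ _ _ G X M D K hDX hac hK hdeg hpart
  exact S2X.main h1 _ G X M D K hDX hac hK hdeg hpart le_rfl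

end Pool.GOZ
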