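import Pool.Agent.GOZ.Cl2

/-!
# Smoothing of a vertex of degree 2 (MP_7b7176_co)

`G.re e a b hab` is the multigraph `G` in which the edge `e` is re-ended at `a`, `b`.  If `v` has exactly the two edges
`e = a v` and `f = v b` of `X`, then `X.erase f` in `G.re e a b hab` is `X` with `v` smoothed.  Read backwards this is the
subdivision of an edge by a free vertex and a free edge.
-/

set_option autoImplicit false
set_option linter.unusedSectionVars false

namespace Pool.GOD

namespace MGraph

variable {V E : Type} [Fintype V] [DecidableEq V] [Fintype E] [DecidableEq E] (G : MGraph V E)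

/-- The edge `e` is re-ended at `a`, `b`. -/
def re (e : E) (a b : V) (hab : a ≠ b) : MGraph V E where
  ends x := if x = e then s(a, b) else G.ends x
  loopless x := by
    split_ifs
    · rw [Sym2.mk_isDiag_iff]
      exact hab
    · exact G.loopless x

/-- `v` has exactly the two edges `e = a v` and `f = v b` of `X`. -/
structure Smo (X : Finset E) (v a b : V) (e f : E) : Prop where
  hef : e ≠ f
  hab : a ≠ b
  heX : e ∈ X
  hfX : f ∈ X
  ee : G.ends e = s(a, v)
  ef : G.ends f = s(v, b)
  only : ∀ g ∈ X, v ∈ G.ends g → g = e ∨ g = f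

theorem re_self {e : E} {a b : V} (hab : a ≠ b) : (G.re e a b hab).ends e = s(a, b) := by
  simp [re]

theorem re_ne {e x : E} {a b : V} (hab : a ≠ b) (h : x ≠ e) :
    (G.re e a b hab).ends x = G.ends x := by
  simp [re, h]

variable {G} {X Y : Finset E} {v a b : V} {e f : E}

namespace Smo

theorem hav (h : G.Smo X v a b e f) : a ≠ v := G.ne_of_ends h.ee

theorem hvb (h : G.Smo X v a b e f) : v ≠ b := G.ne_of_ends h.ef

theorem symm (h : G.Smo X v a b e f) : G.Smo X v b a f e :=
  ⟨h.hef.symm, h.hab.symm, h.hfX, h.heX, by rw [h.ef, Sym2.eq_swap], by rw [h.ee, Sym2.eq_swap],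
    fun g hg hv => (h.only g hg hv).symm⟩

/-- The size of a cut before and after smoothing. -/
theorem card_cut (h : G.Smo X v a b e f) (_hY : Y ⊆ X) (hi : e ∈ Y ↔ f ∈ Y) (T : Finset V) :
    (Y ∩ G.cut T).card = (Y.erase f ∩ (G.re e a b h.hab).cut T).card +
      (if e ∈ Y ∧ e ∈ G.cut T ∧ f ∈ G.cut T then 2 else 0) := by
  classical
  have key : ∀ (G' : MGraph V E) (Z : Finset E), (Z ∩ G'.cut T).card =
      ∑ x ∈ Z, if x ∈ G'.cut T then 1 else 0 := by
    intro G' Z
    rw [← Finset.filter_mem_eq_inter, Finset.card_filter]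
  have hsame : ∀ x ∈ Y, x ≠ e → x ≠ f → (x ∈ (G.re e a b h.hab).cut T ↔ x ∈ G.cut T) := by
    intro x _ hx _
    obtain ⟨c, d, -, hcd⟩ := G.exists_ends x
    rw [mem_cut _ hcd, mem_cut _ (by rw [G.re_ne h.hab hx, hcd])]
  rw [key, key]
  by_cases he : e ∈ Y
  · have hf : f ∈ Y := hi.1 he
    have he' : e ∈ Y.erase f := Finset.mem_erase.2 ⟨h.hef, he⟩
    rw [← Finset.sum_erase_add _ _ hf, ← Finset.sum_erase_add _ _ he',
      ← Finset.sum_erase_add (Y.erase f) (fun x => if x ∈ (G.re e a b h.hab).cut T then 1 else 0) he']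
    have h1 : ∑ x ∈ (Y.erase f).erase e, (if x ∈ G.cut T then 1 else 0) =
        ∑ x ∈ (Y.erase f).erase e, (if x ∈ (G.re e a b h.hab).cut T then 1 else 0) := by
      refine Finset.sum_congr rfl fun x hx => ?_
      rw [Finset.mem_erase, Finset.mem_erase] at hx
      exact if_congr (hsame x hx.2.2 hx.1 hx.2.1).symm rfl rfl
    rw [h1]
    simp only [mem_cut _ h.ee, mem_cut _ h.ef, mem_cut _ (G.re_self h.hab)]
    by_cases ha : a ∈ T <;> by_cases hb : b ∈ T <;> by_cases hv : v ∈ T <;>
      simp [ha, hb, hv, he, add_assoc]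
  · have hf : f ∉ Y := fun h' => he (hi.2 h')
    rw [Finset.erase_eq_of_notMem hf]
    simp only [he, false_and, if_false, add_zero]
    refine Finset.sum_congr rfl fun x hx => ?_
    exact if_congr (hsame x hx (fun h' => he (h' ▸ hx)) fun h' => hf (h' ▸ hx)).symm rfl rfl

/-- The vertex `v` can be moved to the side of `a` in the smoothed graph. -/
theorem exists_side (h : G.Smo X v a b e f) (hY : Y ⊆ X) (T : Finset V) :
    ∃ T' : Finset V, (Y.erase f ∩ (G.re e a b h.hab).cut T').card =
      (Y.erase f ∩ (G.re e a b h.hab).cut T).card ∧ e ∉ G.cut T' := by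
  classical
  have hav := h.hav
  refine ⟨if a ∈ T then insert v T else T.erase v, ?_, ?_⟩
  · congr 1
    ext x
    rw [Finset.mem_inter, Finset.mem_inter]
    refine and_congr_right fun hx => ?_
    rw [Finset.mem_erase] at hx
    by_cases hxe : x = e
    · subst hxe
      rw [mem_cut _ (G.re_self h.hab), mem_cut _ (G.re_self h.hab)]
      have h1 : ∀ u, u ≠ v → (u ∈ (if a ∈ T then insert v T else T.erase v) ↔ u ∈ T) := by
        intro u hu
        split_ifs
        · rw [Finset.mem_insert]
          tauto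
        · rw [Finset.mem_erase]
          tauto
      rw [h1 a hav, h1 b h.hvb.symm]
    · obtain ⟨c, d, -, hcd⟩ := G.exists_ends x
      have hcd' : (G.re e a b h.hab).ends x = s(c, d) := by rw [G.re_ne h.hab hxe, hcd]
      rw [mem_cut _ hcd', mem_cut _ hcd']
      have hxv : v ∉ G.ends x := fun hv => by
        rcases h.only x (hY hx.2) hv with h1 | h1
        · exact hxe h1
        · exact hx.1 h1
      rw [hcd, Sym2.mem_iff] at hxv
      push Not at hxv
      have h1 : ∀ u, u ≠ v → (u ∈ (if a ∈ T then insert v T else T.erase v) ↔ u ∈ T) := by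
        intro u hu
        split_ifs
        · rw [Finset.mem_insert]
          tauto
        · rw [Finset.mem_erase]
          tauto
      rw [h1 c (Ne.symm hxv.1), h1 d (Ne.symm hxv.2)]
  · rw [mem_cut _ h.ee]
    split_ifs with ha
    · simp [ha]
    · simp [ha]

theorem bridgeless_iff (h : G.Smo X v a b e f) (hY : Y ⊆ X) (hi : e ∈ Y ↔ f ∈ Y) :
    G.Bridgeless Y ↔ (G.re e a b h.hab).Bridgeless (Y.erase f) := by
  rw [bridgeless_iff_card, bridgeless_iff_card]
  constructor
  · intro h1 T hT
    obtain ⟨T', h2, h3⟩ := h.exists_side hY T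
    have h4 := h.card_cut hY hi T'
    simp only [h3, false_and, and_false, if_false, add_zero] at h4
    exact h1 T' (by rw [h4, h2, hT])
  · intro h1 T hT
    have h4 := h.card_cut hY hi T
    split_ifs at h4 with h5
    · omega
    · exact h1 T (by omega)

theorem deg_ne (h : G.Smo X v a b e f) (hY : Y ⊆ X) (hi : e ∈ Y ↔ f ∈ Y) {u : V} (hu : u ≠ v) :
    (G.re e a b h.hab).deg (Y.erase f) u = G.deg Y u := by
  have h1 := h.card_cut hY hi {u}
  have h2 : ¬ (e ∈ G.cut {u} ∧ f ∈ G.cut {u}) := by
    rintro ⟨h3, h4⟩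
    rw [mem_cut _ h.ee, Finset.mem_singleton, Finset.mem_singleton] at h3
    rw [mem_cut _ h.ef, Finset.mem_singleton, Finset.mem_singleton] at h4
    have h5 := h.hab
    rcases h3 with ⟨rfl, -⟩ | ⟨rfl, -⟩
    · rcases h4 with ⟨rfl, -⟩ | ⟨h6, -⟩
      · exact hu rfl
      · exact h5 h6.symm
    · exact hu rfl
  have h3 : ∀ (G' : MGraph V E) (Z : Finset E), (Z ∩ G'.cut {u}).card = G'.deg Z u := by
    intro G' Z
    rw [cut_singleton]
    unfold deg
    congr 1
    ext x
    rw [Finset.mem_inter, mem_star, Finset.mem_filter]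
  rw [h3, h3, if_neg (fun h' => h2 h'.2), add_zero] at h1
  exact h1.symm

theorem deg_v (h : G.Smo X v a b e f) (hY : Y ⊆ X) :
    (G.re e a b h.hab).deg (Y.erase f) v = 0 := by
  unfold deg
  rw [Finset.card_eq_zero, Finset.filter_eq_empty_iff]
  intro x hx hv
  rw [Finset.mem_erase] at hx
  by_cases hxe : x = e
  · subst hxe
    rw [G.re_self h.hab, Sym2.mem_iff] at hv
    rcases hv with hv | hv
    · exact h.hav hv.symm
    · exact h.hvb hv
  · rw [G.re_ne h.hab hxe] at hv
    rcases h.only x (hY hx.2) hv with h1 | h1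
    · exact hxe h1
    · exact hx.1 h1

theorem deg_v_old (h : G.Smo X v a b e f) (hY : Y ⊆ X) :
    G.deg Y v = (if e ∈ Y then 1 else 0) + (if f ∈ Y then 1 else 0) := by
  classical
  have h1 : Y.filter (fun x => v ∈ G.ends x) = Y ∩ {e, f} := by
    ext x
    rw [Finset.mem_filter, Finset.mem_inter, Finset.mem_insert, Finset.mem_singleton]
    refine and_congr_right fun hx => ⟨fun hv => h.only x (hY hx) hv, ?_⟩
    rintro (rfl | rfl)
    · rw [h.ee]
      exact Sym2.mem_mk_right a v
    · rw [h.ef]
      exact Sym2.mem_mk_left v b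
  unfold deg
  rw [h1]
  have h2 := h.hef
  by_cases he : e ∈ Y <;> by_cases hf : f ∈ Y
  · have : Y ∩ {e, f} = {e, f} := by
      rw [Finset.inter_eq_right]
      intro x hx
      rw [Finset.mem_insert, Finset.mem_singleton] at hx
      rcases hx with rfl | rfl
      · exact he
      · exact hf
    rw [this, Finset.card_pair h2, if_pos he, if_pos hf]
  · have : Y ∩ {e, f} = {e} := by
      ext x
      rw [Finset.mem_inter, Finset.mem_insert, Finset.mem_singleton]
      constructor
      · rintro ⟨h3, rfl | rfl⟩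
        · exact Finset.mem_singleton_self _
        · exact absurd h3 hf
      · intro h3
        rw [Finset.mem_singleton] at h3
        exact ⟨h3 ▸ he, Or.inl h3⟩
    rw [this, Finset.card_singleton, if_pos he, if_neg hf]
  · have : Y ∩ {e, f} = {f} := by
      ext x
      rw [Finset.mem_inter, Finset.mem_insert, Finset.mem_singleton]
      constructor
      · rintro ⟨h3, rfl | rfl⟩
        · exact absurd h3 he
        · rfl
      · intro h3
        exact ⟨h3 ▸ hf, Or.inr h3⟩
    rw [this, Finset.card_singleton, if_neg he, if_pos hf]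
  · have : Y ∩ {e, f} = ∅ := by
      rw [Finset.eq_empty_iff_forall_notMem]
      intro x hx
      rw [Finset.mem_inter, Finset.mem_insert, Finset.mem_singleton] at hx
      rcases hx with ⟨h3, rfl | rfl⟩
      · exact he h3
      · exact hf h3
    rw [this, Finset.card_empty, if_neg he, if_neg hf]

theorem iff_of_even (h : G.Smo X v a b e f) (hY : Y ⊆ X) (hev : Even (G.deg Y v)) :
    e ∈ Y ↔ f ∈ Y := by
  rw [h.deg_v_old hY] at hev
  by_cases he : e ∈ Y <;> by_cases hf : f ∈ Y
  · tauto
  · simp [he, hf] at hev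
  · simp [he, hf] at hev
  · tauto

theorem even_iff (h : G.Smo X v a b e f) (hY : Y ⊆ X) (hi : e ∈ Y ↔ f ∈ Y) :
    G.IsEven Y ↔ (G.re e a b h.hab).IsEven (Y.erase f) := by
  constructor
  · intro h1 u
    by_cases hu : u = v
    · subst hu
      rw [h.deg_v hY]
      exact ⟨0, rfl⟩
    · rw [h.deg_ne hY hi hu]
      exact h1 u
  · intro h1 u
    by_cases hu : u = v
    · subst hu
      rw [h.deg_v_old hY]
      by_cases he : e ∈ Y
      · rw [if_pos he, if_pos (hi.1 he)]
        exact ⟨1, rfl⟩
      · rw [if_neg he, if_neg (fun hf => he (hi.2 hf))]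
        exact ⟨0, rfl⟩
    · have := h1 u
      rwa [h.deg_ne hY hi hu] at this

/-- The inverse operation on edge sets. -/
def up (Y : Finset E) (e f : E) : Finset E := if e ∈ Y then insert f Y else Y

theorem up_iff (_h : G.Smo X v a b e f) (hY : Y ⊆ X.erase f) : e ∈ up Y e f ↔ f ∈ up Y e f := by
  have hf : f ∉ Y := fun h' => (Finset.mem_erase.1 (hY h')).1 rfl
  unfold up
  split_ifs with he
  · rw [Finset.mem_insert, Finset.mem_insert]
    tauto
  · tauto

theorem up_erase (hY : Y ⊆ X.erase f) : (up Y e f).erase f = Y := by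
  have hf : f ∉ Y := fun h' => (Finset.mem_erase.1 (hY h')).1 rfl
  unfold up
  split_ifs with he
  · rw [Finset.erase_insert hf]
  · rw [Finset.erase_eq_of_notMem hf]

theorem erase_up (hi : e ∈ Y ↔ f ∈ Y) (hef : e ≠ f) : up (Y.erase f) e f = Y := by
  unfold up
  split_ifs with he
  · rw [Finset.mem_erase] at he
    exact Finset.insert_erase (hi.1 he.2)
  · rw [Finset.mem_erase] at he
    have : f ∉ Y := fun hf => he ⟨hef, hi.2 hf⟩
    rw [Finset.erase_eq_of_notMem this]

theorem up_sub (h : G.Smo X v a b e f) (hY : Y ⊆ X.erase f) : up Y e f ⊆ X := by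
  unfold up
  split_ifs
  · exact Finset.insert_subset h.hfX (hY.trans (Finset.erase_subset _ _))
  · exact hY.trans (Finset.erase_subset _ _)

theorem up_mono (hY : Y ⊆ X) : up Y e f ⊆ up X e f := by
  unfold up
  split_ifs with h1 h2
  · exact Finset.insert_subset_insert f hY
  · exact absurd (hY h1) h2
  · exact hY.trans (Finset.subset_insert f X)
  · exact hY

/-- Circuits before and after smoothing. -/
theorem circ_iff' (h : G.Smo X v a b e f) (hY : Y ⊆ X) (hi : e ∈ Y ↔ f ∈ Y) :
    G.IsCircuit Y ↔ (G.re e a b h.hab).IsCircuit (Y.erase f) := by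
  rw [circ_iff, circ_iff, h.even_iff hY hi]
  have hne : Y.Nonempty ↔ (Y.erase f).Nonempty := by
    constructor
    · rintro ⟨x, hx⟩
      by_cases hxf : x = f
      · subst hxf
        exact ⟨e, Finset.mem_erase.2 ⟨h.hef, hi.2 hx⟩⟩
      · exact ⟨x, Finset.mem_erase.2 ⟨hxf, hx⟩⟩
    · rintro ⟨x, hx⟩
      exact ⟨x, (Finset.mem_erase.1 hx).2⟩
  rw [hne]
  refine and_congr_right fun h1 => and_congr_right fun h2 => ⟨fun h3 D' h4 h5 h6 => ?_,
    fun h3 D' h4 h5 h6 => ?_⟩
  · have a1 : D' ⊆ X.erase f := h4.trans (Finset.erase_subset_erase f hY)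
    have a2 : up D' e f ⊆ Y := by
      rw [← erase_up hi h.hef]
      exact up_mono h4
    have a3 : (up D' e f).Nonempty := by
      obtain ⟨x, hx⟩ := h5
      refine ⟨x, ?_⟩
      unfold up
      split_ifs
      · exact Finset.mem_insert_of_mem hx
      · exact hx
    have a4 : G.IsEven (up D' e f) := by
      rw [h.even_iff (h.up_sub a1) (h.up_iff a1), up_erase a1]
      exact h6
    have a5 := h3 _ a2 a3 a4
    rw [← a5, up_erase a1]
  · have a1 : e ∈ D' ↔ f ∈ D' := h.iff_of_even (h4.trans hY) (h6 v)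
    have a2 : D'.erase f ⊆ Y.erase f := Finset.erase_subset_erase f h4
    have a3 : (D'.erase f).Nonempty := by
      obtain ⟨x, hx⟩ := h5
      by_cases hxf : x = f
      · subst hxf
        exact ⟨e, Finset.mem_erase.2 ⟨h.hef, a1.2 hx⟩⟩
      · exact ⟨x, Finset.mem_erase.2 ⟨hxf, hx⟩⟩
    have a4 : (G.re e a b h.hab).IsEven (D'.erase f) := (h.even_iff (h4.trans hY) a1).1 h6
    have a5 := h3 _ a2 a3 a4
    rw [← erase_up a1 h.hef, a5, erase_up hi h.hef]

/-- The vertices after smoothing. -/
theorem vx_eq (h : G.Smo X v a b e f) : (G.re e a b h.hab).vx (X.erase f) = (G.vx X).erase v := by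
  ext u
  rw [mem_vx, Finset.mem_erase, mem_vx]
  by_cases hu : u = v
  · subst hu
    rw [h.deg_v Finset.Subset.rfl]
    tauto
  · rw [h.deg_ne Finset.Subset.rfl (iff_of_true h.heX h.hfX) hu]
    tauto

/-- Alternating circuits that avoid the thread. -/
theorem ac_iff (h : G.Smo X v a b e f) {M D : Finset E} (heD : e ∉ D) :
    (G.re e a b h.hab).IsAC M D ↔ G.IsAC M D := by
  have he : ∀ x ∈ D, (G.re e a b h.hab).ends x = G.ends x := fun x hx =>
    G.re_ne h.hab fun h' => heD (h' ▸ hx)
  have h2 : ∀ v, (G.re e a b h.hab).deg D v = G.deg D v := deg_congr he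
  have h3 : ∀ v, (G.re e a b h.hab).deg (D ∩ M) v = G.deg (D ∩ M) v :=
    deg_congr fun x hx => he x (Finset.mem_inter.1 hx).1
  constructor
  · intro h1
    exact ⟨(circ_congr he).1 h1.circ, fun v hv => by
      rw [← h3]; exact h1.alt v (by rw [h2]; exact hv)⟩
  · intro h1
    exact ⟨(circ_congr he).2 h1.circ, fun v hv => by
      rw [h3]; exact h1.alt v (by rw [← h2]; exact hv)⟩

/-- Connectivity before and after smoothing: 2-edge-connectedness. -/
theorem tec_iff (h : G.Smo X v a b e f) (hY : Y ⊆ X) (hi : e ∈ Y ↔ f ∈ Y) :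
    G.TEC Y ↔ (G.re e a b h.hab).TEC (Y.erase f) := by
  constructor
  · intro h1 T h2 h3
    obtain ⟨u, huT, hu⟩ := h2
    obtain ⟨w, hwT, hw⟩ := h3
    have huv : u ≠ v := fun h' => hu (h' ▸ h.deg_v hY)
    have hwv : w ≠ v := fun h' => hw (h' ▸ h.deg_v hY)
    rw [h.deg_ne hY hi huv] at hu
    rw [h.deg_ne hY hi hwv] at hw
    classical
    -- move `v` to the side of `a`
    have hmem : ∀ x, x ≠ v → (x ∈ (if a ∈ T then insert v T else T.erase v) ↔ x ∈ T) := by
      intro x hx
      split_ifs
      · rw [Finset.mem_insert]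
        tauto
      · rw [Finset.mem_erase]
        tauto
    obtain ⟨T', h4, h5, h6, h7⟩ : ∃ T' : Finset V, (Y.erase f ∩ (G.re e a b h.hab).cut T').card =
        (Y.erase f ∩ (G.re e a b h.hab).cut T).card ∧ e ∉ G.cut T' ∧ u ∈ T' ∧ w ∉ T' := by
      refine ⟨if a ∈ T then insert v T else T.erase v, ?_, ?_, (hmem u huv).2 huT,
        fun h' => hwT ((hmem w hwv).1 h')⟩
      · congr 1
        ext x
        rw [Finset.mem_inter, Finset.mem_inter]
        refine and_congr_right fun hx => ?_
        rw [Finset.mem_erase] at hx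
        by_cases hxe : x = e
        · subst hxe
          rw [mem_cut _ (G.re_self h.hab), mem_cut _ (G.re_self h.hab), hmem a h.hav,
            hmem b h.hvb.symm]
        · obtain ⟨c, d, -, hcd⟩ := G.exists_ends x
          have hcd' : (G.re e a b h.hab).ends x = s(c, d) := by rw [G.re_ne h.hab hxe, hcd]
          have hxv : v ∉ G.ends x := fun hv => by
            rcases h.only x (hY hx.2) hv with h1 | h1
            · exact hxe h1
            · exact hx.1 h1
          rw [hcd, Sym2.mem_iff] at hxv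
          push Not at hxv
          rw [mem_cut _ hcd', mem_cut _ hcd', hmem c (Ne.symm hxv.1), hmem d (Ne.symm hxv.2)]
      · rw [mem_cut _ h.ee]
        split_ifs with ha
        · simp [ha]
        · simp [ha]
    have h8 := h1 T' ⟨u, h6, hu⟩ ⟨w, h7, hw⟩
    have h9 := h.card_cut hY hi T'
    simp only [h5, false_and, and_false, if_false, add_zero] at h9
    rw [← h4, ← h9]
    exact h8
  · intro h1 T h2 h3
    have h4 := h.card_cut hY hi T
    by_cases h5 : e ∈ Y ∧ e ∈ G.cut T ∧ f ∈ G.cut T
    · rw [if_pos h5] at h4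
      omega
    · rw [if_neg h5, add_zero] at h4
      rw [h4]
      -- a vertex different from `v` on the side of `v`
      have hside : ∀ P : Finset V, (P = T ∨ P = Tᶜ) → (∃ u ∈ P, G.deg Y u ≠ 0) →
          ∃ u ∈ P, u ≠ v ∧ G.deg Y u ≠ 0 := by
        rintro P hP ⟨u, huP, hu⟩
        by_cases huv : u = v
        · subst huv
          have he : e ∈ Y := by
            by_contra he
            have hf : f ∉ Y := fun h' => he (hi.2 h')
            rw [h.deg_v_old hY, if_neg he, if_neg hf] at hu
            exact hu rfl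
          have hf : f ∈ Y := hi.1 he
          have hda : G.deg Y a ≠ 0 :=
            (G.deg_pos_iff.2 ⟨e, he, by rw [h.ee]; exact Sym2.mem_mk_left a u⟩).ne'
          have hdb : G.deg Y b ≠ 0 :=
            (G.deg_pos_iff.2 ⟨f, hf, by rw [h.ef]; exact Sym2.mem_mk_right u b⟩).ne'
          by_cases haP : a ∈ P
          · exact ⟨a, haP, h.hav, hda⟩
          · refine ⟨b, ?_, h.hvb.symm, hdb⟩
            by_contra hbP
            apply h5
            refine ⟨he, ?_, ?_⟩
            · rw [mem_cut _ h.ee]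
              rcases hP with rfl | rfl
              · exact Or.inr ⟨huP, haP⟩
              · rw [Finset.mem_compl] at huP haP
                rw [not_not] at haP
                exact Or.inl ⟨haP, huP⟩
            · rw [mem_cut _ h.ef]
              rcases hP with rfl | rfl
              · exact Or.inl ⟨huP, hbP⟩
              · rw [Finset.mem_compl] at huP hbP
                rw [not_not] at hbP
                exact Or.inr ⟨hbP, huP⟩
        · exact ⟨u, huP, huv, hu⟩
      obtain ⟨u, hu1, hu2, hu3⟩ := hside T (Or.inl rfl) h2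
      obtain ⟨w, hw1, hw2, hw3⟩ := hside Tᶜ (Or.inr rfl) (by
        obtain ⟨w, hw, hw'⟩ := h3
        exact ⟨w, Finset.mem_compl.2 hw, hw'⟩)
      refine h1 T ⟨u, hu1, ?_⟩ ⟨w, Finset.mem_compl.1 hw1, ?_⟩
      · rw [h.deg_ne hY hi hu2]
        exact hu3
      · rw [h.deg_ne hY hi hw2]
        exact hw3

end Smo

end MGraph

end Pool.GOD
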