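import Pool.Agent.GOZ.Defs

/-!
Theorem Z, part C (the core): statements and proofs.  Notation: `X ∖ M` = edges of weight 1
(`E-edges`), `e(P)` = number of E-edges leaving `P` = `((X \ M) ∩ G.cut P).card`.
-/

set_option autoImplicit false

namespace Pool.GOZ

open Pool.GOD Pool.GOD.MGraph

/-- C1a (evenness).  Every vertex of `P` has exactly two E-ends, so `e(P)` is even
(`sum_deg` for `X \ M`, degrees from `deg_sdiff`). -/
def S_C1a : Prop :=
  ∀ (V E : Type) [Fintype V] [DecidableEq V] [Fintype E] [DecidableEq E] (G : MGraph V E)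
    (X M F D : Finset E) (z : V), G.Core X M F D z →
    ∀ P : Finset V, P ⊆ G.vx X → z ∉ P → Even ((X \ M) ∩ G.cut P).card

/-- C1b (no bridge).  `D` is even, so `D ∩ cut P ⊆ {g}` is empty and `D` (connected) lives on one
side; all marked edges are in `D` (`m1` for `D` itself); the other side `R` (of `P` or
`vx X \ P`) has no marked edge inside, so `c4` gives `|R| ≤ 1`; `|R| = 1` is impossible since the
degrees are 2 or 3, `|R| = 0` since the cut would be empty. -/
def S_C1b : Prop :=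
  ∀ (V E : Type) [Fintype V] [DecidableEq V] [Fintype E] [DecidableEq E] (G : MGraph V E)
    (X M F D : Finset E) (z : V), G.Core X M F D z →
    ∀ (P : Finset V) (g : E), P ⊆ G.vx X → X ∩ G.cut P = {g} → False

/-- C1c (deficit lemma).  `T` is closed under `M`, at most two E-edges leave `T`, there is no
alternating circuit inside `T`: then `T` is empty.  Proof: Kotzig (`t_Kotzig`) for `ins X T`,
`ins M T` gives `g` and `S` with `ins X T ∩ cut S = {g}`; `C₁ = T ∩ S`, `C₂ = T \ S`; no E-edge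
joins them, so `e(C₁) + e(C₂) = e(T) ≤ 2`, both even by C1a, so one is 0 and then
`X ∩ cut C_i = {g}`, against C1b. -/
def S_C1c : Prop :=
  ∀ (V E : Type) [Fintype V] [DecidableEq V] [Fintype E] [DecidableEq E] (G : MGraph V E)
    (X M F D : Finset E) (z : V), G.Core X M F D z →
    ∀ T : Finset V, T ⊆ G.vx X → z ∉ T → (∀ g ∈ M, (∃ v ∈ G.ends g, v ∈ T) → ∀ v ∈ G.ends g, v ∈ T) →
      ((X \ M) ∩ G.cut T).card ≤ 2 → (∀ D', D' ⊆ G.ins X T → ¬ G.IsAC M D') → T = ∅

/-- C2 (the cut of a marked edge).  `t` marked, `f` one of the two edges at `z`: there are `P` and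
`g ∈ M` with `X ∩ cut P = {f, t, g}`, `z ∉ P`.  Proof: Kotzig for `X \ star z \ {t}` and `M` (no
alternating circuit by `m1`): `g`, `S`; `P = S ∩ (vx X \ {z})`; the E-edges in `cut P` are among
`t` and the two edges `f, f'` at `z`, their number is even (C1a): `{}` and `{f, f'}` contradict
C1b (for `P`, resp. `P ∪ {z}`); `{t, f}` is the claim; `{t, f'}`: take `(vx X \ {z}) \ P`. -/
def S_C2 : Prop :=
  ∀ (V E : Type) [Fintype V] [DecidableEq V] [Fintype E] [DecidableEq E] (G : MGraph V E)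
    (X M F D : Finset E) (z : V), G.Core X M F D z → ∀ t ∈ F, ∀ f ∈ X, z ∈ G.ends f →
    ∃ (P : Finset V) (g : E), P ⊆ G.vx X ∧ z ∉ P ∧ g ∈ M ∧ X ∩ G.cut P = {f, t, g} ∧ t ≠ f

/-- C3 (peeling step).  `R` has the three leaving edges `f` (at `z`), `e` (weight 1) and `b ∈ M`, and
some marked edge is not inside `R`.  Then either `R` is one vertex, or: `b` leaves at `u`, `e` at
`n`, `u ≠ n`, `d = n u` and `e₁` (at `u`) are the E-edges of `u`, `b'` is the matching edge of
`n`, and `R₁ = R \ {u, n}` has the leaving edges `f, e₁, b'`.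
Proof.  No alternating circuit in `R` or any `T ⊆ R` (`m1`: such a circuit avoids `z` and misses
the marked edge).  Let `|R| ≥ 2`, `u ∈ R` the end of `b`.  `R \ {u}` is closed under `M`.
* `u` is not an end of `f` or `e`: otherwise `e(R \ {u}) ≤ 2` (the E-edges of `u`: one leaves
  `R`), so `R \ {u} = ∅` by C1c.
* So `e(R \ {u}) ≤ 4` (`f, e` and the two E-edges `e₁, e₂` of `u`).  Kotzig for `ins X (R \ {u})`:
  `b' ∈ M` and `R \ {u} = C₁ ⊔ C₂`, no E-edge between them, only `b'`; `e(C_i)` even; 0 is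
  impossible (C1b), so both are 2.  Let `C₁` contain the end of `f`.
* If `e` also leaves from `C₁`: `Z = C₂ ∪ {u}` has `X ∩ cut Z = {b, b'}`, `e(Z) = 0`.  By `c4` some
  marked `t'` is inside `Z` (`|Z| ≥ 2`).  C2 for `t'`, `f`: `P'` with E-cut `{f, t'}`; the E-edges
  leaving `Z ∩ P'` are: `t'` only (`f` has its end in `C₁`).  Odd: contradiction to C1a.
* So `C₁` has the E-edges `f` and `e₁`, `C₂` has `e` and `e₂` (rename).  If a marked `t'` is inside
  `C₂`: `P', g'` from C2 for `t'`, `f`.  `e(C₂ ∩ P')` is even, so exactly one of `e, e₂` has its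
  `C₂`-end in `P'`.  If `g'` is not inside `C₂`, then the one of `C₂ ∩ P'`, `C₂ \ P'` that does not
  contain the end of `b'` is closed under `M` with two leaving E-edges: contradiction to C1c (it
  is non-empty, it contains an end of `t'`).  If `g'` is inside `C₂`: of `P' \ C₂` and
  `(vx X \ {z}) \ P' \ C₂` one is not met by `b'`; it is closed under `M`, has two leaving E-edges
  (one at `z`, one of `e, e₂`), it contains no alternating circuit (such a circuit would miss
  `t'`), and it is non-empty: contradiction to C1c.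
* So no marked edge is inside `C₂` and `X ∩ cut C₂ = {e, e₂, b'}`: `|C₂| = 1` by `c4`.  `C₂ = {n}`,
  `d = e₂`. -/
def S_C3 : Prop :=
  ∀ (V E : Type) [Fintype V] [DecidableEq V] [Fintype E] [DecidableEq E] (G : MGraph V E)
    (X M F D : Finset E) (z : V), G.Core X M F D z → ∀ (R : Finset V) (f e b : E),
    R ⊆ G.vx X → z ∉ R → z ∈ G.ends f → e ∈ X \ M → e ≠ f → b ∈ M → X ∩ G.cut R = {f, e, b} →
    (∃ t ∈ F, t ∉ G.ins X R) → 2 ≤ R.card →
    ∃ (u n : V) (d e₁ b' : E), u ∈ R ∧ n ∈ R ∧ u ≠ n ∧ u ∈ G.ends b ∧ n ∈ G.ends e ∧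
      u ∉ G.ends f ∧ n ∉ G.ends f ∧
      d ∈ X \ M ∧ G.ends d = s(n, u) ∧ d ≠ e₁ ∧ e₁ ∈ X \ M ∧ u ∈ G.ends e₁ ∧ e₁ ≠ f ∧
      b' ∈ M ∧ n ∈ G.ends b' ∧ X ∩ G.cut (R \ {u, n}) = {f, e₁, b'}

/-- C4 (half ladder), by strong induction on `|R|` from C3.  If `|R| = 1` all three edges of the
vertex are `f, e, b` (`k = 0`).  Otherwise C3 and the induction hypothesis for `R \ {u, n}` with
`e₁, b'` (`q₁ 0` is the end of `e₁`, `q₁ (min 1 (2 k₁))` the end of `b'`): `k = k₁ + 1`,
`q 0 = n`, `q 1 = u`, `q (j + 2) = q₁ j`, `s 0 = d`, `s 1 = e₁`, `s (j+2) = s₁ j`, `c 0 = b'`,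
`c (i+1) = c₁ i`.  (The marked edge not inside `R` is not inside `R \ {u, n}`.) -/
def S_C4 : Prop :=
  ∀ (V E : Type) [Fintype V] [DecidableEq V] [Fintype E] [DecidableEq E] (G : MGraph V E)
    (X M F D : Finset E) (z : V), G.Core X M F D z → ∀ (R : Finset V) (f e b : E),
    R ⊆ G.vx X → z ∉ R → z ∈ G.ends f → f ∈ X → e ∈ X \ M → e ≠ f → b ∈ M →
    X ∩ G.cut R = {f, e, b} → (∃ t ∈ F, t ∉ G.ins X R) →
    ∃ (k : ℕ) (q : ℕ → V) (s c : ℕ → E), G.Half X M R z f e b k q s c

/-- C5a (assembly).  Take a marked `t` (`F` is non-empty by `c4` for `P = vx X`), the two edges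
`f₁ ≠ f₂` at `z`, `P, g` from C2 (for `f₁`), `P' = (vx X \ {z}) \ P` (leaving edges `f₂, t, g`;
`t` is not at `z` since `t ∈ D`), half ladders `(k, q, s, c)` of `P` with `f₁` and
`(k', q', s', c')` of `P'` with `f₂` (C4; `t` is not inside).
Numbering: `m = k + k' + 1`, `p i = q' (2k' - i)` for `i ≤ 2k'`, `p (2k' + 1 + j) = q j`;
`a i = s' (2k' - 1 - i)` for `i < 2k'`, `a (2k') = t`, `a (2k' + 1 + j) = s j`;
`c j = c' (k' - 1 - j)` for `j < k'`, `c k' = g`, `c (k' + 1 + i) = c i`; `e0 = f₂`, `e1 = f₁`.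
`all`: every vertex of `X` other than `z` has degree 3 and has three listed edges. -/
def S_C5a : Prop :=
  ∀ (V E : Type) [Fintype V] [DecidableEq V] [Fintype E] [DecidableEq E] (G : MGraph V E)
    (X M F D : Finset E) (z : V), G.Core X M F D z →
    ∃ (m : ℕ) (p : ℕ → V) (a c : ℕ → E) (e0 e1 : E), G.ZigS X M z m p a c e0 e1 ∧
      ∃ i < m, a (2 * i) ∈ F

/-- C5b (the circuit and the marks).  The cut of `{p 0, .., p (2l)}` is `{e0, a (2l), c l}` and `D`
is even and avoids `z`, so `a (2l) ∈ D ↔ c l ∈ D`; `a (2l) ∈ D` gives at its two ends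
`c (l+1) ∈ D`, `a (2l+1) ∉ D` and `c (l-1) ∈ D`, `a (2l-1) ∉ D`; start with the marked
`a (2i) ∈ D` (`m1`).  Marks: `F ⊆ D` (`m1`) and `F` avoids `M`, so all marked edges are even arcs;
`m ≥ 2`: otherwise `c4` fails for `P = {z, p 0, p 1}`; `a 0` is marked by `c4` for
`{p 0, p 1, p 2}`, `a (2m-2)` by `c4` for the last three points. -/
def S_C5b : Prop :=
  ∀ (V E : Type) [Fintype V] [DecidableEq V] [Fintype E] [DecidableEq E] (G : MGraph V E)
    (X M F D : Finset E) (z : V), G.Core X M F D z →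
    ∀ (m : ℕ) (p : ℕ → V) (a c : ℕ → E) (e0 e1 : E), G.ZigS X M z m p a c e0 e1 →
      (∃ i < m, a (2 * i) ∈ F) →
      G.Zig X M D z m p a c e0 e1 ∧ a 0 ∈ F ∧ a (2 * m - 2) ∈ F ∧ ∀ e ∈ F, ∃ i < m, e = a (2 * i)

end Pool.GOZ
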