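import Pool.Agent.GOZ.DefsE

/-!
Theorem Z, part E (exchange) and the final statement: statements and proofs.
-/

set_option autoImplicit false

namespace Pool.GOZ

open Pool.GOD Pool.GOD.MGraph

/-- E1.  `Y = ((X \ M) \ D) ∪ (M ∩ D)` has degree 2 at every vertex of `X` (outside `D`: the two
edges of weight 1; on `D`: the edge of `M` is in `D`, exactly one edge of weight 1 is not in `D`),
so it is even and `Y ⊆ rst X M D`; hence (an even set has an even intersection with every cut) no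
edge of `Y` is a bridge of `rst X M D`.  The other edges of `rst X M D` are those of `M \ D`. -/
def S_E1 : Prop :=
  ∀ (V E : Type) [Fintype V] [DecidableEq V] [Fintype E] [DecidableEq E] (G : MGraph V E)
    (X M D : Finset E), G.CM X M → D ⊆ X → G.IsAC M D →
    (∀ v, G.deg (((X \ M) \ D) ∪ (M ∩ D)) v = 0 ∨ G.deg (((X \ M) \ D) ∪ (M ∩ D)) v = 2) ∧
    (∀ g, G.IsBridge (rst X M D) g → g ∈ M ∧ g ∉ D) ∧
    (∀ g ∈ rst X M D, (g ∉ M ∨ g ∈ D) → ∀ a b, G.ends g = s(a, b) → G.Tc (rst X M D) a b) ∧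
    (∀ v, G.deg D v = 2 → ∀ g ∈ M, v ∈ G.ends g → g ∈ D)

/-- E2.  General facts on `Tc` and `tcc`.  For (5) (an edge of `tcc` leaving it is a bridge) use
the definition of a bridge and transitivity.  For (6): a walk of `H.erase e` from `u0` to `a` which
leaves `W = tcc H u0` by an edge `g` (a bridge by (5)) has to come back by the same edge `g`
(otherwise `g` is not a bridge, since two vertices of `W` are connected in `H.erase g`), so the
excursion can be cut off.  Alternatively: let `S` be the component of `u0` in `(ins H W).erase e`,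
`a ∈ W \ S`, and let `S'` be `S` together with the vertices outside `W` which are connected to `S`
in `H` without vertices of `W \ S`...; the walk in `H.erase e` from `u0` to `a` crosses `S'`. -/
def S_E2 : Prop :=
  ∀ (V E : Type) [Fintype V] [DecidableEq V] [Fintype E] [DecidableEq E] (G : MGraph V E),
    (∀ (H : Finset E) (a : V), G.Tc H a a) ∧
    (∀ (H : Finset E) (a b : V), G.Tc H a b → G.Tc H b a) ∧
    (∀ (H : Finset E) (a b c : V), G.Tc H a b → G.Tc H b c → G.Tc H a c) ∧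
    (∀ (H H' : Finset E) (a b : V), H ⊆ H' → G.Tc H a b → G.Tc H' a b) ∧
    (∀ (H : Finset E) (u0 x y : V) (g : E), g ∈ H → G.ends g = s(x, y) → x ∈ G.tcc H u0 →
      y ∉ G.tcc H u0 → G.IsBridge H g) ∧
    (∀ (H : Finset E) (u0 a : V), a ∈ G.tcc H u0 → G.Tc (G.ins H (G.tcc H u0)) u0 a)

/-- E3.  The parts.  `W = hub`.  (1) the parts are nonempty, disjoint from `W`, pairwise disjoint
and cover `vx X \ W` (`comp` of `outE` is an equivalence; a vertex of `W` is isolated in `outE`);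
(2) the edge of weight 1 of `rst` at `u0` is not a bridge (E1), so `2 ≤ |W|`; (3) an edge `g` of
`rst` leaving the part `P` goes to `W` (otherwise it is in `outE`) and it is a bridge (E2.5), so
`g ∈ M \ D` (E1); there is at most one: for two such edges `g = x w`, `g' = x' w'` (`w, w' ∈ W`,
`x, x' ∈ P`) we get `w' ~ w` in `rst.erase g` (both in `W`), `x ~ x'` inside `outE`, so `g` would
not be a bridge; (4) `D` meets `P`: otherwise `X ∩ cut P = rst ∩ cut P` has at most one edge, so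
by `C4` `|P| ≤ 1` or `|vx X \ P| ≤ 1`; the latter is impossible by (2), the former since the three
edges of `X` at the vertex would all be in the cut; (5) edges of `M ∩ D` are in `rst` and not
bridges, so by (3) they do not leave `P`; (6), (7) follow from (3) and `rst = X \ (D \ M)`. -/
def S_E3 : Prop :=
  ∀ (V E : Type) [Fintype V] [DecidableEq V] [Fintype E] [DecidableEq E] (G : MGraph V E)
    (X M U D : Finset E) (u0 : V), G.Anc X M U u0 → G.Fam X M U D →
    2 ≤ (G.hub X M D u0).card ∧ G.hub X M D u0 ⊆ G.vx X ∧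
    (∀ v ∈ G.vx X, v ∉ G.hub X M D u0 → ∃ P ∈ G.parts X M D u0, v ∈ P) ∧
    (∀ P ∈ G.parts X M D u0, ∀ Q ∈ G.parts X M D u0, P ≠ Q → Disjoint P Q) ∧
    ∀ P ∈ G.parts X M D u0,
      P.Nonempty ∧ P ⊆ G.vx X \ G.hub X M D u0 ∧
      (∀ g ∈ rst X M D ∩ G.cut P, g ∈ M ∧ g ∉ D ∧
        ∃ w ∈ G.hub X M D u0, ∃ z ∈ P, G.ends g = s(w, z) ∧ G.deg D z = 0) ∧
      (rst X M D ∩ G.cut P).card ≤ 1 ∧
      (∃ v ∈ P, G.deg D v = 2) ∧
      (∀ g ∈ M ∩ D, (∃ v ∈ G.ends g, v ∈ P) → ∀ v ∈ G.ends g, v ∈ P) ∧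
      (∀ e ∈ X, (∃ v ∈ G.ends e, v ∈ P) → e ∈ D ∪ G.ins X P ∨ e ∈ rst X M D ∩ G.cut P) ∧
      (∀ a b, a ∈ P → b ∈ P → G.ConnIn (G.outE (rst X M D) (G.hub X M D u0)) a b)

/-- E4a.  `D'` contains all edges of `D` in `cut P`; then it contains all edges of `D` outside `P`:
`B = (D \ ins X P) \ D'` is even (degree `deg D v - deg D' v ∈ {0, 2}` outside `P`, 0 in `P`) and
a proper subset of the circuit `D` (some vertex of `P` is on `D`), so it is empty. -/
def S_E4a : Prop :=
  ∀ (V E : Type) [Fintype V] [DecidableEq V] [Fintype E] [DecidableEq E] (G : MGraph V E)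
    (X M D D' : Finset E) (P : Finset V), G.IsAC M D → G.IsAC M D' → D ⊆ X →
    D' ⊆ D ∪ G.ins X P → (∃ v ∈ P, G.deg D v = 2) → D ∩ G.cut P ⊆ D' → D \ G.ins X P ⊆ D'

/-- E4p (potential lemma, pure).  Choose for every `Q ∈ A \ {P}` a member `φ Q ⊇ Q` of `B` with
`φ Q₁ = Q'`.  For a member `T` of the image, `|T| ≥ ∑ |Q|` over the fiber (disjoint), one more for
`T = Q'`; use `3^(a+b) ≥ 3^a + 3^b` and `3^(|Q₁|+1) ≥ 3^|Q₁| + 2·3^|P|`. -/
def S_E4p : Prop :=
  ∀ (V : Type) [Fintype V] [DecidableEq V] (A B : Finset (Finset V)) (P : Finset V), P ∈ A →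
    (∀ Q ∈ A, Q.Nonempty) → (∀ Q ∈ A, ∀ Q' ∈ A, Q ≠ Q' → Disjoint Q Q') →
    (∀ Q ∈ A, P.card ≤ Q.card) → (∀ Q ∈ A, Q ≠ P → ∃ T ∈ B, Q ⊆ T) →
    ∀ Q₁ ∈ A, Q₁ ≠ P → ∀ T ∈ B, Q₁ ⊆ T → ∀ v ∈ P, v ∈ T →
    ∑ Q ∈ A, 3 ^ Q.card < ∑ T ∈ B, 3 ^ T.card

/-- E4 (exchange).  `D` optimal, `P` a smallest part, `D'` an alternating circuit inside
`D ∪ ins X P`.  Then `D'` contains all edges of `D` outside `P`.
Proof.  All vertices of `U` are in the hub `W` (`U ⊆ rst`, monotonicity of `Tc`), so no edge of `U`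
is inside `P` and `D'` is in `Fam`.  `ins (rst X M D) W ⊆ rst X M D'`, so (E2.6) `W ⊆ hub D'`, so
`hub D' = W` (`maxW`).  By E4a it is enough to show `D ∩ cut P ⊆ D'`.  Let `d = v w ∈ D`, `v ∈ P`,
`w ∉ P`, `d ∉ D'`.  `d ∉ M` (E3), so `d ∈ rst X M D'` and `Tc` of its ends holds there (E1).  If
`w ∈ W` then `v ∈ hub D' = W`, contradiction.  Otherwise `w ∈ Q₁`, a part `≠ P` of `D`.  All parts
`Q ≠ P` of `D` are inside parts of `D'` (edges of `rst X M D` not inside `P` are in
`rst X M D'`), and the part of `D'` of `w` contains `Q₁` and `v`.  E4p contradicts `maxP`. -/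
def S_E4 : Prop :=
  ∀ (V E : Type) [Fintype V] [DecidableEq V] [Fintype E] [DecidableEq E] (G : MGraph V E)
    (X M U D D' : Finset E) (u0 : V) (P : Finset V), G.Anc X M U u0 → G.Opt X M U D u0 →
    P ∈ G.parts X M D u0 → (∀ Q ∈ G.parts X M D u0, P.card ≤ Q.card) →
    D' ⊆ D ∪ G.ins X P → G.IsAC M D' → D \ G.ins X P ⊆ D'

/-- C6 (no unrooted core).  `c4` for `P = vx X` (at least 2 vertices, `D` is a circuit) gives
`t ∈ F`.  No alternating circuit of `X` avoids `t`, so Kotzig (`t_Kotzig`) for `X \ {t}` and `M`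
gives `g ∈ M` and `S` with `X ∩ cut S ⊆ {g, t}`.  The number of edges of weight 1 in `cut S` is
even (every vertex has two), so `X ∩ cut S = {g}`.  `D` is even, so it avoids `g` and lives on one
side of `S`, as `F ⊆ D` (`m1`); the other side `R` (nonempty) has no marked edge inside, so `c4`
gives `|R| = 1`, but then the cut has 3 edges. -/
def S_C6 : Prop :=
  ∀ (V E : Type) [Fintype V] [DecidableEq V] [Fintype E] [DecidableEq E] (G : MGraph V E)
    (X M F D : Finset E), G.Core0 X M F D → False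

/-- E5 (the suppressed graph is a core).  `P` is a smallest part of the optimal circuit `D`,
`G', X', run` is a suppression of `D ∪ ins X P` to `K = P` (S2).  With `M' = M ∩ X'`,
`F = {e ∈ X' | run e ≠ {e}}`, `D' = D ∩ X'` we have: if `rst ∩ cut P = {f}` and `z ∈ P` is the end
of `f`, then `Core`; if `rst ∩ cut P = ∅` then `Core0`.
* degrees: at `v ∈ P` all edges of `X` except `f` are in `D ∪ ins X P` (E3), T1 gives the degrees
  in `G'`; the matching edge of `v` is its own run (`SupM`), T1 for `M ∩ X'`.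
* `D ∩ X'`: T5 and T4 (note that `IsAC M` and `IsAC (M ∩ X')` are the same for subsets of `X'`).
* `m1`: the lift of an alternating circuit `C'` is an alternating circuit in `D ∪ ins X P` (T4), so
  it contains `D \ ins X P` (E4); a marked `e` has in its run an edge of `D` at a vertex outside
  `P`, which is in the lift of `C'`, so `e ∈ C'` (uniqueness in `Sup.part`).
* `c4`: for `Q ⊆ P`: `X ∩ cut Q = (D ∪ ins X P) ∩ cut Q`, plus `f` if `z ∈ Q`; T6 and `C4 X`
  (`2 ≤ |Q|`, `2 ≤ |W| ≤ |vx X \ Q|`). -/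
def S_E5 : Prop :=
  ∀ (V E : Type) [Fintype V] [DecidableEq V] [Fintype E] [DecidableEq E] (G : MGraph V E)
    (X M U D : Finset E) (u0 : V) (P : Finset V), G.Anc X M U u0 → G.Opt X M U D u0 →
    P ∈ G.parts X M D u0 → (∀ Q ∈ G.parts X M D u0, P.card ≤ Q.card) →
    ∀ (G' : MGraph V E) (X' : Finset E) (run : E → Finset E),
    G.Sup G' (D ∪ G.ins X P) X' P run → G.SupM G' M X' P run →
    (∀ e ∈ X', run e ≠ {e} → run e ⊆ D ∧ ∃ v, v ∉ P ∧ G.deg (run e) v = 2) →
    (rst X M D ∩ G.cut P = ∅ →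
      G'.Core0 X' (M ∩ X') (X'.filter (fun e => run e ≠ {e})) (D ∩ X')) ∧
    ∀ (f : E) (z : V), rst X M D ∩ G.cut P = {f} → z ∈ P → z ∈ G.ends f →
      G'.Core X' (M ∩ X') (X'.filter (fun e => run e ≠ {e})) (D ∩ X') z

/-- E6 (translation back).  From the zigzag in the suppressed graph to the zigzag end: `R i` is the
run of `a (2i)`, the new `a i` is the old `a (2i+1)` (it is not in `D`, so it is not marked: it is
its own run and keeps its ends), the same for `e0`, `e1`, chords are edges of `M`. `P` is the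
vertex set of `X'` (`all` and the degrees: every vertex of `P` is met by an edge of `X'`). -/
def S_E6 : Prop :=
  ∀ (V E : Type) [Fintype V] [DecidableEq V] [Fintype E] [DecidableEq E] (G : MGraph V E)
    (X M U D : Finset E) (u0 : V) (P : Finset V), G.Anc X M U u0 → G.Fam X M U D →
    P ∈ G.parts X M D u0 →
    ∀ (G' : MGraph V E) (X' : Finset E) (run : E → Finset E),
    G.Sup G' (D ∪ G.ins X P) X' P run → G.SupM G' M X' P run →
    (∀ e ∈ X', run e ≠ {e} → run e ⊆ D ∧ ∃ v, v ∉ P ∧ G.deg (run e) v = 2) →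
    ∀ (f : E) (z : V), rst X M D ∩ G.cut P = {f} → z ∈ P → z ∈ G.ends f →
    ∀ (m : ℕ) (p : ℕ → V) (a c : ℕ → E) (e0 e1 : E),
      G'.Zig X' (M ∩ X') (D ∩ X') z m p a c e0 e1 →
      a 0 ∈ X'.filter (fun e => run e ≠ {e}) →
      a (2 * m - 2) ∈ X'.filter (fun e => run e ≠ {e}) →
      (∀ e ∈ X'.filter (fun e => run e ≠ {e}), ∃ i < m, e = a (2 * i)) →
      G.ZEnd X M D P z f m p (fun i => a (2 * i + 1)) c e0 e1 (fun i => run (a (2 * i)))

/-- E0 (existence of optimal circuits). -/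
def S_E0 : Prop :=
  ∀ (V E : Type) [Fintype V] [DecidableEq V] [Fintype E] [DecidableEq E] (G : MGraph V E)
    (X M U : Finset E) (u0 : V), (∃ D, G.Fam X M U D) → ∃ D, G.Opt X M U D u0

/-- THEOREM Z.  For an optimal circuit `D` either the hub contains all vertices of `X` or every
smallest part is a zigzag end. -/
def S_Z : Prop :=
  ∀ (V E : Type) [Fintype V] [DecidableEq V] [Fintype E] [DecidableEq E] (G : MGraph V E)
    (X M U D : Finset E) (u0 : V), G.Anc X M U u0 → G.Opt X M U D u0 →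
    ∀ P ∈ G.parts X M D u0, (∀ Q ∈ G.parts X M D u0, P.card ≤ Q.card) →
      ∃ (z : V) (f : E) (m : ℕ) (p : ℕ → V) (a c : ℕ → E) (e0 e1 : E) (R : ℕ → Finset E),
        G.ZEnd X M D P z f m p a c e0 e1 R

/-- Theorem Z, second form.  If the hub contains all vertices then `D` is removable
(E2.5: a bridge would separate its ends; both are in the hub). -/
def S_Z2 : Prop :=
  ∀ (V E : Type) [Fintype V] [DecidableEq V] [Fintype E] [DecidableEq E] (G : MGraph V E)
    (X M U D : Finset E) (u0 : V), G.Anc X M U u0 → G.Opt X M U D u0 →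
    G.Rem X M D ∨ ∃ P ∈ G.parts X M D u0, (∀ Q ∈ G.parts X M D u0, P.card ≤ Q.card) ∧
      ∃ (z : V) (f : E) (m : ℕ) (p : ℕ → V) (a c : ℕ → E) (e0 e1 : E) (R : ℕ → Finset E),
        G.ZEnd X M D P z f m p a c e0 e1 R

end Pool.GOZ
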