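import Pool.Agent.GOZ.StmtsS

/-!
Theorem Z, part S: T1 (degrees under suppression).
-/

set_option autoImplicit false
set_option linter.unusedSectionVars false

namespace Pool.GOZ

open Pool.GOD Pool.GOD.MGraph

namespace T1x

variable {V E : Type} [Fintype V] [DecidableEq V] [Fintype E] [DecidableEq E] {G G' : MGraph V E}
  {X X' : Finset E} {K : Finset V} {run : E → Finset E}

/-- the runs are pairwise disjoint -/
lemma run_disjoint (h : G.Sup G' X X' K run) {e e' : E} (he : e ∈ X') (he' : e' ∈ X')
    (hne : e ≠ e') : Disjoint (run e) (run e') := by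
  rw [Finset.disjoint_left]
  intro f hf hf'
  obtain ⟨e₀, -, hu⟩ := h.part f (h.runsub e he hf)
  exact hne ((hu e ⟨he, hf⟩).trans (hu e' ⟨he', hf'⟩).symm)

/-- degrees of a lift -/
lemma deg_lft (h : G.Sup G' X X' K run) {C' : Finset E} (hC : C' ⊆ X') (v : V) :
    G.deg (lft run C') v = ∑ e ∈ C', G.deg (run e) v := by
  unfold deg lft
  rw [Finset.filter_biUnion, Finset.card_biUnion]
  intro e he e' he' hne
  exact Finset.disjoint_filter_filter (run_disjoint h (hC he) (hC he') hne)

/-- degree of a run at a kept vertex -/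
lemma deg_run_K (h : G.Sup G' X X' K run) {e : E} (he : e ∈ X') {v : V} (hv : v ∈ K) :
    G.deg (run e) v = if v ∈ G'.ends e then 1 else 0 := by
  split_ifs with hve
  · obtain ⟨x, y, -, hxy⟩ := G'.exists_ends e
    have hp := h.path e he x y hxy
    rw [hxy, Sym2.mem_iff] at hve
    rcases hve with rfl | rfl
    · exact hp.dx
    · exact hp.dy
  · exact h.innerK e he v hv hve

/-- degree of a run at a suppressed vertex -/
lemma deg_run_notK (h : G.Sup G' X X' K run) {e : E} (he : e ∈ X') {v : V} (hv : v ∉ K) :
    G.deg (run e) v = 0 ∨ G.deg (run e) v = 2 := by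
  obtain ⟨x, y, -, hxy⟩ := G'.exists_ends e
  have hp := h.path e he x y hxy
  refine hp.deg v ?_ ?_
  · rintro rfl
    exact hv (h.kept e he v (by rw [hxy]; exact Sym2.mem_mk_left v y))
  · rintro rfl
    exact hv (h.kept e he v (by rw [hxy]; exact Sym2.mem_mk_right x v))

end T1x

open T1x

theorem t_T1 : S_T1 := by
  intro V E _ _ _ _ G G' X X' K run h C' hC
  refine ⟨?_, ?_, ?_, ?_, ?_⟩
  · intro v hv
    rw [deg_lft h hC, Finset.sum_congr rfl (fun e he => deg_run_K h (hC he) hv),
      ← Finset.card_filter]
    rfl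
  · intro v hv
    rw [deg_lft h hC]
    by_cases h0 : ∃ e ∈ C', G.deg (run e) v ≠ 0
    · obtain ⟨e, he, hev⟩ := h0
      right
      rw [Finset.sum_eq_single_of_mem e he]
      · rcases deg_run_notK h (hC he) hv with h1 | h1
        · exact absurd h1 hev
        · exact h1
      · intro e' he' hne
        by_contra hcon
        exact hne (h.inner v hv e' (hC he') e (hC he) hcon hev)
    · push Not at h0
      left
      exact Finset.sum_eq_zero h0
  · intro v hv
    unfold deg
    rw [Finset.card_eq_zero, Finset.filter_eq_empty_iff]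
    intro e he hve
    exact hv (h.kept e (hC he) v hve)
  · intro f hf
    rw [lft, Finset.mem_biUnion] at hf
    obtain ⟨e, he, hf⟩ := hf
    exact h.runsub e (hC he) hf
  · ext f
    rw [lft, Finset.mem_biUnion]
    constructor
    · rintro ⟨e, he, hf⟩
      exact h.runsub e he hf
    · intro hf
      obtain ⟨e, ⟨he, hfe⟩, -⟩ := h.part f hf
      exact ⟨e, he, hfe⟩

end Pool.GOZ
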