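import Pool.Agent.GOZ.StmtsS

/-!
Theorem Z, part S: T2, connectivity of lifts.
-/

set_option autoImplicit false
set_option linter.unusedSectionVars false

namespace Pool.GOZ

open Pool.GOD Pool.GOD.MGraph

namespace T2

variable {V E : Type} [Fintype V] [DecidableEq V] [Fintype E] [DecidableEq E]
  {G G' : MGraph V E} {X X' : Finset E} {K : Finset V} {run : E → Finset E}

theorem deg_ne {D : Finset E} {e : E} {v : V} (he : e ∈ D) (hv : v ∈ G.ends e) :
    G.deg D v ≠ 0 := by
  have h : 0 < G.deg D v := (deg_pos_iff (G := G)).2 ⟨e, he, hv⟩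
  omega

theorem run_sub {C' : Finset E} {e : E} (he : e ∈ C') : run e ⊆ lft run C' :=
  Finset.subset_biUnion_of_mem run he

theorem conn_run (h : G.Sup G' X X' K run) {C' : Finset E} (hC : C' ⊆ X') {e : E} (he : e ∈ C')
    {a b v : V} (hab : G'.ends e = s(a, b)) (hv : G.deg (run e) v ≠ 0) :
    G.ConnIn (lft run C') a v :=
  ConnIn.mono (G := G) (run_sub he) ((h.path e (hC he) a b hab).conn v hv)

theorem forward (h : G.Sup G' X X' K run) {C' : Finset E} (hC : C' ⊆ X') {x y : V}
    (hxy : G'.ConnIn C' x y) : G.ConnIn (lft run C') x y := by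
  induction hxy with
  | refl => exact ConnIn.refl (G := G) _ _
  | tail _ hbc ih =>
    obtain ⟨e, he, hab⟩ := hbc
    refine ConnIn.trans (G := G) ih (conn_run h hC he hab ?_)
    rw [(h.path e (hC he) _ _ hab).dy]
    exact one_ne_zero

theorem backward (h : G.Sup G' X X' K run) {C' : Finset E} (hC : C' ⊆ X') {x y : V}
    (hx : x ∈ K) (hxy : G.ConnIn (lft run C') x y) :
    (y ∈ K → G'.ConnIn C' x y) ∧ (y ∉ K → ∀ e ∈ C', G.deg (run e) y ≠ 0 →
      ∀ u ∈ G'.ends e, G'.ConnIn C' x u) := by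
  induction hxy with
  | refl => exact ⟨fun _ => ConnIn.refl (G := G') _ _, fun h0 => absurd hx h0⟩
  | @tail a b _ hbc ih =>
    obtain ⟨f, hf, hab⟩ := hbc
    unfold lft at hf
    rw [Finset.mem_biUnion] at hf
    obtain ⟨e, he, hfe⟩ := hf
    have ha : G.deg (run e) a ≠ 0 := deg_ne hfe (by rw [hab]; exact Sym2.mem_mk_left a b)
    have hb : G.deg (run e) b ≠ 0 := deg_ne hfe (by rw [hab]; exact Sym2.mem_mk_right a b)
    have hall : ∀ u ∈ G'.ends e, G'.ConnIn C' x u := by
      by_cases haK : a ∈ K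
      · have hae : a ∈ G'.ends e := by
          by_contra h0
          exact ha (h.innerK e (hC he) a haK h0)
        intro u hu
        have h1 := ih.1 haK
        by_cases hua : u = a
        · rwa [hua]
        · have h2 : G'.ends e = s(a, u) := (Sym2.mem_and_mem_iff (Ne.symm hua)).1 ⟨hae, hu⟩
          exact ConnIn.trans (G := G') h1 (ConnIn.single (G := G') he h2)
      · exact ih.2 haK e he ha
    refine ⟨fun hbK => ?_, fun hbK e₁ he₁ h1 => ?_⟩
    · refine hall b ?_
      by_contra h0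
      exact hb (h.innerK e (hC he) b hbK h0)
    · have h2 := h.inner b hbK e₁ (hC he₁) e (hC he) h1 hb
      rw [h2]
      exact hall

end T2

theorem t_T2 : S_T2 := by
  intro V E _ _ _ _ G G' X X' K run h C' hC
  refine ⟨fun x y hxy => T2.forward h hC hxy, fun x hx y hy hxy => (T2.backward h hC hx hxy).1 hy,
    fun v hv hd => ?_⟩
  have h0 : 0 < G.deg (lft run C') v := Nat.pos_of_ne_zero hd
  rw [deg_pos_iff] at h0
  obtain ⟨f, hf, hvf⟩ := h0
  unfold lft at hf
  rw [Finset.mem_biUnion] at hf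
  obtain ⟨e, he, hfe⟩ := hf
  obtain ⟨x, y, -, hxy⟩ := G'.exists_ends e
  refine ⟨x, h.kept e (hC he) x (by rw [hxy]; exact Sym2.mem_mk_left x y),
    T2.deg_ne he (by rw [hxy]; exact Sym2.mem_mk_left x y), ?_⟩
  exact T2.conn_run h hC he hxy (T2.deg_ne hfe hvf)

end Pool.GOZ
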