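import Pool.Agent.GOZ.StmtsS
import Pool.Agent.GOZ.T1
import Pool.Agent.GOZ.T2

/-!
Theorem Z, part S: circuits and alternating circuits of the suppressed graph (T3, T4).
-/

set_option autoImplicit false
set_option linter.unusedSectionVars false

namespace Pool.GOZ

open Pool.GOD Pool.GOD.MGraph

theorem t_T3 : S_T3 := by
  intro V E _ _ _ _ G G' X X' K run h C' hC
  obtain ⟨hK, hN, hN', -, -⟩ := t_T1 V E G G' X X' K run h C' hC
  obtain ⟨c1, c2, c3⟩ := t_T2 V E G G' X X' K run h C' hC
  constructor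
  · rintro ⟨hne, hdeg, hconn⟩
    refine ⟨?_, ?_, ?_⟩
    · obtain ⟨e, he⟩ := hne
      exact ⟨e, Finset.mem_biUnion.mpr ⟨e, he, h.self e (hC he)⟩⟩
    · intro v
      by_cases hv : v ∈ K
      · rw [hK v hv]; exact hdeg v
      · exact hN v hv
    · have key : ∀ a, G.deg (lft run C') a = 2 →
          ∃ x, G'.deg C' x = 2 ∧ G.ConnIn (lft run C') x a := by
        intro a ha
        by_cases hv : a ∈ K
        · exact ⟨a, by rw [← hK a hv]; exact ha, ConnIn.refl (G := G) _ _⟩
        · obtain ⟨x, -, hx1, hx2⟩ := c3 a hv (by rw [ha]; norm_num)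
          rcases hdeg x with h0 | h0
          · exact absurd h0 hx1
          · exact ⟨x, h0, hx2⟩
      intro a b ha hb
      obtain ⟨x, hx, hxa⟩ := key a ha
      obtain ⟨y, hy, hyb⟩ := key b hb
      exact ConnIn.trans (G := G) (ConnIn.symm (G := G) hxa)
        (ConnIn.trans (G := G) (c1 x y (hconn x y hx hy)) hyb)
  · rintro ⟨hne, hdeg, hconn⟩
    refine ⟨?_, ?_, ?_⟩
    · obtain ⟨f, hf⟩ := hne
      obtain ⟨e, he, -⟩ := Finset.mem_biUnion.mp hf
      exact ⟨e, he⟩
    · intro v
      by_cases hv : v ∈ K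
      · rw [← hK v hv]; exact hdeg v
      · exact Or.inl (hN' v hv)
    · intro a b ha hb
      have hin : ∀ x, G'.deg C' x = 2 → x ∈ K := by
        intro x hx
        by_contra hx'
        rw [hN' x hx'] at hx
        exact absurd hx (by norm_num)
      exact c2 a (hin a ha) b (hin b hb) (hconn a b (by rw [hK a (hin a ha)]; exact ha)
        (by rw [hK b (hin b hb)]; exact hb))

namespace T34

variable {V E : Type} [Fintype V] [DecidableEq V] [Fintype E] [DecidableEq E] {G G' : MGraph V E}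
  {X X' M : Finset E} {K : Finset V} {run : E → Finset E}

/-- the degree of the matching part of a lift -/
lemma deg_lft_M (h : G.Sup G' X X' K run) {C' : Finset E} (hC : C' ⊆ X') (v : V) :
    G.deg (lft run C' ∩ M) v = ∑ e ∈ C', G.deg (run e ∩ M) v := by
  have h1 : lft run C' ∩ M = C'.biUnion (fun e => run e ∩ M) := by
    ext f
    simp only [lft, Finset.mem_inter, Finset.mem_biUnion]
    constructor
    · rintro ⟨⟨e, he, hf⟩, hM⟩; exact ⟨e, he, hf, hM⟩
    · rintro ⟨e, he, hf, hM⟩; exact ⟨⟨e, he, hf⟩, hM⟩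
  rw [h1]
  unfold MGraph.deg
  rw [Finset.filter_biUnion, Finset.card_biUnion]
  intro e he e' he' hne
  have h2 := T1x.run_disjoint h (hC he) (hC he') hne
  show Disjoint _ _
  rw [Finset.disjoint_left] at h2 ⊢
  intro f hf hf'
  rw [Finset.mem_filter, Finset.mem_inter] at hf hf'
  exact h2 hf.1.1 hf'.1.1

/-- at a kept vertex -/
lemma degM_K (h : G.Sup G' X X' K run) (hm : G.SupM G' M X' K run) {C' : Finset E} (hC : C' ⊆ X')
    {v : V} (hv : v ∈ K) : G.deg (lft run C' ∩ M) v = G'.deg (C' ∩ M) v := by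
  rw [deg_lft_M h hC]
  have h1 : ∀ e ∈ C', G.deg (run e ∩ M) v = if (e ∈ M ∧ v ∈ G'.ends e) then 1 else 0 := by
    intro e he
    by_cases hM : e ∈ M
    · obtain ⟨h2, h3⟩ := hm.m e (hC he) hM
      rw [h2, Finset.singleton_inter_of_mem hM]
      unfold MGraph.deg
      rw [Finset.filter_singleton, ← h3]
      by_cases hve : v ∈ G'.ends e
      · rw [if_pos hve, if_pos ⟨hM, hve⟩, Finset.card_singleton]
      · rw [if_neg hve, if_neg (fun h4 => hve h4.2), Finset.card_empty]
    · rw [hm.e e (hC he) hM v hv, if_neg (fun h4 => hM h4.1)]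
  rw [Finset.sum_congr rfl h1, ← Finset.card_filter]
  unfold MGraph.deg
  congr 1
  ext e
  simp only [Finset.mem_filter, Finset.mem_inter]
  tauto

/-- at a suppressed vertex -/
lemma degM_notK (h : G.Sup G' X X' K run) (hm : G.SupM G' M X' K run) {C' : Finset E}
    (hC : C' ⊆ X') {v : V} (hv : v ∉ K) (h2 : G.deg (lft run C') v = 2) :
    G.deg (lft run C' ∩ M) v = 1 := by
  rw [T1x.deg_lft h hC] at h2
  obtain ⟨e, he, hne⟩ : ∃ e ∈ C', G.deg (run e) v ≠ 0 := by
    by_contra hcon
    push Not at hcon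
    rw [Finset.sum_eq_zero hcon] at h2
    exact absurd h2 (by norm_num)
  have h3 : G.deg (run e) v = 2 := (T1x.deg_run_notK h (hC he) hv).resolve_left hne
  have hM : e ∉ M := by
    intro hM
    obtain ⟨h4, h5⟩ := hm.m e (hC he) hM
    obtain ⟨f, hf, hvf⟩ := (deg_pos_iff (G := G) (X := run e) (v := v)).1 (by omega)
    rw [h4, Finset.mem_singleton] at hf
    subst hf
    exact hv (h.kept f (hC he) v (by rw [h5]; exact hvf))
  rw [deg_lft_M h hC, Finset.sum_eq_single e]
  · exact hm.i e (hC he) hM v hv h3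
  · intro e' he' hne'
    have h6 : G.deg (run e') v = 0 := by
      by_contra h7
      exact hne' (h.inner v hv e' (hC he') e (hC he) h7 hne)
    have h8 := deg_mono (G := G) (Finset.inter_subset_left (s₁ := run e') (s₂ := M)) v
    omega
  · intro h9
    exact absurd he h9

end T34

open T34

theorem t_T4 : S_T4 := by
  intro V E _ _ _ _ G G' X X' M K run h hm C' hC
  obtain ⟨hK, hN, hN', -, -⟩ := t_T1 V E G G' X X' K run h C' hC
  have h3 := t_T3 V E G G' X X' K run h C' hC
  constructor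
  · rintro ⟨hc, ha⟩
    refine ⟨h3.1 hc, ?_⟩
    intro v hv
    by_cases hvK : v ∈ K
    · rw [degM_K h hm hC hvK]
      exact ha v (by rw [← hK v hvK]; exact hv)
    · exact degM_notK h hm hC hvK hv
  · rintro ⟨hc, ha⟩
    refine ⟨h3.2 hc, ?_⟩
    intro v hv
    have hvK : v ∈ K := by
      by_contra hvK
      rw [hN' v hvK] at hv
      exact absurd hv (by norm_num)
    rw [← degM_K h hm hC hvK]
    exact ha v (by rw [hK v hvK]; exact hv)

end Pool.GOZ
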