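import Pool.Agent.GOZ.StmtsS

/-!
Theorem Z, part S: every set with all degrees 0 or 2 is a lift (S_T5).
-/

set_option autoImplicit false

namespace Pool.GOZ

open Pool.GOD Pool.GOD.MGraph

namespace T5

variable {V E : Type} [Fintype V] [DecidableEq V] [Fintype E] [DecidableEq E]

/-- two edges of a run with a common vertex are both in `C` or both outside of `C` -/
lemma key {G G' : MGraph V E} {X X' : Finset E} {K : Finset V} {run : E → Finset E}
    (h : G.Sup G' X X' K run) {C : Finset E} (hC : C ⊆ X)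
    (hd : ∀ v, G.deg C v = 0 ∨ G.deg C v = 2) {e : E} (he : e ∈ X') {f g : E}
    (hf : f ∈ run e) (hfC : f ∈ C) (hg : g ∈ run e) (hgC : g ∉ C) {v : V}
    (hfv : v ∈ G.ends f) (hgv : v ∈ G.ends g) : False := by
  have hfg : f ≠ g := by
    rintro rfl
    exact hgC hfC
  obtain ⟨x, y, hxy, hends⟩ := G'.exists_ends e
  have hp := h.path e he x y hends
  have h2 : 2 ≤ G.deg (run e) v := by
    have h3 : ({f, g} : Finset E) ⊆ (run e).filter (fun e => v ∈ G.ends e) := by
      intro a ha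
      simp only [Finset.mem_insert, Finset.mem_singleton] at ha
      rcases ha with rfl | rfl
      · exact Finset.mem_filter.2 ⟨hf, hfv⟩
      · exact Finset.mem_filter.2 ⟨hg, hgv⟩
    calc 2 = ({f, g} : Finset E).card := (Finset.card_pair hfg).symm
      _ ≤ _ := Finset.card_le_card h3
  have hvx : v ≠ x := by
    rintro rfl
    have := hp.dx
    omega
  have hvy : v ≠ y := by
    rintro rfl
    have := hp.dy
    omega
  have hve : v ∉ G'.ends e := by
    rw [hends, Sym2.mem_iff]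
    rintro (h4 | h4)
    · exact hvx h4
    · exact hvy h4
  have hvK : v ∉ K := by
    intro hK
    have := h.innerK e he v hK hve
    omega
  have hR : G.deg (run e) v = 2 := by
    rcases hp.deg v hvx hvy with h3 | h3
    · omega
    · exact h3
  have hsub : C.filter (fun e => v ∈ G.ends e) ⊆ (run e).filter (fun e => v ∈ G.ends e) := by
    intro a ha
    rw [Finset.mem_filter] at ha ⊢
    refine ⟨?_, ha.2⟩
    obtain ⟨e', ⟨he', hae'⟩, -⟩ := h.part a (hC ha.1)
    have h4 : G.deg (run e') v ≠ 0 := (G.deg_pos_iff.2 ⟨a, hae', ha.2⟩).ne'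
    have h5 : G.deg (run e) v ≠ 0 := by omega
    rw [h.inner v hvK e he e' he' h5 h4]
    exact hae'
  have hCv : G.deg C v = 2 := by
    rcases hd v with h6 | h6
    · have := G.deg_pos_iff.2 ⟨f, hfC, hfv⟩
      omega
    · exact h6
  have heq := Finset.eq_of_subset_of_card_le hsub (by
    change G.deg (run e) v ≤ G.deg C v
    omega)
  have h7 : g ∈ C.filter (fun e => v ∈ G.ends e) := by
    rw [heq]
    exact Finset.mem_filter.2 ⟨hg, hgv⟩
  exact hgC (Finset.mem_filter.1 h7).1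

/-- a run is contained in `C` or disjoint from it -/
lemma dich {G G' : MGraph V E} {X X' : Finset E} {K : Finset V} {run : E → Finset E}
    (h : G.Sup G' X X' K run) {C : Finset E} (hC : C ⊆ X)
    (hd : ∀ v, G.deg C v = 0 ∨ G.deg C v = 2) {e : E} (he : e ∈ X') :
    run e ⊆ C ∨ Disjoint (run e) C := by
  by_contra hcon
  rw [not_or] at hcon
  obtain ⟨h1, h2⟩ := hcon
  obtain ⟨g, hg, hgC⟩ := Finset.not_subset.1 h1
  obtain ⟨f, hf, hfC⟩ := Finset.not_disjoint_iff.1 h2
  obtain ⟨x, y, hxy, hends⟩ := G'.exists_ends e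
  have hp := h.path e he x y hends
  set S : Finset V := Finset.univ.filter (fun v => ∃ a ∈ run e, a ∈ C ∧ v ∈ G.ends a) with hS
  have memS : ∀ v, v ∈ S ↔ ∃ a ∈ run e, a ∈ C ∧ v ∈ G.ends a := by
    intro v
    rw [hS, Finset.mem_filter]
    simp
  have hcut : ∀ a ∈ run e, a ∉ G.cut S := by
    intro a ha hacut
    obtain ⟨p, q, hpq, hab⟩ := G.exists_ends a
    have hpa : p ∈ G.ends a := by rw [hab]; exact Sym2.mem_mk_left p q
    have hqa : q ∈ G.ends a := by rw [hab]; exact Sym2.mem_mk_right p q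
    rcases (G.mem_cut hab).1 hacut with ⟨hp1, hq1⟩ | ⟨hq1, hp1⟩
    · by_cases haC : a ∈ C
      · exact hq1 ((memS q).2 ⟨a, ha, haC, hqa⟩)
      · obtain ⟨b, hb, hbC, hpb⟩ := (memS p).1 hp1
        exact key h hC hd he hb hbC ha haC hpb hpa
    · by_cases haC : a ∈ C
      · exact hp1 ((memS p).2 ⟨a, ha, haC, hpa⟩)
      · obtain ⟨b, hb, hbC, hqb⟩ := (memS q).1 hq1
        exact key h hC hd he hb hbC ha haC hqb hqa
  obtain ⟨p, q, -, hfe⟩ := G.exists_ends f
  obtain ⟨r, s, -, hge⟩ := G.exists_ends g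
  have hpf : p ∈ G.ends f := by rw [hfe]; exact Sym2.mem_mk_left p q
  have hrg : r ∈ G.ends g := by rw [hge]; exact Sym2.mem_mk_left r s
  have cf : G.ConnIn (run e) x p := hp.conn p (G.deg_pos_iff.2 ⟨f, hf, hpf⟩).ne'
  have cg : G.ConnIn (run e) x r := hp.conn r (G.deg_pos_iff.2 ⟨g, hg, hrg⟩).ne'
  have hpS : p ∈ S := (memS p).2 ⟨f, hf, hfC, hpf⟩
  have hrS : r ∉ S := by
    intro hr
    obtain ⟨b, hb, hbC, hrb⟩ := (memS r).1 hr
    exact key h hC hd he hb hbC hg hgC hrb hrg
  obtain ⟨a, ha, hac⟩ := G.exists_cut_of_connIn (cf.symm.trans cg) hpS hrS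
  exact hcut a ha hac

end T5

theorem t_T5 : S_T5 := by
  intro V E _ _ _ _ G G' X X' K run h C hC hd
  refine ⟨?_, fun e he => T5.dich h hC hd he⟩
  ext f
  rw [lft, Finset.mem_biUnion]
  constructor
  · intro hf
    obtain ⟨e, ⟨he, hfe⟩, -⟩ := h.part f (hC hf)
    rcases T5.dich h hC hd he with h1 | h1
    · exact ⟨e, Finset.mem_inter.2 ⟨h1 (h.self e he), he⟩, hfe⟩
    · exact absurd hf (Finset.disjoint_left.1 h1 hfe)
  · rintro ⟨e, he, hfe⟩
    rw [Finset.mem_inter] at he
    rcases T5.dich h hC hd he.2 with h1 | h1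
    · exact h1 hfe
    · exact absurd he.1 (Finset.disjoint_left.1 h1 (h.self e he.2))

end Pool.GOZ
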