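import Pool.Agent.GOZ.StmtsS

/-!
Module T6: cuts of a suppressed graph.
-/

set_option autoImplicit false

namespace Pool.GOZ

open Pool.GOD Pool.GOD.MGraph

namespace T6

variable {V E : Type} [Fintype V] [DecidableEq V] [Fintype E] [DecidableEq E]
  {G G' : MGraph V E} {X X' : Finset E} {K : Finset V} {run : E → Finset E}

/-- an edge of `X` with both ends in `K` is a run -/
theorem run_of_ends (h : G.Sup G' X X' K run)
    (hr : ∀ e ∈ X', run e = {e} ∨ ∃ v, v ∉ K ∧ G.deg (run e) v = 2) {f : E} (hf : f ∈ X)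
    (hK : ∀ v ∈ G.ends f, v ∈ K) : f ∈ X' ∧ run f = {f} ∧ G'.ends f = G.ends f := by
  obtain ⟨e, ⟨he, hfe⟩, -⟩ := h.part f hf
  obtain ⟨a, b, hab, hends⟩ := G.exists_ends f
  have haK : a ∈ K := hK a (by rw [hends]; exact Sym2.mem_mk_left a b)
  have hbK : b ∈ K := hK b (by rw [hends]; exact Sym2.mem_mk_right a b)
  have hda : 0 < G.deg (run e) a :=
    (G.deg_pos_iff).2 ⟨f, hfe, by rw [hends]; exact Sym2.mem_mk_left a b⟩
  have hdb : 0 < G.deg (run e) b :=
    (G.deg_pos_iff).2 ⟨f, hfe, by rw [hends]; exact Sym2.mem_mk_right a b⟩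
  have hae : a ∈ G'.ends e := by
    by_contra hcon
    have := h.innerK e he a haK hcon
    omega
  have hbe : b ∈ G'.ends e := by
    by_contra hcon
    have := h.innerK e he b hbK hcon
    omega
  have hends' : G'.ends e = s(a, b) := (Sym2.mem_and_mem_iff hab).1 ⟨hae, hbe⟩
  have hp := h.path e he a b hends'
  have hrun : run e = {e} := by
    rcases hr e he with h1 | ⟨v, hvK, hv⟩
    · exact h1
    · exfalso
      have hc := hp.conn v (by omega)
      have hvS : v ∉ ({a, b} : Finset V) := by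
        intro hmem
        rw [Finset.mem_insert, Finset.mem_singleton] at hmem
        rcases hmem with rfl | rfl
        · exact hvK haK
        · exact hvK hbK
      obtain ⟨g, hg, hgc⟩ := G.exists_cut_of_connIn hc (S := {a, b}) (by simp) hvS
      obtain ⟨c, d, hcd, hgends⟩ := G.exists_ends g
      have hfg : ∀ z ∈ ({a, b} : Finset V), z ∈ G.ends g → g = f := by
        intro z hz hzg
        have hone : G.deg (run e) z = 1 := by
          rw [Finset.mem_insert, Finset.mem_singleton] at hz
          rcases hz with rfl | rfl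
          · exact hp.dx
          · exact hp.dy
        have hzf : z ∈ G.ends f := by
          rw [hends]
          rw [Finset.mem_insert, Finset.mem_singleton] at hz
          rcases hz with rfl | rfl
          · exact Sym2.mem_mk_left _ _
          · exact Sym2.mem_mk_right _ _
        unfold MGraph.deg at hone
        obtain ⟨r, hr1⟩ := Finset.card_eq_one.1 hone
        have h1 : g ∈ (run e).filter (fun e => z ∈ G.ends e) := Finset.mem_filter.2 ⟨hg, hzg⟩
        have h2 : f ∈ (run e).filter (fun e => z ∈ G.ends e) := Finset.mem_filter.2 ⟨hfe, hzf⟩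
        rw [hr1, Finset.mem_singleton] at h1 h2
        rw [h1, h2]
      have hgf : g = f := by
        rcases (G.mem_cut hgends).1 hgc with ⟨h1, -⟩ | ⟨h1, -⟩
        · exact hfg c h1 (by rw [hgends]; exact Sym2.mem_mk_left _ _)
        · exact hfg d h1 (by rw [hgends]; exact Sym2.mem_mk_right _ _)
      subst hgf
      rcases (G.mem_cut hends).1 hgc with ⟨-, h2⟩ | ⟨-, h2⟩
      · exact h2 (by simp)
      · exact h2 (by simp)
  have hfe' : f = e := by
    rw [hrun, Finset.mem_singleton] at hfe
    exact hfe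
  subst hfe'
  exact ⟨he, hrun, by rw [hends', hends]⟩

/-- the ends of an edge that is a run -/
theorem ends_of_run (h : G.Sup G' X X' K run) {e : E} (he : e ∈ X') (hr : run e = {e}) :
    G'.ends e = G.ends e := by
  obtain ⟨a, b, hab, hends⟩ := G'.exists_ends e
  have hp := h.path e he a b hends
  have ha : a ∈ G.ends e := by
    have h1 : 0 < G.deg (run e) a := by rw [hp.dx]; exact one_pos
    obtain ⟨g, hg, hag⟩ := (G.deg_pos_iff).1 h1
    rw [hr, Finset.mem_singleton] at hg
    rwa [hg] at hag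
  have hb : b ∈ G.ends e := by
    have h1 : 0 < G.deg (run e) b := by rw [hp.dy]; exact one_pos
    obtain ⟨g, hg, hag⟩ := (G.deg_pos_iff).1 h1
    rw [hr, Finset.mem_singleton] at hg
    rwa [hg] at hag
  rw [hends, (Sym2.mem_and_mem_iff hab).1 ⟨ha, hb⟩]

/-- the edges inside `P` -/
theorem inside_eq (h : G.Sup G' X X' K run)
    (hr : ∀ e ∈ X', run e = {e} ∨ ∃ v, v ∉ K ∧ G.deg (run e) v = 2) {P : Finset V}
    (hP : P ⊆ K) :
    X.filter (fun e => ∀ a ∈ G.ends e, a ∈ P) =
      (X'.filter (fun e => ∀ a ∈ G'.ends e, a ∈ P)).filter (fun e => run e = {e}) := by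
  ext f
  rw [Finset.mem_filter, Finset.mem_filter, Finset.mem_filter]
  constructor
  · rintro ⟨hf, hfP⟩
    obtain ⟨h1, h2, h3⟩ := run_of_ends h hr hf (fun v hv => hP (hfP v hv))
    exact ⟨⟨h1, by rw [h3]; exact hfP⟩, h2⟩
  · rintro ⟨⟨hf, hfP⟩, h2⟩
    refine ⟨h.sub hf, ?_⟩
    rw [← ends_of_run h hf h2]
    exact hfP

end T6

theorem t_T6 (h1 : S_T1) : S_T6 := by
  intro V E _ _ _ _ G G' X X' K run h hr P hP
  obtain ⟨hd, -, -, -, hX⟩ := h1 V E G G' X X' K run h X' (Finset.Subset.refl _)
  rw [hX] at hd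
  have e1 := G.sum_deg X P
  have e2 := G'.sum_deg X' P
  have e3 : ∑ v ∈ P, G.deg X v = ∑ v ∈ P, G'.deg X' v :=
    Finset.sum_congr rfl (fun v hv => hd v (hP hv))
  have e4 := T6.inside_eq h hr hP
  have e5 := Finset.card_filter_add_card_filter_not
    (s := X'.filter (fun e => ∀ a ∈ G'.ends e, a ∈ P)) (fun e => run e = {e})
  have e6 : (G'.ins (X'.filter (fun e => run e ≠ {e})) P) =
      (X'.filter (fun e => ∀ a ∈ G'.ends e, a ∈ P)).filter (fun e => ¬ run e = {e}) := by
    unfold MGraph.ins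
    rw [Finset.filter_comm]
  rw [e6]
  rw [e4] at e1
  omega

end Pool.GOZ
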