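import Pool.Agent.GOZ.StmtsE
import Pool.Agent.GOZ.StmtsS
import Pool.Agent.GOZ.StmtsC

/-!
Z: Theorem Z, both forms.
-/

set_option autoImplicit false
set_option linter.unusedSectionVars false

namespace Pool.GOZ

open Pool.GOD Pool.GOD.MGraph

namespace Z

variable {V E : Type} [Fintype V] [DecidableEq V] [Fintype E] [DecidableEq E] {G : MGraph V E}
  {X M D : Finset E} {P : Finset V}

lemma mem_ins {Q : Finset V} {e : E} : e ∈ G.ins X Q ↔ e ∈ X ∧ ∀ v ∈ G.ends e, v ∈ Q := by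
  unfold ins
  rw [Finset.mem_filter]

lemma mem_tcc {H : Finset E} {u a : V} : a ∈ G.tcc H u ↔ G.Tc H u a := by
  unfold tcc
  simp

lemma mem_rst {e : E} : e ∈ rst X M D ↔ e ∈ X ∧ (e ∈ D → e ∈ M) := by
  unfold rst
  rw [Finset.mem_sdiff, Finset.mem_sdiff]
  tauto

lemma mem_vx {v : V} {e : E} (he : e ∈ X) (hv : v ∈ G.ends e) : v ∈ G.vx X := by
  unfold vx
  rw [Finset.mem_filter]
  exact ⟨Finset.mem_univ _, (G.deg_pos_iff.mpr ⟨e, he, hv⟩).ne'⟩

/-- outside `P` the degree in `D ∪ ins X P` is the degree in `D` -/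
lemma deg_out {v : V} (hv : v ∉ P) : G.deg (D ∪ G.ins X P) v = G.deg D v := by
  unfold deg
  congr 1
  ext e
  simp only [Finset.mem_filter, Finset.mem_union, mem_ins]
  constructor
  · rintro ⟨h | ⟨-, h⟩, h'⟩
    · exact ⟨h, h'⟩
    · exact absurd (h v h') hv
  · rintro ⟨h, h'⟩
    exact ⟨Or.inl h, h'⟩

end Z

open Z in
theorem t_Z (_h2 : S_E2) (h3 : S_E3) (h5 : S_E5) (h6 : S_E6) (hc6 : S_C6) (hc5a : S_C5a)
    (hc5b : S_C5b) (hs2 : S_S2) : S_Z := by
  intro V E _ _ _ _ G X M U D u0 hA hO P hP hmin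
  obtain ⟨-, -, -, -, hpart⟩ := h3 V E G X M U D u0 hA hO.fam
  obtain ⟨-, -, hcutf, hcard, hPD, hPM, -, -⟩ := hpart P hP
  have hac := hO.fam.ac
  obtain ⟨G', X', run, hS, hSM, hrun⟩ := hs2 V E G (D ∪ G.ins X P) M D P
    Finset.subset_union_left hac hPD
    (fun v hv => by
      rw [deg_out hv]
      rcases hac.circ.2.1 v with h | h
      · exact Or.inl h
      · exact Or.inr ⟨h, h⟩)
    (fun p hp hpP => hPM p hp hpP)
  obtain ⟨k0, k1⟩ := h5 V E G X M U D u0 P hA hO hP hmin G' X' run hS hSM hrun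
  rcases Finset.eq_empty_or_nonempty (rst X M D ∩ G.cut P) with hem | ⟨f, hf⟩
  · exact absurd (k0 hem) (fun h => hc6 V E G' _ _ _ _ h)
  · have hsing : rst X M D ∩ G.cut P = {f} := by
      refine Finset.eq_singleton_iff_unique_mem.mpr ⟨hf, fun x hx => ?_⟩
      exact Finset.card_le_one.mp hcard x hx f hf
    obtain ⟨-, -, w, -, z, hz, hends, -⟩ := hcutf f hf
    have hzf : z ∈ G.ends f := by rw [hends]; exact Sym2.mem_mk_right _ _
    have hcore := k1 f z hsing hz hzf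
    obtain ⟨m, p, a, c, e0, e1, hzs, hmark⟩ := hc5a V E G' _ _ _ _ _ hcore
    obtain ⟨hzig, ha0, ha1, hall⟩ := hc5b V E G' _ _ _ _ _ hcore m p a c e0 e1 hzs hmark
    exact ⟨z, f, m, p, _, c, e0, e1, _,
      h6 V E G X M U D u0 P hA hO.fam hP G' X' run hS hSM hrun f z hsing hz hzf m p a c e0 e1
        hzig ha0 ha1 hall⟩

open Z in
theorem t_Z2 (h2 : S_E2) (h3 : S_E3) (h5 : S_E5) (h6 : S_E6) (hc6 : S_C6) (hc5a : S_C5a)
    (hc5b : S_C5b) (hs2 : S_S2) : S_Z2 := by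
  intro V E _ _ _ _ G X M U D u0 hA hO
  rcases Finset.eq_empty_or_nonempty (G.parts X M D u0) with hem | hne
  · left
    obtain ⟨hT0, hT1, hT2, hT3, -, -⟩ := h2 V E G
    obtain ⟨-, -, hcov, -, -⟩ := h3 V E G X M U D u0 hA hO.fam
    refine ⟨hO.fam.sub, hO.fam.ac, fun e he => ?_⟩
    obtain ⟨a, b, -, hab⟩ := G.exists_ends e
    have heX : e ∈ X := (mem_rst.mp he.1).1
    have hub : ∀ v ∈ G.ends e, G.Tc (rst X M D) u0 v := by
      intro v hv
      by_contra hcon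
      have hnot : v ∉ G.hub X M D u0 := fun h => hcon (mem_tcc.mp h)
      obtain ⟨P, hP, -⟩ := hcov v (mem_vx heX hv) hnot
      rw [hem] at hP
      exact absurd hP (Finset.notMem_empty P)
    have ha : a ∈ G.ends e := by rw [hab]; exact Sym2.mem_mk_left _ _
    have hb : b ∈ G.ends e := by rw [hab]; exact Sym2.mem_mk_right _ _
    have hTc : G.Tc (rst X M D) a b := hT2 _ _ _ _ (hT1 _ _ _ (hub a ha)) (hub b hb)
    exact he.2 a b hab (hTc.2 e)
  · right
    obtain ⟨P, hP, hmin⟩ := Finset.exists_min_image (G.parts X M D u0) Finset.card hne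
    exact ⟨P, hP, hmin, t_Z h2 h3 h5 h6 hc6 hc5a hc5b hs2 V E G X M U D u0 hA hO P hP hmin⟩

end Pool.GOZ
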